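import Pool.Agent.JN2.D

/-! Module Der (difficulty 2). Derivative of an expectation along a segment.

PROOF. Ex q f = sum_E W q E * f E, W q E = prod_e (if e ∈ E then q e else 1 - q e). For q e = p e + t h e the factor of e has derivative h e (e ∈ E) or -h e (e ∉ E):
 HasDerivAt.fun_finset_prod (or HasDerivAt.finset_prod) and HasDerivAt.fun_sum. The derivative is sum_E sum_e (prod_{x ≠ e} ...) * (± h e) * f E; exchange the sums:
 for fixed e it is h e * sum_E W' q e E * (if e ∈ E then 1 else -1) * f E = h e * sum_{E ⊆ univ \ e} W' q e E (f (insert e E) - f E) (pair E and insert e E, as in the proof of KS Ex_split),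
 and Ex_split applied to the function E ↦ f (insert e E) - f (E.erase e) gives the claim (for E ⊆ univ.erase e both terms are f (insert e E) - f E, the weights add up to 1).
-/

namespace Pool.JN2

open Finset Pool.KS Pool.JN

set_option linter.unusedSectionVars false

theorem hasDerivAt_Ex {ε : Type*} [Fintype ε] [DecidableEq ε] (p h : ε → ℝ)
    (f : Finset ε → ℝ) (t : ℝ) :
    HasDerivAt (fun t : ℝ => Ex (fun e => p e + t * h e) f)
      (∑ e, h e * Ex (fun e => p e + t * h e) (fun E => f (insert e E) - f (E.erase e))) t := by
  classical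
  have hfac : ∀ (E : Finset ε) (e : ε),
      HasDerivAt (fun t : ℝ => if e ∈ E then p e + t * h e else 1 - (p e + t * h e))
        (if e ∈ E then h e else -h e) t := by
    intro E e
    have h1 : HasDerivAt (fun t : ℝ => p e + t * h e) (h e) t := by
      have := ((hasDerivAt_id t).mul_const (h e)).const_add (p e)
      simpa using this
    by_cases he : e ∈ E
    · simp only [if_pos he]
      exact h1
    · simp only [if_neg he]
      exact h1.const_sub 1
  have hW : ∀ E : Finset ε, HasDerivAt (fun t : ℝ => W (fun e => p e + t * h e) E * f E)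
      ((∑ e, W' (fun e => p e + t * h e) e E * (if e ∈ E then h e else -h e)) * f E) t := by
    intro E
    have h2 := HasDerivAt.fun_finsetProd (u := (univ : Finset ε))
      (fun e _ => hfac E e)
    have h3 := h2.mul_const (f E)
    refine h3.congr_deriv ?_
    unfold W'
    simp only [smul_eq_mul]
  have hS : HasDerivAt (fun t : ℝ => Ex (fun e => p e + t * h e) f)
      (∑ E : Finset ε, (∑ e, W' (fun e => p e + t * h e) e E *
        (if e ∈ E then h e else -h e)) * f E) t := by
    have h4 := HasDerivAt.fun_sum (u := (univ : Finset (Finset ε))) (fun E _ => hW E)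
    exact h4
  refine hS.congr_deriv ?_
  have h5 : ∑ E : Finset ε, (∑ e, W' (fun e => p e + t * h e) e E *
        (if e ∈ E then h e else -h e)) * f E =
      ∑ e, ∑ E : Finset ε, W' (fun e => p e + t * h e) e E *
        (if e ∈ E then h e else -h e) * f E := by
    rw [Finset.sum_comm]
    exact Finset.sum_congr rfl (fun E _ => by rw [Finset.sum_mul])
  rw [h5]
  refine Finset.sum_congr rfl (fun e _ => ?_)
  generalize (fun e => p e + t * h e) = q
  have h1 : (univ : Finset (Finset ε)) = (insert e (univ.erase e)).powerset := by
    rw [Finset.insert_erase (Finset.mem_univ e), Finset.powerset_univ]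
  rw [Ex_split q e, h1, Finset.sum_powerset_insert (Finset.notMem_erase e univ),
    ← Finset.sum_add_distrib, Finset.mul_sum]
  refine Finset.sum_congr rfl (fun E hE => ?_)
  rw [Finset.mem_powerset] at hE
  have he : e ∉ E := fun h => Finset.notMem_erase e univ (hE h)
  have w2 : W' q e (insert e E) = W' q e E := by
    unfold W'
    refine Finset.prod_congr rfl (fun x hx => ?_)
    have hxe : x ≠ e := (Finset.mem_erase.mp hx).1
    simp [Finset.mem_insert, hxe]
  rw [w2, if_neg he, if_pos (Finset.mem_insert_self e E), Finset.erase_eq_of_notMem he,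
    Finset.erase_insert he, Finset.insert_idem]
  ring

theorem hasDerivAt_FF {I J : Type*} [Fintype I] [Fintype J] [DecidableEq I] [DecidableEq J]
    (p h : I × J → ℝ) (t : ℝ) :
    HasDerivAt (fun t : ℝ => FF (fun e => p e + t * h e))
      (∑ e, h e * Dd (fun e => p e + t * h e) e) t := by
  exact hasDerivAt_Ex p h (fun E => (nu E : ℝ)) t

end Pool.JN2
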