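import Pool.Agent.JN2.D

/-! Module De (difficulty 2). The derivative in one entry.

PROOF. (1) Let E with (i,j) ∉ E, E' = insert (i,j) E. dR i E' = dR i E. nu_rec i for E' and E: nu E' = nu (dR i E) + 1 iff some t with (i,t) ∈ E' is in Rm (dR i E), etc.
  If i ∉ Lm E: (mem_Lm_iff) some (i,t) ∈ E with t ∈ Rm (dR i E), so both nu E, nu E' are nu (dR i E) + 1: difference 0 = Xi i E * ... (Xi i E = 0).
  If i ∈ Lm E: nu E = nu (dR i E), no neighbour of i in E is in Rm (dR i E), hence Rm E = Rm (dR i E) (mem_Rm_add), so nu E' = nu (dR i E) + 1 iff j ∈ Rm (dR i E) = Rm E.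
  So nu (insert (i,j) E) - nu E = Xi i E * Yj j E for (i,j) ∉ E. `nu_ins` is this for E.erase (i,j) (insert (i,j) (E.erase (i,j)) = insert (i,j) E).
 (2) XiYj_zero: if (i,j) ∈ E, i ∈ Lm E and j ∈ Rm E: j ∈ Rm E ⊆ Rm (dR i E) (Rm_sub_dR), contradiction with mem_Lm_iff.
 (3) Dd_eq: Xi i E * Yj j E = if (i,j) ∈ E then 0 else Xi i (E.erase (i,j)) * Yj j (E.erase (i,j)); Ex_avoid_one.
 (4) Dd_nonneg, Dd_le_one from nu_ins (products of 0/1), Ex_nonneg / Ex_mono, Ex_one.
 (5) Dd_sub: Dd - Ex XiYj = p Dd.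
-/

namespace Pool.JN2

open Finset Pool.KS Pool.JN

set_option linter.unusedSectionVars false

variable {I J : Type*} [Fintype I] [Fintype J] [DecidableEq I] [DecidableEq J]

theorem ins_ers (e : I × J) (E : Finset (I × J)) : insert e (E.erase e) = insert e E := by
  ext x
  rw [Finset.mem_insert, Finset.mem_insert, Finset.mem_erase]
  tauto

theorem nu_ins (i : I) (j : J) (E : Finset (I × J)) :
    (nu (insert (i, j) E) : ℝ) - (nu (E.erase (i, j)) : ℝ) =
      Xi i (E.erase (i, j)) * Yj j (E.erase (i, j)) := by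
  rw [← ins_ers (i, j) E]
  generalize hF : E.erase (i, j) = F
  have hH : dR i (insert (i, j) F) = dR i F := dR_insert i j F
  by_cases hi : i ∈ Lm F
  · have h1 := mem_Lm_iff.mp hi
    have h2 : nu F = nu (dR i F) := nu_rec_neg h1
    have hX : Xi i F = 1 := if_pos hi
    by_cases hj : j ∈ Rm (dR i F)
    · have h3 : nu (insert (i, j) F) = nu (dR i F) + 1 := by
        have h4 := nu_rec_pos (i := i) (j := j) (E := insert (i, j) F)
          (Finset.mem_insert_self _ _) (by rw [hH]; exact hj)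
        rw [hH] at h4
        exact h4
      have h5 : j ∈ Rm F := mem_Rm_add.mpr ⟨hj, Or.inl h1⟩
      have hY : Yj j F = 1 := if_pos h5
      rw [hX, hY, h3, ← h2]
      push_cast
      ring
    · have h3 : nu (insert (i, j) F) = nu (dR i F) := by
        have h4 := nu_rec_neg (i := i) (E := insert (i, j) F) (by
          intro t ht
          rw [hH]
          rcases Finset.mem_insert.mp ht with h | h
          · have h6 : t = j := (Prod.mk.inj h).2
            rw [h6]
            exact hj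
          · exact h1 t h)
        rw [hH] at h4
        exact h4
      have h5 : j ∉ Rm F := fun h => hj (Rm_sub_dR i F h)
      have hY : Yj j F = 0 := if_neg h5
      rw [hY, h3, ← h2]
      ring
  · have h2 : nu F = nu (dR i F) + 1 := not_mem_Lm.mp hi
    have hX : Xi i F = 0 := if_neg hi
    have h3 := nu_le_dR i (insert (i, j) F)
    rw [hH] at h3
    have h4 := nu_mono (Finset.subset_insert (i, j) F)
    have h5 : nu (insert (i, j) F) = nu F := by omega
    rw [hX, h5]
    ring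

theorem XiYj_zero {i : I} {j : J} {E : Finset (I × J)} (h : (i, j) ∈ E) :
    Xi i E * Yj j E = 0 := by
  by_cases hi : i ∈ Lm E
  · have h1 : j ∉ Rm E := fun hj => mem_Lm_iff.mp hi j h (Rm_sub_dR i E hj)
    have hY : Yj j E = 0 := if_neg h1
    rw [hY, mul_zero]
  · have hX : Xi i E = 0 := if_neg hi
    rw [hX, zero_mul]

theorem Dd_eq (p : I × J → ℝ) (i : I) (j : J) :
    Ex p (fun E => Xi i E * Yj j E) = (1 - p (i, j)) * Dd p (i, j) := by
  unfold Dd
  rw [← Ex_avoid_one p (i, j) (fun E => (nu (insert (i, j) E) : ℝ) - (nu (E.erase (i, j)) : ℝ))]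
  · refine Ex_congr p (fun E => ?_)
    by_cases h : (i, j) ∈ E
    · rw [if_pos h, XiYj_zero h]
    · rw [if_neg h, nu_ins, Finset.erase_eq_of_notMem h]
  · intro E
    rw [ins_ers, Finset.erase_idem, Finset.insert_idem, Finset.erase_insert_eq_erase]

theorem Dd_nonneg {p : I × J → ℝ} (h0 : ∀ e, 0 ≤ p e) (h1 : ∀ e, p e ≤ 1) (e : I × J) :
    0 ≤ Dd p e := by
  refine Ex_nonneg h0 h1 (fun E => ?_)
  obtain ⟨i, j⟩ := e
  rw [nu_ins]
  refine mul_nonneg ?_ ?_
  · unfold Xi
    split_ifs <;> norm_num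
  · unfold Yj
    split_ifs <;> norm_num

theorem Dd_le_one {p : I × J → ℝ} (h0 : ∀ e, 0 ≤ p e) (h1 : ∀ e, p e ≤ 1) (e : I × J) :
    Dd p e ≤ 1 := by
  rw [← Ex_one p]
  refine Ex_mono h0 h1 (fun E => ?_)
  obtain ⟨i, j⟩ := e
  rw [nu_ins]
  unfold Xi Yj
  split_ifs <;> norm_num

/-- expectations of a vertex indicator through the matching number -/
theorem Ex_Xi_nu (p : I × J → ℝ) (i : I) :
    Ex p (Xi i) = 1 - FF p + Ex p (fun E => (nu (dR i E) : ℝ)) := by
  have h1 : ∀ E : Finset (I × J), Xi i E = (1 - (nu E : ℝ)) + (nu (dR i E) : ℝ) := by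
    intro E
    by_cases hi : i ∈ Lm E
    · have hX : Xi i E = 1 := if_pos hi
      rw [hX, mem_Lm.mp hi]
      ring
    · have hX : Xi i E = 0 := if_neg hi
      have h2 := not_mem_Lm.mp hi
      rw [hX, h2]
      push_cast
      ring
  rw [Ex_congr p h1, Ex_add, Ex_sub, Ex_one]
  rfl

theorem Ex_Yj_nu (p : I × J → ℝ) (j : J) :
    Ex p (Yj j) = 1 - FF p + Ex p (fun E => (nu (dC j E) : ℝ)) := by
  have h1 : ∀ E : Finset (I × J), Yj j E = (1 - (nu E : ℝ)) + (nu (dC j E) : ℝ) := by
    intro E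
    by_cases hj : j ∈ Rm E
    · have hY : Yj j E = 1 := if_pos hj
      rw [hY, mem_Rm.mp hj]
      ring
    · have hY : Yj j E = 0 := if_neg hj
      have h2 := not_mem_Rm.mp hj
      rw [hY, h2]
      push_cast
      ring
  rw [Ex_congr p h1, Ex_add, Ex_sub, Ex_one]
  rfl

end Pool.JN2
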