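import Pool.Agent.JN2.Yi
import Pool.Agent.JN2.De

/-! Module Tb (difficulty 3). THE TANGENT BOUND (text (1.5)-(1.7)).

PROOF. (1) For each row i put w = W (i, ·), a_i = nrm (W (i, ·)), b_i = nrm (p (i, ·)), e_i = Ex (U_i - l)^2. Xi_lin: Ex (Xi i - l) sum_j W_ij (Yj j - l) = A_i + l B_i,
   |A_i| ≤ sqrt(e_i) sqrt(Ex Y_i^2) ≤ sqrt(e_i) * 100 DD sqrt(X+1) a_i (Ex_cs_sqrt twice for ±, Yi_sq), |B_i| ≤ sum |w j| Ex mij ≤ DD a_i b_i (mij_w, D1_le; Ex mij ≥ 0).
   sum_i a_i^2 = nrm W^2, sum_i b_i^2 = sum p^2 ≤ 2500 X (DX.sq), sum_i e_i ≤ 5000 X (DX.rows). Cauchy-Schwarz (Finset.sum_mul_sq_le_sq_mul_sq / inner_mul_le_norm_mul_norm):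
   total ≤ [100 DD sqrt(X+1) sqrt(5000 X) + l DD sqrt(2500 X)] nrm W ≤ [7100 DD (X+1) + 50 DD (X+1)] nrm W ≤ 7200 DD (X+1) nrm W (0 < l < 1: lam_lo, lam_hi; sqrt(X) ≤ X+1).
 (2) tb2: Dd p e - l Ex Xi - l Ex Yj + l^2 = Ex (Xi - l)(Yj - l) + p e * Dd p e by Dd_eq; |sum W_e p_e Dd_e| ≤ sum |W_e| p_e ≤ nrm W * sqrt(2500 X) ≤ 50 (X+1) nrm W. Total ≤ 10000 DD (X+1) nrm W = CT X nrm W.
 (3) tb3: if all row sums and column sums of W vanish, sum_e W_e (l Ex Xi e.1 + l Ex Yj e.2 - l^2) = 0 (Fintype.sum_prod_type, and sum_comm for the columns; total sum 0).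
-/

namespace Pool.JN2

open Finset Pool.KS Pool.JN

set_option linter.unusedSectionVars false

variable {I J : Type*} [Fintype I] [Fintype J] [DecidableEq I] [DecidableEq J]

theorem tb_l {l : ℝ} (hl : Real.exp (-l) = l) : 0 < l ∧ l ≤ 1 := by
  have h0 : 0 < l := by
    rw [← hl]
    exact Real.exp_pos _
  refine ⟨h0, ?_⟩
  rw [← hl]
  exact Real.exp_le_one_iff.2 (by linarith)

theorem tb_row {l X : ℝ} (hl : Real.exp (-l) = l) {p : I × J → ℝ} (h : DX l X p) (i : I)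
    (w : J → ℝ) :
    |Ex p (fun E => (Xi i E - l) * ∑ j, w j * (Yj j E - l))| ≤
      100 * DD * Real.sqrt (X + 1) *
        (Real.sqrt (Ex p (fun E => (U p i (Rm (dR i E)) - l) ^ 2)) * nrm w) +
      DD * (nrm w * nrm (fun j => p (i, j))) := by
  obtain ⟨hl0, hl1⟩ := tb_l hl
  have hX := h.X0
  have hD := DD_one
  have hnw := nrm_nonneg w
  rw [Xi_lin]
  have hA : |Ex p (fun E => (U p i (Rm (dR i E)) - l) * ∑ j, w j * (Yj j (dR i E) - l))| ≤
      100 * DD * Real.sqrt (X + 1) *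
        (Real.sqrt (Ex p (fun E => (U p i (Rm (dR i E)) - l) ^ 2)) * nrm w) := by
    have h1 := Ex_cs h.h0 h.le_one (fun E => U p i (Rm (dR i E)) - l)
      (fun E => ∑ j, w j * (Yj j (dR i E) - l))
    have h2 := Yi_sq hl h i w
    have h0 : 0 ≤ Ex p (fun E => (U p i (Rm (dR i E)) - l) ^ 2) :=
      Ex_nonneg h.h0 h.le_one (fun E => sq_nonneg _)
    have h3 := h1.trans (mul_le_mul_of_nonneg_left h2 h0)
    have h4 := Real.abs_le_sqrt h3
    refine h4.trans ?_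
    rw [Real.sqrt_mul h0]
    have h5 : Real.sqrt (10000 * DD ^ 2 * (X + 1) * nrm w ^ 2) =
        100 * DD * Real.sqrt (X + 1) * nrm w := by
      have h6 : 10000 * DD ^ 2 * (X + 1) * nrm w ^ 2 =
          (100 * DD * Real.sqrt (X + 1) * nrm w) ^ 2 := by
        rw [mul_pow, mul_pow, mul_pow, Real.sq_sqrt (by linarith)]
        ring
      rw [h6, Real.sqrt_sq (by positivity)]
    rw [h5]
    apply le_of_eq
    ring
  have hB : |l * ∑ j, w j * Ex p (mij i j)| ≤ DD * (nrm w * nrm (fun j => p (i, j))) := by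
    have h1 := mij_w h.sub th_lt i w
    have h2 : |∑ j, w j * Ex p (mij i j)| ≤ ∑ j, |w j| * Ex p (mij i j) := by
      refine (Finset.abs_sum_le_sum_abs _ _).trans (Finset.sum_le_sum fun j _ => ?_)
      rw [abs_mul]
      have h3 : 0 ≤ Ex p (mij i j) := Ex_nonneg h.h0 h.le_one (fun E => by
        unfold mij
        split_ifs <;> norm_num)
      rw [abs_of_nonneg h3]
    have h4 : Dm th 1 * (nrm w * nrm (fun j => p (i, j))) ≤
        DD * (nrm w * nrm (fun j => p (i, j))) :=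
      mul_le_mul_of_nonneg_right D1_le (mul_nonneg hnw (nrm_nonneg _))
    have h5 : |∑ j, w j * Ex p (mij i j)| ≤ DD * (nrm w * nrm (fun j => p (i, j))) := by
      linarith
    rw [abs_mul, abs_of_pos hl0]
    calc l * |∑ j, w j * Ex p (mij i j)| ≤ 1 * |∑ j, w j * Ex p (mij i j)| :=
          mul_le_mul_of_nonneg_right hl1 (abs_nonneg _)
      _ ≤ _ := by rw [one_mul]; exact h5
  exact (abs_add_le _ _).trans (add_le_add hA hB)

theorem tb_cs {κ : Type*} [Fintype κ] (f g : κ → ℝ) :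
    ∑ i, f i * g i ≤ Real.sqrt (∑ i, f i ^ 2) * Real.sqrt (∑ i, g i ^ 2) :=
  Real.sum_mul_le_sqrt_mul_sqrt Finset.univ f g

theorem tb_rows (W : I × J → ℝ) :
    Real.sqrt (∑ i, nrm (fun j => W (i, j)) ^ 2) = nrm W := by
  unfold nrm
  congr 1
  rw [Fintype.sum_prod_type]
  refine Finset.sum_congr rfl fun i _ => ?_
  exact Real.sq_sqrt (Finset.sum_nonneg (fun _ _ => sq_nonneg _))

theorem tb_r {X : ℝ} (hX : 0 ≤ X) : 1 ≤ Real.sqrt (X + 1) ∧
    Real.sqrt (X + 1) * Real.sqrt (X + 1) = X + 1 ∧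
    Real.sqrt (5000 * X) ≤ 71 * Real.sqrt (X + 1) ∧
    Real.sqrt (2500 * X) ≤ 50 * Real.sqrt (X + 1) := by
  refine ⟨?_, Real.mul_self_sqrt (by linarith), ?_, ?_⟩
  · rw [Real.one_le_sqrt]
    linarith
  · rw [Real.sqrt_le_left (by positivity), mul_pow, Real.sq_sqrt (by linarith)]
    linarith
  · rw [Real.sqrt_le_left (by positivity), mul_pow, Real.sq_sqrt (by linarith)]
    linarith

theorem tb_p {l X : ℝ} (hl : Real.exp (-l) = l) {p : I × J → ℝ} (h : DX l X p) :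
    nrm p ≤ 50 * Real.sqrt (X + 1) := by
  refine le_trans ?_ (tb_r h.X0).2.2.2
  unfold nrm
  exact Real.sqrt_le_sqrt (h.sq hl)

theorem tb1 {l X : ℝ} (hl : Real.exp (-l) = l) {p : I × J → ℝ} (h : DX l X p)
    (W : I × J → ℝ) :
    |∑ e, W e * Ex p (fun E => (Xi e.1 E - l) * (Yj e.2 E - l))| ≤
      7200 * DD * (X + 1) * nrm W := by
  have hX := h.X0
  have hD := DD_one
  have hnW := nrm_nonneg W
  have h1 : ∑ e, W e * Ex p (fun E => (Xi e.1 E - l) * (Yj e.2 E - l)) =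
      ∑ i, Ex p (fun E => (Xi i E - l) * ∑ j, W (i, j) * (Yj j E - l)) := by
    rw [Fintype.sum_prod_type]
    refine Finset.sum_congr rfl fun i _ => ?_
    have h2 : ∀ E, (Xi i E - l) * ∑ j, W (i, j) * (Yj j E - l) =
        ∑ j, W (i, j) * ((Xi i E - l) * (Yj j E - l)) := by
      intro E
      rw [Finset.mul_sum]
      exact Finset.sum_congr rfl fun j _ => by ring
    rw [Ex_congr p h2, Ex_sum]
    exact Finset.sum_congr rfl fun j _ => (Ex_mul_left p _ _).symm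
  rw [h1]
  obtain ⟨r, hr⟩ : ∃ r, r = Real.sqrt (X + 1) := ⟨_, rfl⟩
  obtain ⟨t1, t2, t3, _⟩ := tb_r hX
  have tp := tb_p hl h
  rw [← hr] at t1 t2 t3 tp
  have h3 : ∀ i ∈ (Finset.univ : Finset I),
      |Ex p (fun E => (Xi i E - l) * ∑ j, W (i, j) * (Yj j E - l))| ≤
      100 * DD * r *
        (Real.sqrt (Ex p (fun E => (U p i (Rm (dR i E)) - l) ^ 2)) * nrm (fun j => W (i, j))) +
      DD * (nrm (fun j => W (i, j)) * nrm (fun j => p (i, j))) := by
    intro i _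
    rw [hr]
    exact tb_row hl h i (fun j => W (i, j))
  refine (Finset.abs_sum_le_sum_abs _ _).trans ((Finset.sum_le_sum h3).trans ?_)
  rw [Finset.sum_add_distrib, ← Finset.mul_sum, ← Finset.mul_sum]
  have c1 := tb_cs (fun i => Real.sqrt (Ex p (fun E => (U p i (Rm (dR i E)) - l) ^ 2)))
    (fun i => nrm (fun j => W (i, j)))
  have c2 := tb_cs (fun i => nrm (fun j => W (i, j))) (fun i => nrm (fun j => p (i, j)))
  have e0 : ∀ i, Real.sqrt (Ex p (fun E => (U p i (Rm (dR i E)) - l) ^ 2)) ^ 2 =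
      Ex p (fun E => (U p i (Rm (dR i E)) - l) ^ 2) := fun i =>
    Real.sq_sqrt (Ex_nonneg h.h0 h.le_one (fun E => sq_nonneg _))
  simp only [e0] at c1
  rw [tb_rows] at c1 c2
  rw [tb_rows] at c2
  have e1 : Real.sqrt (∑ i, Ex p (fun E => (U p i (Rm (dR i E)) - l) ^ 2)) ≤ 71 * r :=
    (Real.sqrt_le_sqrt (h.rows hl)).trans t3
  have e2 := c1.trans (mul_le_mul_of_nonneg_right e1 hnW)
  have e3 := c2.trans (mul_le_mul_of_nonneg_left tp hnW)
  have e4 : 100 * DD * r * (71 * r * nrm W) = 7100 * DD * (X + 1) * nrm W := by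
    rw [← t2]
    ring
  have e5 : 100 * DD * r * ∑ i, Real.sqrt (Ex p (fun E => (U p i (Rm (dR i E)) - l) ^ 2)) *
      nrm (fun j => W (i, j)) ≤ 7100 * DD * (X + 1) * nrm W := by
    rw [← e4]
    exact mul_le_mul_of_nonneg_left e2 (by positivity)
  have e6 : r ≤ X + 1 := by nlinarith
  have e7 : DD * ∑ i, nrm (fun j => W (i, j)) * nrm (fun j => p (i, j)) ≤
      DD * (nrm W * (50 * (X + 1))) := by
    refine mul_le_mul_of_nonneg_left (e3.trans ?_) (by linarith)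
    exact mul_le_mul_of_nonneg_left (by linarith) hnW
  have e8 : 0 ≤ DD * (X + 1) * nrm W := by positivity
  nlinarith

theorem tb2 {l X : ℝ} (hl : Real.exp (-l) = l) {p : I × J → ℝ} (h : DX l X p)
    (W : I × J → ℝ) :
    |∑ e, W e * (Dd p e - l * Ex p (Xi e.1) - l * Ex p (Yj e.2) + l ^ 2)| ≤ CT X * nrm W := by
  have hX := h.X0
  have hD := DD_one
  have hnW := nrm_nonneg W
  have h1 : ∀ e, Dd p e - l * Ex p (Xi e.1) - l * Ex p (Yj e.2) + l ^ 2 =
      Ex p (fun E => (Xi e.1 E - l) * (Yj e.2 E - l)) + p e * Dd p e := by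
    intro e
    have h2 : ∀ E, (Xi e.1 E - l) * (Yj e.2 E - l) =
        (Xi e.1 E * Yj e.2 E - (l * Xi e.1 E + l * Yj e.2 E)) + l ^ 2 := by
      intro E
      ring
    rw [Ex_congr p h2, Ex_add, Ex_sub, Ex_add, Ex_const, Ex_mul_left, Ex_mul_left,
      Dd_eq p e.1 e.2]
    have h3 : (e.1, e.2) = e := rfl
    rw [h3]
    ring
  have h4 : ∑ e, W e * (Dd p e - l * Ex p (Xi e.1) - l * Ex p (Yj e.2) + l ^ 2) =
      ∑ e, W e * Ex p (fun E => (Xi e.1 E - l) * (Yj e.2 E - l)) +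
        ∑ e, W e * (p e * Dd p e) := by
    rw [← Finset.sum_add_distrib]
    exact Finset.sum_congr rfl fun e _ => by rw [h1, mul_add]
  rw [h4]
  have h5 := tb1 hl h W
  have h6 : |∑ e, W e * (p e * Dd p e)| ≤ 50 * (X + 1) * nrm W := by
    have c1 := tb_cs (fun e => |W e|) p
    have c2 : Real.sqrt (∑ e, |W e| ^ 2) = nrm W := by
      unfold nrm
      congr 1
      exact Finset.sum_congr rfl fun e _ => sq_abs _
    have c3 : Real.sqrt (∑ e, p e ^ 2) = nrm p := rfl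
    rw [c2, c3] at c1
    have c4 : |∑ e, W e * (p e * Dd p e)| ≤ ∑ e, |W e| * p e := by
      refine (Finset.abs_sum_le_sum_abs _ _).trans (Finset.sum_le_sum fun e _ => ?_)
      have d0 := Dd_nonneg h.h0 h.le_one e
      have d1 := Dd_le_one h.h0 h.le_one e
      rw [abs_mul, abs_of_nonneg (mul_nonneg (h.h0 e) d0)]
      refine mul_le_mul_of_nonneg_left ?_ (abs_nonneg _)
      calc p e * Dd p e ≤ p e * 1 := mul_le_mul_of_nonneg_left d1 (h.h0 e)
        _ = p e := mul_one _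
    have tp := tb_p hl h
    obtain ⟨t1, t2, _, _⟩ := tb_r hX
    have e6 : Real.sqrt (X + 1) ≤ X + 1 := by nlinarith
    have e7 : nrm W * nrm p ≤ nrm W * (50 * (X + 1)) :=
      mul_le_mul_of_nonneg_left (by linarith) hnW
    linarith
  have h7 := abs_add_le (∑ e, W e * Ex p (fun E => (Xi e.1 E - l) * (Yj e.2 E - l)))
    (∑ e, W e * (p e * Dd p e))
  have e8 : 0 ≤ (X + 1) * nrm W := by positivity
  unfold CT
  nlinarith

theorem tb3 {l X : ℝ} (hl : Real.exp (-l) = l) {p : I × J → ℝ} (h : DX l X p)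
    (W : I × J → ℝ) (hr : ∀ i, ∑ j, W (i, j) = 0) (hc : ∀ j, ∑ i, W (i, j) = 0) :
    |∑ e, W e * Dd p e| ≤ CT X * nrm W := by
  have h1 : ∑ e, W e * (Dd p e - l * Ex p (Xi e.1) - l * Ex p (Yj e.2) + l ^ 2) =
      ∑ e, W e * Dd p e := by
    have h2 : ∀ e, W e * (Dd p e - l * Ex p (Xi e.1) - l * Ex p (Yj e.2) + l ^ 2) =
        W e * Dd p e - W e * (l * Ex p (Xi e.1)) - W e * (l * Ex p (Yj e.2) - l ^ 2) := by
      intro e
      ring
    rw [Finset.sum_congr rfl (fun e _ => h2 e), Finset.sum_sub_distrib, Finset.sum_sub_distrib]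
    have h3 : ∑ e, W e * (l * Ex p (Xi e.1)) = 0 := by
      rw [Fintype.sum_prod_type]
      refine Finset.sum_eq_zero fun i _ => ?_
      have h5 : ∑ j, W (i, j) * (l * Ex p (Xi i)) = 0 := by
        rw [← Finset.sum_mul, hr i, zero_mul]
      exact h5
    have h4 : ∑ e, W e * (l * Ex p (Yj e.2) - l ^ 2) = 0 := by
      rw [Fintype.sum_prod_type, Finset.sum_comm]
      refine Finset.sum_eq_zero fun j _ => ?_
      have h5 : ∑ i, W (i, j) * (l * Ex p (Yj j) - l ^ 2) = 0 := by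
        rw [← Finset.sum_mul, hc j, zero_mul]
      exact h5
    rw [h3, h4, sub_zero, sub_zero]
  rw [← h1]
  exact tb2 hl h W

end Pool.JN2
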