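import Pool.Agent.JN2.Lo
import Pool.Agent.JN2.Tb

/-! Module Pd (difficulty 2-3). Derivative along a path with m blocks (text (3.7), STEP 4).

PROOF. q = p + t W (DX by fl, m ≥ 1). B e := Dd q e - l Ex Xi e.1 - l Ex Yj e.2 + l^2 (|B e| ≤ 4 by Dd_nonneg, Dd_le_one, 0 ≤ Ex Xi, Ex Yj ≤ 1, 0 < l < 1). Zero sums of W: sum_e W e Dd q e = sum_e W e B e
  (as in Tb (3)). Split univ = union of the m disjoint blocks Z_s and the rest: sum over the rest = sum_e (W' e) B e with W' = W outside, 0 on the blocks: |.| ≤ CT X nrm W' ≤ CT X sqrt(C/n) (tb2, wo).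
  Block s: sum_{e : K1 × K2} W (ε_s e) B (ε_s e) = sum b e B(ε_s e) + O(k^2 * 4 C/n) (wb), and sum_e b e B (ε_s e) = psi l (t b) b + O(C''/sqrt n) (local_deriv for fl s with w = b: |b e| ≤ 1: apply FlatS at t = 1: b ≤ row sum ≤ 1).
  Total error ≤ C'/sqrt n.
-/

namespace Pool.JN2

open Finset Pool.KS Pool.JN

set_option linter.unusedSectionVars false

section
variable {I J K1 K2 : Type*} [Fintype I] [Fintype J] [DecidableEq I] [DecidableEq J]
  [Fintype K1] [Fintype K2] [DecidableEq K1] [DecidableEq K2]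

theorem pd_B {l : ℝ} (hl0 : 0 ≤ l) (hl1 : l ≤ 1) {q : I × J → ℝ} (q0 : ∀ e, 0 ≤ q e)
    (q1 : ∀ e, q e ≤ 1) (e : I × J) :
    |Dd q e - l * Ex q (Xi e.1) - l * Ex q (Yj e.2) + l ^ 2| ≤ 4 := by
  have h1 := Dd_nonneg q0 q1 e
  have h2 := Dd_le_one q0 q1 e
  have h3 : 0 ≤ Ex q (Xi e.1) := Ex_nonneg q0 q1 (fun E => by
    unfold Xi; split_ifs <;> norm_num)
  have h4 : Ex q (Xi e.1) ≤ 1 := by
    have h5 : Ex q (Xi e.1) ≤ Ex q (fun _ => 1) := Ex_mono q0 q1 (fun E => by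
      unfold Xi; split_ifs <;> norm_num)
    rwa [Ex_one] at h5
  have h3' : 0 ≤ Ex q (Yj e.2) := Ex_nonneg q0 q1 (fun E => by
    unfold Yj; split_ifs <;> norm_num)
  have h4' : Ex q (Yj e.2) ≤ 1 := by
    have h5 : Ex q (Yj e.2) ≤ Ex q (fun _ => 1) := Ex_mono q0 q1 (fun E => by
      unfold Yj; split_ifs <;> norm_num)
    rwa [Ex_one] at h5
  have h6 : 0 ≤ l * Ex q (Xi e.1) := mul_nonneg hl0 h3
  have h7 : l * Ex q (Xi e.1) ≤ 1 := mul_le_one₀ hl1 h3 h4
  have h6' : 0 ≤ l * Ex q (Yj e.2) := mul_nonneg hl0 h3'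
  have h7' : l * Ex q (Yj e.2) ≤ 1 := mul_le_one₀ hl1 h3' h4'
  have h8 : 0 ≤ l ^ 2 := sq_nonneg l
  have h9 : l ^ 2 ≤ 1 := by nlinarith
  rw [abs_le]
  constructor <;> linarith

theorem pd_zero (W : I × J → ℝ) (hr : ∀ i, ∑ j, W (i, j) = 0) (hc : ∀ j, ∑ i, W (i, j) = 0)
    (f : I → ℝ) (g : J → ℝ) (c : ℝ) (D : I × J → ℝ) :
    ∑ e, W e * D e = ∑ e, W e * (D e - f e.1 - g e.2 + c) := by
  have h1 : ∑ e : I × J, W e * f e.1 = 0 := by
    rw [Fintype.sum_prod_type]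
    refine Finset.sum_eq_zero (fun i _ => ?_)
    show ∑ j, W (i, j) * f i = 0
    rw [← Finset.sum_mul, hr, zero_mul]
  have h2 : ∑ e : I × J, W e * g e.2 = 0 := by
    rw [Fintype.sum_prod_type_right]
    refine Finset.sum_eq_zero (fun j _ => ?_)
    show ∑ i, W (i, j) * g j = 0
    rw [← Finset.sum_mul, hc, zero_mul]
  have h3 : ∑ e : I × J, W e * c = 0 := by
    rw [← Finset.sum_mul, Fintype.sum_prod_type]
    rw [Finset.sum_eq_zero (fun i _ => hr i), zero_mul]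
  have h4 : ∑ e, W e * (D e - f e.1 - g e.2 + c) =
      ∑ e, W e * D e - ∑ e : I × J, W e * f e.1 - ∑ e : I × J, W e * g e.2 +
        ∑ e : I × J, W e * c := by
    rw [← Finset.sum_sub_distrib, ← Finset.sum_sub_distrib, ← Finset.sum_add_distrib]
    exact Finset.sum_congr rfl (fun e _ => by ring)
  rw [h4, h1, h2, h3]
  ring

end

theorem path_deriv {l : ℝ} (hl : Real.exp (-l) = l) (k m : ℕ) (hm : 1 ≤ m) (C X : ℝ) :
    ∃ C' : ℝ, 0 ≤ C' ∧
    ∀ {I J K1 K2 : Type} [Fintype I] [Fintype J] [DecidableEq I] [DecidableEq J]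
      [Fintype K1] [Fintype K2] [DecidableEq K1] [DecidableEq K2]
      (ι : Fin m → K1 ↪ I) (κ : Fin m → K2 ↪ J) (b : K1 × K2 → ℝ) (p W : I × J → ℝ),
      PathM m l X C ι κ b p W → Fintype.card K1 ≤ k → Fintype.card K2 ≤ k →
      1 ≤ Fintype.card I → ∀ t : ℝ, 0 ≤ t → t ≤ 1 →
      |∑ e, W e * Dd (fun e => p e + t * W e) e - m * psi l (fun e => t * b e) b| ≤
        C' / Real.sqrt (Fintype.card I) := by
  have hl0 : 0 ≤ l := hl ▸ (Real.exp_pos _).le
  have hl1 : l ≤ 1 := by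
    rw [← hl]
    exact Real.exp_le_one_iff.mpr (by linarith)
  obtain ⟨C2, c2, H2⟩ := local_deriv hl k C X
  refine ⟨|CT X| * Real.sqrt |C| + m * (4 * k ^ 2 * |C| + C2), by positivity, ?_⟩
  intro I J K1 K2 _ _ _ _ _ _ _ _ ι κ b p W h hk1 hk2 hn t t0 t1
  have hf0 := h.fl ⟨0, hm⟩ t t0 t1
  have hC0 : 0 ≤ C := hf0.C0
  have hC : |C| = C := abs_of_nonneg hC0
  have hn' : (1 : ℝ) ≤ (Fintype.card I : ℝ) := by exact_mod_cast hn
  have hs1 : 0 < Real.sqrt (Fintype.card I) := Real.sqrt_pos.mpr (by linarith)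
  have hs : Real.sqrt (Fintype.card I) ≤ (Fintype.card I : ℝ) := by
    rw [Real.sqrt_le_left (by linarith)]
    nlinarith
  have hCn : C / Fintype.card I ≤ C / Real.sqrt (Fintype.card I) :=
    div_le_div_of_nonneg_left hC0 hs1 hs
  have hCn0 : 0 ≤ C / (Fintype.card I : ℝ) := div_nonneg hC0 (by linarith)
  set r : ℝ := Real.sqrt (Fintype.card I) with hr
  set q : I × J → ℝ := fun e => p e + t * W e with hq
  have dx : DX l X q := hf0.dx
  set B : I × J → ℝ := fun e => Dd q e - l * Ex q (Xi e.1) - l * Ex q (Yj e.2) + l ^ 2 with hB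
  have hB4 : ∀ e, |B e| ≤ 4 := fun e => pd_B hl0 hl1 dx.h0 dx.le_one e
  -- (1) zero sums
  have s1 : ∑ e, W e * Dd q e = ∑ e, W e * B e :=
    pd_zero W h.wr h.wc (fun i => l * Ex q (Xi i)) (fun j => l * Ex q (Yj j)) (l ^ 2) (Dd q)
  -- (2) blocks and rest
  set Z : Finset (I × J) := univ.biUnion (fun s => univ.map (emb (ι s) (κ s))) with hZ
  have s2 : ∑ e, W e * B e = ∑ e ∈ univ \ Z, W e * B e + ∑ e ∈ Z, W e * B e :=
    (Finset.sum_sdiff (Finset.subset_univ Z)).symm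
  have s3 : ∑ e ∈ Z, W e * B e =
      ∑ s : Fin m, ∑ e : K1 × K2, W (emb (ι s) (κ s) e) * B (emb (ι s) (κ s) e) := by
    rw [hZ, Finset.sum_biUnion]
    · refine Finset.sum_congr rfl (fun s _ => ?_)
      rw [Finset.sum_map]
    · intro s _ s' _ hss
      exact h.dis s s' hss
  have s4 : |∑ e ∈ univ \ Z, W e * B e| ≤ |CT X| * Real.sqrt C / r := by
    have a1 : ∑ e ∈ univ \ Z, W e * B e = ∑ e, (if e ∈ Z then 0 else W e) * B e := by
      rw [← Finset.sum_sdiff (Finset.subset_univ Z)]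
      have a2 : ∑ e ∈ Z, (if e ∈ Z then 0 else W e) * B e = 0 :=
        Finset.sum_eq_zero (fun e he => by rw [if_pos he, zero_mul])
      rw [a2, add_zero]
      refine Finset.sum_congr rfl (fun e he => ?_)
      rw [if_neg (Finset.mem_sdiff.mp he).2]
    have a3 := tb2 hl dx (fun e => if e ∈ Z then 0 else W e)
    have a4 : nrm (fun e => if e ∈ Z then 0 else W e) ≤ Real.sqrt C / r := by
      unfold nrm
      have a5 : ∑ e, (if e ∈ Z then 0 else W e) ^ 2 = ∑ e ∈ univ \ Z, W e ^ 2 := by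
        rw [← Finset.sum_sdiff (Finset.subset_univ Z)]
        have a2 : ∑ e ∈ Z, (if e ∈ Z then 0 else W e) ^ 2 = 0 :=
          Finset.sum_eq_zero (fun e he => by rw [if_pos he]; ring)
        rw [a2, add_zero]
        refine Finset.sum_congr rfl (fun e he => ?_)
        rw [if_neg (Finset.mem_sdiff.mp he).2]
      rw [a5, hr, ← Real.sqrt_div hC0]
      exact Real.sqrt_le_sqrt h.wo
    have a6 : |∑ e ∈ univ \ Z, W e * B e| ≤
        CT X * nrm (fun e => if e ∈ Z then 0 else W e) := by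
      rw [a1]
      exact a3
    have a7 : CT X * nrm (fun e => if e ∈ Z then 0 else W e) ≤
        |CT X| * (Real.sqrt C / r) :=
      mul_le_mul (le_abs_self _) a4 (nrm_nonneg _) (abs_nonneg _)
    rw [mul_div_assoc]
    exact a6.trans a7
  -- (3) one block
  have b0 : ∀ e, 0 ≤ b e := fun e => by
    have := (h.fl ⟨0, hm⟩ 1 zero_le_one le_rfl).b0 e
    simpa using this
  have b1 : ∀ e, |b e| ≤ 1 := fun e => by
    rw [abs_of_nonneg (b0 e)]
    have h1 := (h.fl ⟨0, hm⟩ 1 zero_le_one le_rfl).br e.1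
    simp only [one_mul] at h1
    have h3 : b (e.1, e.2) ≤ ∑ c, b (e.1, c) :=
      Finset.single_le_sum (f := fun c => b (e.1, c)) (fun c _ => b0 _) (Finset.mem_univ e.2)
    exact h3.trans h1
  have s5 : ∀ s : Fin m,
      |∑ e : K1 × K2, W (emb (ι s) (κ s) e) * B (emb (ι s) (κ s) e) -
        psi l (fun e => t * b e) b| ≤ (4 * k ^ 2 * C + C2) / r := by
    intro s
    have a1 := H2 (ι s) (κ s) (fun e => t * b e) q (h.fl s t t0 t1) hk1 hk2 hn b b1
    have a2 : ∑ e : K1 × K2, b e * (Dd q (emb (ι s) (κ s) e) - l * Ex q (Xi (ι s e.1)) -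
        l * Ex q (Yj (κ s e.2)) + l ^ 2) = ∑ e : K1 × K2, b e * B (emb (ι s) (κ s) e) := rfl
    rw [a2] at a1
    have a3 : |∑ e : K1 × K2, W (emb (ι s) (κ s) e) * B (emb (ι s) (κ s) e) -
        ∑ e : K1 × K2, b e * B (emb (ι s) (κ s) e)| ≤ 4 * k ^ 2 * C / r := by
      rw [← Finset.sum_sub_distrib]
      have a4 : ∀ e : K1 × K2, |W (emb (ι s) (κ s) e) * B (emb (ι s) (κ s) e) -
          b e * B (emb (ι s) (κ s) e)| ≤ C / r * 4 := by
        intro e
        rw [← sub_mul, abs_mul]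
        exact mul_le_mul ((h.wb s e).trans hCn) (hB4 _) (abs_nonneg _) (by positivity)
      refine (Finset.abs_sum_le_sum_abs _ _).trans
        ((Finset.sum_le_sum (fun e _ => a4 e)).trans ?_)
      rw [Finset.sum_const, Finset.card_univ, Fintype.card_prod, nsmul_eq_mul]
      have h7 : (((Fintype.card K1 * Fintype.card K2 : ℕ)) : ℝ) ≤ (k : ℝ) ^ 2 := by
        have h8 : Fintype.card K1 * Fintype.card K2 ≤ k ^ 2 := by
          rw [pow_two]
          exact Nat.mul_le_mul hk1 hk2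
        exact_mod_cast h8
      have h9 : 4 * (k : ℝ) ^ 2 * C / r = (k : ℝ) ^ 2 * (C / r * 4) := by ring
      rw [h9]
      exact mul_le_mul_of_nonneg_right h7 (by positivity)
    have a5 := abs_le.mp a1
    have a6 := abs_le.mp a3
    have a7 : (4 * (k : ℝ) ^ 2 * C + C2) / r = 4 * k ^ 2 * C / r + C2 / r := by ring
    rw [a7, abs_le]
    constructor <;> linarith [a5.1, a5.2, a6.1, a6.2]
  have s6 : |∑ s : Fin m, ∑ e : K1 × K2, W (emb (ι s) (κ s) e) * B (emb (ι s) (κ s) e) -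
      m * psi l (fun e => t * b e) b| ≤ m * ((4 * k ^ 2 * C + C2) / r) := by
    have a1 : (m : ℝ) * psi l (fun e => t * b e) b =
        ∑ _s : Fin m, psi l (fun e => t * b e) b := by
      rw [Finset.sum_const, Finset.card_univ, Fintype.card_fin, nsmul_eq_mul]
    rw [a1, ← Finset.sum_sub_distrib]
    refine (Finset.abs_sum_le_sum_abs _ _).trans
      ((Finset.sum_le_sum (fun s _ => s5 s)).trans ?_)
    rw [Finset.sum_const, Finset.card_univ, Fintype.card_fin, nsmul_eq_mul]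
  rw [s1, s2, s3, hC]
  have a5 := abs_le.mp s4
  have a6 := abs_le.mp s6
  have a7 : (|CT X| * Real.sqrt C + m * (4 * k ^ 2 * C + C2)) / r =
      |CT X| * Real.sqrt C / r + m * ((4 * k ^ 2 * C + C2) / r) := by ring
  rw [a7, abs_le]
  constructor <;> linarith [a5.1, a5.2, a6.1, a6.2]

end Pool.JN2
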