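import Pool.Agent.JN2.Qt
import Pool.Agent.JN2.Pd
import Pool.Agent.JN2.Der

/-! Module Cop (difficulty 3). The copy trick (text (4.1)).

PROOF. k, m, C, X given. Cq, Xq, N0 from qq_path; C1 from path_deriv for (k, 1, C, X), C2 from path_deriv for (k, m, Cq, Xq). n ≥ N0, n ≥ m k, n ≥ 1, sqrt n ≥ C2 + m C1.
 Embeddings Φ : Fin m × K1 ↪ I, Ψ : Fin m × K2 ↪ J exist (Function.Embedding.nonempty_of_card_le, card (Fin m × K1) ≤ m k ≤ n; card J = card I from FlatS.dx). The hypotheses on b from FlatS at t = 1 (b0, br, bc with t * b = b) and hb.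
 g t = FF (qq 0 + t Wq) - m * FF (p + t W) has derivative (hasDerivAt_FF) bounded by (C2 + m C1)/sqrt n ≤ 1 in absolute value on [0,1] (both are m psi l (t b) b up to the errors), so
 g 1 - g 0 ≤ 1 (mean value inequality, e.g. Convex.norm_image_sub_le_of_norm_hasDerivWithin_le or image_norm_le_of_norm_deriv_right_le_segment).
 FF (qq 1) ≥ γ n + 4/10000 sum (qq 1)^2 ≥ γ n + 4/10000 m sum b^2 (main_bound2 in KS/Main2 for the DS matrix qq 1: PathM.fl at t = 1 gives DX), FF (qq 0) ≤ γ n + 3.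
 So 4/10000 m sum b^2 - 3 - 1 ≤ m (FF (p+W) - FF p); divide by m.
-/

namespace Pool.JN2

open Finset Pool.KS Pool.JN

set_option linter.unusedSectionVars false

theorem cop_arith {m : ℕ} (hm : 1 ≤ m) {G D F0 F1 SB : ℝ} (h1 : G + 4 / 10000 * (m * SB) ≤ F1)
    (h2 : F0 ≤ G + 3) (h3 : F1 - F0 - m * D ≤ 1) : 4 / 10000 * SB - 4 / m ≤ D := by
  have hm0 : (0 : ℝ) < m := by exact_mod_cast hm
  have h4 : m * (4 / 10000 * SB - 4 / m) ≤ m * D := by
    have h5 : (m : ℝ) * (4 / m) = 4 := by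
      field_simp
    have h6 : (m : ℝ) * (4 / 10000 * SB - 4 / m) = 4 / 10000 * (m * SB) - 4 := by
      rw [mul_sub, h5]
      ring
    rw [h6]
    linarith
  exact le_of_mul_le_mul_left h4 hm0

theorem copies {l : ℝ} (hl : Real.exp (-l) = l) (k m : ℕ) (hm : 1 ≤ m) (C X : ℝ) :
    ∃ N0 : ℕ,
    ∀ {I J K1 K2 : Type} [Fintype I] [Fintype J] [DecidableEq I] [DecidableEq J]
      [Fintype K1] [Fintype K2] [DecidableEq K1] [DecidableEq K2]
      (ι : Fin 1 → K1 ↪ I) (κ : Fin 1 → K2 ↪ J) (b : K1 × K2 → ℝ) (p W : I × J → ℝ),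
      PathM 1 l X C ι κ b p W → (∀ e, b e ≤ th) → Fintype.card K1 ≤ k →
      Fintype.card K2 ≤ k → N0 ≤ Fintype.card I →
      4 / 10000 * ∑ e, b e ^ 2 - 4 / m ≤ FF (fun e => p e + W e) - FF p := by
  obtain ⟨Cq, Xq, N1, hCq, hXq, hqq⟩ := qq_path hl k m hm
  obtain ⟨C1, hC1, hp1⟩ := path_deriv hl k 1 le_rfl C X
  obtain ⟨C2, hC2, hp2⟩ := path_deriv hl k m hm Cq Xq
  obtain ⟨N2, hN2⟩ := exists_nat_ge ((C2 + m * C1) ^ 2)
  refine ⟨N1 + m * k + 1 + N2, ?_⟩
  intro I J K1 K2 _ _ _ _ _ _ _ _ ι κ b p W hP hbth hK1 hK2 hN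
  have hf := hP.fl 0 1 zero_le_one le_rfl
  have hcard : Fintype.card I = Fintype.card J := hf.dx.card
  have hb0 : ∀ e, 0 ≤ b e := by
    intro e
    have := hf.b0 e
    rw [one_mul] at this
    exact this
  have hbr : ∀ a, ∑ c, b (a, c) ≤ 1 := by
    intro a
    have := hf.br a
    simp only [one_mul] at this
    exact this
  have hbc : ∀ c, ∑ a, b (a, c) ≤ 1 := by
    intro c
    have := hf.bc c
    simp only [one_mul] at this
    exact this
  have hc1 : Fintype.card (Fin m × K1) ≤ Fintype.card I := by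
    rw [Fintype.card_prod, Fintype.card_fin]
    have := Nat.mul_le_mul_left m hK1
    omega
  have hc2 : Fintype.card (Fin m × K2) ≤ Fintype.card J := by
    rw [Fintype.card_prod, Fintype.card_fin, ← hcard]
    have := Nat.mul_le_mul_left m hK2
    omega
  obtain ⟨Φ⟩ := Function.Embedding.nonempty_of_card_le hc1
  obtain ⟨Ψ⟩ := Function.Embedding.nonempty_of_card_le hc2
  obtain ⟨hQ, hQ0, hQ1⟩ := hqq Φ Ψ b hb0 hbth hbr hbc hcard hK1 hK2 (by omega)
  obtain ⟨q0, hq0⟩ : ∃ q0, q0 = qq Φ Ψ b 0 := ⟨_, rfl⟩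
  obtain ⟨q1, hq1⟩ : ∃ q1, q1 = qq Φ Ψ b 1 := ⟨_, rfl⟩
  rw [← hq0, ← hq1] at hQ
  rw [← hq0] at hQ0
  rw [← hq1] at hQ1
  have hn1 : 1 ≤ Fintype.card I := by omega
  have hsq0 : 0 < Real.sqrt (Fintype.card I) := by
    rw [Real.sqrt_pos]
    exact_mod_cast hn1
  have hsq : C2 + m * C1 ≤ Real.sqrt (Fintype.card I) := by
    refine Real.le_sqrt_of_sq_le (hN2.trans ?_)
    have : N2 ≤ Fintype.card I := by omega
    exact_mod_cast this
  have hder : ∀ t : ℝ, HasDerivAt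
      (fun t : ℝ => FF (fun e => q0 e + t * (q1 e - q0 e)) - m * FF (fun e => p e + t * W e))
      (∑ e, (q1 e - q0 e) * Dd (fun e => q0 e + t * (q1 e - q0 e)) e -
        m * ∑ e, W e * Dd (fun e => p e + t * W e) e) t := by
    intro t
    exact (hasDerivAt_FF q0 (fun e => q1 e - q0 e) t).sub ((hasDerivAt_FF p W t).const_mul (m : ℝ))
  have hbd : ∀ t ∈ Set.Ico (0 : ℝ) 1,
      ‖∑ e, (q1 e - q0 e) * Dd (fun e => q0 e + t * (q1 e - q0 e)) e -
        m * ∑ e, W e * Dd (fun e => p e + t * W e) e‖ ≤ 1 := by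
    intro t ht
    have e1 := hp2 (cpy Φ) (cpy Ψ) b q0 (fun e => q1 e - q0 e) hQ hK1 hK2 hn1 t ht.1 ht.2.le
    have e2 := hp1 ι κ b p W hP hK1 hK2 hn1 t ht.1 ht.2.le
    rw [Nat.cast_one, one_mul] at e2
    rw [Real.norm_eq_abs]
    obtain ⟨a, ha⟩ : ∃ a, a = ∑ e, (q1 e - q0 e) * Dd (fun e => q0 e + t * (q1 e - q0 e)) e :=
      ⟨_, rfl⟩
    obtain ⟨c, hc⟩ : ∃ c, c = ∑ e, W e * Dd (fun e => p e + t * W e) e := ⟨_, rfl⟩
    obtain ⟨d, hd⟩ : ∃ d, d = psi l (fun e => t * b e) b := ⟨_, rfl⟩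
    rw [← ha, ← hd] at e1
    rw [← hc, ← hd] at e2
    rw [← ha, ← hc]
    have e3 : a - m * c = (a - m * d) - m * (c - d) := by ring
    rw [e3]
    have e4 : |(a - m * d) - m * (c - d)| ≤ |a - m * d| + m * |c - d| := by
      refine (abs_sub _ _).trans ?_
      rw [abs_mul, Nat.abs_cast]
    have hm0 : (0 : ℝ) ≤ m := Nat.cast_nonneg _
    have e5 := mul_le_mul_of_nonneg_left e2 hm0
    have e6 : C2 / Real.sqrt (Fintype.card I) + m * (C1 / Real.sqrt (Fintype.card I)) ≤ 1 := by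
      rw [← mul_div_assoc, ← add_div, div_le_one hsq0]
      exact hsq
    linarith
  have hmv := norm_image_sub_le_of_norm_deriv_le_segment_01'
    (f := fun t : ℝ => FF (fun e => q0 e + t * (q1 e - q0 e)) - m * FF (fun e => p e + t * W e))
    (f' := fun t : ℝ => ∑ e, (q1 e - q0 e) * Dd (fun e => q0 e + t * (q1 e - q0 e)) e -
        m * ∑ e, W e * Dd (fun e => p e + t * W e) e) (C := 1)
    (fun t _ => (hder t).hasDerivWithinAt) hbd
  have z1 : (fun e => q0 e + 1 * (q1 e - q0 e)) = q1 := by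
    funext e
    ring
  have z2 : (fun e => q0 e + 0 * (q1 e - q0 e)) = q0 := by
    funext e
    ring
  have z3 : (fun e => p e + 1 * W e) = fun e => p e + W e := by
    funext e
    ring
  have z4 : (fun e => p e + 0 * W e) = p := by
    funext e
    ring
  simp only [z1, z2, z3, z4] at hmv
  have hmv2 := (abs_le.1 hmv).2
  have hDS := (hQ.fl ⟨0, by omega⟩ 1 zero_le_one le_rfl).dx.toDS
  rw [z1] at hDS
  have hmb := main_bound2 hl q1 hDS.card hDS.h0 hDS.hr hDS.hc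
  have hsum : ∑ i, ∑ j, q1 (i, j) ^ 2 = ∑ e, q1 e ^ 2 := by
    rw [Fintype.sum_prod_type]
  rw [hsum] at hmb
  have hmb2 : (2 * (1 - l) - l ^ 2) * Fintype.card I + 4 / 10000 * (m * ∑ e, b e ^ 2) ≤ FF q1 := by
    have h1 : FF q1 = Ex q1 (fun E => (nu E : ℝ)) := rfl
    rw [h1]
    linarith
  refine cop_arith hm hmb2 hQ0 ?_
  linarith

end Pool.JN2
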