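import Pool.Agent.JN.D0

/-! Block T2 (all doubly stochastic matrices, n large): definitions. -/

namespace Pool.JN2

open Finset Pool.KS Pool.JN

set_option linter.unusedSectionVars false

/-- expected matching number -/
noncomputable def FF {I J : Type*} [Fintype I] [Fintype J] [DecidableEq I] [DecidableEq J]
    (p : I × J → ℝ) : ℝ := Ex p (fun E => (nu E : ℝ))

/-- derivative of `FF` in the entry `e` -/
noncomputable def Dd {I J : Type*} [Fintype I] [Fintype J] [DecidableEq I] [DecidableEq J]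
    (p : I × J → ℝ) (e : I × J) : ℝ :=
  Ex p (fun E => (nu (insert e E) : ℝ) - (nu (E.erase e) : ℝ))

/-- euclidean norm -/
noncomputable def nrm {κ : Type*} [Fintype κ] (w : κ → ℝ) : ℝ := Real.sqrt (∑ e, w e ^ 2)

/-- the threshold of the class moments and of the slack bounds -/
noncomputable def th : ℝ := 7722 / 10000

/-- constant bounding the first two moments of class sizes -/
noncomputable def DD : ℝ := 1 + Dm th 1 + Dm th 2

/-- constant of the tangent bound for matrices with slack `X` -/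
noncomputable def CT (X : ℝ) : ℝ := 10000 * DD * (X + 1)

/-- doubly stochastic matrices -/
structure DS {I J : Type*} [Fintype I] [Fintype J] (p : I × J → ℝ) : Prop where
  card : Fintype.card I = Fintype.card J
  h0 : ∀ e, 0 ≤ p e
  hr : ∀ i, ∑ j, p (i, j) = 1
  hc : ∀ j, ∑ i, p (i, j) = 1

/-- doubly stochastic matrices with entries at most `.7722` and slack at most `X` -/
structure DX {I J : Type*} [Fintype I] [Fintype J] [DecidableEq I] [DecidableEq J]
    (l X : ℝ) (p : I × J → ℝ) : Prop extends DS p where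
  h1 : ∀ e, p e ≤ th
  X0 : 0 ≤ X
  hX : FF p ≤ (2 * (1 - l) - l ^ 2) * Fintype.card I + X

theorem DD_one : 1 ≤ DD := by
  unfold DD
  have h1 := Dm_nonneg th 1
  have h2 := Dm_nonneg th 2
  linarith

theorem D1_le : Dm th 1 ≤ DD := by
  unfold DD
  have h2 := Dm_nonneg th 2
  linarith

theorem D2_le : Dm th 2 ≤ DD := by
  unfold DD
  have h2 := Dm_nonneg th 1
  linarith

theorem th_lt : th < 1 := by unfold th; norm_num

theorem th_pos : 0 < th := by unfold th; norm_num

section
variable {I J : Type*} [Fintype I] [Fintype J] [DecidableEq I] [DecidableEq J]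

theorem DX.sub {l X : ℝ} {p : I × J → ℝ} (h : DX l X p) : Sub p th :=
  ⟨h.h0, h.h1, fun i => (h.hr i).le, fun j => (h.hc j).le⟩

theorem DX.le_one {l X : ℝ} {p : I × J → ℝ} (h : DX l X p) (e : I × J) : p e ≤ 1 :=
  (h.h1 e).trans th_lt.le

theorem DS.le_one {p : I × J → ℝ} (h : DS p) (e : I × J) : p e ≤ 1 := by
  have h1 := h.hr e.1
  have h2 : p (e.1, e.2) ≤ ∑ j, p (e.1, j) :=
    Finset.single_le_sum (f := fun j => p (e.1, j)) (fun j _ => h.h0 _) (Finset.mem_univ e.2)
  rw [h1] at h2
  exact h2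

theorem DS.tr {p : I × J → ℝ} (h : DS p) : DS (pt p) :=
  ⟨h.card.symm, fun e => h.h0 _, h.hc, h.hr⟩

theorem FF_tr (p : I × J → ℝ) : FF (pt p) = FF p := by
  unfold FF
  rw [← Ex_tr]
  exact Ex_congr p (fun E => by rw [nu_tr])

theorem DX.tr {l X : ℝ} {p : I × J → ℝ} (h : DX l X p) : DX l X (pt p) where
  toDS := h.toDS.tr
  h1 := fun e => h.h1 _
  X0 := h.X0
  hX := by
    rw [FF_tr, ← h.card]
    exact h.hX

theorem nrm_nonneg {κ : Type*} [Fintype κ] (w : κ → ℝ) : 0 ≤ nrm w := Real.sqrt_nonneg _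

theorem nrm_sq {κ : Type*} [Fintype κ] (w : κ → ℝ) : nrm w ^ 2 = ∑ e, w e ^ 2 :=
  Real.sq_sqrt (Finset.sum_nonneg (fun _ _ => sq_nonneg _))

/-- the slack bounds for `DX` matrices -/
theorem DX.rows {l X : ℝ} (hl : Real.exp (-l) = l) {p : I × J → ℝ} (h : DX l X p) :
    ∑ i, Ex p (fun E => (U p i (Rm (dR i E)) - l) ^ 2) ≤ 5000 * X := by
  have h1 := slack_rows hl p univ univ h.h0 h.h1 (fun i _ => h.hr i) (fun j _ => h.hc j)
    (fun i hi => absurd (Finset.mem_univ i) hi) (fun j hj => absurd (Finset.mem_univ j) hj)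
    (by rw [Finset.card_univ, Finset.card_univ, h.card])
  have h2 := h.hX
  unfold FF at h2
  rw [Finset.card_univ] at h1
  linarith

theorem DX.cols {l X : ℝ} (hl : Real.exp (-l) = l) {p : I × J → ℝ} (h : DX l X p) :
    ∑ j, Ex p (fun E => (U (pt p) j (Lm (dC j E)) - l) ^ 2) ≤ 5000 * X := by
  have h1 := slack_cols hl p univ univ h.h0 h.h1 (fun i _ => h.hr i) (fun j _ => h.hc j)
    (fun i hi => absurd (Finset.mem_univ i) hi) (fun j hj => absurd (Finset.mem_univ j) hj)
    (by rw [Finset.card_univ, Finset.card_univ, h.card])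
  have h2 := h.hX
  unfold FF at h2
  rw [Finset.card_univ] at h1
  linarith

theorem DX.sq {l X : ℝ} (hl : Real.exp (-l) = l) {p : I × J → ℝ} (h : DX l X p) :
    ∑ e, p e ^ 2 ≤ 2500 * X := by
  have h1 := slack_sq hl p univ univ h.h0 h.h1 (fun i _ => h.hr i) (fun j _ => h.hc j)
    (fun i hi => absurd (Finset.mem_univ i) hi) (fun j hj => absurd (Finset.mem_univ j) hj)
    (by rw [Finset.card_univ, Finset.card_univ, h.card])
  have h2 := h.hX
  unfold FF at h2
  rw [Finset.card_univ] at h1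
  have h3 : ∑ i, gg p univ i i = ∑ e, p e ^ 2 := by
    rw [Fintype.sum_prod_type]
    refine Finset.sum_congr rfl (fun i _ => ?_)
    unfold gg
    exact Finset.sum_congr rfl (fun j _ => by ring)
  rw [h3] at h1
  linarith

end

end Pool.JN2
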