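import Pool.Agent.JN2.D

/-! Block T2: definitions for the local formula. -/

namespace Pool.JN2

open Finset Pool.KS Pool.JN

set_option linter.unusedSectionVars false

section
variable {I J : Type*} [Fintype I] [Fintype J] [DecidableEq I] [DecidableEq J]

/-- missable columns of the bulk graph (special rows `I0` and special columns `J0` deleted) -/
noncomputable def Rb (I0 : Finset I) (J0 : Finset J) (E : Finset (I × J)) : Finset J :=
  Rm (del I0 J0 E) \ J0

/-- missable rows of the bulk graph -/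
noncomputable def Lb (I0 : Finset I) (J0 : Finset J) (E : Finset (I × J)) : Finset I :=
  Lm (del I0 J0 E) \ I0

/-- special rows with a neighbour in `Rb` -/
noncomputable def Xh (I0 : Finset I) (J0 : Finset J) (E : Finset (I × J)) : Finset I :=
  I0.filter (fun i => ∃ j ∈ Rb I0 J0 E, (i, j) ∈ E)

/-- special columns with a neighbour in `Lb` -/
noncomputable def Yh (I0 : Finset I) (J0 : Finset J) (E : Finset (I × J)) : Finset J :=
  J0.filter (fun j => ∃ i ∈ Lb I0 J0 E, (i, j) ∈ E)

/-- the edges between `I0` and `J0` are replaced by `S` -/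
def rep (I0 : Finset I) (J0 : Finset J) (S E : Finset (I × J)) : Finset (I × J) :=
  (E \ (I0 ×ˢ J0)) ∪ S

/-- special rows and columns have entries at most `c` outside `I0 × J0` -/
structure Sp (t c : ℝ) (I0 : Finset I) (J0 : Finset J) (p : I × J → ℝ) : Prop where
  sub : Sub p t
  ht : t < 1
  c0 : 0 ≤ c
  rc : ∀ i ∈ I0, ∀ j, j ∉ J0 → p (i, j) ≤ c
  cc : ∀ j ∈ J0, ∀ i, i ∉ I0 → p (i, j) ≤ c

/-- hitting probabilities of the special rows, given the bulk graph -/
noncomputable def uh (p : I × J → ℝ) (I0 : Finset I) (J0 : Finset J) (E : Finset (I × J))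
    (i : I) : ℝ := if i ∈ I0 then 1 - U p i (Rb I0 J0 E) else 0

/-- hitting probabilities of the special columns, given the bulk graph -/
noncomputable def vh (p : I × J → ℝ) (I0 : Finset I) (J0 : Finset J) (E : Finset (I × J))
    (j : J) : ℝ := if j ∈ J0 then 1 - U (pt p) j (Lb I0 J0 E) else 0

/-- matching number of `S` after deletion of the rows `X'` and columns `Y'` -/
noncomputable def nuD (S : Finset (I × J)) (X' : Finset I) (Y' : Finset J) : ℝ :=
  (nu (S.filter (fun e => e.1 ∉ X' ∧ e.2 ∉ Y')) : ℝ)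

end

/-- the elements of the source which are mapped into `E` -/
def pull {α β : Type*} [Fintype α] [DecidableEq β] (g : α → β) (E : Finset β) : Finset α :=
  univ.filter (fun x => g x ∈ E)

section
variable {K1 K2 : Type*} [Fintype K1] [Fintype K2] [DecidableEq K1] [DecidableEq K2]

/-- probability that a flat special row with block row `b (a, ·)` misses the bulk -/
noncomputable def ube (l : ℝ) (b : K1 × K2 → ℝ) (a : K1) : ℝ :=
  Real.exp (-((1 - ∑ c, b (a, c)) * l))

noncomputable def vbe (l : ℝ) (b : K1 × K2 → ℝ) (c : K2) : ℝ :=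
  Real.exp (-((1 - ∑ a, b (a, c)) * l))

/-- expected matching number of the block graph `S` between vertices missing the bulk -/
noncomputable def phi (l : ℝ) (b : K1 × K2 → ℝ) (S : Finset (K1 × K2)) : ℝ :=
  Ex (fun a => 1 - ube l b a) (fun X' => Ex (fun c => 1 - vbe l b c) (fun Y' => nuD S X' Y'))

/-- local derivative in direction `w` -/
noncomputable def psi (l : ℝ) (b w : K1 × K2 → ℝ) : ℝ :=
  ∑ e, w e * (Ex b (fun S => phi l b (insert e S) - phi l b (S.erase e)) -
    l * (ube l b e.1 - Ex b (fun S => phi l b S - phi l b (dR e.1 S))) -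
    l * (vbe l b e.2 - Ex b (fun S => phi l b S - phi l b (dC e.2 S))) + l ^ 2)

/-- `m` copies of the block `b` -/
def bm (m : ℕ) (b : K1 × K2 → ℝ) : (K1 × Fin m) × (K2 × Fin m) → ℝ :=
  fun e => if e.1.2 = e.2.2 then b (e.1.1, e.2.1) else 0

end

section
variable {I J K1 K2 : Type*} [Fintype I] [Fintype J] [DecidableEq I] [DecidableEq J]
  [Fintype K1] [Fintype K2] [DecidableEq K1] [DecidableEq K2]

/-- the embedding of the block -/
def emb (ι : K1 ↪ I) (κ : K2 ↪ J) : (K1 × K2) ↪ (I × J) := ι.prodMap κ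

/-- `p` is flat around the block `b` -/
structure FlatS (l X C : ℝ) (ι : K1 ↪ I) (κ : K2 ↪ J) (b : K1 × K2 → ℝ)
    (p : I × J → ℝ) : Prop where
  dx : DX l X p
  C0 : 0 ≤ C
  b0 : ∀ e, 0 ≤ b e
  br : ∀ a, ∑ c, b (a, c) ≤ 1
  bc : ∀ c, ∑ a, b (a, c) ≤ 1
  blk : ∀ e, |p (emb ι κ e) - b e| ≤ C / Fintype.card I
  rle : ∀ a, ∀ j, j ∉ univ.map κ → p (ι a, j) ≤ C / Fintype.card I
  rl1 : ∀ a, ∑ j ∈ univ \ univ.map κ, |p (ι a, j) - (1 - ∑ c, b (a, c)) / Fintype.card I| ≤
    C / Fintype.card I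
  cle : ∀ c, ∀ i, i ∉ univ.map ι → p (i, κ c) ≤ C / Fintype.card I
  cl1 : ∀ c, ∑ i ∈ univ \ univ.map ι, |p (i, κ c) - (1 - ∑ a, b (a, c)) / Fintype.card I| ≤
    C / Fintype.card I

/-- a segment `p + t W` along which the block is `t b` and the rest is flat around it -/
structure PathS (l X C : ℝ) (ι : K1 ↪ I) (κ : K2 ↪ J) (b : K1 × K2 → ℝ)
    (p W : I × J → ℝ) : Prop where
  fl : ∀ t : ℝ, 0 ≤ t → t ≤ 1 → FlatS l X C ι κ (fun e => t * b e) (fun e => p e + t * W e)
  wb : ∀ e, |W (emb ι κ e) - b e| ≤ C / Fintype.card I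
  wo : ∑ e ∈ univ \ univ.map (emb ι κ), W e ^ 2 ≤ C / Fintype.card I
  wr : ∀ i, ∑ j, W (i, j) = 0
  wc : ∀ j, ∑ i, W (i, j) = 0

end

end Pool.JN2
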