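import Pool.Agent.JN2.D2
import Pool.Agent.JN.Lf2

/-! Block T2: definitions, part 3. -/

namespace Pool.JN2

open Finset Pool.KS Pool.JN

set_option linter.unusedSectionVars false

variable {I J K1 K2 : Type*} [Fintype I] [Fintype J] [DecidableEq I] [DecidableEq J]
  [Fintype K1] [Fintype K2] [DecidableEq K1] [DecidableEq K2]

/-- a segment `p + t W` with `m` disjoint blocks, each equal to `t b` up to `C / n`, all special
rows and columns flat around their block -/
structure PathM (m : ℕ) (l X C : ℝ) (ι : Fin m → K1 ↪ I) (κ : Fin m → K2 ↪ J)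
    (b : K1 × K2 → ℝ) (p W : I × J → ℝ) : Prop where
  fl : ∀ s, ∀ t : ℝ, 0 ≤ t → t ≤ 1 →
    FlatS l X C (ι s) (κ s) (fun e => t * b e) (fun e => p e + t * W e)
  dis : ∀ s s', s ≠ s' → Disjoint (univ.map (emb (ι s) (κ s))) (univ.map (emb (ι s') (κ s')))
  wb : ∀ s e, |W (emb (ι s) (κ s) e) - b e| ≤ C / Fintype.card I
  wo : ∑ e ∈ univ \ univ.biUnion (fun s => univ.map (emb (ι s) (κ s))), W e ^ 2 ≤
    C / Fintype.card I
  wr : ∀ i, ∑ j, W (i, j) = 0
  wc : ∀ j, ∑ i, W (i, j) = 0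

end Pool.JN2
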