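import Pool.Agent.JN2.D2
import Pool.Agent.JN.Lf3

/-! Module Fc (difficulty 3). Given the bulk graph, the special rows and columns hit
independently.  (From `alive_law` in JN/Lf3.) -/

namespace Pool.JN2

open Finset Pool.KS Pool.JN

set_option linter.unusedSectionVars false

theorem fc_W {κ : Type*} [Fintype κ] [DecidableEq κ] (A : Finset κ) (u : κ → ℝ)
    (E : Finset κ) :
    W (fun i => if i ∈ A then 1 - u i else 0) E = if E ⊆ A then wt A (A \ E) u else 0 := by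
  unfold W wt
  split_ifs with h
  · rw [← Finset.prod_subset (Finset.subset_univ A)]
    · refine Finset.prod_congr rfl (fun i hi => ?_)
      by_cases h1 : i ∈ E
      · have h2 : i ∉ A \ E := fun h2 => (Finset.mem_sdiff.mp h2).2 h1
        simp only [if_pos h1, if_pos hi, if_neg h2]
      · have h2 : i ∈ A \ E := Finset.mem_sdiff.mpr ⟨hi, h1⟩
        simp only [if_neg h1, if_pos hi, if_pos h2]
        ring
    · intro i _ hi
      have h1 : i ∉ E := fun h1 => hi (h h1)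
      simp only [if_neg h1, if_neg hi]
      ring
  · have h1 : ∃ i ∈ E, i ∉ A := by
      by_contra h2
      push Not at h2
      exact h h2
    obtain ⟨i, hi, hA⟩ := h1
    refine Finset.prod_eq_zero (Finset.mem_univ i) ?_
    simp only [if_pos hi, if_neg hA]

/-- `Ex` over a product measure carried by `A` -/
theorem fc_Ex {κ : Type*} [Fintype κ] [DecidableEq κ] (A : Finset κ) (u : κ → ℝ)
    (g : Finset κ → ℝ) :
    Ex (fun i => if i ∈ A then 1 - u i else 0) g =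
      ∑ X ∈ A.powerset, wt A X u * g (A \ X) := by
  unfold Ex
  simp only [fc_W]
  have h1 : ∀ E : Finset κ, (if E ⊆ A then wt A (A \ E) u else 0) * g E =
      if E ∈ A.powerset then wt A (A \ E) u * g E else 0 := by
    intro E
    by_cases h : E ⊆ A
    · rw [if_pos h, if_pos (Finset.mem_powerset.mpr h)]
    · rw [if_neg h, if_neg (fun h2 => h (Finset.mem_powerset.mp h2)), zero_mul]
  rw [Finset.sum_congr rfl (fun E _ => h1 E), Finset.sum_ite_mem, Finset.univ_inter]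
  refine Finset.sum_bij' (fun E _ => A \ E) (fun X _ => A \ X) ?_ ?_ ?_ ?_ ?_
  · intro E _
    exact Finset.mem_powerset.mpr Finset.sdiff_subset
  · intro X _
    exact Finset.mem_powerset.mpr Finset.sdiff_subset
  · intro E hE
    exact Finset.sdiff_sdiff_eq_self (Finset.mem_powerset.mp hE)
  · intro X hX
    exact Finset.sdiff_sdiff_eq_self (Finset.mem_powerset.mp hX)
  · intro E hE
    rw [Finset.sdiff_sdiff_eq_self (Finset.mem_powerset.mp hE)]

variable {I J : Type*} [Fintype I] [Fintype J] [DecidableEq I] [DecidableEq J]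

theorem fc_Xh (I0 : Finset I) (J0 : Finset J) (E : Finset (I × J)) :
    Xh I0 J0 E = S1 I0 J0 E := by
  ext i
  unfold Xh Rb
  rw [Finset.mem_filter, mem_S1]
  constructor
  · rintro ⟨h1, j, h2, h3⟩
    rw [Finset.mem_sdiff] at h2
    exact ⟨h1, j, h3, h2.2, h2.1⟩
  · rintro ⟨h1, j, h3, h4, h5⟩
    exact ⟨h1, j, Finset.mem_sdiff.mpr ⟨h5, h4⟩, h3⟩

theorem fc_Yh (I0 : Finset I) (J0 : Finset J) (E : Finset (I × J)) :
    Yh I0 J0 E = T1 I0 J0 E := by
  ext j
  unfold Yh Lb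
  rw [Finset.mem_filter, mem_T1]
  constructor
  · rintro ⟨h1, i, h2, h3⟩
    rw [Finset.mem_sdiff] at h2
    exact ⟨h1, i, h3, h2.2, h2.1⟩
  · rintro ⟨h1, i, h3, h4, h5⟩
    exact ⟨h1, i, Finset.mem_sdiff.mpr ⟨h5, h4⟩, h3⟩

theorem fac (p : I × J → ℝ) (I0 : Finset I) (J0 : Finset J)
    (f : Finset I → Finset J → ℝ) :
    Ex p (fun E => f (Xh I0 J0 E) (Yh I0 J0 E)) =
      Ex p (fun E => Ex (uh p I0 J0 E) (fun X' => Ex (vh p I0 J0 E) (fun Y' => f X' Y'))) := by
  have h1 := alive_law p I0 J0 (fun X Y => f (I0 \ X) (J0 \ Y))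
  have h2 : Ex p (fun E => f (Xh I0 J0 E) (Yh I0 J0 E)) =
      Ex p (fun E => (fun X Y => f (I0 \ X) (J0 \ Y)) (I0 \ S1 I0 J0 E) (J0 \ T1 I0 J0 E)) := by
    refine Ex_congr p (fun E => ?_)
    have hS : S1 I0 J0 E ⊆ I0 := fun i hi => (mem_S1.mp hi).1
    have hT : T1 I0 J0 E ⊆ J0 := fun j hj => (mem_T1.mp hj).1
    show _ = f (I0 \ (I0 \ S1 I0 J0 E)) (J0 \ (J0 \ T1 I0 J0 E))
    rw [Finset.sdiff_sdiff_eq_self hS, Finset.sdiff_sdiff_eq_self hT, fc_Xh, fc_Yh]
  rw [h2, h1]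
  refine Ex_congr p (fun E => ?_)
  unfold Coin
  have h3 : Ex (uh p I0 J0 E) (fun X' => Ex (vh p I0 J0 E) (fun Y' => f X' Y')) =
      ∑ X ∈ I0.powerset, wt I0 X (fun i => U p i (Rb I0 J0 E)) *
        ∑ Y ∈ J0.powerset, wt J0 Y (fun j => U (pt p) j (Lb I0 J0 E)) *
          f (I0 \ X) (J0 \ Y) := by
    have e1 := fc_Ex I0 (fun i => U p i (Rb I0 J0 E))
      (fun X' => Ex (vh p I0 J0 E) (fun Y' => f X' Y'))
    have e2 : ∀ X' : Finset I, Ex (vh p I0 J0 E) (fun Y' => f X' Y') =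
        ∑ Y ∈ J0.powerset, wt J0 Y (fun j => U (pt p) j (Lb I0 J0 E)) * f X' (J0 \ Y) :=
      fun X' => fc_Ex J0 (fun j => U (pt p) j (Lb I0 J0 E)) (fun Y' => f X' Y')
    simp only [e2] at e1 ⊢
    exact e1
  rw [h3]
  refine Finset.sum_congr rfl (fun X _ => ?_)
  rw [Finset.mul_sum]
  refine Finset.sum_congr rfl (fun Y _ => ?_)
  have a1 : JN.Rb I0 J0 E = Rb I0 J0 E := rfl
  have a2 : JN.Lb I0 J0 E = Lb I0 J0 E := rfl
  rw [a1, a2]
  ring

end Pool.JN2
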