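import Pool.Agent.JN2.De
import Pool.Agent.JN2.Der
import Pool.Agent.JN.Mn
import Pool.Agent.JN.L2
import Pool.Agent.KX.Upper

/-! Module J1. The increment of the matching number of the uniform matrix:
`F(J_{N+1}) ≤ F(J_N) + γ + 103 BB / N`. -/

namespace Pool.JN2

open Finset Pool.KS Pool.JN Pool.KX

set_option linter.unusedSectionVars false

variable {I J : Type*} [Fintype I] [Fintype J] [DecidableEq I] [DecidableEq J]

theorem ps_row_sum (q : ℝ) (S : Finset I) (T : Finset J) (i : I) :
    ∑ j, ps q S T (i, j) = if i ∈ S then q * T.card else 0 := by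
  unfold ps
  by_cases h : i ∈ S
  · simp only [h, true_and, if_true]
    rw [Finset.sum_ite_mem, Finset.univ_inter, Finset.sum_const, nsmul_eq_mul, mul_comm]
  · simp [h]

theorem ps_col_sum (q : ℝ) (S : Finset I) (T : Finset J) (j : J) :
    ∑ i, ps q S T (i, j) = if j ∈ T then q * S.card else 0 := by
  unfold ps
  by_cases h : j ∈ T
  · simp only [h, and_true, if_true]
    rw [Finset.sum_ite_mem, Finset.univ_inter, Finset.sum_const, nsmul_eq_mul, mul_comm]
  · simp [h]

theorem env_ps {N : ℕ} (hN : 1 ≤ N) {q : ℝ} (hq0 : 0 ≤ q) (hqN : q ≤ 1 / N) (S : Finset I)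
    (T : Finset J) (h1 : q * T.card ≤ 1) (h2 : q * S.card ≤ 1)
    (h3 : 1 - 1 / (N : ℝ) ≤ q * T.card) (h4 : 1 - 1 / (N : ℝ) ≤ q * S.card)
    (c1 : S.card ≤ N + 1) (c2 : T.card ≤ N + 1) :
    Env (ps q S T) S T (1 / N) 1 := by
  have hNr : (1 : ℝ) ≤ N := by exact_mod_cast hN
  have hN0 : (0 : ℝ) < N := by linarith
  have hM : 0 ≤ 1 / (N : ℝ) := by positivity
  have d1 : ∀ x : ℝ, 1 - 1 / (N : ℝ) ≤ x → x ≤ 1 → ∀ m : ℕ, m ≤ N + 1 →
      (m : ℝ) * (1 - x) ^ 2 ≤ 4 * (1 / N) := by
    intro x hx hx1 m hm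
    have hm' : (m : ℝ) ≤ N + 1 := by exact_mod_cast hm
    have a1 : (1 - x) ^ 2 ≤ (1 / (N : ℝ)) ^ 2 := by
      apply pow_le_pow_left₀ (by linarith) (by linarith)
    calc (m : ℝ) * (1 - x) ^ 2 ≤ (N + 1) * (1 / (N : ℝ)) ^ 2 := by
          apply mul_le_mul hm' a1 (sq_nonneg _) (by positivity)
      _ ≤ (2 * N) * (1 / (N : ℝ)) ^ 2 := by
          apply mul_le_mul_of_nonneg_right (by linarith) (sq_nonneg _)
      _ = 2 * (1 / N) := by field_simp
      _ ≤ 4 * (1 / N) := by nlinarith
  refine ⟨hM, zero_le_one, fun e => ps_nonneg hq0 S T e, fun e => ?_, ?_, ?_, ?_, ?_, ?_, ?_,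
    ?_, ?_, ?_⟩
  · unfold ps
    split_ifs
    · exact hqN
    · exact hM
  · intro i hi j
    unfold ps
    exact if_neg (fun h => hi h.1)
  · intro j hj i
    unfold ps
    exact if_neg (fun h => hj h.2)
  · intro i
    rw [ps_row_sum]
    split_ifs
    · exact h1
    · exact zero_le_one
  · intro j
    rw [ps_col_sum]
    split_ifs
    · exact h2
    · exact zero_le_one
  · intro i hi
    rw [ps_row_sum, if_pos hi]
    linarith
  · intro j hj
    rw [ps_col_sum, if_pos hj]
    linarith
  · have e1 : ∑ i ∈ S, (1 - ∑ j, ps q S T (i, j)) ^ 2 = ∑ i ∈ S, (1 - q * T.card) ^ 2 := by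
      refine Finset.sum_congr rfl (fun i hi => ?_)
      rw [ps_row_sum, if_pos hi]
    rw [e1, Finset.sum_const, nsmul_eq_mul]
    exact d1 _ h3 h1 _ c1
  · have e1 : ∑ j ∈ T, (1 - ∑ i, ps q S T (i, j)) ^ 2 = ∑ j ∈ T, (1 - q * S.card) ^ 2 := by
      refine Finset.sum_congr rfl (fun j hj => ?_)
      rw [ps_col_sum, if_pos hj]
    rw [e1, Finset.sum_const, nsmul_eq_mul]
    exact d1 _ h4 h2 _ c2
  · have e1 : ∀ i, ∑ j, ps q S T (i, j) ^ 2 = q * (if i ∈ S then q * T.card else 0) := by
      intro i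
      rw [← ps_row_sum, Finset.mul_sum]
      refine Finset.sum_congr rfl (fun j _ => ?_)
      unfold ps
      split_ifs
      · ring
      · ring
    rw [Finset.sum_congr rfl (fun i _ => e1 i), ← Finset.mul_sum, Finset.sum_ite_mem,
      Finset.univ_inter, Finset.sum_const, nsmul_eq_mul]
    have e2 : q * ((S.card : ℝ) * (q * T.card)) = (q * S.card) * (q * T.card) := by ring
    rw [e2]
    have : 0 ≤ q * (T.card : ℝ) := by positivity
    nlinarith

/-- the expected product of the numbers of missable rows and columns -/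
theorem ps_prod {N : ℕ} {l : ℝ} (hl : Real.exp (-l) = l) (hN : 1 ≤ N)
    (hs : Small (1 / (N : ℝ)) 1) {q : ℝ} (hq0 : 1 / ((N : ℝ) + 1) ≤ q) (hqN : q ≤ 1 / N)
    (S : Finset I) (T : Finset J) (c1 : S.card = N) (c2 : T.card = N) :
    l ^ 2 * N ^ 2 - 41 * BB * N ≤ ∑ e ∈ S ×ˢ T, Dd (ps q S T) e := by
  have hB := BB_one
  have hNr : (1 : ℝ) ≤ N := by exact_mod_cast hN
  have hN0 : (0 : ℝ) < N := by linarith
  have hq1 : 0 ≤ q := le_trans (by positivity) hq0
  have a1 : q * N ≤ 1 := by
    have := mul_le_mul_of_nonneg_right hqN hN0.le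
    rwa [one_div, inv_mul_cancel₀ hN0.ne'] at this
  have a2 : 1 - 1 / (N : ℝ) ≤ q * N := by
    have h1 := mul_le_mul_of_nonneg_right hq0 hN0.le
    have h2 : 1 - 1 / (N : ℝ) ≤ 1 / ((N : ℝ) + 1) * N := by
      rw [div_mul_eq_mul_div, one_mul, le_div_iff₀ (by positivity)]
      have : (1 - 1 / (N : ℝ)) * (N + 1) = N - 1 / N := by field_simp; ring
      rw [this]
      have : 0 ≤ 1 / (N : ℝ) := by positivity
      linarith
    linarith
  have he : Env (ps q S T) S T (1 / N) 1 := by
    apply env_ps hN hq1 hqN S T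
    · rw [c2]; exact a1
    · rw [c1]; exact a1
    · rw [c2]; exact a2
    · rw [c1]; exact a2
    · omega
    · omega
  set p := ps q S T with hp
  have hM10 := hs.M_le he.M0 zero_le_one
  have hsub : Sub p (1 / 2) := he.sub (hM10.trans (by norm_num))
  have p1 : ∀ e, p e ≤ 1 := fun e => (hsub.h1 e).trans (by norm_num)
  have hNbig : (10 : ℝ) ^ 10 ≤ N := by
    have h := hM10
    rw [div_le_div_iff_of_pos_left one_pos hN0 (by positivity)] at h
    exact h
  -- N ≥ 100 BB
  have hNB : 100 * BB ≤ N := by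
    have h := hs
    unfold JN.Small at h
    have h5 : Real.sqrt (1 / (N : ℝ) * (1 + 1)) ≤ 1 / (100000 * BB ^ 3) := by
      rw [le_div_iff₀ (by positivity)]
      linarith
    have h6 : 1 / (N : ℝ) * (1 + 1) ≤ (1 / (100000 * BB ^ 3)) ^ 2 := by
      rw [← Real.sqrt_le_left (by positivity)]
      exact h5
    have h7 : (1 / (100000 * BB ^ 3)) ^ 2 ≤ 1 / (100 * BB) := by
      rw [div_pow, one_pow]
      apply one_div_le_one_div_of_le (by positivity)
      have h8 : BB ≤ (BB ^ 3) ^ 2 := by
        rw [← pow_mul]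
        exact le_self_pow₀ hB (by norm_num)
      nlinarith
    have h9 : 1 / (N : ℝ) ≤ 1 / (100 * BB) := by
      have : 1 / (N : ℝ) ≤ 1 / (N : ℝ) * (1 + 1) := by
        have : 0 ≤ 1 / (N : ℝ) := by positivity
        linarith
      linarith
    rwa [div_le_div_iff_of_pos_left one_pos hN0 (by positivity)] at h9
  obtain ⟨mx, my⟩ := mean_sup hl he hs
  have hlo := lam_lo hl
  have hhi := lam_hi hl
  -- the numbers of missable rows and columns
  set A : Finset (I × J) → ℝ := fun E => ∑ i ∈ S, Xi i E with hA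
  set B : Finset (I × J) → ℝ := fun E => ∑ j ∈ T, Yj j E with hB'
  have eA : Ex p A = ∑ i ∈ S, Ex p (Xi i) := Ex_sum p S (fun i => Xi i)
  have eB : Ex p B = ∑ j ∈ T, Ex p (Yj j) := Ex_sum p T (fun j => Yj j)
  have la : l * N - 20 * BB ≤ Ex p A := by
    rw [eA]
    have : ∑ i ∈ S, (l - 20 * BB * (1 / N)) ≤ ∑ i ∈ S, Ex p (Xi i) :=
      Finset.sum_le_sum (fun i hi => by have := abs_le.mp (mx i hi); linarith [this.1])
    rw [Finset.sum_const, nsmul_eq_mul, c1] at this
    have e : (N : ℝ) * (l - 20 * BB * (1 / N)) = l * N - 20 * BB := by field_simp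
    linarith
  have lb : l * N - 20 * BB ≤ Ex p B := by
    rw [eB]
    have : ∑ j ∈ T, (l - 20 * BB * (1 / N)) ≤ ∑ j ∈ T, Ex p (Yj j) :=
      Finset.sum_le_sum (fun j hj => by have := abs_le.mp (my j hj); linarith [this.1])
    rw [Finset.sum_const, nsmul_eq_mul, c2] at this
    have e : (N : ℝ) * (l - 20 * BB * (1 / N)) = l * N - 20 * BB := by field_simp
    linarith
  -- variances
  have vB : Ex p (fun E => (B E - Ex p B) ^ 2) ≤ BB * N := by
    have h := var_LR hsub (fun j => if j ∈ T then (1 : ℝ) else 0)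
    have e1 : ∀ E : Finset (I × J), LR (fun j => if j ∈ T then (1 : ℝ) else 0) E = B E := by
      intro E
      rw [LR_eq, hB']
      simp only [ite_mul, one_mul, zero_mul]
      rw [Finset.sum_ite_mem, Finset.univ_inter]
    have e2 : nsq (fun j : J => if j ∈ T then (1 : ℝ) else 0) = N := by
      unfold nsq
      have : ∀ j : J, (if j ∈ T then (1 : ℝ) else 0) ^ 2 = if j ∈ T then 1 else 0 := by
        intro j; split_ifs <;> norm_num
      rw [Finset.sum_congr rfl (fun j _ => this j), Finset.sum_ite_mem, Finset.univ_inter,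
        Finset.sum_const, nsmul_eq_mul, mul_one, c2]
    have e3 : (LR (fun j => if j ∈ T then (1 : ℝ) else 0) : Finset (I × J) → ℝ) = B :=
      funext e1
    rw [e3, e2] at h
    exact h
  have vA : Ex p (fun E => (A E - Ex p A) ^ 2) ≤ BB * N := by
    have hsub' : Sub (pt p) (1 / 2) := ⟨fun e => hsub.h0 _, fun e => hsub.h1 _, hsub.hc, hsub.hr⟩
    have h := var_LR hsub' (fun i => if i ∈ S then (1 : ℝ) else 0)
    have e1 : ∀ E : Finset (I × J),
        LR (fun i => if i ∈ S then (1 : ℝ) else 0) (tr E) = A E := by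
      intro E
      rw [LR_eq, hA]
      simp only [ite_mul, one_mul, zero_mul]
      rw [Finset.sum_ite_mem, Finset.univ_inter]
      refine Finset.sum_congr rfl (fun i _ => ?_)
      unfold Yj Xi
      rw [Rm_tr]
    have e2 : nsq (fun i : I => if i ∈ S then (1 : ℝ) else 0) = N := by
      unfold nsq
      have : ∀ i : I, (if i ∈ S then (1 : ℝ) else 0) ^ 2 = if i ∈ S then 1 else 0 := by
        intro i; split_ifs <;> norm_num
      rw [Finset.sum_congr rfl (fun i _ => this i), Finset.sum_ite_mem, Finset.univ_inter,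
        Finset.sum_const, nsmul_eq_mul, mul_one, c1]
    rw [e2, ← Ex_tr p, ← Ex_tr p] at h
    have e3 : Ex p (fun E => LR (fun i => if i ∈ S then (1 : ℝ) else 0) (tr E)) = Ex p A :=
      Ex_congr p e1
    rw [e3] at h
    refine le_trans (le_of_eq ?_) h
    exact Ex_congr p (fun E => by rw [e1])
  -- expectation of the product
  have hprod : l ^ 2 * N ^ 2 - 41 * BB * N ≤ Ex p (fun E => A E * B E) := by
    set a := Ex p A with ha
    set b := Ex p B with hb
    have h1 : Ex p (fun E => (a * b - ((A E - a) ^ 2 + (B E - b) ^ 2) / 2) +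
        (a * (B E - b) + b * (A E - a))) ≤ Ex p (fun E => A E * B E) := by
      refine Ex_mono hsub.h0 p1 (fun E => ?_)
      nlinarith [sq_nonneg ((A E - a) + (B E - b))]
    have h2 : Ex p (fun E => (a * b - ((A E - a) ^ 2 + (B E - b) ^ 2) / 2) +
        (a * (B E - b) + b * (A E - a))) =
        a * b - (Ex p (fun E => (A E - a) ^ 2) + Ex p (fun E => (B E - b) ^ 2)) / 2 := by
      have e1 : ∀ E : Finset (I × J), (a * b - ((A E - a) ^ 2 + (B E - b) ^ 2) / 2) +
          (a * (B E - b) + b * (A E - a)) =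
          (a * b - 2 * (a * b)) - ((1 / 2) * ((A E - a) ^ 2) + (1 / 2) * ((B E - b) ^ 2)) +
          (a * B E + b * A E) := by
        intro E; ring
      rw [Ex_congr p e1, Ex_add, Ex_sub, Ex_const, Ex_add, Ex_add, Ex_mul_left, Ex_mul_left,
        Ex_mul_left, Ex_mul_left]
      rw [← ha, ← hb]
      ring
    have h3 : 0 ≤ l * N - 20 * BB := by nlinarith
    have h4 : (l * N - 20 * BB) * (l * N - 20 * BB) ≤ a * b :=
      mul_le_mul la lb h3 (h3.trans la)
    have h5 : l ^ 2 * N ^ 2 - 40 * BB * N ≤ (l * N - 20 * BB) * (l * N - 20 * BB) := by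
      have : 0 ≤ BB * N := by positivity
      nlinarith [sq_nonneg BB]
    linarith
  -- compare with the derivatives
  have h6 : Ex p (fun E => A E * B E) = ∑ e ∈ S ×ˢ T, Ex p (fun E => Xi e.1 E * Yj e.2 E) := by
    rw [← Ex_sum p (S ×ˢ T) (fun e E => Xi e.1 E * Yj e.2 E)]
    refine Ex_congr p (fun E => ?_)
    rw [hA, hB']
    simp only
    rw [Finset.sum_mul_sum, Finset.sum_product]
  refine hprod.trans (h6.le.trans ?_)
  refine Finset.sum_le_sum (fun e _ => ?_)
  obtain ⟨i, j⟩ := e
  rw [Dd_eq]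
  have hd := Dd_nonneg hsub.h0 p1 (i, j)
  have hp0 := hsub.h0 (i, j)
  nlinarith

theorem fx_lift {N : ℕ} {l : ℝ} (hl : Real.exp (-l) = l) (hN : 1 ≤ N)
    (hs : Small (1 / (N : ℝ)) 1) (S : Finset I) (T : Finset J) (c1 : S.card = N)
    (c2 : T.card = N) :
    fx (1 / ((N : ℝ) + 1)) S T + (l ^ 2 - 42 * BB / N) ≤ fx (1 / (N : ℝ)) S T := by
  have hB := BB_one
  have hNr : (1 : ℝ) ≤ N := by exact_mod_cast hN
  have hN0 : (0 : ℝ) < N := by linarith
  have hhi := lam_hi hl
  have hlo := lam_lo hl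
  set q := 1 / ((N : ℝ) + 1) with hq
  set r := 1 / (N : ℝ) with hr
  have hqr : q ≤ r := by
    rw [hq, hr]
    exact one_div_le_one_div_of_le hN0 (by linarith)
  have hdiff : r - q = 1 / (N * (N + 1)) := by
    rw [hq, hr]; field_simp; ring
  have hseg : ∀ t : ℝ, (fun e : I × J => ps q S T e + t * ps (r - q) S T e) =
      ps (q + t * (r - q)) S T := by
    intro t
    funext e
    unfold ps
    split_ifs <;> ring
  have hder : ∀ t : ℝ, HasDerivAt (fun t : ℝ => FF (fun e : I × J => ps q S T e +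
      t * ps (r - q) S T e))
      (∑ e, ps (r - q) S T e * Dd (fun e => ps q S T e + t * ps (r - q) S T e) e) t :=
    fun t => hasDerivAt_FF _ _ t
  obtain ⟨c, hc, hcs⟩ := exists_hasDerivAt_eq_slope
    (fun t : ℝ => FF (fun e : I × J => ps q S T e + t * ps (r - q) S T e))
    (fun t => ∑ e, ps (r - q) S T e * Dd (fun e => ps q S T e + t * ps (r - q) S T e) e)
    (zero_lt_one) (fun t _ => (hder t).continuousAt.continuousWithinAt)
    (fun t _ => hder t)
  have h0 : FF (fun e : I × J => ps q S T e + 0 * ps (r - q) S T e) = fx q S T := by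
    rw [hseg, zero_mul, add_zero]; rfl
  have h1 : FF (fun e : I × J => ps q S T e + 1 * ps (r - q) S T e) = fx r S T := by
    rw [hseg, one_mul, add_sub_cancel]; rfl
  rw [h0, h1, sub_zero, div_one, hseg] at hcs
  have h2 : ∑ e, ps (r - q) S T e * Dd (ps (q + c * (r - q)) S T) e =
      (r - q) * ∑ e ∈ S ×ˢ T, Dd (ps (q + c * (r - q)) S T) e := by
    rw [Finset.mul_sum, ← Finset.sum_subset (Finset.subset_univ (S ×ˢ T))]
    · refine Finset.sum_congr rfl (fun e he => ?_)
      unfold ps
      rw [if_pos (Finset.mem_product.mp he)]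
    · intro e _ he
      unfold ps
      rw [if_neg (fun h => he (Finset.mem_product.mpr h)), zero_mul]
  have hrq : 0 ≤ r - q := by linarith
  have h3 := ps_prod hl hN hs (q := q + c * (r - q)) (by nlinarith [hc.1]) (by
    nlinarith [hc.2, hc.1]) S T c1 c2
  have h4 : (r - q) * (l ^ 2 * N ^ 2 - 41 * BB * N) ≤
      (r - q) * ∑ e ∈ S ×ˢ T, Dd (ps (q + c * (r - q)) S T) e :=
    mul_le_mul_of_nonneg_left h3 hrq
  have h5 : l ^ 2 - 42 * BB / N ≤ (r - q) * (l ^ 2 * N ^ 2 - 41 * BB * N) := by
    rw [hdiff]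
    have e1 : 1 / ((N : ℝ) * (N + 1)) * (l ^ 2 * N ^ 2 - 41 * BB * N) =
        (l ^ 2 * N - 41 * BB) / (N + 1) := by
      field_simp
    rw [e1, le_div_iff₀ (by positivity)]
    have e2 : (l ^ 2 - 42 * BB / N) * ((N : ℝ) + 1) =
        l ^ 2 * N + l ^ 2 - 42 * BB - 42 * BB / N := by
      field_simp
      ring
    rw [e2]
    have : 0 ≤ 42 * BB / N := by positivity
    nlinarith
  rw [h2] at hcs
  linarith

/-- the increment of the uniform matrix -/
theorem uni_step {N : ℕ} {l : ℝ} (hl : Real.exp (-l) = l) (hN : 1 ≤ N)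
    (hs : Small (1 / (N : ℝ)) 1) (hI : Fintype.card I = N + 1) (hJ : Fintype.card J = N + 1)
    (i0 : I) (j0 : J) :
    fx (1 / ((N : ℝ) + 1)) (univ : Finset I) (univ : Finset J) ≤
      fx (1 / (N : ℝ)) (univ.erase i0) (univ.erase j0) + (2 * (1 - l) - l ^ 2) +
        103 * BB / N := by
  have hB := BB_one
  have hNr : (1 : ℝ) ≤ N := by exact_mod_cast hN
  have hN0 : (0 : ℝ) < N := by linarith
  have hhi := lam_hi hl
  have hlo := lam_lo hl
  set q := 1 / ((N : ℝ) + 1) with hq
  have hq0 : 0 ≤ q := by rw [hq]; positivity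
  have cS : (univ.erase i0 : Finset I).card = N := by
    rw [Finset.card_erase_of_mem (Finset.mem_univ _), Finset.card_univ, hI]; omega
  have cT : (univ.erase j0 : Finset J).card = N := by
    rw [Finset.card_erase_of_mem (Finset.mem_univ _), Finset.card_univ, hJ]; omega
  have cU : (univ : Finset J).card = N + 1 := by rw [Finset.card_univ, hJ]
  -- environment: all columns, one row missing
  have he : Env (ps q (univ.erase i0) (univ : Finset J)) (univ.erase i0) univ (1 / N) 1 := by
    have hN1 : ((N : ℝ) + 1) ≠ 0 := by positivity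
    apply env_ps hN hq0 (one_div_le_one_div_of_le hN0 (by linarith))
    · rw [cU, hq]; push_cast; rw [one_div, inv_mul_cancel₀ hN1]
    · rw [cS, hq, div_mul_eq_mul_div, one_mul, div_le_one (by positivity)]; linarith
    · rw [cU, hq]; push_cast; rw [one_div, one_div, inv_mul_cancel₀ hN1]
      have : 0 ≤ (N : ℝ)⁻¹ := by positivity
      linarith
    · rw [cS, hq, div_mul_eq_mul_div, one_mul, le_div_iff₀ (by positivity)]
      have e : (1 - 1 / (N : ℝ)) * (N + 1) = N - 1 / N := by field_simp; ring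
      rw [e]
      have : 0 ≤ 1 / (N : ℝ) := by positivity
      linarith
    · omega
    · omega
  obtain ⟨mx, my⟩ := mean_sup hl he hs
  -- (A) the row
  have hA := step_row q (univ : Finset J) (i := i0) (Finset.notMem_erase i0 (univ : Finset I))
  rw [Finset.insert_erase (Finset.mem_univ i0)] at hA
  have hj := jensen N hN (univ.erase i0 : Finset I) (univ : Finset J)
  rw [← hq] at hj
  have hsum : ∑ j ∈ (univ : Finset J), (1 - (fx q (univ.erase i0 : Finset I) (univ : Finset J) -
      fx q (univ.erase i0) ((univ : Finset J).erase j))) ≤ (N + 1) * (l + 20 * BB * (1 / N)) := by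
    have h1 : ∀ j ∈ (univ : Finset J),
        (1 - (fx q (univ.erase i0 : Finset I) (univ : Finset J) -
        fx q (univ.erase i0) ((univ : Finset J).erase j))) ≤ l + 20 * BB * (1 / N) := by
      intro j hj'
      rw [← step_col]
      have := abs_le.mp (my j hj')
      linarith [this.2]
    refine (Finset.sum_le_sum h1).trans (le_of_eq ?_)
    rw [Finset.sum_const, nsmul_eq_mul, cU]
    push_cast
    ring
  have hexp : l - 41 * BB / N ≤ Real.exp (-((∑ j ∈ (univ : Finset J),
      (1 - (fx q (univ.erase i0 : Finset I) (univ : Finset J) -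
      fx q (univ.erase i0) ((univ : Finset J).erase j)))) / N)) := by
    have h1 : (∑ j ∈ (univ : Finset J),
      (1 - (fx q (univ.erase i0 : Finset I) (univ : Finset J) -
      fx q (univ.erase i0) ((univ : Finset J).erase j)))) / N ≤ l + 41 * BB / N := by
      rw [div_le_iff₀ hN0]
      refine hsum.trans ?_
      have e1 : ((N : ℝ) + 1) * (l + 20 * BB * (1 / N)) = l * N + l + 20 * BB + 20 * BB / N := by
        field_simp
        ring
      have e2 : (l + 41 * BB / N) * N = l * N + 41 * BB := by field_simp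
      rw [e1, e2]
      have h2 : 20 * BB / N ≤ 20 * BB := div_le_self (by positivity) hNr
      linarith
    have h3 : Real.exp (-(l + 41 * BB / N)) ≤ Real.exp (-((∑ j ∈ (univ : Finset J),
      (1 - (fx q (univ.erase i0 : Finset I) (univ : Finset J) -
      fx q (univ.erase i0) ((univ : Finset J).erase j)))) / N)) :=
      Real.exp_le_exp.mpr (by linarith)
    refine le_trans ?_ h3
    have h4 : -(l + 41 * BB / N) = -l + -(41 * BB / N) := by ring
    rw [h4, Real.exp_add, hl]
    have h5 := Real.add_one_le_exp (-(41 * BB / N))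
    have h6 : 0 ≤ 41 * BB / N := by positivity
    have h7 : l * (-(41 * BB / N) + 1) ≤ l * Real.exp (-(41 * BB / N)) :=
      mul_le_mul_of_nonneg_left h5 (by linarith)
    nlinarith
  -- (B) the column
  have hBc := step_col q (univ.erase i0 : Finset I) (univ : Finset J) j0
  have hy := abs_le.mp (my j0 (Finset.mem_univ _))
  -- (C) the thickening
  have hC := fx_lift hl hN hs (univ.erase i0 : Finset I) (univ.erase j0 : Finset J) cS cT
  rw [← hq] at hC
  have e0 : 20 * BB * (1 / (N : ℝ)) = 20 * BB / N := by ring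
  rw [e0] at hy
  have hN3 : 41 * BB / N + 20 * BB / N + 42 * BB / N = 103 * BB / N := by ring
  linarith [hy.1]

end Pool.JN2
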