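import Pool.Agent.JN2.Pl

/-! Module J2. Restriction of a matrix to its support. -/

namespace Pool.JN2

open Finset Pool.KS Pool.JN

set_option linter.unusedSectionVars false

variable {I J K1 K2 : Type*} [Fintype I] [Fintype J] [DecidableEq I] [DecidableEq J]
  [Fintype K1] [Fintype K2] [DecidableEq K1] [DecidableEq K2]

theorem map_pull (g : (K1 × K2) ↪ (I × J)) {E : Finset (I × J)}
    (h : ∀ e ∈ E, e ∈ univ.map g) : (pull g E).map g = E := by
  ext e
  rw [Finset.mem_map]
  constructor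
  · rintro ⟨x, hx, rfl⟩
    unfold pull at hx
    exact (Finset.mem_filter.mp hx).2
  · intro he
    obtain ⟨x, _, hx⟩ := Finset.mem_map.mp (h e he)
    refine ⟨x, ?_, hx⟩
    unfold pull
    rw [Finset.mem_filter]
    exact ⟨Finset.mem_univ _, by rw [hx]; exact he⟩

theorem FF_restrict (p : I × J → ℝ) (ι : K1 ↪ I) (κ : K2 ↪ J)
    (h : ∀ e, e ∉ univ.map (emb ι κ) → p e = 0) : FF p = FF (fun x => p (emb ι κ x)) := by
  unfold FF
  have h1 : Ex p (fun E => (nu E : ℝ)) =
      Ex p (fun E => (nu ((pull (emb ι κ) E).map (emb ι κ)) : ℝ)) := by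
    unfold Ex
    refine Finset.sum_congr rfl (fun E _ => ?_)
    by_cases hE : ∀ e ∈ E, e ∈ univ.map (emb ι κ)
    · show W p E * (nu E : ℝ) = W p E * (nu ((pull (emb ι κ) E).map (emb ι κ)) : ℝ)
      rw [map_pull _ hE]
    · push Not at hE
      obtain ⟨e, he, hne⟩ := hE
      rw [W_zero (h e hne) he, zero_mul, zero_mul]
  rw [h1, Ex_pull p (emb ι κ).injective (fun S => (nu (S.map (emb ι κ)) : ℝ))]
  refine Ex_congr _ (fun S => ?_)
  rw [nu_map]

end Pool.JN2
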