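import Pool.Agent.JN2.Md
import Pool.Agent.JN2.J1
import Pool.Agent.JN2.J2

/-! Module Fn. The uniform matrix is the unique minimiser for all large `n`. -/

namespace Pool.JN2

open Finset Pool.KS Pool.JN Pool.KX

set_option linter.unusedSectionVars false

section
variable {I J : Type*} [Fintype I] [Fintype J] [DecidableEq I] [DecidableEq J]

theorem FF_unif (q : ℝ) : FF (fun _ : I × J => q) =
    fx q (univ : Finset I) (univ : Finset J) := by
  unfold FF fx
  congr 1
  funext e
  unfold ps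
  rw [if_pos ⟨Finset.mem_univ _, Finset.mem_univ _⟩]

/-- the general bound: the uniform matrix is optimal up to `5/2` -/
theorem general {l : ℝ} (hl : Real.exp (-l) = l) {p : I × J → ℝ} (hp : DS p)
    (hn : 2 ≤ Fintype.card I) :
    FF (fun _ : I × J => 1 / (Fintype.card I : ℝ)) ≤ FF p + 5 / 2 := by
  obtain ⟨N, hN⟩ : ∃ N, Fintype.card I = N + 1 := ⟨Fintype.card I - 1, by omega⟩
  have hN0 : 0 < N := by omega
  have h5 := fx_univ_upper (I := I) (J := J) N hN0 hN (by rw [← hp.card]; exact hN) hl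
  have h6 := main_bound2 hl p hp.card hp.h0 hp.hr hp.hc
  have h7 : ((Fintype.card I : ℕ) : ℝ) = (N : ℝ) + 1 := by rw [hN]; push_cast; ring
  have h8 : 0 ≤ 4 / 10000 * ∑ i, ∑ j, p (i, j) ^ 2 := by
    have : 0 ≤ ∑ i, ∑ j, p (i, j) ^ 2 :=
      Finset.sum_nonneg (fun i _ => Finset.sum_nonneg (fun j _ => sq_nonneg _))
    linarith
  unfold FF
  rw [h7] at h6 ⊢
  linarith

end

/-- a large entry: comparison with the size `n - 1` -/
theorem big_entry {l : ℝ} (hl : Real.exp (-l) = l) {I J : Type} [Fintype I] [Fintype J]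
    [DecidableEq I] [DecidableEq J] {N : ℕ} (hN : 1 ≤ N) (hs : JN.Small (1 / (N : ℝ)) 1)
    (hB : 103 * BB / N ≤ 1 / 100000) {p : I × J → ℝ} (hp : DS p)
    (hcard : Fintype.card I = N + 1) {e0 : I × J} (he0 : 7721 / 10000 < p e0) :
    ∃ q : {i // i ∈ (univ : Finset I).erase e0.1} × {j // j ∈ (univ : Finset J).erase e0.2} → ℝ,
      DS q ∧ Fintype.card {i // i ∈ (univ : Finset I).erase e0.1} = N ∧
      FF (fun _ : I × J => 1 / (Fintype.card I : ℝ)) - FF p ≤
        FF (fun _ : {i // i ∈ (univ : Finset I).erase e0.1} ×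
            {j // j ∈ (univ : Finset J).erase e0.2} =>
          1 / (Fintype.card {i // i ∈ (univ : Finset I).erase e0.1} : ℝ)) - FF q -
          12 / 100000 := by
  obtain ⟨i0, j0⟩ := e0
  have hcJ : Fintype.card J = N + 1 := by rw [← hp.card, hcard]
  obtain ⟨q, q0, qr, qc, qS, qT, hq⟩ := remove_entry p univ univ hp.h0 (fun i _ => hp.hr i)
    (fun j _ => hp.hc j) (fun i hi => absurd (Finset.mem_univ i) hi)
    (fun j hj => absurd (Finset.mem_univ j) hj) (Finset.mem_univ i0) (Finset.mem_univ j0)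
  set S : Finset I := univ.erase i0 with hS
  set T : Finset J := univ.erase j0 with hT
  have cS : S.card = N := by
    rw [hS, Finset.card_erase_of_mem (Finset.mem_univ _), Finset.card_univ, hcard]; omega
  have cT : T.card = N := by
    rw [hT, Finset.card_erase_of_mem (Finset.mem_univ _), Finset.card_univ, hcJ]; omega
  have fS : Fintype.card {i // i ∈ S} = N := by rw [Fintype.card_coe, cS]
  have fT : Fintype.card {j // j ∈ T} = N := by rw [Fintype.card_coe, cT]
  set ι : {i // i ∈ S} ↪ I := Function.Embedding.subtype _ with hι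
  set κ : {j // j ∈ T} ↪ J := Function.Embedding.subtype _ with hκ
  have hmem : ∀ e : I × J, e ∉ univ.map (emb ι κ) → e.1 ∉ S ∨ e.2 ∉ T := by
    intro e he
    by_contra hcon
    push Not at hcon
    apply he
    rw [Finset.mem_map]
    exact ⟨(⟨e.1, hcon.1⟩, ⟨e.2, hcon.2⟩), Finset.mem_univ _, rfl⟩
  have r1 : FF q = FF (fun x => q (emb ι κ x)) := by
    apply FF_restrict
    intro e he
    obtain ⟨i, j⟩ := e
    rcases hmem _ he with h | h
    · exact qS i h j
    · exact qT j h i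
  have r2 : fx (1 / (N : ℝ)) S T = FF (fun _ : {i // i ∈ S} × {j // j ∈ T} =>
      1 / (Fintype.card {i // i ∈ S} : ℝ)) := by
    have h1 : fx (1 / (N : ℝ)) S T = FF (ps (1 / (N : ℝ)) S T) := rfl
    rw [h1, FF_restrict (ps (1 / (N : ℝ)) S T) ι κ]
    · congr 1
      funext x
      unfold ps
      rw [if_pos, fS]
      exact ⟨x.1.2, x.2.2⟩
    · intro e he
      unfold ps
      rw [if_neg]
      rintro ⟨h1, h2⟩
      rcases hmem _ he with h | h
      · exact h h1
      · exact h h2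
  refine ⟨fun x => q (emb ι κ x), ⟨by rw [fS, fT], fun x => q0 _, fun a => ?_, fun b => ?_⟩,
    fS, ?_⟩
  · have h1 : ∑ j : {j // j ∈ T}, q (emb ι κ (a, j)) = ∑ j ∈ T, q ((a : I), j) :=
      Finset.sum_coe_sort T (fun j => q ((a : I), j))
    rw [h1]
    have h2 := qr a a.2
    rw [← h2]
    apply Finset.sum_subset (Finset.subset_univ T)
    intro j _ hj
    exact qT j hj a
  · have h1 : ∑ i : {i // i ∈ S}, q (emb ι κ (i, b)) = ∑ i ∈ S, q (i, (b : J)) :=
      Finset.sum_coe_sort S (fun i => q (i, (b : J)))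
    rw [h1]
    have h2 := qc b b.2
    rw [← h2]
    apply Finset.sum_subset (Finset.subset_univ S)
    intro i _ hi
    exact qS i hi b
  · have hu := uni_step hl hN hs hcard hcJ i0 j0
    have hc' : ((Fintype.card I : ℕ) : ℝ) = (N : ℝ) + 1 := by rw [hcard]; push_cast; ring
    have e1 : FF (fun _ : I × J => 1 / (Fintype.card I : ℝ)) =
        fx (1 / ((N : ℝ) + 1)) (univ : Finset I) (univ : Finset J) := by rw [FF_unif, hc']
    rw [← r1, e1, ← r2]
    have h3 : FF q + 2 * p (i0, j0) - 1 ≤ FF p := hq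
    have hlo := lam_lo hl
    have hhi := lam_hi hl
    have h4 : 2 * (1 - l) - l ^ 2 ≤ 544064 / 1000000 := by nlinarith
    linarith

/-- **T2.** -/
theorem t2 : ∃ n0 : ℕ, ∀ {I J : Type} [Fintype I] [Fintype J] [DecidableEq I]
    [DecidableEq J] (p : I × J → ℝ), DS p → n0 ≤ Fintype.card I →
    FF (fun _ : I × J => 1 / (Fintype.card I : ℝ)) ≤ FF p ∧
      (p ≠ (fun _ => 1 / (Fintype.card I : ℝ)) →
        FF (fun _ : I × J => 1 / (Fintype.card I : ℝ)) < FF p) := by
  obtain ⟨l, hl⟩ := fi_exists_l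
  obtain ⟨n1, hmid⟩ := middle
  have hBB := BB_one
  obtain ⟨A, hA⟩ : ∃ A : ℝ, A = 100000 * BB ^ 3 := ⟨_, rfl⟩
  have hA0 : 0 < A := by rw [hA]; positivity
  obtain ⟨n2, hn2⟩ := exists_nat_ge (2 * A ^ 2 + 10300000 * BB + n1 + 2)
  have hn2' : ∀ N : ℕ, n2 ≤ N → 1 ≤ N ∧ n1 ≤ N ∧ JN.Small (1 / (N : ℝ)) 1 ∧
      103 * BB / N ≤ 1 / 100000 := by
    intro N hN
    have hNr : (n2 : ℝ) ≤ N := by exact_mod_cast hN
    have hA2 : 0 ≤ 2 * A ^ 2 := by positivity
    have hn1 : (0 : ℝ) ≤ n1 := Nat.cast_nonneg _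
    have h1 : (1 : ℝ) ≤ N := by linarith
    have hN0 : (0 : ℝ) < N := by linarith
    refine ⟨by exact_mod_cast h1, ?_, ?_, ?_⟩
    · have : (n1 : ℝ) ≤ N := by linarith
      exact_mod_cast this
    · unfold JN.Small
      rw [← hA]
      have h2 : 1 / (N : ℝ) * (1 + 1) ≤ (1 / A) ^ 2 := by
        rw [div_pow, one_pow, div_mul_eq_mul_div, one_mul, div_le_div_iff₀ hN0 (by positivity)]
        linarith
      have h3 : Real.sqrt (1 / (N : ℝ) * (1 + 1)) ≤ 1 / A := by
        rw [Real.sqrt_le_left (by positivity)]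
        exact h2
      calc A * Real.sqrt (1 / (N : ℝ) * (1 + 1)) ≤ A * (1 / A) :=
            mul_le_mul_of_nonneg_left h3 hA0.le
        _ = 1 := by rw [mul_one_div, div_self hA0.ne']
    · rw [div_le_div_iff₀ hN0 (by norm_num)]
      linarith
  -- the defect decreases
  have key : ∀ k : ℕ, ∀ {I J : Type} [Fintype I] [Fintype J] [DecidableEq I] [DecidableEq J]
      (p : I × J → ℝ), DS p → n2 + 1 + k ≤ Fintype.card I →
      FF (fun _ : I × J => 1 / (Fintype.card I : ℝ)) ≤
        FF p + max (0 : ℝ) (5 / 2 - (k : ℝ) * (1 / 100000)) := by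
    intro k
    induction k with
    | zero =>
      intro I J _ _ _ _ p hp hc
      have h1 := (hn2' n2 le_rfl).1
      have h2 := general hl hp (by omega)
      have h3 := le_max_right (0 : ℝ) (5 / 2 - ((0 : ℕ) : ℝ) * (1 / 100000))
      push_cast at h3 ⊢
      linarith
    | succ k ih =>
      intro I J _ _ _ _ p hp hc
      have h0 := le_max_left (0 : ℝ) (5 / 2 - ((k + 1 : ℕ) : ℝ) * (1 / 100000))
      by_cases hle : ∀ e, p e ≤ 7721 / 10000
      · have h1 := (hn2' (Fintype.card I) (by omega)).2.1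
        have h2 := (hmid p hp hle h1).1
        linarith
      · push Not at hle
        obtain ⟨e0, he0⟩ := hle
        obtain ⟨N, hN⟩ : ∃ N, Fintype.card I = N + 1 := ⟨Fintype.card I - 1, by omega⟩
        obtain ⟨a1, _, a3, a4⟩ := hn2' N (by omega)
        obtain ⟨q, hq, hqc, hqF⟩ := big_entry hl a1 a3 a4 hp hN he0
        have h2 := ih q hq (by omega)
        have h3 : max (0 : ℝ) (5 / 2 - (k : ℝ) * (1 / 100000)) ≤
            max (0 : ℝ) (5 / 2 - ((k + 1 : ℕ) : ℝ) * (1 / 100000)) + 1 / 100000 := by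
          push_cast
          refine max_le ?_ ?_
          · have := le_max_left (0 : ℝ) (5 / 2 - ((k : ℝ) + 1) * (1 / 100000))
            linarith
          · have := le_max_right (0 : ℝ) (5 / 2 - ((k : ℝ) + 1) * (1 / 100000))
            linarith
        linarith
  refine ⟨n2 + 250002, fun {I J} _ _ _ _ p hp hc => ?_⟩
  by_cases hle : ∀ e, p e ≤ 7721 / 10000
  · exact hmid p hp hle (hn2' (Fintype.card I) (by omega)).2.1
  · push Not at hle
    obtain ⟨e0, he0⟩ := hle
    obtain ⟨N, hN⟩ : ∃ N, Fintype.card I = N + 1 := ⟨Fintype.card I - 1, by omega⟩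
    obtain ⟨a1, _, a3, a4⟩ := hn2' N (by omega)
    obtain ⟨q, hq, hqc, hqF⟩ := big_entry hl a1 a3 a4 hp hN he0
    have h2 := key 250000 q hq (by omega)
    have h3 : max (0 : ℝ) (5 / 2 - ((250000 : ℕ) : ℝ) * (1 / 100000)) = 0 := by
      push_cast
      rw [max_eq_left (by norm_num)]
    rw [h3] at h2
    have h4 : FF (fun _ : I × J => 1 / (Fintype.card I : ℝ)) < FF p := by linarith
    exact ⟨h4.le, fun _ => h4⟩

end Pool.JN2
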