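import Pool.Agent.JN2.Tb
import Pool.Agent.JN2.Der

/-! Module Hs (difficulty 2-3). `FF` is Lipschitz in the euclidean (Hilbert-Schmidt) norm (text (1.8)).

PROOF. W = q - p (row and column sums 0), f t = FF (fun e => p e + t * W e), t ∈ [0,1]. Each p + tW (0 ≤ t ≤ 1) is DS with entries ≤ th (convex combination).
 f' t = sum_e W e * Dd (p + tW) e (hasDerivAt_FF). If f t ≤ f 0 + 1 then p + tW is DX l (X+1), so |f' t| ≤ CT (X+1) * nrm W =: c ≤ 1/2 (tb3).
 UPPER BOUND: for every c' with c < c' ≤ 1: f ≤ f 0 + c' t on [0,1] by image_le_of_deriv_right_lt_deriv_boundary (B t = f 0 + c' t, B' = c'; at a point t ∈ [0,1) with f t = B t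
 we have f t ≤ f 0 + 1, so f' t ≤ c < c'). In particular f t ≤ f 0 + 1 for all t ∈ [0,1], so |f'| ≤ c on [0,1] and |f 1 - f 0| ≤ c by the mean value inequality
 (Convex.norm_image_sub_le_of_norm_hasDerivWithin_le or image_norm_le_of_norm_deriv_right_le...).
-/

namespace Pool.JN2

open Finset Pool.KS Pool.JN

set_option linter.unusedSectionVars false

variable {I J : Type*} [Fintype I] [Fintype J] [DecidableEq I] [DecidableEq J]

theorem DS.mix {p q : I × J → ℝ} (hp : DS p) (hq : DS q) {t : ℝ} (t0 : 0 ≤ t) (t1 : t ≤ 1) :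
    DS (fun e => p e + t * (q e - p e)) := by
  refine ⟨hp.card, fun e => ?_, fun i => ?_, fun j => ?_⟩
  · have h1 := hp.h0 e
    have h2 := hq.h0 e
    nlinarith [mul_nonneg t0 h2, mul_nonneg (sub_nonneg.mpr t1) h1]
  · rw [sum_add_distrib, ← mul_sum, sum_sub_distrib, hp.hr, hq.hr]
    ring
  · rw [sum_add_distrib, ← mul_sum, sum_sub_distrib, hp.hc, hq.hc]
    ring

theorem hs_lip {l X : ℝ} (hl : Real.exp (-l) = l) {p q : I × J → ℝ} (hp : DX l X p)
    (hq : DS q) (hq1 : ∀ e, q e ≤ th)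
    (hs : CT (X + 1) * nrm (fun e => q e - p e) ≤ 1 / 2) :
    |FF q - FF p| ≤ CT (X + 1) * nrm (fun e => q e - p e) := by
  obtain ⟨W, hW⟩ : ∃ W : I × J → ℝ, W = fun e => q e - p e := ⟨_, rfl⟩
  rw [← hW] at hs ⊢
  obtain ⟨f, hf⟩ : ∃ f : ℝ → ℝ, f = fun t : ℝ => FF (fun e => p e + t * W e) := ⟨_, rfl⟩
  obtain ⟨f', hf'⟩ : ∃ f' : ℝ → ℝ, f' = fun t : ℝ => ∑ e, W e * Dd (fun e => p e + t * W e) e := ⟨_, rfl⟩
  have hder : ∀ t, HasDerivAt f (f' t) t := by
    intro t
    rw [hf, hf']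
    exact hasDerivAt_FF p W t
  have f0 : f 0 = FF p := by
    rw [hf]
    simp
  have f1 : f 1 = FF q := by
    rw [hf, hW]
    simp
  have hbd : ∀ t, 0 ≤ t → t ≤ 1 → f t ≤ f 0 + 1 → |f' t| ≤ CT (X + 1) * nrm W := by
    intro t t0 t1 ht
    have hmix : DS (fun e => p e + t * W e) := by
      rw [hW]
      exact DS.mix hp.toDS hq t0 t1
    have hDX : DX l (X + 1) (fun e => p e + t * W e) := by
      refine ⟨hmix, fun e => ?_, by linarith [hp.X0], ?_⟩
      · rw [hW]
        have h1 := hp.h1 e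
        have h2 := hq1 e
        change p e + t * (q e - p e) ≤ th
        nlinarith [mul_nonneg t0 (sub_nonneg.mpr h2), mul_nonneg (sub_nonneg.mpr t1) (sub_nonneg.mpr h1)]
      · have h3 := hp.hX
        rw [f0, hf] at ht
        change FF (fun e => p e + t * W e) ≤ FF p + 1 at ht
        linarith
    rw [hf']
    refine tb3 hl hDX W (fun i => ?_) (fun j => ?_)
    · rw [hW]
      change ∑ j, (q (i, j) - p (i, j)) = 0
      rw [sum_sub_distrib, hp.hr, hq.hr, sub_self]
    · rw [hW]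
      change ∑ i, (q (i, j) - p (i, j)) = 0
      rw [sum_sub_distrib, hp.hc, hq.hc, sub_self]
  have hup : ∀ t ∈ Set.Icc (0 : ℝ) 1, f t ≤ f 0 + t := by
    have h := image_le_of_deriv_right_lt_deriv_boundary (f := f) (f' := f') (a := 0) (b := 1)
      (fun t _ => (hder t).continuousAt.continuousWithinAt)
      (fun t _ => (hder t).hasDerivWithinAt) (B := fun t => f 0 + t) (B' := fun _ => 1)
      (by simp) (fun t => by simpa using (hasDerivAt_id t).const_add (f 0)) ?_
    · exact fun t ht => h ht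
    · intro t ht hft
      have h1 := hbd t ht.1 ht.2.le (by rw [hft]; linarith [ht.2])
      have h2 := (abs_le.mp h1).2
      linarith
  have hmv := Convex.norm_image_sub_le_of_norm_hasDerivWithin_le (f := f) (f' := f') (s := Set.Icc (0 : ℝ) 1)
    (C := CT (X + 1) * nrm W) (fun t _ => (hder t).hasDerivWithinAt)
    (fun t ht => by
      rw [Real.norm_eq_abs]
      exact hbd t ht.1 ht.2 (by linarith [hup t ht, ht.2]))
    (convex_Icc 0 1) (Set.left_mem_Icc.mpr zero_le_one) (Set.right_mem_Icc.mpr zero_le_one)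
  rw [f0, f1, Real.norm_eq_abs] at hmv
  simpa using hmv

end Pool.JN2
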