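import Pool.Agent.JN2.D2

/-! Module Lc (difficulty 2-3). Expected number of missable vertices lost / gained when columns (rows) are added.

PROOF. lost_rows: induction on B \ B' (Finset.induction on the difference). Step: B = insert c B0, c ∉ B0, B' ⊆ B0: del A B E = dC c G with G = del A B0 E (dC_del).
   Lm (dC c G) \ Lm (del A B' E) ⊆ (Lm (dC c G) \ Lm G) ∪ (Lm G \ Lm (del A B' E)); |Lm (dC c G) \ Lm G| = sum_i mij i c G (cross_symm: mij i c G = 1 iff i ∈ Lm (dC c G), i ∉ Lm G), and
   Ex p (sum_i mij i c (del A B0 E)) = Ex p' (sum_i mij i c) (Ex_del, p' = p with zeros, Sub.zero) ≤ Dm t 1 (mij_moment_col with m = 1, pow_one).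
 gain_cols: same induction: Rm (del A B' E) \ Rm (dC c G) ⊆ (Rm (del A B' E) \ Rm G) ∪ (Rm G \ Rm (dC c G)); Rm G \ Rm (dC c G): if c ∉ Rm G, Rm G = Rx c G ⊆ Rm (dC c G) (Rm_eq_out): empty;
   if c ∈ Rm G, Rm G = Rx c G ∪ cls G c (Rm_eq_in): contained in cls G c. So card ≤ if c ∈ Rm G then |cls G c| else 0, expectation ≤ Dm t 1 (cls_moment_del, m = 1).
 lost_cols, gain_rows: transposition (tr: Ex_tr, tr of del: tr (del A B E) = del B A (tr E) (prove it), Lm_tr, Rm_tr, Sub.pt) or the same proofs with rows.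
 Rb_sub: for j ∉ J0: j ∈ Rm (del A (insert c B) E) = Rm (dC c (del A B E)) and j ≠ c give j ∈ Rm (del A B E) (mono_Rm); induction on B \ B'.
-/

namespace Pool.JN2

open Finset Pool.KS Pool.JN

set_option linter.unusedSectionVars false

variable {I J : Type*} [Fintype I] [Fintype J] [DecidableEq I] [DecidableEq J]

theorem tr_del (A : Finset I) (B : Finset J) (E : Finset (I × J)) :
    tr (del A B E) = del B A (tr E) := by
  ext e
  rw [mem_tr, mem_del, mem_del, mem_tr]
  constructor
  · rintro ⟨h1, h2, h3⟩; exact ⟨h1, h3, h2⟩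
  · rintro ⟨h1, h2, h3⟩; exact ⟨h1, h3, h2⟩

private theorem lc_aux1 (A : Finset I) (B' : Finset J) (E : Finset (I × J)) (D : Finset J) :
    Rm (del A (B' ∪ D) E) \ (B' ∪ D) ⊆ Rm (del A B' E) := by
  induction D using Finset.induction_on with
  | empty =>
    rw [Finset.union_empty]
    exact Finset.sdiff_subset
  | insert c D _ ih =>
    intro j hj
    rw [Finset.union_insert, Finset.mem_sdiff, Finset.mem_insert, not_or, ← dC_del] at hj
    exact ih (Finset.mem_sdiff.mpr ⟨mono_Rm hj.2.1 hj.1, hj.2.2⟩)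

/-- adding columns keeps the missable columns outside the deleted ones -/
theorem Rm_del_sub (A : Finset I) {B B' : Finset J} (h : B' ⊆ B) (E : Finset (I × J)) :
    Rm (del A B E) \ B ⊆ Rm (del A B' E) := by
  have h1 := lc_aux1 A B' E (B \ B')
  rwa [Finset.union_sdiff_of_subset h] at h1

private theorem lc_aux2 (A' : Finset I) (B : Finset J) (E : Finset (I × J)) (D : Finset I) :
    Rm (del A' B E) ⊆ Rm (del (A' ∪ D) B E) := by
  induction D using Finset.induction_on with
  | empty =>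
    rw [Finset.union_empty]
  | insert c D _ ih =>
    rw [Finset.union_insert, ← dR_del]
    exact ih.trans (Rm_sub_dR c _)

/-- adding rows loses missable columns -/
theorem Rm_del_rows {A A' : Finset I} (h : A' ⊆ A) (B : Finset J) (E : Finset (I × J)) :
    Rm (del A' B E) ⊆ Rm (del A B E) := by
  have h1 := lc_aux2 A' B E (A \ A')
  rwa [Finset.union_sdiff_of_subset h] at h1

/-- adding columns loses missable rows -/
theorem Lm_del_cols (A : Finset I) {B B' : Finset J} (h : B' ⊆ B) (E : Finset (I × J)) :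
    Lm (del A B' E) ⊆ Lm (del A B E) := by
  rw [← Rm_tr, ← Rm_tr, tr_del, tr_del]
  exact Rm_del_rows h A (tr E)

private theorem lc_card_sdiff {κ : Type*} [DecidableEq κ] (S T U : Finset κ) :
    ((S \ U).card : ℝ) ≤ ((S \ T).card : ℝ) + ((T \ U).card : ℝ) := by
  have h1 : S \ U ⊆ (S \ T) ∪ (T \ U) := by
    intro x hx
    rw [Finset.mem_sdiff] at hx
    rw [Finset.mem_union, Finset.mem_sdiff, Finset.mem_sdiff]
    by_cases h : x ∈ T
    · exact Or.inr ⟨h, hx.2⟩
    · exact Or.inl ⟨hx.1, h⟩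
  have h2 := (Finset.card_le_card h1).trans (Finset.card_union_le _ _)
  exact_mod_cast h2

private theorem lc_step1 (c : J) (G : Finset (I × J)) :
    ((Lm (dC c G) \ Lm G).card : ℝ) = ∑ i, mij i c G := by
  unfold mij
  rw [Finset.sum_boole]
  congr 1
  congr 1
  ext i
  rw [Finset.mem_sdiff, Finset.mem_filter]
  rw [← cross_symm i c G]
  simp

private theorem lc_rows_aux {p : I × J → ℝ} {t : ℝ} (hp : Sub p t) (ht : t < 1) (A : Finset I)
    (B' : Finset J) (D : Finset J) :
    Ex p (fun E => ((Lm (del A (B' ∪ D) E) \ Lm (del A B' E)).card : ℝ)) ≤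
      Dm t 1 * (D.card : ℝ) := by
  induction D using Finset.induction_on with
  | empty =>
    rw [Finset.union_empty, Finset.card_empty, Nat.cast_zero, mul_zero]
    refine le_of_eq ?_
    have h1 : ∀ E : Finset (I × J),
        ((Lm (del A B' E) \ Lm (del A B' E)).card : ℝ) = 0 := by
      intro E; simp
    rw [Ex_congr p h1, Ex_const]
  | insert c D hc ih =>
    have h1 : ∀ E : Finset (I × J),
        ((Lm (del A (B' ∪ insert c D) E) \ Lm (del A B' E)).card : ℝ) ≤
        (∑ i, mij i c (del A (B' ∪ D) E)) +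
          ((Lm (del A (B' ∪ D) E) \ Lm (del A B' E)).card : ℝ) := by
      intro E
      rw [Finset.union_insert, ← dC_del, ← lc_step1]
      exact lc_card_sdiff _ _ _
    refine (Ex_mono hp.h0 (fun e => hp.le_one ht e) h1).trans ?_
    rw [Ex_add, Finset.card_insert_of_notMem hc, Nat.cast_add, Nat.cast_one, mul_add, mul_one,
      add_comm]
    refine add_le_add ih ?_
    rw [Ex_del p A (B' ∪ D) (fun E => ∑ i, mij i c E)]
    have h2 := mij_moment_col (hp.zero (fun e => e.1 ∈ A ∨ e.2 ∈ B' ∪ D)) ht one_ne_zero c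
    simp only [pow_one] at h2
    exact h2

theorem lost_rows {p : I × J → ℝ} {t : ℝ} (hp : Sub p t) (ht : t < 1) (A : Finset I)
    {B B' : Finset J} (h : B' ⊆ B) :
    Ex p (fun E => ((Lm (del A B E) \ Lm (del A B' E)).card : ℝ)) ≤
      Dm t 1 * ((B \ B').card : ℝ) := by
  have h1 := lc_rows_aux hp ht A B' (B \ B')
  rwa [Finset.union_sdiff_of_subset h] at h1

private theorem lc_step2 (c : J) (G : Finset (I × J)) :
    ((Rm G \ Rm (dC c G)).card : ℝ) ≤ if c ∈ Rm G then ((cls G c).card : ℝ) ^ 1 else 0 := by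
  have hx : Rx c G ⊆ Rm (dC c G) := Finset.erase_subset _ _
  split_ifs with hc
  · rw [pow_one]
    have h1 : Rm G \ Rm (dC c G) ⊆ cls G c := by
      intro j hj
      rw [Finset.mem_sdiff] at hj
      have h2 := hj.1
      rw [(Rm_eq_in (l := c) (E := G)).1, Finset.mem_union] at h2
      rcases h2 with h2 | h2
      · exact absurd (hx h2) hj.2
      · exact h2
    exact_mod_cast Finset.card_le_card h1
  · have h1 : Rm G \ Rm (dC c G) = ∅ := by
      rw [Finset.sdiff_eq_empty_iff_subset, Rm_eq_out hc]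
      exact hx
    rw [h1]; simp

private theorem lc_cols_aux {p : I × J → ℝ} {t : ℝ} (hp : Sub p t) (ht : t < 1) (A : Finset I)
    (B' : Finset J) (D : Finset J) :
    Ex p (fun E => ((Rm (del A B' E) \ Rm (del A (B' ∪ D) E)).card : ℝ)) ≤
      Dm t 1 * (D.card : ℝ) := by
  induction D using Finset.induction_on with
  | empty =>
    rw [Finset.union_empty, Finset.card_empty, Nat.cast_zero, mul_zero]
    refine le_of_eq ?_
    have h1 : ∀ E : Finset (I × J),
        ((Rm (del A B' E) \ Rm (del A B' E)).card : ℝ) = 0 := by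
      intro E; simp
    rw [Ex_congr p h1, Ex_const]
  | insert c D hc ih =>
    have h1 : ∀ E : Finset (I × J),
        ((Rm (del A B' E) \ Rm (del A (B' ∪ insert c D) E)).card : ℝ) ≤
        ((Rm (del A B' E) \ Rm (del A (B' ∪ D) E)).card : ℝ) +
        (if c ∈ Rm (del A (B' ∪ D) E) then ((cls (del A (B' ∪ D) E) c).card : ℝ) ^ 1 else 0) := by
      intro E
      rw [Finset.union_insert, ← dC_del]
      exact (lc_card_sdiff _ (Rm (del A (B' ∪ D) E)) _).trans
        (add_le_add le_rfl (lc_step2 c (del A (B' ∪ D) E)))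
    refine (Ex_mono hp.h0 (fun e => hp.le_one ht e) h1).trans ?_
    rw [Ex_add, Finset.card_insert_of_notMem hc, Nat.cast_add, Nat.cast_one, mul_add, mul_one]
    exact add_le_add ih (cls_moment_del hp ht 1 c A (B' ∪ D))

theorem gain_cols {p : I × J → ℝ} {t : ℝ} (hp : Sub p t) (ht : t < 1) (A : Finset I)
    {B B' : Finset J} (h : B' ⊆ B) :
    Ex p (fun E => ((Rm (del A B' E) \ Rm (del A B E)).card : ℝ)) ≤
      Dm t 1 * ((B \ B').card : ℝ) := by
  have h1 := lc_cols_aux hp ht A B' (B \ B')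
  rwa [Finset.union_sdiff_of_subset h] at h1

theorem lost_cols {p : I × J → ℝ} {t : ℝ} (hp : Sub p t) (ht : t < 1) {A A' : Finset I}
    (h : A' ⊆ A) (B : Finset J) :
    Ex p (fun E => ((Rm (del A B E) \ Rm (del A' B E)).card : ℝ)) ≤
      Dm t 1 * ((A \ A').card : ℝ) := by
  have h1 := lost_rows hp.pt ht B h
  have h2 : Ex p (fun E => ((Rm (del A B E) \ Rm (del A' B E)).card : ℝ)) =
      Ex (pt p) (fun E => ((Lm (del B A E) \ Lm (del B A' E)).card : ℝ)) := by
    rw [← Ex_tr]
    exact Ex_congr p (fun E => by rw [← tr_del, ← tr_del, Lm_tr, Lm_tr])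
  rw [h2]
  exact h1

theorem gain_rows {p : I × J → ℝ} {t : ℝ} (hp : Sub p t) (ht : t < 1) {A A' : Finset I}
    (h : A' ⊆ A) (B : Finset J) :
    Ex p (fun E => ((Lm (del A' B E) \ Lm (del A B E)).card : ℝ)) ≤
      Dm t 1 * ((A \ A').card : ℝ) := by
  have h1 := gain_cols hp.pt ht B h
  have h2 : Ex p (fun E => ((Lm (del A' B E) \ Lm (del A B E)).card : ℝ)) =
      Ex (pt p) (fun E => ((Rm (del B A' E) \ Rm (del B A E)).card : ℝ)) := by
    rw [← Ex_tr]
    exact Ex_congr p (fun E => by rw [← tr_del, ← tr_del, Rm_tr, Rm_tr])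
  rw [h2]
  exact h1

end Pool.JN2
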