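import Pool.Agent.JN2.D

/-! Module Lp (difficulty 1). `FF` is 1-Lipschitz in the l^1 norm.

PROOF. KS.Ex_change (Pool/Agent/KS/Main.lean, imported through JN) with f = nu, c e = |q e - p e|: 0 ≤ nu (insert e E) - nu (E.erase e) ≤ 1 (nu_mono, nu_insert_le), so
 (q e - p e) * (...) ≤ |q e - p e|. Exchange p and q for the other direction. The general version `Ex_lip` for |f (insert e E) - f (E.erase e)| ≤ c is proved in the same way.
-/

namespace Pool.JN2

open Finset Pool.KS Pool.JN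

set_option linter.unusedSectionVars false

theorem Ex_lip {ε : Type*} [Fintype ε] [DecidableEq ε] {p q : ε → ℝ} (p0 : ∀ e, 0 ≤ p e)
    (p1 : ∀ e, p e ≤ 1) (q0 : ∀ e, 0 ≤ q e) (q1 : ∀ e, q e ≤ 1) (f : Finset ε → ℝ) {c : ℝ}
    (hf : ∀ e E, |f (insert e E) - f (E.erase e)| ≤ c) :
    |Ex q f - Ex p f| ≤ c * ∑ e, |q e - p e| := by
  have c1 : ∀ e E, (q e - p e) * (f (insert e E) - f (E.erase e)) ≤ |q e - p e| * c := by
    intro e E
    calc (q e - p e) * (f (insert e E) - f (E.erase e))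
        ≤ |(q e - p e) * (f (insert e E) - f (E.erase e))| := le_abs_self _
      _ = |q e - p e| * |f (insert e E) - f (E.erase e)| := abs_mul _ _
      _ ≤ |q e - p e| * c := mul_le_mul_of_nonneg_left (hf e E) (abs_nonneg _)
  have c2 : ∀ e E, (p e - q e) * (f (insert e E) - f (E.erase e)) ≤ |q e - p e| * c := by
    intro e E
    calc (p e - q e) * (f (insert e E) - f (E.erase e))
        ≤ |(p e - q e) * (f (insert e E) - f (E.erase e))| := le_abs_self _
      _ = |p e - q e| * |f (insert e E) - f (E.erase e)| := abs_mul _ _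
      _ ≤ |p e - q e| * c := mul_le_mul_of_nonneg_left (hf e E) (abs_nonneg _)
      _ = |q e - p e| * c := by rw [abs_sub_comm]
  have h1 := Ex_change p0 p1 q0 q1 f _ c1
  have h2 := Ex_change q0 q1 p0 p1 f _ c2
  have h3 : ∑ e, |q e - p e| * c = c * ∑ e, |q e - p e| := by
    rw [← Finset.sum_mul, mul_comm]
  rw [h3] at h1 h2
  rw [abs_le]
  constructor <;> linarith

variable {I J : Type*} [Fintype I] [Fintype J] [DecidableEq I] [DecidableEq J]

theorem nu_diff (e : I × J) (E : Finset (I × J)) :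
    |(nu (insert e E) : ℝ) - (nu (E.erase e) : ℝ)| ≤ 1 := by
  have h1 : nu (E.erase e) ≤ nu (insert e E) :=
    nu_mono ((Finset.erase_subset e E).trans (Finset.subset_insert e E))
  have h2 := nu_insert_le e E
  have h1' : (nu (E.erase e) : ℝ) ≤ (nu (insert e E) : ℝ) := by exact_mod_cast h1
  have h2' : (nu (insert e E) : ℝ) ≤ (nu (E.erase e) : ℝ) + 1 := by exact_mod_cast h2
  rw [abs_le]
  constructor <;> linarith

theorem FF_lip {p q : I × J → ℝ} (p0 : ∀ e, 0 ≤ p e) (p1 : ∀ e, p e ≤ 1)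
    (q0 : ∀ e, 0 ≤ q e) (q1 : ∀ e, q e ≤ 1) : |FF q - FF p| ≤ ∑ e, |q e - p e| := by
  have h := Ex_lip p0 p1 q0 q1 (fun E => (nu E : ℝ)) (c := 1) (fun e E => nu_diff e E)
  rw [one_mul] at h
  exact h

end Pool.JN2
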