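import Pool.Agent.JN2.Lv
import Pool.Agent.JN2.Fc
import Pool.Agent.JN2.Lp

/-! Module Lg (difficulty 2-3). The local value formula with given hitting probabilities. -/

namespace Pool.JN2

open Finset Pool.KS Pool.JN

set_option linter.unusedSectionVars false

variable {I J : Type*} [Fintype I] [Fintype J] [DecidableEq I] [DecidableEq J]

theorem lg_nuD_row (Sg : Finset (I × J)) (Y' : Finset J) (i : I) (X' : Finset I) :
    |nuD Sg (insert i X') Y' - nuD Sg (X'.erase i) Y'| ≤ 1 := by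
  unfold nuD
  set F := Sg.filter (fun e => e.1 ∉ X'.erase i ∧ e.2 ∉ Y') with hF
  have h1 : Sg.filter (fun e => e.1 ∉ insert i X' ∧ e.2 ∉ Y') = dR i F := by
    ext e
    rw [mem_dR, hF]
    simp only [Finset.mem_filter, Finset.mem_insert, Finset.mem_erase, not_or, not_and]
    constructor
    · rintro ⟨h1, ⟨h2, h3⟩, h4⟩
      exact ⟨⟨h1, fun _ => h3, h4⟩, h2⟩
    · rintro ⟨⟨h1, h2, h3⟩, h4⟩
      exact ⟨h1, ⟨h4, h2 h4⟩, h3⟩
  rw [h1]
  have h2 := nu_dR_le i F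
  have h3 := nu_le_dR i F
  have h2' : (nu (dR i F) : ℝ) ≤ nu F := by exact_mod_cast h2
  have h3' : (nu F : ℝ) ≤ nu (dR i F) + 1 := by exact_mod_cast h3
  rw [abs_le]
  constructor <;> linarith

theorem lg_nuD_col (Sg : Finset (I × J)) (X' : Finset I) (j : J) (Y' : Finset J) :
    |nuD Sg X' (insert j Y') - nuD Sg X' (Y'.erase j)| ≤ 1 := by
  unfold nuD
  set F := Sg.filter (fun e => e.1 ∉ X' ∧ e.2 ∉ Y'.erase j) with hF
  have h1 : Sg.filter (fun e => e.1 ∉ X' ∧ e.2 ∉ insert j Y') = dC j F := by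
    ext e
    rw [mem_dC, hF]
    simp only [Finset.mem_filter, Finset.mem_insert, Finset.mem_erase, not_or, not_and]
    constructor
    · rintro ⟨h1, h4, h2, h3⟩
      exact ⟨⟨h1, h4, fun _ => h3⟩, h2⟩
    · rintro ⟨⟨h1, h3, h2⟩, h4⟩
      exact ⟨h1, h3, h4, h2 h4⟩
  rw [h1]
  have h2 := nu_dC_le j F
  have h3 := nu_le_dC j F
  have h2' : (nu (dC j F) : ℝ) ≤ nu F := by exact_mod_cast h2
  have h3' : (nu F : ℝ) ≤ nu (dC j F) + 1 := by exact_mod_cast h3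
  rw [abs_le]
  constructor <;> linarith

theorem lg_abs {ε : Type*} [Fintype ε] [DecidableEq ε] {p : ε → ℝ} (h0 : ∀ e, 0 ≤ p e)
    (h1 : ∀ e, p e ≤ 1) (f : Finset ε → ℝ) : |Ex p f| ≤ Ex p (fun E => |f E|) := by
  rw [abs_le]
  constructor
  · have h2 := Ex_mono h0 h1 (f := fun E => -|f E|) (g := f) (fun E => neg_abs_le (f E))
    have h3 := Ex_mul_left p (-1) (fun E => |f E|)
    simp only [neg_mul, one_mul] at h3
    rw [h3] at h2
    exact h2
  · exact Ex_mono h0 h1 (fun E => le_abs_self (f E))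

/-- the double average of `nuD` is Lipschitz in the hitting probabilities -/
theorem lg_lip (Sg : Finset (I × J)) {u u' : I → ℝ} {v v' : J → ℝ}
    (h0 : ∀ i, 0 ≤ u i) (h1 : ∀ i, u i ≤ 1) (g0 : ∀ i, 0 ≤ u' i) (g1 : ∀ i, u' i ≤ 1)
    (k0 : ∀ j, 0 ≤ v j) (k1 : ∀ j, v j ≤ 1) (l0 : ∀ j, 0 ≤ v' j) (l1 : ∀ j, v' j ≤ 1) :
    |Ex u (fun X' => Ex v (fun Y' => nuD Sg X' Y')) -
      Ex u' (fun X' => Ex v' (fun Y' => nuD Sg X' Y'))| ≤
      (∑ i, |u i - u' i|) + ∑ j, |v j - v' j| := by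
  have a1 : |Ex u (fun X' => Ex v (fun Y' => nuD Sg X' Y')) -
      Ex u' (fun X' => Ex v (fun Y' => nuD Sg X' Y'))| ≤ ∑ i, |u i - u' i| := by
    have h2 := Ex_lip g0 g1 h0 h1 (fun X' => Ex v (fun Y' => nuD Sg X' Y')) (c := 1)
      (fun i X' => by
        rw [← Ex_sub]
        refine (lg_abs k0 k1 _).trans ?_
        have h3 := Ex_mono k0 k1 (f := fun Y' => |nuD Sg (insert i X') Y' -
          nuD Sg (X'.erase i) Y'|) (g := fun _ => 1) (fun Y' => lg_nuD_row Sg Y' i X')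
        rwa [Ex_const] at h3)
    rw [one_mul] at h2
    exact h2
  have a2 : |Ex u' (fun X' => Ex v (fun Y' => nuD Sg X' Y')) -
      Ex u' (fun X' => Ex v' (fun Y' => nuD Sg X' Y'))| ≤ ∑ j, |v j - v' j| := by
    rw [← Ex_sub]
    refine (lg_abs g0 g1 _).trans ?_
    have h3 := Ex_mono g0 g1 (f := fun X' => |Ex v (fun Y' => nuD Sg X' Y') -
      Ex v' (fun Y' => nuD Sg X' Y')|) (g := fun _ => ∑ j, |v j - v' j|) (fun X' => by
        have h4 := Ex_lip l0 l1 k0 k1 (fun Y' => nuD Sg X' Y') (c := 1)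
          (fun j Y' => lg_nuD_col Sg X' j Y')
        rw [one_mul] at h4
        exact h4)
    rwa [Ex_const] at h3
  have e : Ex u (fun X' => Ex v (fun Y' => nuD Sg X' Y')) -
      Ex u' (fun X' => Ex v' (fun Y' => nuD Sg X' Y')) =
      (Ex u (fun X' => Ex v (fun Y' => nuD Sg X' Y')) -
        Ex u' (fun X' => Ex v (fun Y' => nuD Sg X' Y'))) +
      (Ex u' (fun X' => Ex v (fun Y' => nuD Sg X' Y')) -
        Ex u' (fun X' => Ex v' (fun Y' => nuD Sg X' Y'))) := by ring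
  rw [e]
  exact (abs_add_le _ _).trans (add_le_add a1 a2)

theorem lg_if {κ : Type*} [DecidableEq κ] (A : Finset κ) (x : κ → ℝ) (x0 : ∀ i, 0 ≤ x i)
    (x1 : ∀ i, x i ≤ 1) (i : κ) : 0 ≤ (if i ∈ A then 1 - x i else (0 : ℝ)) ∧
      (if i ∈ A then 1 - x i else (0 : ℝ)) ≤ 1 := by
  split_ifs
  · exact ⟨by linarith [x1 i], by linarith [x0 i]⟩
  · exact ⟨le_rfl, by norm_num⟩

/-- `Coin` in terms of hitting sets -/
theorem lg_coin (I0 : Finset I) (J0 : Finset J) (u : I → ℝ) (v : J → ℝ)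
    (Sg : Finset (I × J)) (hSg : ∀ e ∈ Sg, e.1 ∈ I0 ∧ e.2 ∈ J0) :
    Coin I0 J0 u v (fun X Y => (nu (bl X Y Sg) : ℝ)) =
      Ex (fun i => if i ∈ I0 then 1 - u i else 0) (fun X' =>
        Ex (fun j => if j ∈ J0 then 1 - v j else 0) (fun Y' => nuD Sg X' Y')) := by
  have e1 := fc_Ex I0 u (fun X' =>
    Ex (fun j => if j ∈ J0 then 1 - v j else 0) (fun Y' => nuD Sg X' Y'))
  have e2 : ∀ X' : Finset I, Ex (fun j => if j ∈ J0 then 1 - v j else 0)
      (fun Y' => nuD Sg X' Y') = ∑ Y ∈ J0.powerset, wt J0 Y v * nuD Sg X' (J0 \ Y) :=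
    fun X' => fc_Ex J0 v (fun Y' => nuD Sg X' Y')
  simp only [e2] at e1 ⊢
  rw [e1]
  unfold Coin
  refine Finset.sum_congr rfl (fun X _ => ?_)
  rw [Finset.mul_sum]
  refine Finset.sum_congr rfl (fun Y _ => ?_)
  have e3 : (nu (bl X Y Sg) : ℝ) = nuD Sg (I0 \ X) (J0 \ Y) := by
    unfold nuD
    congr 2
    ext e
    rw [mem_bl, Finset.mem_filter, Finset.mem_sdiff, Finset.mem_sdiff]
    constructor
    · rintro ⟨h1, h2, h3⟩
      exact ⟨h1, fun h => h.2 h2, fun h => h.2 h3⟩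
    · rintro ⟨h1, h2, h3⟩
      have h4 := hSg e h1
      refine ⟨h1, ?_, ?_⟩
      · by_contra h5
        exact h2 ⟨h4.1, h5⟩
      · by_contra h5
        exact h3 ⟨h4.2, h5⟩
  show wt I0 X u * wt J0 Y v * (nu (bl X Y Sg) : ℝ) =
    wt I0 X u * (wt J0 Y v * nuD Sg (I0 \ X) (J0 \ Y))
  rw [e3]
  ring

theorem Lg {p : I × J → ℝ} {t : ℝ} (hp : Sub p t) (ht : t < 1) (I0 : Finset I)
    (J0 : Finset J) (k : ℕ) (hI : I0.card ≤ k) (hJ : J0.card ≤ k) {w δ : ℝ} (hw : 0 ≤ w) (hδ : 0 ≤ δ)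
    (h1 : ∀ i ∈ I0, ∀ j, j ∉ J0 → p (i, j) ≤ w) (h2 : ∀ i, i ∉ I0 → ∀ j ∈ J0, p (i, j) ≤ w)
    (u : I → ℝ) (v : J → ℝ) (u0 : ∀ i, 0 ≤ u i) (u1 : ∀ i, u i ≤ 1) (v0 : ∀ j, 0 ≤ v j)
    (v1 : ∀ j, v j ≤ 1)
    (hu : ∀ i ∈ I0, Ex p (fun E => |U p i (Rb I0 J0 E) - u i|) ≤ δ)
    (hv : ∀ j ∈ J0, Ex p (fun E => |U (pt p) j (Lb I0 J0 E) - v j|) ≤ δ)
    (Sg : Finset (I × J)) (hSg : ∀ e ∈ Sg, e.1 ∈ I0 ∧ e.2 ∈ J0) :
    |Ex p (fun E => (nu (sg I0 J0 Sg E) : ℝ)) - (Ex p (fun E => (nu (del I0 J0 E) : ℝ)) +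
      ∑ i ∈ I0, (1 - u i) + ∑ j ∈ J0, (1 - v j) +
      Ex (fun i => if i ∈ I0 then 1 - u i else 0) (fun X' =>
        Ex (fun j => if j ∈ J0 then 1 - v j else 0) (fun Y' => nuD Sg X' Y')))| ≤
      CLN k t * w + 4 * k * δ := by
  have h0' := hp.h0
  have h1' := hp.le_one ht
  have cI : (I0.card : ℝ) ≤ k := by exact_mod_cast hI
  have cJ : (J0.card : ℝ) ≤ k := by exact_mod_cast hJ
  have m1 := LN hp ht I0 J0 k hI hJ hw h1 h2 Sg hSg
  have hRb : ∀ i ∈ I0, ∀ E : Finset (I × J), JN.Rb I0 J0 (dR i E) = JN.Rb I0 J0 E :=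
    fun i hi E => by unfold JN.Rb; rw [del_dR hi]
  have hLb' : ∀ j ∈ J0, ∀ E : Finset (I × J), JN.Lb I0 J0 (dC j E) = JN.Lb I0 J0 E :=
    fun j hj E => by unfold JN.Lb; rw [del_dC I0 hj]
  have hU01 : ∀ (i : I) (Q : Finset J), 0 ≤ U p i Q ∧ U p i Q ≤ 1 := by
    intro i Q
    unfold U
    exact ⟨Finset.prod_nonneg (fun j _ => by linarith [h1' (i, j)]),
      Finset.prod_le_one (fun j _ => by linarith [h1' (i, j)])
        (fun j _ => by linarith [h0' (i, j)])⟩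
  have hV01 : ∀ (j : J) (Q : Finset I), 0 ≤ U (pt p) j Q ∧ U (pt p) j Q ≤ 1 := by
    intro j Q
    unfold U pt
    exact ⟨Finset.prod_nonneg (fun i _ => by linarith [h1' (j, i).swap]),
      Finset.prod_le_one (fun i _ => by linarith [h1' (j, i).swap])
        (fun i _ => by linarith [h0' (j, i).swap])⟩
  set CH : (I → ℝ) → (J → ℝ) → ℝ := fun u v => Ex (fun i => if i ∈ I0 then 1 - u i else 0)
    (fun X' => Ex (fun j => if j ∈ J0 then 1 - v j else 0) (fun Y' => nuD Sg X' Y')) with hCH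
  have hval : Ex p (fun E => (LV I0 J0 (sg I0 J0 Sg E) : ℝ)) =
      Ex p (fun E => (nu (del I0 J0 E) : ℝ)) +
      (∑ i ∈ I0, (1 - Ex p (fun E => U p i (Rb I0 J0 E)))) +
      (∑ j ∈ J0, (1 - Ex p (fun E => U (pt p) j (Lb I0 J0 E)))) +
      Ex p (fun E => CH (fun i => U p i (Rb I0 J0 E)) (fun j => U (pt p) j (Lb I0 J0 E))) := by
    rw [Ex_congr p (fun E => LV_sg hSg E), Ex_add, Ex_add, Ex_add, Ex_sum, Ex_sum]
    have hA := alive_law p I0 J0 (fun X Y => (nu (bl X Y Sg) : ℝ))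
    have hA2 : ∀ E : Finset (I × J), Coin I0 J0 (fun i => U p i (JN.Rb I0 J0 E))
        (fun j => U (pt p) j (JN.Lb I0 J0 E)) (fun X Y => (nu (bl X Y Sg) : ℝ)) =
        CH (fun i => U p i (Rb I0 J0 E)) (fun j => U (pt p) j (Lb I0 J0 E)) :=
      fun E => lg_coin I0 J0 _ _ Sg hSg
    rw [Ex_congr p hA2] at hA
    refine congrArg₂ (· + ·) ?_ hA
    refine congrArg₂ (· + ·) ?_ ?_
    · refine congrArg₂ (· + ·) rfl ?_
      refine Finset.sum_congr rfl (fun i hi => ?_)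
      rw [Ex_sub, Ex_const, Ex_avQ p i (JN.Rb I0 J0) (hRb i hi)]
      rfl
    · refine Finset.sum_congr rfl (fun j hj => ?_)
      rw [Ex_sub, Ex_const, Ex_avcQ p j (JN.Lb I0 J0) (hLb' j hj)]
      rfl
  have d1 : |(∑ i ∈ I0, (1 - Ex p (fun E => U p i (Rb I0 J0 E)))) - ∑ i ∈ I0, (1 - u i)| ≤
      k * δ := by
    rw [← Finset.sum_sub_distrib]
    refine (Finset.abs_sum_le_sum_abs _ _).trans ?_
    have h3 : ∀ i ∈ I0, |1 - Ex p (fun E => U p i (Rb I0 J0 E)) - (1 - u i)| ≤ δ := by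
      intro i hi
      have e : 1 - Ex p (fun E => U p i (Rb I0 J0 E)) - (1 - u i) =
          -(Ex p (fun E => U p i (Rb I0 J0 E) - u i)) := by
        rw [Ex_sub, Ex_const]; ring
      rw [e, abs_neg]
      exact (lg_abs h0' h1' _).trans (hu i hi)
    refine (Finset.sum_le_sum h3).trans ?_
    rw [Finset.sum_const, nsmul_eq_mul]
    exact mul_le_mul_of_nonneg_right cI hδ
  have d2 : |(∑ j ∈ J0, (1 - Ex p (fun E => U (pt p) j (Lb I0 J0 E)))) -
      ∑ j ∈ J0, (1 - v j)| ≤ k * δ := by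
    rw [← Finset.sum_sub_distrib]
    refine (Finset.abs_sum_le_sum_abs _ _).trans ?_
    have h3 : ∀ j ∈ J0, |1 - Ex p (fun E => U (pt p) j (Lb I0 J0 E)) - (1 - v j)| ≤ δ := by
      intro j hj
      have e : 1 - Ex p (fun E => U (pt p) j (Lb I0 J0 E)) - (1 - v j) =
          -(Ex p (fun E => U (pt p) j (Lb I0 J0 E) - v j)) := by
        rw [Ex_sub, Ex_const]; ring
      rw [e, abs_neg]
      exact (lg_abs h0' h1' _).trans (hv j hj)
    refine (Finset.sum_le_sum h3).trans ?_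
    rw [Finset.sum_const, nsmul_eq_mul]
    exact mul_le_mul_of_nonneg_right cJ hδ
  have d3 : |Ex p (fun E => CH (fun i => U p i (Rb I0 J0 E))
      (fun j => U (pt p) j (Lb I0 J0 E))) - CH u v| ≤ 2 * k * δ := by
    have e : Ex p (fun E => CH (fun i => U p i (Rb I0 J0 E))
        (fun j => U (pt p) j (Lb I0 J0 E))) - CH u v =
        Ex p (fun E => CH (fun i => U p i (Rb I0 J0 E))
          (fun j => U (pt p) j (Lb I0 J0 E)) - CH u v) := by
      rw [Ex_sub, Ex_const]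
    rw [e]
    refine (lg_abs h0' h1' _).trans ?_
    have h3 : ∀ E : Finset (I × J), |CH (fun i => U p i (Rb I0 J0 E))
        (fun j => U (pt p) j (Lb I0 J0 E)) - CH u v| ≤
        (∑ i ∈ I0, |U p i (Rb I0 J0 E) - u i|) +
          ∑ j ∈ J0, |U (pt p) j (Lb I0 J0 E) - v j| := by
      intro E
      have h4 := lg_lip Sg
        (u := fun i => if i ∈ I0 then 1 - U p i (Rb I0 J0 E) else 0)
        (u' := fun i => if i ∈ I0 then 1 - u i else 0)
        (v := fun j => if j ∈ J0 then 1 - U (pt p) j (Lb I0 J0 E) else 0)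
        (v' := fun j => if j ∈ J0 then 1 - v j else 0)
        (fun i => (lg_if I0 _ (fun i => (hU01 i _).1) (fun i => (hU01 i _).2) i).1)
        (fun i => (lg_if I0 _ (fun i => (hU01 i _).1) (fun i => (hU01 i _).2) i).2)
        (fun i => (lg_if I0 u u0 u1 i).1) (fun i => (lg_if I0 u u0 u1 i).2)
        (fun j => (lg_if J0 _ (fun j => (hV01 j _).1) (fun j => (hV01 j _).2) j).1)
        (fun j => (lg_if J0 _ (fun j => (hV01 j _).1) (fun j => (hV01 j _).2) j).2)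
        (fun j => (lg_if J0 v v0 v1 j).1) (fun j => (lg_if J0 v v0 v1 j).2)
      refine h4.trans (le_of_eq ?_)
      congr 1
      · have h5 : ∀ i, |(if i ∈ I0 then 1 - U p i (Rb I0 J0 E) else 0) -
            (if i ∈ I0 then 1 - u i else 0)| =
            if i ∈ I0 then |U p i (Rb I0 J0 E) - u i| else 0 := by
          intro i
          split_ifs
          · rw [← abs_neg]; congr 1; ring
          · simp
        rw [Finset.sum_congr rfl (fun i _ => h5 i), Finset.sum_ite_mem, Finset.univ_inter]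
      · have h5 : ∀ j, |(if j ∈ J0 then 1 - U (pt p) j (Lb I0 J0 E) else 0) -
            (if j ∈ J0 then 1 - v j else 0)| =
            if j ∈ J0 then |U (pt p) j (Lb I0 J0 E) - v j| else 0 := by
          intro j
          split_ifs
          · rw [← abs_neg]; congr 1; ring
          · simp
        rw [Finset.sum_congr rfl (fun j _ => h5 j), Finset.sum_ite_mem, Finset.univ_inter]
    refine (Ex_mono h0' h1' h3).trans ?_
    rw [Ex_add, Ex_sum, Ex_sum]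
    have h4 : (∑ i ∈ I0, Ex p (fun E => |U p i (Rb I0 J0 E) - u i|)) ≤ k * δ := by
      refine (Finset.sum_le_sum hu).trans ?_
      rw [Finset.sum_const, nsmul_eq_mul]
      exact mul_le_mul_of_nonneg_right cI hδ
    have h5 : (∑ j ∈ J0, Ex p (fun E => |U (pt p) j (Lb I0 J0 E) - v j|)) ≤ k * δ := by
      refine (Finset.sum_le_sum hv).trans ?_
      rw [Finset.sum_const, nsmul_eq_mul]
      exact mul_le_mul_of_nonneg_right cJ hδ
    linarith
  have hfin : Ex (fun i => if i ∈ I0 then 1 - u i else 0) (fun X' =>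
        Ex (fun j => if j ∈ J0 then 1 - v j else 0) (fun Y' => nuD Sg X' Y')) = CH u v := rfl
  rw [hfin]
  rw [hval] at m1
  rw [abs_le] at m1 d1 d2 d3 ⊢
  constructor <;> linarith [m1.1, m1.2, d1.1, d1.2, d2.1, d2.2, d3.1, d3.2]

end Pool.JN2
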