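import Pool.Agent.JN2.D3

/-! Module Pl (difficulty 2-3). Marginals along an embedding; resampling the block.

PROOF. (1) Ex_pull: for an injective g : α → β: Ex p (fun E => f (pull g E)) = Ex (fun x => p (g x)) f. Write Ex p as a sum over E; E ↦ (pull g E, E \ range) is a bijection; the weight W p E is the product of
   W (p ∘ g) (pull g E) and the product over the complement, which sums to 1. Or induction with Ex_toggle / Ex_split; or: by KX.up_sdiff-type argument f (pull g E) does not depend on the edges outside the range,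
   Ex_mix ... Choose the simplest (e.g. Finset.prod over univ = prod over univ.map g * prod over the complement, Finset.sum over powersets via Finset.sum_product, Finset.prod_add for the complement sum = 1).
 (2) Ex_block: ε = emb ι κ, Z = I0 ×ˢ J0 with I0 = univ.map ι, J0 = univ.map κ. Ex p F = Ex (p ∘ ε) (fun S => Ex p (fun E => F (sg I0 J0 (S.map ε) E))): Ex_mix (ES.lean) with this Z: mix Z E E' = (E \ Z) ∪ (E' ∩ Z)
   = sg I0 J0 ((pull ε E').map ε) E (E0 I0 J0 E = E \ bl I0 J0 E = E \ Z; E' ∩ Z = (pull ε E').map ε), exchange of the two expectations (Ex_comm: finite sums), then Ex_pull.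
 (3) nu_map: nu (S.map (emb ι κ)) = nu S (matchings correspond under an injective map of rows and columns).
 (4) nuD_map: nuD (S.map (emb ι κ)) X' Y' = nuD S (pull ι X') (pull κ Y').
 (5) Ex_two_pull: for u : I → ℝ, v : J → ℝ: Ex u (fun X' => Ex v (fun Y' => nuD (S.map (emb ι κ)) X' Y')) = Ex (u ∘ ι) (fun X' => Ex (v ∘ κ) (fun Y' => nuD S X' Y')) by (4) and (1) twice.
-/

namespace Pool.JN2

open Finset Pool.KS Pool.JN

set_option linter.unusedSectionVars false

theorem pl_prod {β : Type*} [Fintype β] [DecidableEq β] (P Q : β → ℝ) :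
    ∑ E : Finset β, ∏ e, (if e ∈ E then P e else Q e) = ∏ e, (P e + Q e) := by
  rw [Finset.prod_add, Finset.powerset_univ]
  refine Finset.sum_congr rfl (fun E _ => ?_)
  rw [Finset.prod_ite]
  congr 1
  · exact Finset.prod_congr (by ext x; simp) (fun _ _ => rfl)
  · exact Finset.prod_congr (by ext x; simp) (fun _ _ => rfl)

theorem pl_comm {β : Type*} [Fintype β] [DecidableEq β] (p : β → ℝ)
    (f : Finset β → Finset β → ℝ) :
    Ex p (fun E => Ex p (fun E' => f E E')) = Ex p (fun E' => Ex p (fun E => f E E')) := by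
  unfold Ex
  simp only [Finset.mul_sum]
  rw [Finset.sum_comm]
  refine Finset.sum_congr rfl (fun E _ => Finset.sum_congr rfl (fun E' _ => ?_))
  ring

theorem pl_marg {α β : Type*} [Fintype α] [Fintype β] [DecidableEq α] [DecidableEq β]
    (p : β → ℝ) {g : α → β} (hg : Function.Injective g) (A : Finset α) :
    ∑ E : Finset β, (if pull g E = A then W p E else 0) = W (fun x => p (g x)) A := by
  classical
  set u : β → ℝ := fun e => if ∃ x, g x = e ∧ x ∉ A then 0 else 1 with hu
  set v : β → ℝ := fun e => if ∃ x, g x = e ∧ x ∈ A then 0 else 1 with hv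
  have h1 : ∀ E : Finset β, (if pull g E = A then W p E else 0) =
      ∏ e, (if e ∈ E then p e * u e else (1 - p e) * v e) := by
    intro E
    by_cases hE : pull g E = A
    · rw [if_pos hE]
      unfold W
      refine Finset.prod_congr rfl (fun e _ => ?_)
      by_cases he : e ∈ E
      · rw [if_pos he, if_pos he]
        have h2 : u e = 1 := by
          rw [hu]
          refine if_neg ?_
          rintro ⟨x, hx, hxA⟩
          apply hxA
          rw [← hE]
          unfold pull
          rw [Finset.mem_filter]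
          exact ⟨Finset.mem_univ _, by rw [hx]; exact he⟩
        rw [h2, mul_one]
      · rw [if_neg he, if_neg he]
        have h2 : v e = 1 := by
          rw [hv]
          refine if_neg ?_
          rintro ⟨x, hx, hxA⟩
          apply he
          rw [← hE] at hxA
          unfold pull at hxA
          rw [Finset.mem_filter] at hxA
          rw [← hx]
          exact hxA.2
        rw [h2, mul_one]
    · rw [if_neg hE]
      have h3 : ∃ x, ¬ (g x ∈ E ↔ x ∈ A) := by
        by_contra h4
        push Not at h4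
        apply hE
        ext x
        unfold pull
        rw [Finset.mem_filter]
        simp only [Finset.mem_univ, true_and]
        exact h4 x
      obtain ⟨x, hx⟩ := h3
      symm
      refine Finset.prod_eq_zero (Finset.mem_univ (g x)) ?_
      by_cases hgx : g x ∈ E
      · rw [if_pos hgx]
        have hxA : x ∉ A := fun h => hx ⟨fun _ => h, fun _ => hgx⟩
        have h2 : u (g x) = 0 := by
          rw [hu]
          exact if_pos ⟨x, rfl, hxA⟩
        rw [h2, mul_zero]
      · rw [if_neg hgx]
        have hxA : x ∈ A := by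
          by_contra h
          exact hx ⟨fun h' => absurd h' hgx, fun h' => absurd h' h⟩
        have h2 : v (g x) = 0 := by
          rw [hv]
          exact if_pos ⟨x, rfl, hxA⟩
        rw [h2, mul_zero]
  rw [Finset.sum_congr rfl (fun E _ => h1 E), pl_prod]
  have h5 : ∏ e ∈ univ.image g, (p e * u e + (1 - p e) * v e) =
      ∏ e, (p e * u e + (1 - p e) * v e) := by
    refine Finset.prod_subset (Finset.subset_univ _) (fun e _ he => ?_)
    have hn : ∀ x, g x ≠ e := by
      intro x hx
      exact he (Finset.mem_image.mpr ⟨x, Finset.mem_univ _, hx⟩)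
    have h6 : u e = 1 := by
      rw [hu]
      refine if_neg ?_
      rintro ⟨x, hx, _⟩
      exact hn x hx
    have h7 : v e = 1 := by
      rw [hv]
      refine if_neg ?_
      rintro ⟨x, hx, _⟩
      exact hn x hx
    rw [h6, h7]
    ring
  rw [← h5, Finset.prod_image (fun x _ y _ h => hg h)]
  unfold W
  refine Finset.prod_congr rfl (fun x _ => ?_)
  by_cases hx : x ∈ A
  · have h6 : u (g x) = 1 := by
      rw [hu]
      refine if_neg ?_
      rintro ⟨y, hy, hyA⟩
      rw [hg hy] at hyA
      exact hyA hx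
    have h7 : v (g x) = 0 := by
      rw [hv]
      exact if_pos ⟨x, rfl, hx⟩
    rw [h6, h7, if_pos hx]
    ring
  · have h6 : u (g x) = 0 := by
      rw [hu]
      exact if_pos ⟨x, rfl, hx⟩
    have h7 : v (g x) = 1 := by
      rw [hv]
      refine if_neg ?_
      rintro ⟨y, hy, hyA⟩
      rw [hg hy] at hyA
      exact hx hyA
    rw [h6, h7, if_neg hx]
    ring

theorem Ex_pull {α β : Type*} [Fintype α] [Fintype β] [DecidableEq α] [DecidableEq β]
    (p : β → ℝ) {g : α → β} (hg : Function.Injective g) (f : Finset α → ℝ) :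
    Ex p (fun E => f (pull g E)) = Ex (fun x => p (g x)) f := by
  unfold Ex
  have h1 : ∀ A : Finset α, W (fun x => p (g x)) A * f A =
      ∑ E : Finset β, (if pull g E = A then W p E * f A else 0) := by
    intro A
    rw [← pl_marg p hg A, Finset.sum_mul]
    refine Finset.sum_congr rfl (fun E _ => ?_)
    split_ifs
    · rfl
    · rw [zero_mul]
  rw [Finset.sum_congr rfl (fun A _ => h1 A), Finset.sum_comm]
  refine Finset.sum_congr rfl (fun E _ => ?_)
  rw [Finset.sum_ite_eq, if_pos (Finset.mem_univ _)]

variable {I J K1 K2 : Type*} [Fintype I] [Fintype J] [DecidableEq I] [DecidableEq J]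
  [Fintype K1] [Fintype K2] [DecidableEq K1] [DecidableEq K2]

theorem Ex_block (p : I × J → ℝ) (ι : K1 ↪ I) (κ : K2 ↪ J) (F : Finset (I × J) → ℝ) :
    Ex p F = Ex (fun x => p (emb ι κ x)) (fun S => Ex p (fun E =>
      F (sg (univ.map ι) (univ.map κ) (S.map (emb ι κ)) E))) := by
  rw [← Ex_pull p (emb ι κ).injective (fun S => Ex p (fun E =>
      F (sg (univ.map ι) (univ.map κ) (S.map (emb ι κ)) E)))]
  have h1 : ∀ E E' : Finset (I × J), sg (univ.map ι) (univ.map κ)
      ((pull (emb ι κ) E').map (emb ι κ)) E = mix (univ.map (emb ι κ)) E E' := by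
    intro E E'
    ext x
    have hZ : x ∈ univ.map (emb ι κ) ↔ x.1 ∈ univ.map ι ∧ x.2 ∈ univ.map κ := by
      rw [Finset.mem_map, Finset.mem_map, Finset.mem_map]
      constructor
      · rintro ⟨y, _, hy⟩
        refine ⟨⟨y.1, Finset.mem_univ _, ?_⟩, ⟨y.2, Finset.mem_univ _, ?_⟩⟩
        · rw [← hy]; rfl
        · rw [← hy]; rfl
      · rintro ⟨⟨a, _, ha⟩, ⟨c, _, hc⟩⟩
        refine ⟨(a, c), Finset.mem_univ _, ?_⟩
        exact Prod.ext ha hc
    have hP : x ∈ (pull (emb ι κ) E').map (emb ι κ) ↔ x ∈ univ.map (emb ι κ) ∧ x ∈ E' := by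
      unfold pull
      rw [Finset.mem_map, Finset.mem_map]
      constructor
      · rintro ⟨y, hy, hyx⟩
        rw [Finset.mem_filter] at hy
        refine ⟨⟨y, Finset.mem_univ _, hyx⟩, ?_⟩
        rw [← hyx]
        exact hy.2
      · rintro ⟨⟨y, _, hyx⟩, hx⟩
        refine ⟨y, ?_, hyx⟩
        rw [Finset.mem_filter]
        refine ⟨Finset.mem_univ _, ?_⟩
        rw [hyx]
        exact hx
    rw [mem_mix, hZ]
    unfold sg
    rw [Finset.mem_union, mem_E0, hP, hZ]
    tauto
  simp only [h1]
  rw [pl_comm p (fun E' E => F (mix (univ.map (emb ι κ)) E E'))]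
  exact (Ex_mix p (univ.map (emb ι κ)) F).symm

theorem nu_map (ι : K1 ↪ I) (κ : K2 ↪ J) (S : Finset (K1 × K2)) :
    nu (S.map (emb ι κ)) = nu S := by
  refine le_antisymm ?_ ?_
  · obtain ⟨M, hs, hM, hc⟩ := exists_max (S.map (emb ι κ))
    rw [← hc]
    have h1 : M = (pull (emb ι κ) M).map (emb ι κ) := by
      ext x
      unfold pull
      rw [Finset.mem_map]
      constructor
      · intro hx
        obtain ⟨y, _, hyx⟩ := Finset.mem_map.mp (hs hx)
        refine ⟨y, ?_, hyx⟩
        rw [Finset.mem_filter]
        refine ⟨Finset.mem_univ _, ?_⟩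
        rw [hyx]
        exact hx
      · rintro ⟨y, hy, hyx⟩
        rw [Finset.mem_filter] at hy
        rw [← hyx]
        exact hy.2
    rw [h1, Finset.card_map]
    refine card_le_nu ?_ ?_
    · intro e he e' he' hh
      unfold pull at he he'
      rw [Finset.mem_filter] at he he'
      have h2 := hM _ he.2 _ he'.2 (by
        rcases hh with hh | hh
        · left
          show ι e.1 = ι e'.1
          rw [hh]
        · right
          show κ e.2 = κ e'.2
          rw [hh])
      exact (emb ι κ).injective h2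
    · intro e he
      unfold pull at he
      rw [Finset.mem_filter] at he
      have h2 := hs he.2
      obtain ⟨y, hy, hye⟩ := Finset.mem_map.mp h2
      rw [← (emb ι κ).injective hye]
      exact hy
  · obtain ⟨M, hs, hM, hc⟩ := exists_max S
    rw [← hc, ← Finset.card_map (emb ι κ)]
    refine card_le_nu ?_ (Finset.map_subset_map.mpr hs)
    intro e he e' he' hh
    obtain ⟨y, hy, rfl⟩ := Finset.mem_map.mp he
    obtain ⟨y', hy', rfl⟩ := Finset.mem_map.mp he'
    congr 1
    refine hM y hy y' hy' ?_
    rcases hh with hh | hh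
    · left
      exact ι.injective hh
    · right
      exact κ.injective hh

theorem nuD_map (ι : K1 ↪ I) (κ : K2 ↪ J) (S : Finset (K1 × K2)) (X' : Finset I)
    (Y' : Finset J) :
    nuD (S.map (emb ι κ)) X' Y' = nuD S (pull ι X') (pull κ Y') := by
  unfold nuD
  have h1 : (S.map (emb ι κ)).filter (fun e => e.1 ∉ X' ∧ e.2 ∉ Y') =
      (S.filter (fun e => e.1 ∉ pull ι X' ∧ e.2 ∉ pull κ Y')).map (emb ι κ) := by
    ext x
    rw [Finset.mem_filter, Finset.mem_map, Finset.mem_map]
    unfold pull
    constructor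
    · rintro ⟨⟨y, hy, rfl⟩, hx1, hx2⟩
      refine ⟨y, ?_, rfl⟩
      rw [Finset.mem_filter, Finset.mem_filter, Finset.mem_filter]
      exact ⟨hy, fun h => hx1 h.2, fun h => hx2 h.2⟩
    · rintro ⟨y, hy, rfl⟩
      rw [Finset.mem_filter, Finset.mem_filter, Finset.mem_filter] at hy
      exact ⟨⟨y, hy.1, rfl⟩, fun h => hy.2.1 ⟨Finset.mem_univ _, h⟩,
        fun h => hy.2.2 ⟨Finset.mem_univ _, h⟩⟩
  rw [h1, nu_map]

theorem Ex_two_pull (ι : K1 ↪ I) (κ : K2 ↪ J) (S : Finset (K1 × K2)) (u : I → ℝ)
    (v : J → ℝ) :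
    Ex u (fun X' => Ex v (fun Y' => nuD (S.map (emb ι κ)) X' Y')) =
      Ex (fun a => u (ι a)) (fun X' => Ex (fun c => v (κ c)) (fun Y' => nuD S X' Y')) := by
  simp only [nuD_map]
  have h1 : ∀ X' : Finset I, Ex v (fun Y' => nuD S (pull ι X') (pull κ Y')) =
      Ex (fun c => v (κ c)) (fun Y' => nuD S (pull ι X') Y') := by
    intro X'
    exact Ex_pull v κ.injective (fun Y' => nuD S (pull ι X') Y')
  rw [Ex_congr u h1]
  exact Ex_pull u ι.injective (fun X' => Ex (fun c => v (κ c)) (fun Y' => nuD S X' Y'))

end Pool.JN2
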