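import Pool.Agent.JN2.Rc

/-! Module Ub (difficulty 2-3). A flat special row misses the bulk with probability exp (-ρ l) + O(1/sqrt n).

PROOF. R = Rb I0 J0 E, n = card I ≥ 1. (1) |∏_{R} (1 - p) - exp (- sum_R p)| ≤ sum_R p^2 (prod_exp: telescoping |∏ a - ∏ b| ≤ sum |a - b| for a, b ∈ [0,1] and 0 ≤ exp(-x) - (1-x) ≤ x^2 for 0 ≤ x ≤ 1;
   induction on the set). sum_R p(i,j)^2 ≤ (c/n) sum_j p(i,j) ≤ c/n (R ∩ J0 = ∅, entries ≤ c/n).
 (2) |sum_R p - ρ |R|/n| ≤ sum_{j ∉ J0} |p(i,j) - ρ/n| ≤ c/n. (3) |ρ |R|/n - ρ l| ≤ ||R| - l n| / n (0 ≤ ρ ≤ 1). exp(-x) is 1-Lipschitz on x ≥ 0 (all arguments ≥ 0; l > 0).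
 Sum: Ex |U - exp(-ρ l)| ≤ 2 c / n + (k+1) CT X sqrt n / n (Rb_conc) ≤ (2 c + (k+1) CT X) / sqrt n.
 U_flat_col: the same for pt p, Lb (or transposition).
-/

namespace Pool.JN2

open Finset Pool.KS Pool.JN

set_option linter.unusedSectionVars false

theorem ub_exp_bound {x : ℝ} (h0 : 0 ≤ x) (h1 : x ≤ 1) : |(1 - x) - Real.exp (-x)| ≤ x ^ 2 := by
  have h2 := Real.add_one_le_exp (-x)
  have h3 : Real.exp (-x) ≤ 1 - x + x ^ 2 := by
    have h4 : |(-x)| ≤ 1 := by rw [abs_neg, abs_of_nonneg h0]; exact h1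
    have h5 := Real.abs_exp_sub_one_sub_id_le h4
    rw [abs_le] at h5
    nlinarith [h5.2]
  rw [abs_le]
  constructor <;> nlinarith

theorem prod_exp {κ : Type*} (s : Finset κ) {f : κ → ℝ} (h0 : ∀ k ∈ s, 0 ≤ f k)
    (h1 : ∀ k ∈ s, f k ≤ 1) :
    |∏ k ∈ s, (1 - f k) - Real.exp (-∑ k ∈ s, f k)| ≤ ∑ k ∈ s, f k ^ 2 := by
  classical
  induction s using Finset.induction_on with
  | empty => simp
  | insert a s ha ih =>
    have ih' := ih (fun k hk => h0 k (Finset.mem_insert_of_mem hk))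
      (fun k hk => h1 k (Finset.mem_insert_of_mem hk))
    have a0 := h0 a (Finset.mem_insert_self a s)
    have a1 := h1 a (Finset.mem_insert_self a s)
    rw [Finset.prod_insert ha, Finset.sum_insert ha, Finset.sum_insert ha, neg_add, Real.exp_add]
    have h2 := ub_exp_bound a0 a1
    have h3 : 0 ≤ ∑ k ∈ s, f k := Finset.sum_nonneg fun k hk => h0 k (Finset.mem_insert_of_mem hk)
    have h4 : Real.exp (-∑ k ∈ s, f k) ≤ 1 := by
      rw [Real.exp_le_one_iff]; linarith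
    have h5 := Real.exp_pos (-∑ k ∈ s, f k)
    have e : (1 - f a) * ∏ k ∈ s, (1 - f k) - Real.exp (-f a) * Real.exp (-∑ k ∈ s, f k) =
        (1 - f a) * (∏ k ∈ s, (1 - f k) - Real.exp (-∑ k ∈ s, f k)) +
        ((1 - f a) - Real.exp (-f a)) * Real.exp (-∑ k ∈ s, f k) := by ring
    rw [e]
    refine (abs_add_le _ _).trans ?_
    rw [abs_mul, abs_mul, abs_of_nonneg (show (0 : ℝ) ≤ 1 - f a by linarith), abs_of_pos h5]
    have h6 : (1 - f a) * |∏ k ∈ s, (1 - f k) - Real.exp (-∑ k ∈ s, f k)| ≤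
        1 * ∑ k ∈ s, f k ^ 2 :=
      mul_le_mul (by linarith) ih' (abs_nonneg _) zero_le_one
    have h7 : |(1 - f a) - Real.exp (-f a)| * Real.exp (-∑ k ∈ s, f k) ≤ f a ^ 2 * 1 :=
      mul_le_mul h2 h4 h5.le (sq_nonneg _)
    linarith

theorem ub_lip {a b : ℝ} (ha : 0 ≤ a) (hb : 0 ≤ b) :
    |Real.exp (-a) - Real.exp (-b)| ≤ |a - b| := by
  have key : ∀ a b : ℝ, 0 ≤ a → a ≤ b → Real.exp (-a) - Real.exp (-b) ≤ b - a := by
    intro a b ha hab
    have h1 := Real.add_one_le_exp (-(b - a))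
    have h2 : Real.exp (-b) = Real.exp (-a) * Real.exp (-(b - a)) := by
      rw [← Real.exp_add]; congr 1; ring
    have h3 : Real.exp (-a) ≤ 1 := by rw [Real.exp_le_one_iff]; linarith
    have h4 := Real.exp_pos (-a)
    have h5 : Real.exp (-a) * (1 - Real.exp (-(b - a))) ≤ 1 * (b - a) := by
      refine mul_le_mul h3 (by linarith) ?_ zero_le_one
      have : Real.exp (-(b - a)) ≤ 1 := by rw [Real.exp_le_one_iff]; linarith
      linarith
    rw [h2]
    linarith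
  rcases le_total a b with h | h
  · have h1 := key a b ha h
    have h2 : Real.exp (-b) ≤ Real.exp (-a) := Real.exp_le_exp.2 (by linarith)
    rw [abs_of_nonneg (by linarith), abs_of_nonpos (by linarith)]
    linarith
  · have h1 := key b a hb h
    have h2 : Real.exp (-a) ≤ Real.exp (-b) := Real.exp_le_exp.2 (by linarith)
    rw [abs_of_nonpos (by linarith), abs_of_nonneg (by linarith)]
    linarith

/-- the deterministic estimate for one row -/
theorem ub_key {κ : Type*} [Fintype κ] [DecidableEq κ] {q : κ → ℝ} {J0 R : Finset κ}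
    (hR : R ⊆ univ \ J0) {n c ρ l : ℝ} (hn : 0 < n) (q0 : ∀ j, 0 ≤ q j) (q1 : ∀ j, q j ≤ 1)
    (qs : ∑ j, q j ≤ 1) (c0 : 0 ≤ c) (r0 : 0 ≤ ρ) (r1 : ρ ≤ 1) (l0 : 0 ≤ l)
    (h1 : ∀ j, j ∉ J0 → q j ≤ c / n) (h2 : ∑ j ∈ univ \ J0, |q j - ρ / n| ≤ c / n) :
    |∏ j ∈ R, (1 - q j) - Real.exp (-(ρ * l))| ≤ 2 * c / n + |(R.card : ℝ) - l * n| / n := by
  have a1 := prod_exp R (fun j _ => q0 j) (fun j _ => q1 j)
  have a2 : ∑ j ∈ R, q j ^ 2 ≤ c / n := by
    calc ∑ j ∈ R, q j ^ 2 ≤ ∑ j ∈ R, (c / n) * q j := by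
          refine Finset.sum_le_sum fun j hj => ?_
          have h3 := h1 j (by have := hR hj; simpa using this)
          have h4 := mul_le_mul_of_nonneg_right h3 (q0 j)
          nlinarith
      _ = (c / n) * ∑ j ∈ R, q j := by rw [Finset.mul_sum]
      _ ≤ (c / n) * 1 := by
          refine mul_le_mul_of_nonneg_left ?_ (by positivity)
          exact (Finset.sum_le_sum_of_subset_of_nonneg (Finset.subset_univ R)
            (fun j _ _ => q0 j)).trans qs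
      _ = c / n := mul_one _
  have a3 : |∑ j ∈ R, q j - ρ * ((R.card : ℝ) / n)| ≤ c / n := by
    have e : ∑ j ∈ R, q j - ρ * ((R.card : ℝ) / n) = ∑ j ∈ R, (q j - ρ / n) := by
      rw [Finset.sum_sub_distrib, Finset.sum_const, nsmul_eq_mul]
      ring
    rw [e]
    refine (Finset.abs_sum_le_sum_abs _ _).trans ?_
    exact (Finset.sum_le_sum_of_subset_of_nonneg hR (fun j _ _ => abs_nonneg _)).trans h2
  have a4 : |ρ * ((R.card : ℝ) / n) - ρ * l| ≤ |(R.card : ℝ) - l * n| / n := by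
    have e : ρ * ((R.card : ℝ) / n) - ρ * l = ρ * (((R.card : ℝ) - l * n) / n) := by
      field_simp
    rw [e, abs_mul, abs_of_nonneg r0, abs_div, abs_of_pos hn]
    have : 0 ≤ |(R.card : ℝ) - l * n| / n := by positivity
    nlinarith
  have a5 := ub_lip (a := ∑ j ∈ R, q j) (b := ρ * l) (Finset.sum_nonneg fun j _ => q0 j)
    (mul_nonneg r0 l0)
  have a6 : |∑ j ∈ R, q j - ρ * l| ≤ c / n + |(R.card : ℝ) - l * n| / n := by
    have e : ∑ j ∈ R, q j - ρ * l = (∑ j ∈ R, q j - ρ * ((R.card : ℝ) / n)) +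
        (ρ * ((R.card : ℝ) / n) - ρ * l) := by ring
    rw [e]
    exact (abs_add_le _ _).trans (add_le_add a3 a4)
  have e : ∏ j ∈ R, (1 - q j) - Real.exp (-(ρ * l)) =
      (∏ j ∈ R, (1 - q j) - Real.exp (-∑ j ∈ R, q j)) +
      (Real.exp (-∑ j ∈ R, q j) - Real.exp (-(ρ * l))) := by ring
  rw [e]
  refine (abs_add_le _ _).trans ?_
  have h3 : 2 * c / n = c / n + c / n := by ring
  rw [h3]
  linarith

theorem ub_fin {n K c C0 : ℝ} (hn : 1 ≤ n) (c0 : 0 ≤ c) (hK : K ≤ C0 * Real.sqrt n) :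
    2 * c / n + n⁻¹ * K ≤ (2 * c + C0) / Real.sqrt n := by
  have hn0 : 0 < n := by linarith
  have hs : 0 < Real.sqrt n := Real.sqrt_pos.2 hn0
  have h1 : Real.sqrt n ≤ n := by
    rw [Real.sqrt_le_left (by linarith)]
    nlinarith
  have h2 : n⁻¹ * K ≤ C0 / Real.sqrt n := by
    have h3 : n⁻¹ * K ≤ n⁻¹ * (C0 * Real.sqrt n) :=
      mul_le_mul_of_nonneg_left hK (by positivity)
    refine h3.trans (le_of_eq ?_)
    rw [eq_div_iff hs.ne', mul_assoc, mul_assoc, Real.mul_self_sqrt hn0.le]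
    field_simp
  have h4 : 2 * c / n ≤ 2 * c / Real.sqrt n :=
    div_le_div_of_nonneg_left (by linarith) hs h1
  rw [add_div]
  linarith

variable {I J : Type*} [Fintype I] [Fintype J] [DecidableEq I] [DecidableEq J]

theorem U_flat {l X : ℝ} (hl : Real.exp (-l) = l) {p : I × J → ℝ} (h : DX l X p)
    (hn : 1 ≤ Fintype.card I) (I0 : Finset I) (J0 : Finset J) {c ρ : ℝ} (c0 : 0 ≤ c)
    (r0 : 0 ≤ ρ) (r1 : ρ ≤ 1) (i : I) (h1 : ∀ j, j ∉ J0 → p (i, j) ≤ c / Fintype.card I)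
    (h2 : ∑ j ∈ univ \ J0, |p (i, j) - ρ / Fintype.card I| ≤ c / Fintype.card I) :
    Ex p (fun E => |U p i (Rb I0 J0 E) - Real.exp (-(ρ * l))|) ≤
      (2 * c + ((I0.card : ℝ) + J0.card + 1) * CT X) / Real.sqrt (Fintype.card I) := by
  have hn' : (1 : ℝ) ≤ (Fintype.card I : ℝ) := by exact_mod_cast hn
  have hn0 : (0 : ℝ) < (Fintype.card I : ℝ) := by linarith
  have l0 : 0 ≤ l := by rw [← hl]; exact (Real.exp_pos _).le
  have a1 : Ex p (fun E => |U p i (Rb I0 J0 E) - Real.exp (-(ρ * l))|) ≤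
      Ex p (fun E => 2 * c / (Fintype.card I : ℝ) +
        (Fintype.card I : ℝ)⁻¹ * |((Rb I0 J0 E).card : ℝ) - l * Fintype.card I|) := by
    refine Ex_mono h.h0 h.le_one fun E => ?_
    have h3 := ub_key (q := fun j => p (i, j)) (J0 := J0) (R := Rb I0 J0 E)
      (by unfold Rb; exact Finset.sdiff_subset_sdiff (Finset.subset_univ _) (Finset.Subset.refl _))
      hn0 (fun j => h.h0 _) (fun j => h.le_one _) (h.hr i).le c0 r0 r1 l0 h1 h2
    unfold U
    rw [inv_mul_eq_div]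
    exact h3
  refine a1.trans ?_
  rw [Ex_add, Ex_const, Ex_mul_left]
  exact ub_fin hn' c0 (Rb_conc hl h hn I0 J0)

theorem U_flat_col {l X : ℝ} (hl : Real.exp (-l) = l) {p : I × J → ℝ} (h : DX l X p)
    (hn : 1 ≤ Fintype.card I) (I0 : Finset I) (J0 : Finset J) {c ρ : ℝ} (c0 : 0 ≤ c)
    (r0 : 0 ≤ ρ) (r1 : ρ ≤ 1) (j : J) (h1 : ∀ i, i ∉ I0 → p (i, j) ≤ c / Fintype.card I)
    (h2 : ∑ i ∈ univ \ I0, |p (i, j) - ρ / Fintype.card I| ≤ c / Fintype.card I) :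
    Ex p (fun E => |U (pt p) j (Lb I0 J0 E) - Real.exp (-(ρ * l))|) ≤
      (2 * c + ((I0.card : ℝ) + J0.card + 1) * CT X) / Real.sqrt (Fintype.card I) := by
  have hn' : (1 : ℝ) ≤ (Fintype.card I : ℝ) := by exact_mod_cast hn
  have hn0 : (0 : ℝ) < (Fintype.card I : ℝ) := by linarith
  have l0 : 0 ≤ l := by rw [← hl]; exact (Real.exp_pos _).le
  have a1 : Ex p (fun E => |U (pt p) j (Lb I0 J0 E) - Real.exp (-(ρ * l))|) ≤
      Ex p (fun E => 2 * c / (Fintype.card I : ℝ) +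
        (Fintype.card I : ℝ)⁻¹ * |((Lb I0 J0 E).card : ℝ) - l * Fintype.card I|) := by
    refine Ex_mono h.h0 h.le_one fun E => ?_
    have h3 := ub_key (q := fun i => p (i, j)) (J0 := I0) (R := Lb I0 J0 E)
      (by unfold Lb; exact Finset.sdiff_subset_sdiff (Finset.subset_univ _) (Finset.Subset.refl _))
      hn0 (fun i => h.h0 _) (fun i => h.le_one _) (h.hc j).le c0 r0 r1 l0 h1 h2
    unfold U
    rw [inv_mul_eq_div]
    exact h3
  refine a1.trans ?_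
  rw [Ex_add, Ex_const, Ex_mul_left]
  exact ub_fin hn' c0 (Lb_conc hl h hn I0 J0)

end Pool.JN2
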