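import Pool.Agent.JN2.Lg
import Pool.Agent.JN2.Ub
import Pool.Agent.JN2.Pl

/-! Module Ln (difficulty 3). The local value formula around a block (text (3.1)-(3.4)).

I0 = univ.map ι, J0 = univ.map κ, n = card I, r_n = 1/sqrt n. c0 p := Ex p nu(del I0 J0 E) + sum_a (1 - ube l b a) + sum_c (1 - vbe l b c).
PROOF. (1) ln_main: apply Lg to p with t = th, w = C/n, u i = ube l b a for i = ι a and 1 outside I0 (define u with Function.Injective.extend / sum; or u i = if h : ∃ a, ι a = i then ube l b h.choose else 1),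
    v likewise, δ = (2C + (2k+1) CT X)/sqrt n (U_flat, U_flat_col with ρ = 1 - sum b(a,·) ∈ [0,1]; card I0 = card K1 ≤ k). The Ex Ex term = phi l b S by Ex_two_pull (for i = ι a the probability is 1 - ube l b a).
    Sums over I0 = sums over K1 (Finset.sum_map). Error CLN k th C/n + 4 k δ ≤ C'/sqrt n. (n ≥ 1; if n = 0 then K1, K2 are empty and everything is trivial or use 1/sqrt 0 = 0 with care: assume 1 ≤ n.)
 (2) ln_row: Ex_sg_dR: Ex p nu (dR (ι a) (sg ..)) = Ex (zr p (ι a)) nu (sg I0 J0 (dR (ι a) (S.map ε)) E), dR (ι a) (S.map ε) = (dR a S).map ε. Apply Lg to q = zr p (ι a): Sub.zr; entries ≤ w still;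
    Ex q |U q i (Rb) - u i|: for i ≠ ι a: Rb I0 J0 E does not depend on the row ι a ∈ I0, so Ex q g = Ex p g for g depending only on del I0 J0 E (Ex_zr backwards: Rb I0 J0 (dR (ι a) E) = Rb I0 J0 E), same δ;
    for i = ι a: U q i = 1 and u (ι a) := 1 for this application. Ex q nu(del I0 J0 E) = Ex p nu(del I0 J0 E). The Ex Ex term with probability 0 for row ι a equals phi l b (dR a S): both equal the value where
    X' is replaced by anything differing only in a, since dR a S has no edge in row a (nuD (dR a S) X' Y' = nuD (dR a S) (insert a X') Y'; Ex_toggle).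
 (3) ln_col: transposed.
-/

namespace Pool.JN2

open Finset Pool.KS Pool.JN

set_option linter.unusedSectionVars false

/-- value of the bulk and of the hits -/
noncomputable def c0 {I J K1 K2 : Type*} [Fintype I] [Fintype J] [DecidableEq I]
    [DecidableEq J] [Fintype K1] [Fintype K2] (l : ℝ) (ι : K1 ↪ I) (κ : K2 ↪ J)
    (b : K1 × K2 → ℝ) (p : I × J → ℝ) : ℝ :=
  Ex p (fun E => (nu (del (univ.map ι) (univ.map κ) E) : ℝ)) +
    ∑ a, (1 - ube l b a) + ∑ c, (1 - vbe l b c)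

section lnaux

variable {I J K1 K2 : Type} [Fintype I] [Fintype J] [DecidableEq I] [DecidableEq J]
  [Fintype K1] [Fintype K2] [DecidableEq K1] [DecidableEq K2]

/-- extension of a function on the special vertices by `1` -/
noncomputable def lnx {α β : Type} (g : α ↪ β) (f : α → ℝ) : β → ℝ := Function.extend g f (fun _ => 1)

theorem lnx_app {α β : Type} (g : α ↪ β) (f : α → ℝ) (a : α) : lnx g f (g a) = f a :=
  g.injective.extend_apply _ _ _

theorem lnx_bd {α β : Type} (g : α ↪ β) {f : α → ℝ} (h0 : ∀ a, 0 ≤ f a) (h1 : ∀ a, f a ≤ 1) (i : β) :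
    0 ≤ lnx g f i ∧ lnx g f i ≤ 1 := by
  by_cases h : ∃ a, g a = i
  · obtain ⟨a, rfl⟩ := h
    rw [lnx_app]
    exact ⟨h0 a, h1 a⟩
  · unfold lnx
    rw [Function.extend_apply' _ _ _ h]
    exact ⟨zero_le_one, le_rfl⟩

theorem ln_core {q : I × J → ℝ} {t : ℝ} (hq : Sub q t) (ht : t < 1) (ι : K1 ↪ I) (κ : K2 ↪ J) (k : ℕ)
    (h1 : Fintype.card K1 ≤ k) (h2 : Fintype.card K2 ≤ k) {w δ : ℝ} (hw : 0 ≤ w) (hδ : 0 ≤ δ)
    (e1 : ∀ a, ∀ j, j ∉ univ.map κ → q (ι a, j) ≤ w) (e2 : ∀ c, ∀ i, i ∉ univ.map ι → q (i, κ c) ≤ w)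
    (ua : K1 → ℝ) (va : K2 → ℝ) (u0 : ∀ i, 0 ≤ ua i) (u1 : ∀ i, ua i ≤ 1) (v0 : ∀ j, 0 ≤ va j)
    (v1 : ∀ j, va j ≤ 1)
    (hu : ∀ a, Ex q (fun E => |U q (ι a) (Rb (univ.map ι) (univ.map κ) E) - ua a|) ≤ δ)
    (hv : ∀ c, Ex q (fun E => |U (pt q) (κ c) (Lb (univ.map ι) (univ.map κ) E) - va c|) ≤ δ)
    (S : Finset (K1 × K2)) :
    |Ex q (fun E => (nu (sg (univ.map ι) (univ.map κ) (S.map (emb ι κ)) E) : ℝ)) -
      (Ex q (fun E => (nu (del (univ.map ι) (univ.map κ) E) : ℝ)) + ∑ a, (1 - ua a) + ∑ c, (1 - va c) +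
      Ex (fun a => 1 - ua a) (fun X' => Ex (fun c => 1 - va c) (fun Y' => nuD S X' Y')))| ≤
      CLN k t * w + 4 * k * δ := by
  have hI : (univ.map ι).card ≤ k := by rw [Finset.card_map, Finset.card_univ]; exact h1
  have hJ : (univ.map κ).card ≤ k := by rw [Finset.card_map, Finset.card_univ]; exact h2
  have hS : ∀ e ∈ S.map (emb ι κ), e.1 ∈ univ.map ι ∧ e.2 ∈ univ.map κ := by
    intro e he
    obtain ⟨x, -, rfl⟩ := Finset.mem_map.1 he
    exact ⟨Finset.mem_map_of_mem ι (Finset.mem_univ _), Finset.mem_map_of_mem κ (Finset.mem_univ _)⟩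
  have h := Lg hq ht (univ.map ι) (univ.map κ) k hI hJ hw hδ
    (by
      intro i hi j hj
      obtain ⟨a, -, rfl⟩ := Finset.mem_map.1 hi
      exact e1 a j hj)
    (by
      intro i hi j hj
      obtain ⟨c, -, rfl⟩ := Finset.mem_map.1 hj
      exact e2 c i hi)
    (lnx ι ua) (lnx κ va) (fun i => (lnx_bd ι u0 u1 i).1) (fun i => (lnx_bd ι u0 u1 i).2)
    (fun i => (lnx_bd κ v0 v1 i).1) (fun i => (lnx_bd κ v0 v1 i).2)
    (by
      intro i hi
      obtain ⟨a, -, rfl⟩ := Finset.mem_map.1 hi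
      rw [lnx_app]
      exact hu a)
    (by
      intro j hj
      obtain ⟨c, -, rfl⟩ := Finset.mem_map.1 hj
      rw [lnx_app]
      exact hv c)
    (S.map (emb ι κ)) hS
  rw [Ex_two_pull, Finset.sum_map, Finset.sum_map] at h
  have f1 : (fun a => if ι a ∈ univ.map ι then 1 - lnx ι ua (ι a) else 0) = fun a => 1 - ua a := by
    funext a
    rw [if_pos (Finset.mem_map_of_mem ι (Finset.mem_univ _)), lnx_app]
  have f2 : (fun c => if κ c ∈ univ.map κ then 1 - lnx κ va (κ c) else 0) = fun c => 1 - va c := by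
    funext c
    rw [if_pos (Finset.mem_map_of_mem κ (Finset.mem_univ _)), lnx_app]
  rw [f1, f2] at h
  simp only [lnx_app] at h
  exact h

theorem ln_free {ε : Type} [Fintype ε] [DecidableEq ε] (u : ε → ℝ) (a : ε) (f : Finset ε → ℝ)
    (hf : ∀ X, f (X.erase a) = f X) : Ex u f = Ex (Function.update u a 0) f := by
  rw [← Pool.KX.up_erase u a f]
  exact Ex_congr u (fun E => (hf E).symm)

theorem ln_nuD_row (S : Finset (K1 × K2)) (a : K1) (X : Finset K1) (Y : Finset K2) :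
    nuD (dR a S) (X.erase a) Y = nuD (dR a S) X Y := by
  unfold nuD
  congr 2
  ext e
  rw [Finset.mem_filter, Finset.mem_filter, mem_dR, Finset.mem_erase]
  constructor
  · rintro ⟨⟨h1, h2⟩, h3, h4⟩
    exact ⟨⟨h1, h2⟩, fun h => h3 ⟨h2, h⟩, h4⟩
  · rintro ⟨⟨h1, h2⟩, h3, h4⟩
    exact ⟨⟨h1, h2⟩, fun h => h3 h.2, h4⟩

theorem ln_nuD_col (S : Finset (K1 × K2)) (c : K2) (X : Finset K1) (Y : Finset K2) :
    nuD (dC c S) X (Y.erase c) = nuD (dC c S) X Y := by
  unfold nuD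
  congr 2
  ext e
  rw [Finset.mem_filter, Finset.mem_filter, mem_dC, Finset.mem_erase]
  constructor
  · rintro ⟨⟨h1, h2⟩, h3, h4⟩
    exact ⟨⟨h1, h2⟩, h3, fun h => h4 ⟨h2, h⟩⟩
  · rintro ⟨⟨h1, h2⟩, h3, h4⟩
    exact ⟨⟨h1, h2⟩, h3, fun h => h4 h.2⟩

theorem ln_dR_map (ι : K1 ↪ I) (κ : K2 ↪ J) (S : Finset (K1 × K2)) (a : K1) :
    dR (ι a) (S.map (emb ι κ)) = (dR a S).map (emb ι κ) := by
  ext e
  rw [mem_dR, Finset.mem_map, Finset.mem_map]
  constructor
  · rintro ⟨⟨x, hx, rfl⟩, h⟩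
    exact ⟨x, mem_dR.2 ⟨hx, fun h' => h (congrArg ι h')⟩, rfl⟩
  · rintro ⟨x, hx, rfl⟩
    rw [mem_dR] at hx
    exact ⟨⟨x, hx.1, rfl⟩, fun h => hx.2 (ι.injective h)⟩

theorem ln_dC_map (ι : K1 ↪ I) (κ : K2 ↪ J) (S : Finset (K1 × K2)) (c : K2) :
    dC (κ c) (S.map (emb ι κ)) = (dC c S).map (emb ι κ) := by
  ext e
  rw [mem_dC, Finset.mem_map, Finset.mem_map]
  constructor
  · rintro ⟨⟨x, hx, rfl⟩, h⟩
    exact ⟨x, mem_dC.2 ⟨hx, fun h' => h (congrArg κ h')⟩, rfl⟩
  · rintro ⟨x, hx, rfl⟩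
    rw [mem_dC] at hx
    exact ⟨⟨x, hx.1, rfl⟩, fun h => hx.2 (κ.injective h)⟩

theorem ln_lpos {l : ℝ} (hl : Real.exp (-l) = l) : 0 < l := by
  rw [← hl]; exact Real.exp_pos _

theorem ln_ube {l : ℝ} (hl : Real.exp (-l) = l) {b : K1 × K2 → ℝ} (br : ∀ a, ∑ c, b (a, c) ≤ 1) (a : K1) :
    0 ≤ ube l b a ∧ ube l b a ≤ 1 := by
  unfold ube
  refine ⟨(Real.exp_pos _).le, ?_⟩
  rw [Real.exp_le_one_iff]
  have := mul_nonneg (sub_nonneg.2 (br a)) (ln_lpos hl).le
  linarith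

theorem ln_vbe {l : ℝ} (hl : Real.exp (-l) = l) {b : K1 × K2 → ℝ} (bc : ∀ c, ∑ a, b (a, c) ≤ 1) (c : K2) :
    0 ≤ vbe l b c ∧ vbe l b c ≤ 1 := by
  unfold vbe
  refine ⟨(Real.exp_pos _).le, ?_⟩
  rw [Real.exp_le_one_iff]
  have := mul_nonneg (sub_nonneg.2 (bc c)) (ln_lpos hl).le
  linarith

/-- the error in the hitting probabilities -/
noncomputable def lnD (k : ℕ) (C X : ℝ) (n : ℕ) : ℝ := (2 * C + (2 * k + 1) * CT X) / Real.sqrt n

theorem ln_CT {X : ℝ} (hX : 0 ≤ X) : 0 ≤ CT X := by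
  unfold CT
  have := DD_one
  positivity

theorem lnD_nonneg {k : ℕ} {C X : ℝ} {n : ℕ} (hC : 0 ≤ C) (hX : 0 ≤ X) : 0 ≤ lnD k C X n := by
  unfold lnD
  have := ln_CT hX
  positivity

theorem ln_hu {l : ℝ} (hl : Real.exp (-l) = l) (k : ℕ) {C X : ℝ} {ι : K1 ↪ I} {κ : K2 ↪ J}
    {b : K1 × K2 → ℝ} {p : I × J → ℝ} (h : FlatS l X C ι κ b p) (h1 : Fintype.card K1 ≤ k)
    (h2 : Fintype.card K2 ≤ k) (hn : 1 ≤ Fintype.card I) (a : K1) :
    Ex p (fun E => |U p (ι a) (Rb (univ.map ι) (univ.map κ) E) - ube l b a|) ≤ lnD k C X (Fintype.card I) := by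
  have r0 : 0 ≤ 1 - ∑ c, b (a, c) := sub_nonneg.2 (h.br a)
  have r1 : 1 - ∑ c, b (a, c) ≤ 1 := by
    have := Finset.sum_nonneg (fun c (_ : c ∈ (univ : Finset K2)) => h.b0 (a, c))
    linarith
  have h3 := U_flat hl h.dx hn (univ.map ι) (univ.map κ) h.C0 r0 r1 (ι a) (h.rle a) (h.rl1 a)
  refine h3.trans ?_
  unfold lnD
  have hs : 0 < Real.sqrt (Fintype.card I) := Real.sqrt_pos.2 (by exact_mod_cast hn)
  refine div_le_div_of_nonneg_right ?_ hs.le
  rw [Finset.card_map, Finset.card_map, Finset.card_univ, Finset.card_univ]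
  have h4 : (Fintype.card K1 : ℝ) ≤ k := by exact_mod_cast h1
  have h5 : (Fintype.card K2 : ℝ) ≤ k := by exact_mod_cast h2
  have h6 := ln_CT h.dx.X0
  have h7 : ((Fintype.card K1 : ℝ) + Fintype.card K2 + 1) * CT X ≤ (2 * k + 1) * CT X :=
    mul_le_mul_of_nonneg_right (by linarith) h6
  linarith

theorem ln_hv {l : ℝ} (hl : Real.exp (-l) = l) (k : ℕ) {C X : ℝ} {ι : K1 ↪ I} {κ : K2 ↪ J}
    {b : K1 × K2 → ℝ} {p : I × J → ℝ} (h : FlatS l X C ι κ b p) (h1 : Fintype.card K1 ≤ k)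
    (h2 : Fintype.card K2 ≤ k) (hn : 1 ≤ Fintype.card I) (c : K2) :
    Ex p (fun E => |U (pt p) (κ c) (Lb (univ.map ι) (univ.map κ) E) - vbe l b c|) ≤
      lnD k C X (Fintype.card I) := by
  have r0 : 0 ≤ 1 - ∑ a, b (a, c) := sub_nonneg.2 (h.bc c)
  have r1 : 1 - ∑ a, b (a, c) ≤ 1 := by
    have := Finset.sum_nonneg (fun a (_ : a ∈ (univ : Finset K1)) => h.b0 (a, c))
    linarith
  have h3 := U_flat_col hl h.dx hn (univ.map ι) (univ.map κ) h.C0 r0 r1 (κ c) (h.cle c) (h.cl1 c)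
  refine h3.trans ?_
  unfold lnD
  have hs : 0 < Real.sqrt (Fintype.card I) := Real.sqrt_pos.2 (by exact_mod_cast hn)
  refine div_le_div_of_nonneg_right ?_ hs.le
  rw [Finset.card_map, Finset.card_map, Finset.card_univ, Finset.card_univ]
  have h4 : (Fintype.card K1 : ℝ) ≤ k := by exact_mod_cast h1
  have h5 : (Fintype.card K2 : ℝ) ≤ k := by exact_mod_cast h2
  have h6 := ln_CT h.dx.X0
  have h7 : ((Fintype.card K1 : ℝ) + Fintype.card K2 + 1) * CT X ≤ (2 * k + 1) * CT X :=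
    mul_le_mul_of_nonneg_right (by linarith) h6
  linarith

/-- the constant of the module -/
noncomputable def lnC (k : ℕ) (C X : ℝ) : ℝ :=
  CLN k th * |C| + 4 * k * |2 * C + (2 * k + 1) * CT X|

theorem lnC_nonneg (k : ℕ) (C X : ℝ) : 0 ≤ lnC k C X := by
  unfold lnC CLN
  have := Dm_nonneg th 1
  positivity

theorem lnC_le {k : ℕ} {C X : ℝ} {n : ℕ} (hC : 0 ≤ C) (hX : 0 ≤ X) (hn : 1 ≤ n) :
    CLN k th * (C / n) + 4 * k * lnD k C X n ≤ lnC k C X / Real.sqrt n := by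
  have hn' : (1 : ℝ) ≤ n := by exact_mod_cast hn
  have hs : 1 ≤ Real.sqrt n := by
    rw [← Real.sqrt_one]
    exact Real.sqrt_le_sqrt hn'
  have hs2 : Real.sqrt n ≤ n := by
    have := Real.mul_self_sqrt (le_trans zero_le_one hn')
    nlinarith
  have hD := Dm_nonneg th 1
  have hN : 0 ≤ CLN k th := by unfold CLN; positivity
  have h1 : C / n ≤ C / Real.sqrt n := div_le_div_of_nonneg_left hC (by linarith) hs2
  have hCT := ln_CT hX
  unfold lnC lnD
  rw [abs_of_nonneg hC, abs_of_nonneg (by positivity)]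
  have h2 : CLN k th * (C / n) ≤ CLN k th * (C / Real.sqrt n) := mul_le_mul_of_nonneg_left h1 hN
  have h3 : CLN k th * (C / Real.sqrt n) + 4 * k * ((2 * C + (2 * k + 1) * CT X) / Real.sqrt n) =
      (CLN k th * C + 4 * k * (2 * C + (2 * k + 1) * CT X)) / Real.sqrt n := by ring
  linarith

theorem ln_w {C : ℝ} {n : ℕ} (hC : 0 ≤ C) : 0 ≤ C / (n : ℝ) := by positivity

theorem ln_U_zr (p : I × J → ℝ) {i i' : I} (h : i' ≠ i) (R : Finset J) : U (zr p i) i' R = U p i' R := by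
  unfold U zr
  exact Finset.prod_congr rfl (fun j _ => by rw [if_neg h])

theorem ln_U_zr_self (p : I × J → ℝ) (i : I) (R : Finset J) : U (zr p i) i R = 1 := by
  unfold U zr
  exact Finset.prod_eq_one (fun j _ => by rw [if_pos rfl, sub_zero])

theorem ln_U_pt_zr (p : I × J → ℝ) {i : I} (j : J) {L : Finset I} (h : i ∉ L) :
    U (pt (zr p i)) j L = U (pt p) j L := by
  unfold U pt zr
  refine Finset.prod_congr rfl (fun i' hi' => ?_)
  rw [if_neg]
  rintro rfl
  exact h hi'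

theorem ln_del_dR {I0 : Finset I} {J0 : Finset J} {i : I} (hi : i ∈ I0) (E : Finset (I × J)) :
    del I0 J0 (dR i E) = del I0 J0 E := by
  ext e
  rw [mem_del, mem_del, mem_dR]
  constructor
  · rintro ⟨⟨h1, -⟩, h2⟩
    exact ⟨h1, h2⟩
  · rintro ⟨h1, h2, h3⟩
    exact ⟨⟨h1, fun h => h2 (by rw [h]; exact hi)⟩, h2, h3⟩

theorem ln_del_dC {I0 : Finset I} {J0 : Finset J} {j : J} (hj : j ∈ J0) (E : Finset (I × J)) :
    del I0 J0 (dC j E) = del I0 J0 E := by
  ext e
  rw [mem_del, mem_del, mem_dC]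
  constructor
  · rintro ⟨⟨h1, -⟩, h2⟩
    exact ⟨h1, h2⟩
  · rintro ⟨h1, h2, h3⟩
    exact ⟨⟨h1, fun h => h3 (by rw [h]; exact hj)⟩, h2, h3⟩

theorem ln_Ex_zr (p : I × J → ℝ) {I0 : Finset I} {J0 : Finset J} {i : I} (hi : i ∈ I0)
    (G : Finset (I × J) → ℝ) : Ex (zr p i) (fun E => G (del I0 J0 E)) = Ex p (fun E => G (del I0 J0 E)) := by
  rw [← Ex_zr p i (fun E => G (del I0 J0 E))]
  exact Ex_congr p (fun E => by rw [ln_del_dR hi])

theorem ln_Ex_zc (p : I × J → ℝ) {I0 : Finset I} {J0 : Finset J} {j : J} (hj : j ∈ J0)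
    (G : Finset (I × J) → ℝ) : Ex (zc p j) (fun E => G (del I0 J0 E)) = Ex p (fun E => G (del I0 J0 E)) := by
  have h := Pool.KX.up_dC p j (fun E => G (del I0 J0 E))
  unfold zc
  rw [← h]
  exact Ex_congr p (fun E => by rw [ln_del_dC hj])

theorem ln_U_zc (p : I × J → ℝ) (i : I) {j : J} {R : Finset J} (h : j ∉ R) : U (zc p j) i R = U p i R := by
  unfold U zc
  refine Finset.prod_congr rfl (fun j' hj' => ?_)
  rw [if_neg]
  rintro rfl
  exact h hj'

theorem ln_U_pt_zc (p : I × J → ℝ) {j j' : J} (h : j' ≠ j) (L : Finset I) :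
    U (pt (zc p j)) j' L = U (pt p) j' L := by
  unfold U pt zc
  exact Finset.prod_congr rfl (fun i _ => by rw [if_neg (show ¬ (j', i).swap.2 = j from h)])

theorem ln_U_pt_zc_self (p : I × J → ℝ) (j : J) (L : Finset I) : U (pt (zc p j)) j L = 1 := by
  unfold U pt zc
  exact Finset.prod_eq_one (fun i _ => by rw [if_pos (show (j, i).swap.2 = j from rfl), sub_zero])

theorem ln_Sub_zc {p : I × J → ℝ} {t : ℝ} (h : Sub p t) (j : J) : Sub (zc p j) t := by
  have key : ∀ e, zc p j e ≤ p e := by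
    intro e
    unfold zc
    split_ifs
    · exact h.h0 e
    · exact le_rfl
  refine ⟨fun e => ?_, fun e => ?_, fun i' => ?_, fun j => ?_⟩
  · unfold zc; split_ifs
    · exact le_rfl
    · exact h.h0 e
  · exact (key e).trans (h.h1 e)
  · exact (Finset.sum_le_sum (fun j _ => key _)).trans (h.hr i')
  · exact (Finset.sum_le_sum (fun i _ => key _)).trans (h.hc j)

theorem ln_zr_le {p : I × J → ℝ} {i : I} {e : I × J} {w : ℝ} (hw : 0 ≤ w) (h : p e ≤ w) : zr p i e ≤ w := by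
  unfold zr
  split_ifs
  · exact hw
  · exact h

theorem ln_zc_le {p : I × J → ℝ} {j : J} {e : I × J} {w : ℝ} (hw : 0 ≤ w) (h : p e ≤ w) : zc p j e ≤ w := by
  unfold zc
  split_ifs
  · exact hw
  · exact h

theorem ln_upd_sum {α : Type} [Fintype α] [DecidableEq α] (f : α → ℝ) (a : α) :
    ∑ x, (1 - Function.update f a 1 x) = ∑ x, (1 - f x) - (1 - f a) := by
  rw [← Finset.sum_erase_add univ (fun x => 1 - Function.update f a 1 x) (Finset.mem_univ a),
    ← Finset.sum_erase_add univ (fun x => 1 - f x) (Finset.mem_univ a)]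
  have h : ∑ x ∈ univ.erase a, (1 - Function.update f a 1 x) = ∑ x ∈ univ.erase a, (1 - f x) :=
    Finset.sum_congr rfl (fun x hx => by rw [Function.update_of_ne (Finset.ne_of_mem_erase hx)])
  rw [h, Function.update_self]
  ring

theorem ln_upd_fun {α : Type} [DecidableEq α] (f : α → ℝ) (a : α) :
    (fun x => 1 - Function.update f a 1 x) = Function.update (fun x => 1 - f x) a 0 := by
  funext x
  by_cases h : x = a
  · subst h
    rw [Function.update_self, Function.update_self, sub_self]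
  · rw [Function.update_of_ne h, Function.update_of_ne h]

theorem ln_upd_bd {α : Type} [DecidableEq α] {f : α → ℝ} (h0 : ∀ x, 0 ≤ f x) (h1 : ∀ x, f x ≤ 1) (a x : α) :
    0 ≤ Function.update f a 1 x ∧ Function.update f a 1 x ≤ 1 := by
  by_cases h : x = a
  · subst h
    rw [Function.update_self]
    exact ⟨zero_le_one, le_rfl⟩
  · rw [Function.update_of_ne h]
    exact ⟨h0 x, h1 x⟩

end lnaux

theorem ln_main {l : ℝ} (hl : Real.exp (-l) = l) (k : ℕ) (C X : ℝ) : ∃ C' : ℝ, 0 ≤ C' ∧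
    ∀ {I J K1 K2 : Type} [Fintype I] [Fintype J] [DecidableEq I] [DecidableEq J]
      [Fintype K1] [Fintype K2] [DecidableEq K1] [DecidableEq K2]
      (ι : K1 ↪ I) (κ : K2 ↪ J) (b : K1 × K2 → ℝ) (p : I × J → ℝ),
      FlatS l X C ι κ b p → Fintype.card K1 ≤ k → Fintype.card K2 ≤ k → 1 ≤ Fintype.card I →
      ∀ S : Finset (K1 × K2),
      |Ex p (fun E => (nu (sg (univ.map ι) (univ.map κ) (S.map (emb ι κ)) E) : ℝ)) -
        c0 l ι κ b p - phi l b S| ≤ C' / Real.sqrt (Fintype.card I) := by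
  refine ⟨lnC k C X, lnC_nonneg k C X, ?_⟩
  intro I J K1 K2 _ _ _ _ _ _ _ _ ι κ b p h h1 h2 hn S
  have hub := ln_ube hl h.br
  have hvb := ln_vbe hl h.bc
  have hc := ln_core h.dx.sub th_lt ι κ k h1 h2 (ln_w (n := Fintype.card I) h.C0)
    (lnD_nonneg (k := k) (n := Fintype.card I) h.C0 h.dx.X0) h.rle h.cle (ube l b) (vbe l b)
    (fun a => (hub a).1) (fun a => (hub a).2) (fun a => (hvb a).1) (fun a => (hvb a).2)
    (ln_hu hl k h h1 h2 hn) (ln_hv hl k h h1 h2 hn) S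
  refine le_trans (le_of_eq ?_) (hc.trans (lnC_le h.C0 h.dx.X0 hn))
  unfold c0 phi
  rw [sub_sub]

theorem ln_row {l : ℝ} (hl : Real.exp (-l) = l) (k : ℕ) (C X : ℝ) : ∃ C' : ℝ, 0 ≤ C' ∧
    ∀ {I J K1 K2 : Type} [Fintype I] [Fintype J] [DecidableEq I] [DecidableEq J]
      [Fintype K1] [Fintype K2] [DecidableEq K1] [DecidableEq K2]
      (ι : K1 ↪ I) (κ : K2 ↪ J) (b : K1 × K2 → ℝ) (p : I × J → ℝ),
      FlatS l X C ι κ b p → Fintype.card K1 ≤ k → Fintype.card K2 ≤ k → 1 ≤ Fintype.card I →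
      ∀ (S : Finset (K1 × K2)) (a : K1),
      |Ex p (fun E => (nu (dR (ι a) (sg (univ.map ι) (univ.map κ) (S.map (emb ι κ)) E)) : ℝ)) -
        (c0 l ι κ b p - (1 - ube l b a)) - phi l b (dR a S)| ≤
        C' / Real.sqrt (Fintype.card I) := by
  refine ⟨lnC k C X, lnC_nonneg k C X, ?_⟩
  intro I J K1 K2 _ _ _ _ _ _ _ _ ι κ b p h h1 h2 hn S a
  have hub := ln_ube hl h.br
  have hvb := ln_vbe hl h.bc
  have hw := ln_w (n := Fintype.card I) h.C0
  have hδ := lnD_nonneg (k := k) (n := Fintype.card I) h.C0 h.dx.X0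
  have hia : ι a ∈ univ.map ι := Finset.mem_map_of_mem ι (Finset.mem_univ _)
  have hc := ln_core (h.dx.sub.zr (ι a)) th_lt ι κ k h1 h2 hw hδ
    (fun a' j hj => ln_zr_le hw (h.rle a' j hj)) (fun c i hi => ln_zr_le hw (h.cle c i hi))
    (Function.update (ube l b) a 1) (vbe l b)
    (fun a' => (ln_upd_bd (fun x => (hub x).1) (fun x => (hub x).2) a a').1)
    (fun a' => (ln_upd_bd (fun x => (hub x).1) (fun x => (hub x).2) a a').2)
    (fun c => (hvb c).1) (fun c => (hvb c).2)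
    (by
      intro a'
      by_cases haa : a' = a
      · subst haa
        have e0 : Ex (zr p (ι a')) (fun E => |U (zr p (ι a')) (ι a') (Rb (univ.map ι) (univ.map κ) E) -
            Function.update (ube l b) a' 1 a'|) = 0 := by
          have e1 : ∀ E, |U (zr p (ι a')) (ι a') (Rb (univ.map ι) (univ.map κ) E) -
            Function.update (ube l b) a' 1 a'| = 0 * 1 := by
            intro E
            rw [ln_U_zr_self, Function.update_self, sub_self, abs_zero, zero_mul]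
          rw [Ex_congr _ e1, Ex_mul_left, zero_mul]
        rw [e0]
        exact hδ
      · have e1 : ∀ E, |U (zr p (ι a)) (ι a') (Rb (univ.map ι) (univ.map κ) E) -
            Function.update (ube l b) a 1 a'| = |U p (ι a') (Rb (univ.map ι) (univ.map κ) E) - ube l b a'| := by
          intro E
          rw [ln_U_zr p (fun hh => haa (ι.injective hh)), Function.update_of_ne haa]
        rw [Ex_congr _ e1]
        have e2 := ln_Ex_zr p hia (J0 := univ.map κ)
          (fun E => |U p (ι a') (Rm E \ univ.map κ) - ube l b a'|)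
        unfold Rb
        rw [e2]
        exact ln_hu hl k h h1 h2 hn a')
    (by
      intro c
      have e1 : ∀ E, |U (pt (zr p (ι a))) (κ c) (Lb (univ.map ι) (univ.map κ) E) - vbe l b c| =
          |U (pt p) (κ c) (Lb (univ.map ι) (univ.map κ) E) - vbe l b c| := by
        intro E
        rw [ln_U_pt_zr]
        unfold Lb
        exact fun hh => (Finset.mem_sdiff.1 hh).2 hia
      rw [Ex_congr _ e1]
      have e2 := ln_Ex_zr p hia (J0 := univ.map κ)
        (fun E => |U (pt p) (κ c) (Lm E \ univ.map ι) - vbe l b c|)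
      unfold Lb
      rw [e2]
      exact ln_hv hl k h h1 h2 hn c)
    (dR a S)
  rw [Ex_sg_dR, ln_dR_map]
  refine le_trans (le_of_eq ?_) (hc.trans (lnC_le h.C0 h.dx.X0 hn))
  rw [ln_Ex_zr p hia (fun E => (nu E : ℝ)), ln_upd_sum, ln_upd_fun,
    ← ln_free (fun x => 1 - ube l b x) a (fun X' => Ex (fun c => 1 - vbe l b c) (fun Y' => nuD (dR a S) X' Y'))
      (fun X => Ex_congr _ (fun Y => ln_nuD_row S a X Y))]
  unfold c0 phi
  congr 1
  ring

theorem ln_col {l : ℝ} (hl : Real.exp (-l) = l) (k : ℕ) (C X : ℝ) : ∃ C' : ℝ, 0 ≤ C' ∧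
    ∀ {I J K1 K2 : Type} [Fintype I] [Fintype J] [DecidableEq I] [DecidableEq J]
      [Fintype K1] [Fintype K2] [DecidableEq K1] [DecidableEq K2]
      (ι : K1 ↪ I) (κ : K2 ↪ J) (b : K1 × K2 → ℝ) (p : I × J → ℝ),
      FlatS l X C ι κ b p → Fintype.card K1 ≤ k → Fintype.card K2 ≤ k → 1 ≤ Fintype.card I →
      ∀ (S : Finset (K1 × K2)) (c : K2),
      |Ex p (fun E => (nu (dC (κ c) (sg (univ.map ι) (univ.map κ) (S.map (emb ι κ)) E)) : ℝ)) -
        (c0 l ι κ b p - (1 - vbe l b c)) - phi l b (dC c S)| ≤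
        C' / Real.sqrt (Fintype.card I) := by
  refine ⟨lnC k C X, lnC_nonneg k C X, ?_⟩
  intro I J K1 K2 _ _ _ _ _ _ _ _ ι κ b p h h1 h2 hn S c
  have hub := ln_ube hl h.br
  have hvb := ln_vbe hl h.bc
  have hw := ln_w (n := Fintype.card I) h.C0
  have hδ := lnD_nonneg (k := k) (n := Fintype.card I) h.C0 h.dx.X0
  have hic : κ c ∈ univ.map κ := Finset.mem_map_of_mem κ (Finset.mem_univ _)
  have hc := ln_core (ln_Sub_zc h.dx.sub (κ c)) th_lt ι κ k h1 h2 hw hδ
    (fun a' j hj => ln_zc_le hw (h.rle a' j hj)) (fun c i hi => ln_zc_le hw (h.cle c i hi))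
    (ube l b) (Function.update (vbe l b) c 1)
    (fun a => (hub a).1) (fun a => (hub a).2)
    (fun a' => (ln_upd_bd (fun x => (hvb x).1) (fun x => (hvb x).2) c a').1)
    (fun a' => (ln_upd_bd (fun x => (hvb x).1) (fun x => (hvb x).2) c a').2)
    (by
      intro a
      have e1 : ∀ E, |U (zc p (κ c)) (ι a) (Rb (univ.map ι) (univ.map κ) E) - ube l b a| =
          |U p (ι a) (Rb (univ.map ι) (univ.map κ) E) - ube l b a| := by
        intro E
        rw [ln_U_zc]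
        unfold Rb
        exact fun hh => (Finset.mem_sdiff.1 hh).2 hic
      rw [Ex_congr _ e1]
      have e2 := ln_Ex_zc p hic (I0 := univ.map ι)
        (fun E => |U p (ι a) (Rm E \ univ.map κ) - ube l b a|)
      unfold Rb
      rw [e2]
      exact ln_hu hl k h h1 h2 hn a)
    (by
      intro a'
      by_cases haa : a' = c
      · subst haa
        have e0 : Ex (zc p (κ a')) (fun E => |U (pt (zc p (κ a'))) (κ a') (Lb (univ.map ι) (univ.map κ) E) -
            Function.update (vbe l b) a' 1 a'|) = 0 := by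
          have e1 : ∀ E, |U (pt (zc p (κ a'))) (κ a') (Lb (univ.map ι) (univ.map κ) E) -
            Function.update (vbe l b) a' 1 a'| = 0 * 1 := by
            intro E
            rw [ln_U_pt_zc_self, Function.update_self, sub_self, abs_zero, zero_mul]
          rw [Ex_congr _ e1, Ex_mul_left, zero_mul]
        rw [e0]
        exact hδ
      · have e1 : ∀ E, |U (pt (zc p (κ c))) (κ a') (Lb (univ.map ι) (univ.map κ) E) -
            Function.update (vbe l b) c 1 a'| =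
            |U (pt p) (κ a') (Lb (univ.map ι) (univ.map κ) E) - vbe l b a'| := by
          intro E
          rw [ln_U_pt_zc p (fun hh => haa (κ.injective hh)), Function.update_of_ne haa]
        rw [Ex_congr _ e1]
        have e2 := ln_Ex_zc p hic (I0 := univ.map ι)
          (fun E => |U (pt p) (κ a') (Lm E \ univ.map ι) - vbe l b a'|)
        unfold Lb
        rw [e2]
        exact ln_hv hl k h h1 h2 hn a')
    (dC c S)
  rw [Ex_sg_dC, ln_dC_map]
  refine le_trans (le_of_eq ?_) (hc.trans (lnC_le h.C0 h.dx.X0 hn))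
  have e3 : ∀ X', Ex (fun x => 1 - Function.update (vbe l b) c 1 x) (fun Y' => nuD (dC c S) X' Y') =
      Ex (fun x => 1 - vbe l b x) (fun Y' => nuD (dC c S) X' Y') := by
    intro X'
    rw [ln_upd_fun, ← ln_free (fun x => 1 - vbe l b x) c (fun Y' => nuD (dC c S) X' Y')
      (fun Y => ln_nuD_col S c X' Y)]
  rw [ln_Ex_zc p hic (fun E => (nu E : ℝ)), ln_upd_sum, Ex_congr _ e3]
  unfold c0 phi
  congr 1
  ring

end Pool.JN2
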