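import Pool.Agent.JN2.Ln
import Pool.Agent.JN2.De

/-! Module Lo (difficulty 3). The local derivative (text (3.4), (3.5)).

PROOF. ε = emb ι κ, q = p ∘ ε, |q - b| ≤ C/n on k^2 entries. N S := Ex p nu (sg I0 J0 (S.map ε) E) = c0 + phi S + O(C'/sqrt n) (ln_main).
 (1) D: Dd p (ε e) = Ex p (nu (insert (ε e) E) - nu (E.erase (ε e))) = (Ex_block) Ex q (fun S => N (insert e S) - N (S.erase e)): insert (ε e) (sg .. (S.map ε) E) = sg .. ((insert e S).map ε) E,
    (sg .. (S.map ε) E).erase (ε e) = sg .. ((S.erase e).map ε) E (ε e ∉ E0). So Dd p (ε e) = Ex q (phi (insert e S) - phi (S.erase e)) + O(2C'/sqrt n).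
 (2) Replace q by b: Ex_lip (Lp.lean): f S = phi (insert e S) - phi (S.erase e) changes by at most 2 when one edge is toggled (phi is monotone, 1-Lipschitz: nuD changes by at most 1; Ex_mono), so error ≤ 2 k^2 C/n.
 (3) Ex_Xi_nu (De.lean): Ex Xi (ι a) = 1 - FF p + Ex p nu (dR (ι a) E) = 1 - Ex q N(S) + Ex q [Ex p nu (dR (ι a) (sg .. S ..))] = 1 - Ex q (phi S - phi (dR a S)) - (1 - ube a) + O = ube a - Ex q (...) + O,
    then q → b as in (2). Same for Yj (κ c).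
 (4) The sum over e with |w e| ≤ 1: at most k^2 terms, l ≤ 1.
-/

namespace Pool.JN2

open Finset Pool.KS Pool.JN

set_option linter.unusedSectionVars false

theorem lo_abs {ε : Type*} [Fintype ε] [DecidableEq ε] {p : ε → ℝ} (p0 : ∀ e, 0 ≤ p e)
    (p1 : ∀ e, p e ≤ 1) {f : Finset ε → ℝ} {c : ℝ} (h : ∀ E, |f E| ≤ c) : |Ex p f| ≤ c := by
  rw [abs_le]
  constructor
  · have h1 : Ex p (fun _ => -c) ≤ Ex p f := Ex_mono p0 p1 (fun E => (abs_le.mp (h E)).1)
    rwa [Ex_const] at h1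
  · have h1 : Ex p f ≤ Ex p (fun _ => c) := Ex_mono p0 p1 (fun E => (abs_le.mp (h E)).2)
    rwa [Ex_const] at h1

section
variable {K1 K2 : Type*} [Fintype K1] [Fintype K2] [DecidableEq K1] [DecidableEq K2]

theorem lo_nuD_diff (e : K1 × K2) (S : Finset (K1 × K2)) (X' : Finset K1) (Y' : Finset K2) :
    |nuD (insert e S) X' Y' - nuD (S.erase e) X' Y'| ≤ 1 := by
  unfold nuD
  by_cases h : e.1 ∉ X' ∧ e.2 ∉ Y'
  · have h1 : (insert e S).filter (fun e => e.1 ∉ X' ∧ e.2 ∉ Y') =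
        insert e (S.filter (fun e => e.1 ∉ X' ∧ e.2 ∉ Y')) := by
      rw [Finset.filter_insert, if_pos h]
    have h2 : (S.erase e).filter (fun e => e.1 ∉ X' ∧ e.2 ∉ Y') =
        (S.filter (fun e => e.1 ∉ X' ∧ e.2 ∉ Y')).erase e := by
      ext x
      simp only [Finset.mem_filter, Finset.mem_erase]
      tauto
    rw [h1, h2]
    exact nu_diff e _
  · have h1 : (insert e S).filter (fun e => e.1 ∉ X' ∧ e.2 ∉ Y') =
        (S.erase e).filter (fun e => e.1 ∉ X' ∧ e.2 ∉ Y') := by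
      ext x
      simp only [Finset.mem_filter, Finset.mem_erase, Finset.mem_insert]
      constructor
      · rintro ⟨rfl | h1, h2⟩
        · exact absurd h2 h
        · refine ⟨⟨?_, h1⟩, h2⟩
          rintro rfl
          exact h h2
      · rintro ⟨⟨h1, h2⟩, h3⟩
        exact ⟨Or.inr h2, h3⟩
    rw [h1, sub_self, abs_zero]
    exact zero_le_one

theorem lo_nuD_dR (a : K1) (S : Finset (K1 × K2)) (X' : Finset K1) (Y' : Finset K2) :
    |nuD S X' Y' - nuD (dR a S) X' Y'| ≤ 1 := by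
  unfold nuD
  have h2 : (dR a S).filter (fun e => e.1 ∉ X' ∧ e.2 ∉ Y') =
      dR a (S.filter (fun e => e.1 ∉ X' ∧ e.2 ∉ Y')) := by
    ext x
    simp only [Finset.mem_filter, mem_dR]
    tauto
  rw [h2]
  have h3 := nu_dR_le a (S.filter (fun e => e.1 ∉ X' ∧ e.2 ∉ Y'))
  have h4 := nu_le_dR a (S.filter (fun e => e.1 ∉ X' ∧ e.2 ∉ Y'))
  have h3' : ((nu (dR a (S.filter (fun e => e.1 ∉ X' ∧ e.2 ∉ Y'))) : ℕ) : ℝ) ≤
    ((nu (S.filter (fun e => e.1 ∉ X' ∧ e.2 ∉ Y')) : ℕ) : ℝ) := by exact_mod_cast h3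
  have h4' : ((nu (S.filter (fun e => e.1 ∉ X' ∧ e.2 ∉ Y')) : ℕ) : ℝ) ≤
    ((nu (dR a (S.filter (fun e => e.1 ∉ X' ∧ e.2 ∉ Y'))) : ℕ) : ℝ) + 1 := by exact_mod_cast h4
  rw [abs_le]
  constructor <;> linarith

theorem lo_nuD_dC (c : K2) (S : Finset (K1 × K2)) (X' : Finset K1) (Y' : Finset K2) :
    |nuD S X' Y' - nuD (dC c S) X' Y'| ≤ 1 := by
  unfold nuD
  have h2 : (dC c S).filter (fun e => e.1 ∉ X' ∧ e.2 ∉ Y') =
      dC c (S.filter (fun e => e.1 ∉ X' ∧ e.2 ∉ Y')) := by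
    ext x
    simp only [Finset.mem_filter, mem_dC]
    tauto
  rw [h2]
  have h3 := nu_dC_le c (S.filter (fun e => e.1 ∉ X' ∧ e.2 ∉ Y'))
  have h4 := nu_le_dC c (S.filter (fun e => e.1 ∉ X' ∧ e.2 ∉ Y'))
  have h3' : ((nu (dC c (S.filter (fun e => e.1 ∉ X' ∧ e.2 ∉ Y'))) : ℕ) : ℝ) ≤
    ((nu (S.filter (fun e => e.1 ∉ X' ∧ e.2 ∉ Y')) : ℕ) : ℝ) := by exact_mod_cast h3
  have h4' : ((nu (S.filter (fun e => e.1 ∉ X' ∧ e.2 ∉ Y')) : ℕ) : ℝ) ≤
    ((nu (dC c (S.filter (fun e => e.1 ∉ X' ∧ e.2 ∉ Y'))) : ℕ) : ℝ) + 1 := by exact_mod_cast h4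
  rw [abs_le]
  constructor <;> linarith

theorem lo_ube {l : ℝ} (hl0 : 0 ≤ l) {b : K1 × K2 → ℝ} (br : ∀ a, ∑ c, b (a, c) ≤ 1) (a : K1) :
    0 ≤ 1 - ube l b a ∧ 1 - ube l b a ≤ 1 := by
  unfold ube
  have h1 : 0 ≤ (1 - ∑ c, b (a, c)) * l := mul_nonneg (by linarith [br a]) hl0
  have h2 : Real.exp (-((1 - ∑ c, b (a, c)) * l)) ≤ 1 := Real.exp_le_one_iff.mpr (by linarith)
  have h3 := Real.exp_pos (-((1 - ∑ c, b (a, c)) * l))
  constructor <;> linarith

theorem lo_vbe {l : ℝ} (hl0 : 0 ≤ l) {b : K1 × K2 → ℝ} (bc : ∀ c, ∑ a, b (a, c) ≤ 1) (c : K2) :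
    0 ≤ 1 - vbe l b c ∧ 1 - vbe l b c ≤ 1 := by
  unfold vbe
  have h1 : 0 ≤ (1 - ∑ a, b (a, c)) * l := mul_nonneg (by linarith [bc c]) hl0
  have h2 : Real.exp (-((1 - ∑ a, b (a, c)) * l)) ≤ 1 := Real.exp_le_one_iff.mpr (by linarith)
  have h3 := Real.exp_pos (-((1 - ∑ a, b (a, c)) * l))
  constructor <;> linarith

theorem lo_phi {l : ℝ} (hl0 : 0 ≤ l) {b : K1 × K2 → ℝ} (br : ∀ a, ∑ c, b (a, c) ≤ 1)
    (bc : ∀ c, ∑ a, b (a, c) ≤ 1) (S S' : Finset (K1 × K2))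
    (h : ∀ X' Y', |nuD S X' Y' - nuD S' X' Y'| ≤ 1) : |phi l b S - phi l b S'| ≤ 1 := by
  unfold phi
  rw [← Ex_sub]
  refine lo_abs (fun a => (lo_ube hl0 br a).1) (fun a => (lo_ube hl0 br a).2) (fun X' => ?_)
  rw [← Ex_sub]
  exact lo_abs (fun c => (lo_vbe hl0 bc c).1) (fun c => (lo_vbe hl0 bc c).2) (fun Y' => h X' Y')

end

section
variable {I J K1 K2 : Type*} [Fintype I] [Fintype J] [DecidableEq I] [DecidableEq J]
  [Fintype K1] [Fintype K2] [DecidableEq K1] [DecidableEq K2]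

theorem lo_ins (ι : K1 ↪ I) (κ : K2 ↪ J) (S : Finset (K1 × K2)) (E : Finset (I × J))
    (e : K1 × K2) :
    insert (emb ι κ e) (sg (univ.map ι) (univ.map κ) (S.map (emb ι κ)) E) =
      sg (univ.map ι) (univ.map κ) ((insert e S).map (emb ι κ)) E := by
  unfold sg
  rw [Finset.map_insert, Finset.union_insert]

theorem lo_era (ι : K1 ↪ I) (κ : K2 ↪ J) (S : Finset (K1 × K2)) (E : Finset (I × J))
    (e : K1 × K2) :
    (sg (univ.map ι) (univ.map κ) (S.map (emb ι κ)) E).erase (emb ι κ e) =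
      sg (univ.map ι) (univ.map κ) ((S.erase e).map (emb ι κ)) E := by
  unfold sg
  have h1 : emb ι κ e ∉ E0 (univ.map ι) (univ.map κ) E := by
    rw [mem_E0]
    rintro ⟨_, h2⟩
    exact h2 ⟨Finset.mem_map_of_mem ι (Finset.mem_univ _),
      Finset.mem_map_of_mem κ (Finset.mem_univ _)⟩
  rw [Finset.map_erase]
  ext x
  simp only [Finset.mem_erase, Finset.mem_union]
  constructor
  · rintro ⟨h2, h3 | h3⟩
    · exact Or.inl h3
    · exact Or.inr ⟨h2, h3⟩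
  · rintro (h3 | ⟨h2, h3⟩)
    · refine ⟨?_, Or.inl h3⟩
      rintro rfl
      exact h1 h3
    · exact ⟨h2, Or.inr h3⟩

/-- change of the block probabilities -/
theorem lo_chg {l X C : ℝ} {ι : K1 ↪ I} {κ : K2 ↪ J} {b : K1 × K2 → ℝ}
    {p : I × J → ℝ} (h : FlatS l X C ι κ b p) {k : ℕ} (h1 : Fintype.card K1 ≤ k)
    (h2 : Fintype.card K2 ≤ k) (hn : 1 ≤ Fintype.card I) (f : Finset (K1 × K2) → ℝ)
    (hf : ∀ S, |f S| ≤ 1) :
    |Ex (fun x => p (emb ι κ x)) f - Ex b f| ≤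
      2 * k ^ 2 * C / Real.sqrt (Fintype.card I) := by
  have b1 : ∀ e, b e ≤ 1 := by
    intro e
    have h3 : b (e.1, e.2) ≤ ∑ c, b (e.1, c) :=
      Finset.single_le_sum (f := fun c => b (e.1, c)) (fun c _ => h.b0 _) (Finset.mem_univ e.2)
    exact h3.trans (h.br e.1)
  have h3 := Ex_lip h.b0 b1 (fun x => h.dx.h0 (emb ι κ x)) (fun x => h.dx.le_one (emb ι κ x)) f
    (c := 2) (fun e E => by
      have h4 := abs_sub (f (insert e E)) (f (E.erase e))
      linarith [hf (insert e E), hf (E.erase e)])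
  refine h3.trans ?_
  have h4 : ∑ e, |p (emb ι κ e) - b e| ≤ ∑ e : K1 × K2, C / Fintype.card I :=
    Finset.sum_le_sum (fun e _ => h.blk e)
  rw [Finset.sum_const, Finset.card_univ, Fintype.card_prod, nsmul_eq_mul] at h4
  have hn' : (1 : ℝ) ≤ (Fintype.card I : ℝ) := by exact_mod_cast hn
  have hs : Real.sqrt (Fintype.card I) ≤ (Fintype.card I : ℝ) := by
    rw [Real.sqrt_le_left (by linarith)]
    nlinarith
  have hs1 : 0 < Real.sqrt (Fintype.card I) := Real.sqrt_pos.mpr (by linarith)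
  have h5 : C / Fintype.card I ≤ C / Real.sqrt (Fintype.card I) :=
    div_le_div_of_nonneg_left h.C0 hs1 hs
  have h6 : (0 : ℝ) ≤ C / Fintype.card I := div_nonneg h.C0 (by linarith)
  have h7 : (((Fintype.card K1 * Fintype.card K2 : ℕ)) : ℝ) ≤ (k : ℝ) ^ 2 := by
    have h8 : Fintype.card K1 * Fintype.card K2 ≤ k ^ 2 := by
      rw [pow_two]
      exact Nat.mul_le_mul h1 h2
    exact_mod_cast h8
  have h8 : (((Fintype.card K1 * Fintype.card K2 : ℕ)) : ℝ) * (C / Fintype.card I) ≤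
      (k : ℝ) ^ 2 * (C / Real.sqrt (Fintype.card I)) :=
    mul_le_mul h7 h5 h6 (by positivity)
  have h9 : 2 * (k : ℝ) ^ 2 * C / Real.sqrt (Fintype.card I) =
      2 * ((k : ℝ) ^ 2 * (C / Real.sqrt (Fintype.card I))) := by ring
  rw [h9]
  linarith

/-- the derivative in a block entry -/
theorem lo_D {l X C C1 : ℝ} (hl0 : 0 ≤ l) {ι : K1 ↪ I} {κ : K2 ↪ J} {b : K1 × K2 → ℝ}
    {p : I × J → ℝ} (h : FlatS l X C ι κ b p) {k : ℕ} (h1 : Fintype.card K1 ≤ k)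
    (h2 : Fintype.card K2 ≤ k) (hn : 1 ≤ Fintype.card I)
    (hN : ∀ S : Finset (K1 × K2),
      |Ex p (fun E => (nu (sg (univ.map ι) (univ.map κ) (S.map (emb ι κ)) E) : ℝ)) -
        c0 l ι κ b p - phi l b S| ≤ C1 / Real.sqrt (Fintype.card I)) (e : K1 × K2) :
    |Dd p (emb ι κ e) - Ex b (fun S => phi l b (insert e S) - phi l b (S.erase e))| ≤
      (2 * C1 + 2 * k ^ 2 * C) / Real.sqrt (Fintype.card I) := by
  have q0 : ∀ x, 0 ≤ p (emb ι κ x) := fun x => h.dx.h0 _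
  have q1 : ∀ x, p (emb ι κ x) ≤ 1 := fun x => h.dx.le_one _
  have e1 : Dd p (emb ι κ e) = Ex (fun x => p (emb ι κ x)) (fun S =>
      Ex p (fun E => (nu (sg (univ.map ι) (univ.map κ) ((insert e S).map (emb ι κ)) E) : ℝ)) -
      Ex p (fun E => (nu (sg (univ.map ι) (univ.map κ) ((S.erase e).map (emb ι κ)) E) : ℝ))) := by
    unfold Dd
    rw [Ex_block p ι κ]
    refine Ex_congr _ (fun S => ?_)
    rw [← Ex_sub]
    refine Ex_congr _ (fun E => ?_)
    rw [lo_ins, lo_era]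
  have e2 : |Dd p (emb ι κ e) - Ex (fun x => p (emb ι κ x))
      (fun S => phi l b (insert e S) - phi l b (S.erase e))| ≤
      (2 * C1) / Real.sqrt (Fintype.card I) := by
    rw [e1, ← Ex_sub]
    refine lo_abs q0 q1 (fun S => ?_)
    have h3 := abs_le.mp (hN (insert e S))
    have h4 := abs_le.mp (hN (S.erase e))
    have h5 : 2 * C1 / Real.sqrt (Fintype.card I) = 2 * (C1 / Real.sqrt (Fintype.card I)) := by
      ring
    rw [h5, abs_le]
    constructor <;> linarith [h3.1, h3.2, h4.1, h4.2]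
  have e3 := lo_chg h h1 h2 hn (fun S => phi l b (insert e S) - phi l b (S.erase e))
    (fun S => lo_phi hl0 h.br h.bc _ _ (fun X' Y' => lo_nuD_diff e S X' Y'))
  have e4 := abs_le.mp e2
  have e5 := abs_le.mp e3
  have e6 : (2 * C1 + 2 * (k : ℝ) ^ 2 * C) / Real.sqrt (Fintype.card I) =
      2 * C1 / Real.sqrt (Fintype.card I) + 2 * k ^ 2 * C / Real.sqrt (Fintype.card I) := by
    ring
  rw [e6, abs_le]
  constructor <;> linarith [e4.1, e4.2, e5.1, e5.2]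

/-- the vertex indicators of the block -/
theorem lo_X {l X C C1 C2 : ℝ} (hl0 : 0 ≤ l) {ι : K1 ↪ I} {κ : K2 ↪ J} {b : K1 × K2 → ℝ}
    {p : I × J → ℝ} (h : FlatS l X C ι κ b p) {k : ℕ} (h1 : Fintype.card K1 ≤ k)
    (h2 : Fintype.card K2 ≤ k) (hn : 1 ≤ Fintype.card I)
    (hN : ∀ S : Finset (K1 × K2),
      |Ex p (fun E => (nu (sg (univ.map ι) (univ.map κ) (S.map (emb ι κ)) E) : ℝ)) -
        c0 l ι κ b p - phi l b S| ≤ C1 / Real.sqrt (Fintype.card I))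
    (a : K1)
    (hR : ∀ S : Finset (K1 × K2),
      |Ex p (fun E => (nu (dR (ι a) (sg (univ.map ι) (univ.map κ) (S.map (emb ι κ)) E)) : ℝ)) -
        (c0 l ι κ b p - (1 - ube l b a)) - phi l b (dR a S)| ≤
        C2 / Real.sqrt (Fintype.card I)) :
    |Ex p (Xi (ι a)) - (ube l b a - Ex b (fun S => phi l b S - phi l b (dR a S)))| ≤
      (C1 + C2 + 2 * k ^ 2 * C) / Real.sqrt (Fintype.card I) := by
  have q0 : ∀ x, 0 ≤ p (emb ι κ x) := fun x => h.dx.h0 _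
  have q1 : ∀ x, p (emb ι κ x) ≤ 1 := fun x => h.dx.le_one _
  have e1 : Ex p (Xi (ι a)) = 1 - Ex (fun x => p (emb ι κ x)) (fun S =>
      Ex p (fun E => (nu (sg (univ.map ι) (univ.map κ) (S.map (emb ι κ)) E) : ℝ)) -
      Ex p (fun E =>
        (nu (dR (ι a) (sg (univ.map ι) (univ.map κ) (S.map (emb ι κ)) E)) : ℝ))) := by
    rw [Ex_Xi_nu, Ex_sub, ← Ex_block p ι κ (fun E => (nu E : ℝ)),
      ← Ex_block p ι κ (fun E => (nu (dR (ι a) E) : ℝ))]
    unfold FF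
    ring
  have e2 : |Ex p (Xi (ι a)) - (ube l b a - Ex (fun x => p (emb ι κ x))
      (fun S => phi l b S - phi l b (dR a S)))| ≤
      (C1 + C2) / Real.sqrt (Fintype.card I) := by
    have e3 : Ex p (Xi (ι a)) - (ube l b a - Ex (fun x => p (emb ι κ x))
        (fun S => phi l b S - phi l b (dR a S))) =
        Ex (fun x => p (emb ι κ x)) (fun S =>
          (phi l b S - phi l b (dR a S)) -
          (Ex p (fun E => (nu (sg (univ.map ι) (univ.map κ) (S.map (emb ι κ)) E) : ℝ)) -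
      Ex p (fun E =>
        (nu (dR (ι a) (sg (univ.map ι) (univ.map κ) (S.map (emb ι κ)) E)) : ℝ))) +
          (1 - ube l b a)) := by
      rw [e1, Ex_add, Ex_const, Ex_sub _ (fun S => phi l b S - phi l b (dR a S))]
      ring
    rw [e3]
    refine lo_abs q0 q1 (fun S => ?_)
    have h3 := abs_le.mp (hN S)
    have h4 := abs_le.mp (hR S)
    have h5 : (C1 + C2) / Real.sqrt (Fintype.card I) = C1 / Real.sqrt (Fintype.card I) +
      C2 / Real.sqrt (Fintype.card I) := by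
      ring
    rw [h5, abs_le]
    constructor <;> linarith [h3.1, h3.2, h4.1, h4.2]
  have e3 := lo_chg h h1 h2 hn (fun S => phi l b S - phi l b (dR a S))
    (fun S => lo_phi hl0 h.br h.bc _ _ (fun X' Y' => lo_nuD_dR a S X' Y'))
  have e4 := abs_le.mp e2
  have e5 := abs_le.mp e3
  have e6 : (C1 + C2 + 2 * (k : ℝ) ^ 2 * C) / Real.sqrt (Fintype.card I) =
      (C1 + C2) / Real.sqrt (Fintype.card I) + 2 * k ^ 2 * C / Real.sqrt (Fintype.card I) := by
    ring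
  rw [e6, abs_le]
  constructor <;> linarith [e4.1, e4.2, e5.1, e5.2]

theorem lo_Y {l X C C1 C2 : ℝ} (hl0 : 0 ≤ l) {ι : K1 ↪ I} {κ : K2 ↪ J} {b : K1 × K2 → ℝ}
    {p : I × J → ℝ} (h : FlatS l X C ι κ b p) {k : ℕ} (h1 : Fintype.card K1 ≤ k)
    (h2 : Fintype.card K2 ≤ k) (hn : 1 ≤ Fintype.card I)
    (hN : ∀ S : Finset (K1 × K2),
      |Ex p (fun E => (nu (sg (univ.map ι) (univ.map κ) (S.map (emb ι κ)) E) : ℝ)) -
        c0 l ι κ b p - phi l b S| ≤ C1 / Real.sqrt (Fintype.card I))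
    (c : K2)
    (hR : ∀ S : Finset (K1 × K2),
      |Ex p (fun E => (nu (dC (κ c) (sg (univ.map ι) (univ.map κ) (S.map (emb ι κ)) E)) : ℝ)) -
        (c0 l ι κ b p - (1 - vbe l b c)) - phi l b (dC c S)| ≤
        C2 / Real.sqrt (Fintype.card I)) :
    |Ex p (Yj (κ c)) - (vbe l b c - Ex b (fun S => phi l b S - phi l b (dC c S)))| ≤
      (C1 + C2 + 2 * k ^ 2 * C) / Real.sqrt (Fintype.card I) := by
  have q0 : ∀ x, 0 ≤ p (emb ι κ x) := fun x => h.dx.h0 _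
  have q1 : ∀ x, p (emb ι κ x) ≤ 1 := fun x => h.dx.le_one _
  have e1 : Ex p (Yj (κ c)) = 1 - Ex (fun x => p (emb ι κ x)) (fun S =>
      Ex p (fun E => (nu (sg (univ.map ι) (univ.map κ) (S.map (emb ι κ)) E) : ℝ)) -
      Ex p (fun E =>
        (nu (dC (κ c) (sg (univ.map ι) (univ.map κ) (S.map (emb ι κ)) E)) : ℝ))) := by
    rw [Ex_Yj_nu, Ex_sub, ← Ex_block p ι κ (fun E => (nu E : ℝ)),
      ← Ex_block p ι κ (fun E => (nu (dC (κ c) E) : ℝ))]
    unfold FF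
    ring
  have e2 : |Ex p (Yj (κ c)) - (vbe l b c - Ex (fun x => p (emb ι κ x))
      (fun S => phi l b S - phi l b (dC c S)))| ≤
      (C1 + C2) / Real.sqrt (Fintype.card I) := by
    have e3 : Ex p (Yj (κ c)) - (vbe l b c - Ex (fun x => p (emb ι κ x))
        (fun S => phi l b S - phi l b (dC c S))) =
        Ex (fun x => p (emb ι κ x)) (fun S =>
          (phi l b S - phi l b (dC c S)) -
          (Ex p (fun E => (nu (sg (univ.map ι) (univ.map κ) (S.map (emb ι κ)) E) : ℝ)) -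
      Ex p (fun E =>
        (nu (dC (κ c) (sg (univ.map ι) (univ.map κ) (S.map (emb ι κ)) E)) : ℝ))) +
          (1 - vbe l b c)) := by
      rw [e1, Ex_add, Ex_const, Ex_sub _ (fun S => phi l b S - phi l b (dC c S))]
      ring
    rw [e3]
    refine lo_abs q0 q1 (fun S => ?_)
    have h3 := abs_le.mp (hN S)
    have h4 := abs_le.mp (hR S)
    have h5 : (C1 + C2) / Real.sqrt (Fintype.card I) = C1 / Real.sqrt (Fintype.card I) +
      C2 / Real.sqrt (Fintype.card I) := by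
      ring
    rw [h5, abs_le]
    constructor <;> linarith [h3.1, h3.2, h4.1, h4.2]
  have e3 := lo_chg h h1 h2 hn (fun S => phi l b S - phi l b (dC c S))
    (fun S => lo_phi hl0 h.br h.bc _ _ (fun X' Y' => lo_nuD_dC c S X' Y'))
  have e4 := abs_le.mp e2
  have e5 := abs_le.mp e3
  have e6 : (C1 + C2 + 2 * (k : ℝ) ^ 2 * C) / Real.sqrt (Fintype.card I) =
      (C1 + C2) / Real.sqrt (Fintype.card I) + 2 * k ^ 2 * C / Real.sqrt (Fintype.card I) := by
    ring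
  rw [e6, abs_le]
  constructor <;> linarith [e4.1, e4.2, e5.1, e5.2]

end

theorem local_deriv {l : ℝ} (hl : Real.exp (-l) = l) (k : ℕ) (C X : ℝ) : ∃ C' : ℝ, 0 ≤ C' ∧
    ∀ {I J K1 K2 : Type} [Fintype I] [Fintype J] [DecidableEq I] [DecidableEq J]
      [Fintype K1] [Fintype K2] [DecidableEq K1] [DecidableEq K2]
      (ι : K1 ↪ I) (κ : K2 ↪ J) (b : K1 × K2 → ℝ) (p : I × J → ℝ),
      FlatS l X C ι κ b p → Fintype.card K1 ≤ k → Fintype.card K2 ≤ k → 1 ≤ Fintype.card I →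
      ∀ w : K1 × K2 → ℝ, (∀ e, |w e| ≤ 1) →
      |∑ e, w e * (Dd p (emb ι κ e) - l * Ex p (Xi (ι e.1)) - l * Ex p (Yj (κ e.2)) + l ^ 2) -
        psi l b w| ≤ C' / Real.sqrt (Fintype.card I) := by
  have hl0 : 0 ≤ l := hl ▸ (Real.exp_pos _).le
  have hl1 : l ≤ 1 := by
    rw [← hl]
    exact Real.exp_le_one_iff.mpr (by linarith)
  obtain ⟨C1, c1, H1⟩ := ln_main hl k C X
  obtain ⟨C2, c2, H2⟩ := ln_row hl k C X
  obtain ⟨C3, c3, H3⟩ := ln_col hl k C X
  refine ⟨(k : ℝ) ^ 2 * (4 * C1 + C2 + C3 + 6 * k ^ 2 * |C|), by positivity, ?_⟩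
  intro I J K1 K2 _ _ _ _ _ _ _ _ ι κ b p h hk1 hk2 hn w hw
  have hC : |C| = C := abs_of_nonneg h.C0
  have hC0 := h.C0
  have hn' : (1 : ℝ) ≤ (Fintype.card I : ℝ) := by exact_mod_cast hn
  have hs1 : 0 < Real.sqrt (Fintype.card I) := Real.sqrt_pos.mpr (by linarith)
  set r : ℝ := Real.sqrt (Fintype.card I) with hr
  have HN := H1 ι κ b p h hk1 hk2 hn
  have HR := H2 ι κ b p h hk1 hk2 hn
  have HC := H3 ι κ b p h hk1 hk2 hn
  have key : ∀ e : K1 × K2,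
      |w e * (Dd p (emb ι κ e) - l * Ex p (Xi (ι e.1)) - l * Ex p (Yj (κ e.2)) + l ^ 2) -
      w e * (Ex b (fun S => phi l b (insert e S) - phi l b (S.erase e)) -
        l * (ube l b e.1 - Ex b (fun S => phi l b S - phi l b (dR e.1 S))) -
        l * (vbe l b e.2 - Ex b (fun S => phi l b S - phi l b (dC e.2 S))) + l ^ 2)| ≤
      (4 * C1 + C2 + C3 + 6 * k ^ 2 * C) / r := by
    intro e
    have k1 := lo_D hl0 h hk1 hk2 hn HN e
    have k2 := lo_X hl0 h hk1 hk2 hn HN e.1 (fun S => HR S e.1)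
    have k3 := lo_Y hl0 h hk1 hk2 hn HN e.2 (fun S => HC S e.2)
    rw [← hr] at k1 k2 k3
    set A1 := Dd p (emb ι κ e) - Ex b (fun S => phi l b (insert e S) - phi l b (S.erase e))
    set A2 := Ex p (Xi (ι e.1)) -
      (ube l b e.1 - Ex b (fun S => phi l b S - phi l b (dR e.1 S))) with hA2
    set A3 := Ex p (Yj (κ e.2)) -
      (vbe l b e.2 - Ex b (fun S => phi l b S - phi l b (dC e.2 S))) with hA3
    have k4 : w e * (Dd p (emb ι κ e) - l * Ex p (Xi (ι e.1)) - l * Ex p (Yj (κ e.2)) + l ^ 2) -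
      w e * (Ex b (fun S => phi l b (insert e S) - phi l b (S.erase e)) -
        l * (ube l b e.1 - Ex b (fun S => phi l b S - phi l b (dR e.1 S))) -
        l * (vbe l b e.2 - Ex b (fun S => phi l b S - phi l b (dC e.2 S))) + l ^ 2) =
      w e * (A1 - l * A2 - l * A3) := by
      simp only [A1, A2, A3]
      ring
    rw [k4, abs_mul]
    have k5 : |A1 - l * A2 - l * A3| ≤ |A1| + |A2| + |A3| := by
      have m1 := abs_sub (A1 - l * A2) (l * A3)
      have m2 := abs_sub A1 (l * A2)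
      have m3 : |l * A2| ≤ |A2| := by
        rw [abs_mul, abs_of_nonneg hl0]
        exact mul_le_of_le_one_left (abs_nonneg _) hl1
      have m4 : |l * A3| ≤ |A3| := by
        rw [abs_mul, abs_of_nonneg hl0]
        exact mul_le_of_le_one_left (abs_nonneg _) hl1
      linarith
    have k6 : |w e| * |A1 - l * A2 - l * A3| ≤ |A1 - l * A2 - l * A3| :=
      mul_le_of_le_one_left (abs_nonneg _) (hw e)
    have k7 : (4 * C1 + C2 + C3 + 6 * (k : ℝ) ^ 2 * C) / r =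
      (2 * C1 + 2 * (k : ℝ) ^ 2 * C) / r + (C1 + C2 + 2 * (k : ℝ) ^ 2 * C) / r +
      (C1 + C3 + 2 * (k : ℝ) ^ 2 * C) / r := by ring
    rw [k7]
    linarith
  unfold psi
  rw [← Finset.sum_sub_distrib]
  refine (Finset.abs_sum_le_sum_abs _ _).trans ((Finset.sum_le_sum (fun e _ => key e)).trans ?_)
  rw [Finset.sum_const, Finset.card_univ, Fintype.card_prod, nsmul_eq_mul, hC]
  have h7 : (((Fintype.card K1 * Fintype.card K2 : ℕ)) : ℝ) ≤ (k : ℝ) ^ 2 := by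
    have h8 : Fintype.card K1 * Fintype.card K2 ≤ k ^ 2 := by
      rw [pow_two]
      exact Nat.mul_le_mul hk1 hk2
    exact_mod_cast h8
  rw [mul_div_assoc]
  exact mul_le_mul_of_nonneg_right h7 (by positivity)

end Pool.JN2
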