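import Pool.Agent.JN2.D3

/-! Module Lv (difficulty 2). The value `LV` of JN/Lf1 in terms of `Xh`, `Yh`, `nuD`; block edges resampled.

PROOF. (1) LV_eq: S = I0, T = J0, Sg ⊆ I0 × J0, F = sg I0 J0 Sg E = E0 I0 J0 E ∪ Sg. del I0 J0 F = del I0 J0 E; S1 I0 J0 F = Xh I0 J0 E (edges (i,j) with j ∉ J0 are the same in F and E: mem_S1, sg_row),
   T1 I0 J0 F = Yh I0 J0 E; bl (I0 \ Xh) (J0 \ Yh) F = Sg.filter (e.1 ∉ Xh ∧ e.2 ∉ Yh) (an edge of F with row in I0 and column in J0 is in Sg; edges of Sg have rows in I0, columns in J0).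
 (2) sg_dR: dR i (sg I0 J0 Sg E) = sg I0 J0 (dR i Sg) (dR i E); same for dC.
 (3) LN_zr: Ex p (fun E => nu (dR i (sg I0 J0 Sg E))) = Ex (zr p i) (fun E => nu (sg I0 J0 (dR i Sg) E)) (Ex_zr); zc for columns (KX.up_dC).
-/

namespace Pool.JN2

open Finset Pool.KS Pool.JN

set_option linter.unusedSectionVars false

variable {I J : Type*} [Fintype I] [Fintype J] [DecidableEq I] [DecidableEq J]

/-- column `j` of `p` set to zero -/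
def zc (p : I × J → ℝ) (j : J) : I × J → ℝ := fun e => if e.2 = j then 0 else p e

theorem mem_Xh' {I0 : Finset I} {J0 : Finset J} {E : Finset (I × J)} {i : I} :
    i ∈ Xh I0 J0 E ↔ i ∈ I0 ∧ ∃ j, (j ∈ Rm (del I0 J0 E) ∧ j ∉ J0) ∧ (i, j) ∈ E := by
  unfold Xh Rb
  rw [Finset.mem_filter]
  simp only [Finset.mem_sdiff]

theorem mem_Yh' {I0 : Finset I} {J0 : Finset J} {E : Finset (I × J)} {j : J} :
    j ∈ Yh I0 J0 E ↔ j ∈ J0 ∧ ∃ i, (i ∈ Lm (del I0 J0 E) ∧ i ∉ I0) ∧ (i, j) ∈ E := by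
  unfold Yh Lb
  rw [Finset.mem_filter]
  simp only [Finset.mem_sdiff]

theorem mem_sg' {I0 : Finset I} {J0 : Finset J} {Sg E : Finset (I × J)} {e : I × J} :
    e ∈ sg I0 J0 Sg E ↔ (e ∈ E ∧ ¬ (e.1 ∈ I0 ∧ e.2 ∈ J0)) ∨ e ∈ Sg := by
  unfold sg
  rw [Finset.mem_union, mem_E0]

theorem LV_eq {I0 : Finset I} {J0 : Finset J} {Sg : Finset (I × J)}
    (hSg : ∀ e ∈ Sg, e.1 ∈ I0 ∧ e.2 ∈ J0) (E : Finset (I × J)) :
    (LV I0 J0 (sg I0 J0 Sg E) : ℝ) = (nu (del I0 J0 E) : ℝ) + ((Xh I0 J0 E).card : ℝ) +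
      ((Yh I0 J0 E).card : ℝ) + nuD Sg (Xh I0 J0 E) (Yh I0 J0 E) := by
  have h1 : del I0 J0 (sg I0 J0 Sg E) = del I0 J0 E := by
    rw [sg_del hSg, del_E0]
  have h2 : S1 I0 J0 (sg I0 J0 Sg E) = Xh I0 J0 E := by
    ext i
    rw [mem_S1, mem_Xh', h1]
    refine and_congr_right (fun _ => ?_)
    constructor
    · rintro ⟨j, hj, hj1, hj2⟩
      exact ⟨j, ⟨hj2, hj1⟩, (mem_E0.mp (sg_row hSg (Or.inr hj1) hj)).1⟩
    · rintro ⟨j, ⟨hj2, hj1⟩, hj⟩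
      exact ⟨j, mem_sg'.mpr (Or.inl ⟨hj, fun h => hj1 h.2⟩), hj1, hj2⟩
  have h3 : T1 I0 J0 (sg I0 J0 Sg E) = Yh I0 J0 E := by
    ext j
    rw [mem_T1, mem_Yh', h1]
    refine and_congr_right (fun _ => ?_)
    constructor
    · rintro ⟨i, hi, hi1, hi2⟩
      exact ⟨i, ⟨hi2, hi1⟩, (mem_E0.mp (sg_row hSg (Or.inl hi1) hi)).1⟩
    · rintro ⟨i, ⟨hi2, hi1⟩, hi⟩
      exact ⟨i, mem_sg'.mpr (Or.inl ⟨hi, fun h => hi1 h.1⟩), hi1, hi2⟩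
  have h4 : bl (I0 \ Xh I0 J0 E) (J0 \ Yh I0 J0 E) (sg I0 J0 Sg E) =
      Sg.filter (fun e => e.1 ∉ Xh I0 J0 E ∧ e.2 ∉ Yh I0 J0 E) := by
    ext e
    rw [mem_bl, mem_sg', Finset.mem_filter, Finset.mem_sdiff, Finset.mem_sdiff]
    constructor
    · rintro ⟨ha | ha, hb, hc⟩
      · exact absurd ⟨hb.1, hc.1⟩ ha.2
      · exact ⟨ha, hb.2, hc.2⟩
    · rintro ⟨ha, hb, hc⟩
      exact ⟨Or.inr ha, ⟨(hSg e ha).1, hb⟩, (hSg e ha).2, hc⟩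
  unfold LV nuD
  rw [h1, h2, h3, h4]
  push_cast
  ring

theorem sg_dR (I0 : Finset I) (J0 : Finset J) (Sg E : Finset (I × J)) (i : I) :
    dR i (sg I0 J0 Sg E) = sg I0 J0 (dR i Sg) (dR i E) := by
  ext e
  rw [mem_dR, mem_sg', mem_sg', mem_dR, mem_dR]
  tauto

theorem sg_dC (I0 : Finset I) (J0 : Finset J) (Sg E : Finset (I × J)) (j : J) :
    dC j (sg I0 J0 Sg E) = sg I0 J0 (dC j Sg) (dC j E) := by
  ext e
  rw [mem_dC, mem_sg', mem_sg', mem_dC, mem_dC]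
  tauto

theorem Ex_sg_dR (p : I × J → ℝ) (I0 : Finset I) (J0 : Finset J) (Sg : Finset (I × J))
    (i : I) :
    Ex p (fun E => (nu (dR i (sg I0 J0 Sg E)) : ℝ)) =
      Ex (zr p i) (fun E => (nu (sg I0 J0 (dR i Sg) E) : ℝ)) := by
  rw [← Ex_zr]
  exact Ex_congr p (fun E => by rw [sg_dR])

theorem Ex_sg_dC (p : I × J → ℝ) (I0 : Finset I) (J0 : Finset J) (Sg : Finset (I × J))
    (j : J) :
    Ex p (fun E => (nu (dC j (sg I0 J0 Sg E)) : ℝ)) =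
      Ex (zc p j) (fun E => (nu (sg I0 J0 (dC j Sg) E) : ℝ)) := by
  have h1 := KX.up_dC p j (fun E => (nu (sg I0 J0 (dC j Sg) E) : ℝ))
  unfold zc
  rw [← h1]
  exact Ex_congr p (fun E => by rw [sg_dC])

end Pool.JN2
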