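import Pool.Agent.JN2.D

/-! Module Pg (difficulty 1). Pigeonhole over scales.

PROOF. The sets {e : d (s+1) ≤ A e < d s}, s < N, are pairwise disjoint (d antitone), so the sum over s of their energies is ≤ K. If all were > η the sum would be > N η ≥ K.
-/

namespace Pool.JN2

open Finset Pool.KS Pool.JN

set_option linter.unusedSectionVars false

theorem pigeon {ε : Type*} [Fintype ε] [DecidableEq ε] (A : ε → ℝ) {K η : ℝ}
    (hK : ∑ e, A e ^ 2 ≤ K) (hη : 0 < η) (d : ℕ → ℝ) (hd : Antitone d) {N : ℕ}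
    (hN : K < N * η) :
    ∃ s, s < N ∧ ∑ e ∈ univ.filter (fun e => d (s + 1) ≤ A e ∧ A e < d s), A e ^ 2 ≤ η := by
  by_contra hcon
  push Not at hcon
  have hdisj : (↑(Finset.range N) : Set ℕ).PairwiseDisjoint
      (fun s => univ.filter (fun e => d (s + 1) ≤ A e ∧ A e < d s)) := by
    intro s _ t _ hst
    rw [Function.onFun, Finset.disjoint_left]
    intro e he he'
    rw [Finset.mem_filter] at he he'
    rcases lt_or_gt_of_ne hst with h | h
    · have h1 : d t ≤ d (s + 1) := hd h
      linarith [he.2.1, he'.2.2]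
    · have h1 : d s ≤ d (t + 1) := hd h
      linarith [he.2.2, he'.2.1]
  have h1 : (N : ℝ) * η ≤ ∑ s ∈ Finset.range N,
      ∑ e ∈ univ.filter (fun e => d (s + 1) ≤ A e ∧ A e < d s), A e ^ 2 := by
    calc (N : ℝ) * η = ∑ s ∈ Finset.range N, η := by
          rw [Finset.sum_const, Finset.card_range, nsmul_eq_mul]
      _ ≤ _ := Finset.sum_le_sum (fun s hs => (hcon s (Finset.mem_range.mp hs)).le)
  rw [← Finset.sum_biUnion hdisj] at h1
  have h2 : ∑ e ∈ (Finset.range N).biUnion
      (fun s => univ.filter (fun e => d (s + 1) ≤ A e ∧ A e < d s)), A e ^ 2 ≤ ∑ e, A e ^ 2 :=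
    Finset.sum_le_sum_of_subset_of_nonneg (Finset.subset_univ _) (fun e _ _ => sq_nonneg _)
  linarith

end Pool.JN2
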