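import Pool.Agent.JN2.Tg
import Pool.Agent.JN2.Pg
import Pool.Agent.JN2.Cop
import Pool.Agent.JN2.Hs
import Pool.Agent.JN.Fi

/-! Module Md (difficulty 3). All doubly stochastic matrices with entries ≤ .7721, n large (text STEP 5).

PROOF. γ = 2(1-l) - l^2, u = uniform matrix. eps1 from t1 (JN/Fi.lean; it gives both ≤ and strict < for entries ≤ eps1). eps := min eps1 (1/2) / 2 (so eps ≤ 1/4), K := 6250, gap := 4/10000 * eps^2, L := CT (7/2) ≥ 1,
 τ := min (gap/8) (1/8) / L, η := τ^2 / 4 (so L sqrt(2 η) ≤ min(gap/8, 1/8), sqrt (2η) < τ), m := ceil (16/gap) (so 4/m ≤ gap/4, m ≥ 1), N := a natural number with K < N η.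
 d 0 := eps, d (s+1) := min (d s / 2) (η (d s)^2 / (8 K)) > 0, antitone. For each s < N: C_s, X_s, N0_s from target K (d s) (d (s+1)) (5/2); N1_s from copies (k := ceil (K/(d s)^2)) m C_s X_s.
 n1 := a natural number ≥ all N0_s, N1_s (s < N), ≥ 20000, 2/n1 ≤ eps1 - eps (≥ eps), and such that for all s < N, with S_s := K/d(s+1) + 2 K/(d s)^2: 2 sqrt(S_s/n) + (S_s/n) sqrt K ≤ τ - sqrt(3η/2) for n ≥ n1
   (sqrt(3η/2) = τ sqrt(3/8) < τ).
 Let p be DS, entries ≤ 7721/10000, n = card I ≥ n1.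
 If all entries are < eps ≤ eps1: t1. Otherwise some entry e0 has p e0 ≥ eps; show FF u < FF p. Suppose FF p ≤ FF u ≤ γ n + 5/2 (fx_univ_upper, n = N'+1, N' > 0). main_bound2: 4/10000 sum p^2 ≤ 5/2, sum p^2 ≤ K.
 pigeon: s < N; d1 = d s, d2 = d (s+1), T = tT p d1 d2, B = tB p d1. sq_tT: energy of T ≤ η + 2 (K/d1^2) d2 ≤ η + η/4 ≤ 3η/2. sT ≤ S_s (sum_tT). opT_nrm: nrm (opT p T - p) ≤ τ.
 hs_lip (DX l (5/2) p: entries ≤ th; q = opT p T: DS, entries ≤ 7721/10000 + 2/n ≤ th): L τ ≤ 1/8 ≤ 1/2, |FF (opT p T) - FF p| ≤ L τ ≤ gap/8   (5/2 + 1 = 7/2).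
 copies (target; b = tb p d1 ≤ 7721/10000 ≤ th, cards ≤ K/d1^2 ≤ k): 4/10000 sum b^2 - 4/m ≤ FF (opT p T) - FF (opT p (T ∪ B)) (p + W = opT p T as functions); sum b^2 ≥ (p e0)^2 ≥ eps^2 (e0 ∈ I0 × J0 since p e0 ≥ eps = d 0 ≥ d1).
 t1 for opT p (T ∪ B): entries ≤ 2/n on T ∪ B, < d2 + 2/n ≤ eps + 2/n ≤ eps1 outside (e ∉ T ∪ B implies p e < d2): FF u ≤ FF (opT p (T ∪ B)).
 So FF p ≥ FF u + gap - gap/4 - gap/8 > FF u, contradiction.
-/

namespace Pool.JN2

open Finset Pool.KS Pool.JN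

set_option linter.unusedSectionVars false

theorem md_l : ∃ l : ℝ, Real.exp (-l) = l := by
  have hc : ContinuousOn (fun x : ℝ => Real.exp (-x) - x) (Set.Icc 0 1) := by fun_prop
  have h := intermediate_value_Icc' (zero_le_one' ℝ) hc
  have h0 : (0 : ℝ) ∈ Set.Icc (Real.exp (-1) - 1) (Real.exp (-0) - 0) := by
    constructor
    · have : Real.exp (-1) ≤ 1 := by
        rw [Real.exp_le_one_iff]; norm_num
      linarith
    · simp
  obtain ⟨x, _, hx⟩ := h h0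
  exact ⟨x, by simpa [sub_eq_zero] using hx⟩

theorem md_CT : 1 ≤ CT (5 / 2 + 1) := by
  unfold CT
  have := DD_one
  nlinarith

theorem md_small (S K δ : ℝ) (hδ : 0 < δ) :
    ∃ n0 : ℕ, ∀ n : ℕ, n0 ≤ n → 2 * Real.sqrt (S / n) + S / n * Real.sqrt K ≤ δ := by
  have h1 : Filter.Tendsto (fun n : ℕ => S / (n : ℝ)) Filter.atTop (nhds 0) :=
    tendsto_const_div_atTop_nhds_zero_nat S
  have h2 : Filter.Tendsto (fun n : ℕ => Real.sqrt (S / (n : ℝ))) Filter.atTop (nhds 0) := by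
    have h3 := (Real.continuous_sqrt.tendsto 0).comp h1
    rw [Real.sqrt_zero] at h3
    exact h3
  have h4 : Filter.Tendsto (fun n : ℕ => 2 * Real.sqrt (S / n) + S / n * Real.sqrt K)
      Filter.atTop (nhds (2 * 0 + 0 * Real.sqrt K)) := (h2.const_mul 2).add (h1.mul_const _)
  rw [mul_zero, zero_mul, add_zero] at h4
  have h5 := (h4.eventually (gt_mem_nhds hδ))
  obtain ⟨n0, hn0⟩ := Filter.eventually_atTop.1 h5
  exact ⟨n0, fun n hn => (hn0 n hn).le⟩

/-- the copy step for the scales `d1`, `d2` -/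
theorem md_step {l : ℝ} (hl : Real.exp (-l) = l) (K d1 d2 : ℝ) (hd2 : 0 < d2) (hd : d2 ≤ d1)
    (m : ℕ) (hm : 1 ≤ m) : ∃ M : ℕ,
    ∀ {I J : Type} [Fintype I] [Fintype J] [DecidableEq I] [DecidableEq J] (A : I × J → ℝ),
      DS A → (∀ e, A e ≤ 7721 / 10000) → ∑ e, A e ^ 2 ≤ K →
      FF A ≤ (2 * (1 - l) - l ^ 2) * Fintype.card I + 5 / 2 → M ≤ Fintype.card I →
      4 / 10000 * ∑ x, tb A d1 x ^ 2 - 4 / m ≤
        FF (opT A (tT A d1 d2)) - FF (opT A (tT A d1 d2 ∪ tB A d1)) := by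
  obtain ⟨C, X, N0, _, _, h⟩ := target hl K d1 d2 (5 / 2) hd2 hd (by norm_num)
  obtain ⟨N1, h'⟩ := copies hl ⌈K / d1 ^ 2⌉₊ m hm C X
  refine ⟨max N0 N1, ?_⟩
  intro I J _ _ _ _ A hA hA1 hK hF hM
  have h1 := h A hA hA1 hK hF ((le_max_left _ _).trans hM)
  have hc := card_tI (A := A) (lt_of_lt_of_le hd2 hd) hK
  have h2 := h' _ _ _ _ _ h1 ?_ ?_ ?_ ((le_max_right _ _).trans hM)
  · have e1 : (fun e => opT A (tT A d1 d2 ∪ tB A d1) e +
        (opT A (tT A d1 d2) e - opT A (tT A d1 d2 ∪ tB A d1) e)) = opT A (tT A d1 d2) := by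
      funext e
      ring
    rw [e1] at h2
    exact h2
  · intro e
    unfold tb
    split_ifs
    · refine (hA1 _).trans ?_
      unfold th; norm_num
    · exact th_pos.le
  · rw [Fintype.card_coe]
    exact_mod_cast hc.1.trans (Nat.le_ceil _)
  · rw [Fintype.card_coe]
    exact_mod_cast hc.2.trans (Nat.le_ceil _)

theorem md_flat {l : ℝ} (hl : Real.exp (-l) = l) {I J : Type} [Fintype I] [Fintype J]
    [DecidableEq I] [DecidableEq J] (A : I × J → ℝ) (hA : DS A)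
    (hA1 : ∀ e, A e ≤ 7721 / 10000) {K E S τ : ℝ} (hK : ∑ e, A e ^ 2 ≤ K)
    (hF : FF A ≤ (2 * (1 - l) - l ^ 2) * Fintype.card I + 5 / 2) (hn : 20000 ≤ Fintype.card I)
    (T : Finset (I × J)) (hE : ∑ e ∈ T, A e ^ 2 ≤ E) (hS : sT A T ≤ S)
    (hS2 : 2 * Real.sqrt (S / (Fintype.card I : ℝ)) + S / (Fintype.card I : ℝ) * Real.sqrt K ≤
      τ - Real.sqrt E) (hτ : CT (5 / 2 + 1) * τ ≤ 1 / 2) :
    |FF (opT A T) - FF A| ≤ CT (5 / 2 + 1) * τ := by
  have hn1 : 1 ≤ Fintype.card I := by omega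
  have hn0 : (20000 : ℝ) ≤ (Fintype.card I : ℝ) := by exact_mod_cast hn
  have hnpos : (0 : ℝ) < (Fintype.card I : ℝ) := by linarith
  have hC := md_CT
  have h1 : nrm (fun e => opT A T e - A e) ≤ τ := by
    refine (opT_nrm hA hn1 T).trans ?_
    have a1 : Real.sqrt (∑ e ∈ T, A e ^ 2) ≤ Real.sqrt E := Real.sqrt_le_sqrt hE
    have a2 : sT A T / Fintype.card I ≤ S / Fintype.card I := by gcongr
    have a3 : Real.sqrt (sT A T / Fintype.card I) ≤ Real.sqrt (S / Fintype.card I) :=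
      Real.sqrt_le_sqrt a2
    have a4 : Real.sqrt (∑ e, A e ^ 2) ≤ Real.sqrt K := Real.sqrt_le_sqrt hK
    have a5 : 0 ≤ sT A T := Finset.sum_nonneg (fun e _ => hA.h0 e)
    have a6 : 0 ≤ S / (Fintype.card I : ℝ) := div_nonneg (a5.trans hS) hnpos.le
    have a7 : sT A T / Fintype.card I * Real.sqrt (∑ e, A e ^ 2) ≤
        S / Fintype.card I * Real.sqrt K := mul_le_mul a2 a4 (Real.sqrt_nonneg _) a6
    linarith
  have hX : DX l (5 / 2) A :=
    { toDS := hA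
      h1 := fun e => (hA1 e).trans (by unfold th; norm_num)
      X0 := by norm_num
      hX := hF }
  have hq1 : ∀ e, opT A T e ≤ th := by
    intro e
    refine (opT_le hA hn1 T e).trans ?_
    have a1 : (2 : ℝ) / Fintype.card I ≤ 2 / 20000 := by gcongr
    have a2 := hA1 e
    unfold th
    linarith
  have h2 : CT (5 / 2 + 1) * nrm (fun e => opT A T e - A e) ≤ CT (5 / 2 + 1) * τ :=
    mul_le_mul_of_nonneg_left h1 (by linarith)
  exact (hs_lip hl hX (opT_DS hA hn1 T) hq1 (h2.trans hτ)).trans h2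

noncomputable def mdd (ε η K : ℝ) : ℕ → ℝ
  | 0 => ε
  | s + 1 => min (mdd ε η K s / 2) (η * mdd ε η K s ^ 2 / (8 * K))

theorem mdd_pos {ε η K : ℝ} (hε : 0 < ε) (hη : 0 < η) (hK : 0 < K) (s : ℕ) : 0 < mdd ε η K s := by
  induction s with
  | zero => exact hε
  | succ s ih =>
    show 0 < min (mdd ε η K s / 2) (η * mdd ε η K s ^ 2 / (8 * K))
    exact lt_min (by positivity) (by positivity)

theorem mdd_le {ε η K : ℝ} (hε : 0 < ε) (hη : 0 < η) (hK : 0 < K) (s : ℕ) :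
    mdd ε η K (s + 1) ≤ mdd ε η K s := by
  have h1 : mdd ε η K (s + 1) ≤ mdd ε η K s / 2 := min_le_left _ _
  have h2 := mdd_pos hε hη hK s
  linarith

theorem mdd_le' (ε η K : ℝ) (s : ℕ) :
    mdd ε η K (s + 1) ≤ η * mdd ε η K s ^ 2 / (8 * K) := min_le_right _ _

theorem md_main {l : ℝ} (hl : Real.exp (-l) = l) {eps1 : ℝ} (he1 : 0 < eps1) :
    ∃ n1 : ℕ, ∀ {I J : Type} [Fintype I] [Fintype J] [DecidableEq I]
    [DecidableEq J] (p : I × J → ℝ), DS p → (∀ e, p e ≤ 7721 / 10000) →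
    n1 ≤ Fintype.card I →
    FF p ≤ (2 * (1 - l) - l ^ 2) * Fintype.card I + 5 / 2 →
    (∃ e, eps1 / 2 ≤ p e) →
    ∃ q : I × J → ℝ, DS q ∧ (∀ e, q e ≤ eps1) ∧ FF q < FF p := by
  obtain ⟨eps, heps⟩ : ∃ eps : ℝ, eps = eps1 / 2 := ⟨_, rfl⟩
  have heps0 : 0 < eps := by rw [heps]; linarith
  obtain ⟨K, hK⟩ : ∃ K : ℝ, K = 6250 := ⟨_, rfl⟩
  have hK0 : 0 < K := by rw [hK]; norm_num
  obtain ⟨gap, hgap⟩ : ∃ gap : ℝ, gap = 4 / 10000 * eps ^ 2 := ⟨_, rfl⟩
  have hgap0 : 0 < gap := by rw [hgap]; positivity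
  obtain ⟨L, hL⟩ : ∃ L : ℝ, L = CT (5 / 2 + 1) := ⟨_, rfl⟩
  have hL1 : 1 ≤ L := by rw [hL]; exact md_CT
  obtain ⟨τ, hτ⟩ : ∃ τ : ℝ, τ = min (gap / 8) (1 / 8) / L := ⟨_, rfl⟩
  have hmin : 0 < min (gap / 8) (1 / 8) := lt_min (by linarith) (by norm_num)
  have hτ0 : 0 < τ := by rw [hτ]; exact div_pos hmin (by linarith)
  have hLτ : L * τ = min (gap / 8) (1 / 8) := by
    rw [hτ]; field_simp
  obtain ⟨η, hη⟩ : ∃ η : ℝ, η = τ ^ 2 / 4 := ⟨_, rfl⟩
  have hη0 : 0 < η := by rw [hη]; positivity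
  have hδ : 0 < τ - Real.sqrt (3 / 2 * η) := by
    have h1 : Real.sqrt (3 / 2 * η) < τ := by
      rw [Real.sqrt_lt' hτ0, hη]
      nlinarith [sq_nonneg τ, pow_pos hτ0 2]
    linarith
  obtain ⟨m, hm⟩ := exists_nat_gt (16 / gap)
  have hm0 : 1 ≤ m := by
    by_contra h
    have h1 : m = 0 := by omega
    rw [h1, Nat.cast_zero] at hm
    have : 0 < 16 / gap := by positivity
    linarith
  have h4m : (4 : ℝ) / m ≤ gap / 4 := by
    have hmpos : (0 : ℝ) < m := by exact_mod_cast hm0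
    rw [div_le_iff₀ hmpos]
    rw [div_lt_iff₀ hgap0] at hm
    nlinarith
  obtain ⟨N, hN⟩ := exists_nat_gt (K / η)
  have hN' : K < N * η := by
    rw [div_lt_iff₀ hη0] at hN
    exact hN
  obtain ⟨d, hd⟩ : ∃ d : ℕ → ℝ, d = mdd eps η K := ⟨_, rfl⟩
  have hdpos : ∀ s, 0 < d s := fun s => by rw [hd]; exact mdd_pos heps0 hη0 hK0 s
  have hdle : ∀ s, d (s + 1) ≤ d s := fun s => by rw [hd]; exact mdd_le heps0 hη0 hK0 s
  have hdle' : ∀ s, d (s + 1) ≤ η * d s ^ 2 / (8 * K) := fun s => by rw [hd]; exact mdd_le' eps η K s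
  have hdanti : Antitone d := antitone_nat_of_succ_le hdle
  have hd0 : d 0 = eps := by rw [hd]; rfl
  have hstep := fun s => md_step hl K (d s) (d (s + 1)) (hdpos _) (hdle s) m hm0
  choose M hM using hstep
  have hsm := fun s => md_small (K / d (s + 1) + 2 * (K / d s ^ 2)) K (τ - Real.sqrt (3 / 2 * η)) hδ
  choose Q hQ using hsm
  obtain ⟨n2, hn2⟩ := exists_nat_gt (2 / eps)
  refine ⟨(Finset.range N).sup (fun s => M s + Q s) + 20000 + n2, ?_⟩
  intro I J _ _ _ _ p hp hp1 hcard hF hex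
  obtain ⟨e0, he0⟩ := hex
  rw [← heps] at he0
  have hn20 : 20000 ≤ Fintype.card I := by omega
  have hn1 : 1 ≤ Fintype.card I := by omega
  have hnpos : (0 : ℝ) < (Fintype.card I : ℝ) := by exact_mod_cast hn1
  have hn2' : (n2 : ℝ) ≤ (Fintype.card I : ℝ) := by
    have : n2 ≤ Fintype.card I := by omega
    exact_mod_cast this
  have h2n : (2 : ℝ) / Fintype.card I ≤ eps := by
    rw [div_lt_iff₀ heps0] at hn2
    rw [div_le_iff₀ hnpos]
    nlinarith
  have hmb := main_bound2 hl p hp.card hp.h0 hp.hr hp.hc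
  have hKp : ∑ e, p e ^ 2 ≤ K := by
    rw [Fintype.sum_prod_type, hK]
    unfold FF at hF
    linarith
  obtain ⟨s, hs, hsη⟩ := pigeon p hKp hη0 d hdanti hN'
  have hMs : M s + Q s ≤ Fintype.card I := by
    have h1 : M s + Q s ≤ (Finset.range N).sup (fun s => M s + Q s) :=
      Finset.le_sup (f := fun s => M s + Q s) (Finset.mem_range.2 hs)
    omega
  have hds : d s ≤ eps := by rw [← hd0]; exact hdanti (Nat.zero_le s)
  have hcopy := hM s p hp hp1 hKp hF (by omega)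
  have hE : ∑ e ∈ tT p (d s) (d (s + 1)), p e ^ 2 ≤ 3 / 2 * η := by
    refine (sq_tT hp (hdpos (s + 1)) (hdle s) hKp).trans ?_
    have h1 : 2 * (K / d s ^ 2) * d (s + 1) ≤ 2 * (K / d s ^ 2) * (η * d s ^ 2 / (8 * K)) := by
      have := hdpos s
      have h0 : 0 ≤ 2 * (K / d s ^ 2) := by positivity
      exact mul_le_mul_of_nonneg_left (hdle' s) h0
    have h2 : 2 * (K / d s ^ 2) * (η * d s ^ 2 / (8 * K)) = η / 4 := by
      have := (hdpos s).ne'
      have := hK0.ne'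
      field_simp
      ring
    linarith
  have hS := sum_tT hp (hdpos (s + 1)) (hdle s) hKp
  have hL2 : CT (5 / 2 + 1) * τ = min (gap / 8) (1 / 8) := by rw [← hL]; exact hLτ
  have hflat := md_flat hl p hp hp1 hKp hF hn20 (tT p (d s) (d (s + 1))) hE hS
    (hQ s (Fintype.card I) (by omega))
    (by rw [hL2]; exact (min_le_right _ _).trans (by norm_num))
  rw [hL2] at hflat
  have hflat' := (abs_le.1 (hflat.trans (min_le_left _ _))).2
  have hb : eps ^ 2 ≤ ∑ x, tb p (d s) x ^ 2 := by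
    have hi : e0.1 ∈ tI p (d s) := by
      unfold tI
      exact Finset.mem_filter.2 ⟨Finset.mem_univ _, e0.2, hds.trans he0⟩
    have hj : e0.2 ∈ tJ p (d s) := by
      unfold tJ
      exact Finset.mem_filter.2 ⟨Finset.mem_univ _, e0.1, hds.trans he0⟩
    have h1 : tb p (d s) (⟨e0.1, hi⟩, ⟨e0.2, hj⟩) = p e0 := by
      unfold tb
      rw [if_pos (hds.trans he0)]
    have h2 : tb p (d s) (⟨e0.1, hi⟩, ⟨e0.2, hj⟩) ^ 2 ≤ ∑ x, tb p (d s) x ^ 2 :=
      Finset.single_le_sum (f := fun x => tb p (d s) x ^ 2) (fun x _ => sq_nonneg _)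
        (Finset.mem_univ _)
    rw [h1] at h2
    have h3 : eps ^ 2 ≤ p e0 ^ 2 := by gcongr
    exact h3.trans h2
  refine ⟨opT p (tT p (d s) (d (s + 1)) ∪ tB p (d s)), opT_DS hp hn1 _, ?_, ?_⟩
  · intro e
    by_cases he : e ∈ tT p (d s) (d (s + 1)) ∪ tB p (d s)
    · have := opT_le_in hp hn1 (tT p (d s) (d (s + 1)) ∪ tB p (d s)) he
      linarith
    · have h1 : p e < d (s + 1) := by
        by_contra hcon
        rw [not_lt] at hcon
        apply he
        rw [Finset.mem_union]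
        by_cases h2 : d s ≤ p e
        · right
          unfold tB
          exact Finset.mem_filter.2 ⟨Finset.mem_univ _, h2⟩
        · left
          unfold tT
          exact Finset.mem_filter.2 ⟨Finset.mem_univ _, not_le.1 h2, Or.inl hcon⟩
      have h2 := opT_le hp hn1 (tT p (d s) (d (s + 1)) ∪ tB p (d s)) e
      have h3 : d (s + 1) ≤ eps := (hdle s).trans hds
      linarith
  · have h1 : gap ≤ 4 / 10000 * ∑ x, tb p (d s) x ^ 2 := by
      rw [hgap]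
      linarith
    linarith

theorem middle : ∃ n1 : ℕ, ∀ {I J : Type} [Fintype I] [Fintype J] [DecidableEq I]
    [DecidableEq J] (p : I × J → ℝ), DS p → (∀ e, p e ≤ 7721 / 10000) →
    n1 ≤ Fintype.card I →
    FF (fun _ : I × J => 1 / (Fintype.card I : ℝ)) ≤ FF p ∧
      (p ≠ (fun _ => 1 / (Fintype.card I : ℝ)) →
        FF (fun _ : I × J => 1 / (Fintype.card I : ℝ)) < FF p) := by
  obtain ⟨l, hl⟩ := md_l
  obtain ⟨eps1, he1, hT1⟩ := t1
  obtain ⟨n1, hn1⟩ := md_main hl he1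
  refine ⟨n1 + 2, ?_⟩
  intro I J _ _ _ _ p hp hp1 hcard
  by_cases hsm : ∀ e, p e ≤ eps1
  · exact hT1 p hp.card hp.h0 hsm hp.hr hp.hc
  · push Not at hsm
    obtain ⟨e0, he0⟩ := hsm
    have hlt : FF (fun _ : I × J => 1 / (Fintype.card I : ℝ)) < FF p := by
      by_contra hcon
      rw [not_lt] at hcon
      have hup : FF (fun _ : I × J => 1 / (Fintype.card I : ℝ)) ≤
          (2 * (1 - l) - l ^ 2) * Fintype.card I + 5 / 2 := by
        obtain ⟨N', hN'⟩ : ∃ N' : ℕ, Fintype.card I = N' + 1 := ⟨Fintype.card I - 1, by omega⟩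
        have h1 := Pool.KX.fx_univ_upper (I := I) (J := J) N' (by omega) hN'
          (hp.card ▸ hN') hl
        unfold FF
        rw [hN']
        push_cast
        exact h1
      obtain ⟨q, hq, hq1, hq2⟩ := hn1 p hp hp1 (by omega) (hcon.trans hup)
        ⟨e0, by linarith⟩
      have h2 := (hT1 q hq.card hq.h0 hq1 hq.hr hq.hc).1
      have h3 : FF (fun _ : I × J => 1 / (Fintype.card I : ℝ)) ≤ FF q := h2
      linarith
    exact ⟨hlt.le, fun _ => hlt⟩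

end Pool.JN2
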