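import Pool.Agent.JN2.D

/-! Module Mw (difficulty 2-3). Mass of the class hit by row i (text (1.3)).

PROOF. (1) pcl_le: pcl p i H c = U (R \ C) - U R, R = Rm H, C = cl H c ⊆ R: U R = U (R \ C) * U C (Finset.prod_sdiff), U C ≥ 1 - sum_C p (weierstrass, LIN.lean), 0 ≤ U ≤ 1 (U_le_one),
   so pcl ≤ sum_{j ∈ C} p (i,j).
 (2) Ex_omega (om = |w|): sum_j |w j| Ex mij = Ex sum_c pcl p i H c * sum_{cl H c} |w|, H = dR i E, ≤ Ex sum_c (sum_{cl H c} p_i) (sum_{cl H c} |w|).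
   sum_classes (D0.lean) with w := |w| and G C = sum_{j' ∈ C} p (i,j'): = Ex sum_{j ∈ R} |w j| * sum_{j' ∈ cls H j} p (i,j').
 (3) pointwise: sum_{j ∈ R} |w j| sum_{j' ∈ cls H j} p' ≤ (sum_{j ∈ R} w j^2 |cls H j|)^{1/2} (sum_{j ∈ R} sum_{j' ∈ cls H j} p'^2)^{1/2} (Cauchy-Schwarz over the pairs (j, j'), j' ∈ cls H j), and
   sum_{j ∈ R} sum_{j' ∈ cls H j} p'^2 = sum_{j' ∈ R} p'^2 |cls H j'| (classes partition R: cls_eq, cls_symm; or sum_classes twice).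
 (4) Ex of the product: Ex_cs_sqrt (B6) with f = sqrt(A), g = sqrt(B): ≤ sqrt(Ex A) sqrt(Ex B), A = sum_j w j^2 (if j ∈ Rm H then |cls H j| else 0); cls_moment for H = dR i E:
   Ex p (fun E => G (dR i E)) = Ex (zr p i) G (Ex_zr), Sub.zr, m = 1 (pow_one): ≤ Dm th 1 each. So ≤ sqrt(Dm th 1 nrm w^2) sqrt(Dm th 1 nrm p_i^2).
-/

namespace Pool.JN2

open Finset Pool.KS Pool.JN

set_option linter.unusedSectionVars false

variable {I J : Type*} [Fintype I] [Fintype J] [DecidableEq I] [DecidableEq J]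

theorem pcl_le {p : I × J → ℝ} {i : I} (h0 : ∀ j, 0 ≤ p (i, j)) (h1 : ∀ j, p (i, j) ≤ 1)
    (H : Finset (I × J)) (c : Finset J) : pcl p i H c ≤ ∑ j ∈ cl H c, p (i, j) := by
  have h := U_lip h0 h1 (Rm H \ cl H c) (cl H c) Finset.sdiff_disjoint
  rw [Finset.sdiff_union_of_subset (cl_sub H c)] at h
  unfold pcl
  have h2 := neg_le_of_abs_le h
  linarith

theorem pcl_nonneg {p : I × J → ℝ} {i : I} (h0 : ∀ j, 0 ≤ p (i, j)) (h1 : ∀ j, p (i, j) ≤ 1)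
    (H : Finset (I × J)) (c : Finset J) : 0 ≤ pcl p i H c := by
  unfold pcl U
  rw [← Finset.prod_sdiff (cl_sub H c)]
  have h2 : 0 ≤ ∏ j ∈ Rm H \ cl H c, (1 - p (i, j)) :=
    Finset.prod_nonneg (fun j _ => by linarith [h1 j])
  have h3 : ∏ j ∈ cl H c, (1 - p (i, j)) ≤ 1 :=
    Finset.prod_le_one (fun j _ => by linarith [h1 j]) (fun j _ => by linarith [h0 j])
  nlinarith [mul_le_mul_of_nonneg_left h3 h2]

/-- weight of the classes -/
noncomputable def mwA (w : J → ℝ) (H : Finset (I × J)) : ℝ :=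
  ∑ j, w j ^ 2 * (if j ∈ Rm H then ((cls H j).card : ℝ) ^ 1 else 0)

theorem mwA_nonneg (w : J → ℝ) (H : Finset (I × J)) : 0 ≤ mwA w H := by
  refine Finset.sum_nonneg (fun j _ => mul_nonneg (sq_nonneg _) ?_)
  split_ifs <;> positivity

theorem mwA_eq (w : J → ℝ) (H : Finset (I × J)) :
    mwA w H = ∑ j ∈ Rm H, ∑ _j' ∈ cls H j, w j ^ 2 := by
  unfold mwA
  simp only [mul_ite, mul_zero, pow_one]
  rw [← Finset.sum_filter]
  have h : (univ : Finset J).filter (fun j => j ∈ Rm H) = Rm H := by ext j; simp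
  rw [h]
  refine Finset.sum_congr rfl (fun j _ => ?_)
  rw [Finset.sum_const, nsmul_eq_mul]
  ring

theorem mwA_eq' (w : J → ℝ) (H : Finset (I × J)) :
    mwA w H = ∑ j ∈ Rm H, ∑ j' ∈ cls H j, w j' ^ 2 := by
  rw [mwA_eq]
  refine Finset.sum_comm' (fun x y => ?_)
  constructor
  · rintro ⟨hx, hy⟩
    exact ⟨cls_symm hx hy, (mem_cls.mp hy).1⟩
  · rintro ⟨hx, hy⟩
    exact ⟨(mem_cls.mp hx).1, cls_symm hy hx⟩

theorem mw_pt (w v : J → ℝ) (H : Finset (I × J)) :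
    ∑ j ∈ Rm H, |w j| * ∑ j' ∈ cls H j, v j' ≤ Real.sqrt (mwA w H) * Real.sqrt (mwA v H) := by
  have h := Real.sum_mul_le_sqrt_mul_sqrt ((Rm H).sigma (fun j => cls H j))
    (fun x => |w x.1|) (fun x => v x.2)
  rw [Finset.sum_sigma, Finset.sum_sigma, Finset.sum_sigma] at h
  simp only [sq_abs] at h
  rw [← mwA_eq, ← mwA_eq'] at h
  refine le_trans (le_of_eq ?_) h
  exact Finset.sum_congr rfl (fun j _ => by rw [Finset.mul_sum])

theorem mw_ExA {p : I × J → ℝ} {t : ℝ} (hp : Sub p t) (ht : t < 1) (i : I) (w : J → ℝ) :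
    Ex p (fun E => mwA w (dR i E)) ≤ Dm t 1 * ∑ j, w j ^ 2 := by
  unfold mwA
  rw [Ex_sum, Finset.mul_sum]
  refine Finset.sum_le_sum (fun j _ => ?_)
  rw [Ex_mul_left, Ex_zr p i (fun E => if j ∈ Rm E then ((cls E j).card : ℝ) ^ 1 else 0), mul_comm (Dm t 1)]
  exact mul_le_mul_of_nonneg_left (cls_moment (hp.zr i) ht 1 j) (sq_nonneg _)

theorem mij_w {p : I × J → ℝ} {t : ℝ} (hp : Sub p t) (ht : t < 1) (i : I) (w : J → ℝ) :
    ∑ j, |w j| * Ex p (mij i j) ≤ Dm t 1 * (nrm w * nrm (fun j => p (i, j))) := by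
  have g0 : ∀ j, 0 ≤ p (i, j) := fun j => hp.h0 _
  have g1 : ∀ j, p (i, j) ≤ 1 := fun j => hp.le_one ht _
  have g1' := hp.le_one ht
  rw [← Ex_omega p i (fun j => |w j|)]
  have s1 : Ex p (fun E => ∑ c : Finset J, pcl p i (dR i E) c * ∑ j ∈ cl (dR i E) c, |w j|) ≤
      Ex p (fun E => Real.sqrt (mwA w (dR i E)) * Real.sqrt (mwA (fun j => p (i, j)) (dR i E))) := by
    refine Ex_mono hp.h0 g1' (fun E => ?_)
    refine le_trans ?_ (mw_pt w (fun j => p (i, j)) (dR i E))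
    have e1 := sum_classes (dR i E) (fun j => |w j|) (fun C => ∑ j' ∈ C, p (i, j'))
    rw [← e1]
    refine Finset.sum_le_sum (fun c _ => ?_)
    rw [mul_comm]
    exact mul_le_mul_of_nonneg_left (pcl_le g0 g1 _ _) (Finset.sum_nonneg (fun j _ => abs_nonneg _))
  refine s1.trans ((Ex_cs_sqrt hp.h0 g1' _ _).trans ?_)
  have e2 : ∀ v : J → ℝ, Real.sqrt (Ex p (fun E => Real.sqrt (mwA v (dR i E)) ^ 2)) ≤
      Real.sqrt (Dm t 1) * nrm v := by
    intro v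
    unfold nrm
    rw [← Real.sqrt_mul (Dm_nonneg t 1)]
    refine Real.sqrt_le_sqrt ?_
    refine le_trans (le_of_eq ?_) (mw_ExA hp ht i v)
    exact Ex_congr p (fun E => Real.sq_sqrt (mwA_nonneg _ _))
  refine (mul_le_mul (e2 w) (e2 _) (Real.sqrt_nonneg _)
    (mul_nonneg (Real.sqrt_nonneg _) (nrm_nonneg _))).trans (le_of_eq ?_)
  have e3 := Real.mul_self_sqrt (Dm_nonneg t 1)
  calc Real.sqrt (Dm t 1) * nrm w * (Real.sqrt (Dm t 1) * nrm (fun j => p (i, j)))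
      = (Real.sqrt (Dm t 1) * Real.sqrt (Dm t 1)) * (nrm w * nrm (fun j => p (i, j))) := by ring
    _ = _ := by rw [e3]

end Pool.JN2
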