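import Pool.Agent.JN2.Lp

/-! Module Op (difficulty 2-3). The flattening operation (text STEP 2).

A DS on I × J, n = card I = card J ≥ 1, T a finite set of entries; r = rT A T, c = cT A T (row / column sums of A on T), s = sT A T.
 opT A T e = ((A e if e ∉ T else 0) + (r e.1 + c e.2)/n) / (1 + s/n).
PROOFS. (1) DS: nonneg clear; row sum: (1 - r i) + (n r i)/n + (sum_j c j)/n = 1 + s/n (card J = n); column sums with card I = n.
 (2) 0 ≤ r i ≤ 1, 0 ≤ c j ≤ 1, s ≥ 0: opT A T e ≤ A e + 2/n, and ≤ 2/n for e ∈ T. lower bound: opT A T e ≥ A e - s/n for e ∉ T? (A e/(1+s/n) ≥ A e (1 - s/n) ≥ A e - s/n).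
 (3) opT A T - A = (- A_T + (r ⊕ c)/n - (s/n) A)/(1 + s/n); nrm is a norm (triangle inequality: prove nrm_add: use EuclideanSpace norm or Minkowski / Cauchy-Schwarz) and dividing by 1 + s/n ≥ 1 decreases:
   nrm ≤ sqrt(sum_{T} A^2) + nrm (r/n) + nrm (c/n) + (s/n) sqrt(sum A^2), nrm (r ⊗ 1/n)^2 = sum_i n (r i/n)^2 = (sum_i (r i)^2)/n ≤ s/n.
 (4) l^1: sum |opT A T - A| ≤ s + s + s + (s/n) n = 4 s.
-/

namespace Pool.JN2

open Finset Pool.KS Pool.JN

set_option linter.unusedSectionVars false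

variable {I J : Type*} [Fintype I] [Fintype J] [DecidableEq I] [DecidableEq J]

theorem nrm_add {κ : Type*} [Fintype κ] (v w : κ → ℝ) :
    nrm (fun e => v e + w e) ≤ nrm v + nrm w := by
  unfold nrm
  refine Real.sqrt_le_iff.2 ⟨by positivity, ?_⟩
  have h1 := Real.sum_mul_le_sqrt_mul_sqrt Finset.univ v w
  have h2 : ∑ e, (v e + w e) ^ 2 = ∑ e, v e ^ 2 + 2 * ∑ e, v e * w e + ∑ e, w e ^ 2 := by
    rw [Finset.mul_sum, ← Finset.sum_add_distrib, ← Finset.sum_add_distrib]
    exact Finset.sum_congr rfl (fun e _ => by ring)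
  have h3 : Real.sqrt (∑ e, v e ^ 2) ^ 2 = ∑ e, v e ^ 2 :=
    Real.sq_sqrt (Finset.sum_nonneg (fun _ _ => sq_nonneg _))
  have h4 : Real.sqrt (∑ e, w e ^ 2) ^ 2 = ∑ e, w e ^ 2 :=
    Real.sq_sqrt (Finset.sum_nonneg (fun _ _ => sq_nonneg _))
  rw [h2]
  nlinarith

theorem Op_nrm_mono {κ : Type*} [Fintype κ] {v w : κ → ℝ} (h : ∀ e, |v e| ≤ |w e|) : nrm v ≤ nrm w := by
  unfold nrm
  exact Real.sqrt_le_sqrt (Finset.sum_le_sum (fun e _ => sq_le_sq.2 (h e)))

noncomputable def rT (A : I × J → ℝ) (T : Finset (I × J)) (i : I) : ℝ :=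
  ∑ j, if (i, j) ∈ T then A (i, j) else 0

noncomputable def cT (A : I × J → ℝ) (T : Finset (I × J)) (j : J) : ℝ :=
  ∑ i, if (i, j) ∈ T then A (i, j) else 0

noncomputable def sT (A : I × J → ℝ) (T : Finset (I × J)) : ℝ := ∑ e ∈ T, A e

noncomputable def opT (A : I × J → ℝ) (T : Finset (I × J)) (e : I × J) : ℝ :=
  ((if e ∈ T then 0 else A e) + (rT A T e.1 + cT A T e.2) / Fintype.card I) /
    (1 + sT A T / Fintype.card I)

theorem rT_nonneg {A : I × J → ℝ} (hA : DS A) (T : Finset (I × J)) (i : I) :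
    0 ≤ rT A T i ∧ rT A T i ≤ 1 := by
  constructor
  · refine Finset.sum_nonneg (fun j _ => ?_)
    split_ifs
    · exact hA.h0 _
    · exact le_rfl
  · rw [← hA.hr i]
    refine Finset.sum_le_sum (fun j _ => ?_)
    split_ifs
    · exact le_rfl
    · exact hA.h0 _

theorem cT_nonneg {A : I × J → ℝ} (hA : DS A) (T : Finset (I × J)) (j : J) :
    0 ≤ cT A T j ∧ cT A T j ≤ 1 := by
  constructor
  · refine Finset.sum_nonneg (fun i _ => ?_)
    split_ifs
    · exact hA.h0 _
    · exact le_rfl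
  · rw [← hA.hc j]
    refine Finset.sum_le_sum (fun i _ => ?_)
    split_ifs
    · exact le_rfl
    · exact hA.h0 _

theorem sum_rT (A : I × J → ℝ) (T : Finset (I × J)) : ∑ i, rT A T i = sT A T := by
  unfold rT sT
  rw [← Fintype.sum_prod_type (f := fun e : I × J => if e ∈ T then A e else 0), Finset.sum_ite_mem,
    Finset.univ_inter]

theorem sum_cT (A : I × J → ℝ) (T : Finset (I × J)) : ∑ j, cT A T j = sT A T := by
  unfold cT sT
  rw [← Fintype.sum_prod_type_right (f := fun e : I × J => if e ∈ T then A e else 0), Finset.sum_ite_mem,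
    Finset.univ_inter]

theorem Op_sT_nonneg {A : I × J → ℝ} (hA : DS A) (T : Finset (I × J)) : 0 ≤ sT A T :=
  Finset.sum_nonneg (fun e _ => hA.h0 e)

theorem Op_card {A : I × J → ℝ} (hA : DS A) : (Fintype.card J : ℝ) = Fintype.card I := by
  exact_mod_cast hA.card.symm

theorem Op_den {A : I × J → ℝ} (hA : DS A) (T : Finset (I × J)) : 1 ≤ 1 + sT A T / Fintype.card I := by
  have h1 := Op_sT_nonneg hA T
  have h2 : 0 ≤ sT A T / (Fintype.card I : ℝ) := by positivity
  linarith

theorem Op_num {A : I × J → ℝ} (hA : DS A) (T : Finset (I × J)) (e : I × J) :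
    0 ≤ (if e ∈ T then 0 else A e) + (rT A T e.1 + cT A T e.2) / Fintype.card I := by
  have h1 := (rT_nonneg hA T e.1).1
  have h2 := (cT_nonneg hA T e.2).1
  have h3 : (0 : ℝ) ≤ if e ∈ T then 0 else A e := by
    split_ifs
    · exact le_rfl
    · exact hA.h0 _
  positivity

theorem Op_two {A : I × J → ℝ} (hA : DS A) (T : Finset (I × J)) (e : I × J) :
    (rT A T e.1 + cT A T e.2) / Fintype.card I ≤ 2 / Fintype.card I := by
  have h1 := (rT_nonneg hA T e.1).2
  have h2 := (cT_nonneg hA T e.2).2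
  exact div_le_div_of_nonneg_right (by linarith) (by positivity)

theorem opT_DS {A : I × J → ℝ} (hA : DS A) (hn : 1 ≤ Fintype.card I) (T : Finset (I × J)) :
    DS (opT A T) := by
  have hn0 : (Fintype.card I : ℝ) ≠ 0 := by
    have : (1 : ℝ) ≤ Fintype.card I := by exact_mod_cast hn
    linarith
  have hD := Op_den hA T
  have hD0 : (1 + sT A T / (Fintype.card I : ℝ)) ≠ 0 := by linarith
  refine ⟨hA.card, fun e => div_nonneg (Op_num hA T e) (by linarith), fun i => ?_, fun j => ?_⟩
  · unfold opT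
    rw [← Finset.sum_div, Finset.sum_add_distrib]
    have h1 : ∑ j, (if (i, j) ∈ T then 0 else A (i, j)) = 1 - rT A T i := by
      rw [eq_sub_iff_add_eq, rT, ← Finset.sum_add_distrib, ← hA.hr i]
      refine Finset.sum_congr rfl (fun j _ => ?_)
      split_ifs <;> simp
    have h2 : ∑ j, (rT A T i + cT A T j) / (Fintype.card I : ℝ) = rT A T i + sT A T / Fintype.card I := by
      rw [← Finset.sum_div, Finset.sum_add_distrib, sum_cT, Finset.sum_const, Finset.card_univ, nsmul_eq_mul,
        Op_card hA, add_div, mul_div_cancel_left₀ _ hn0]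
    simp only [h1, h2]
    rw [div_eq_one_iff_eq hD0]
    ring
  · unfold opT
    rw [← Finset.sum_div, Finset.sum_add_distrib]
    have h1 : ∑ i, (if (i, j) ∈ T then 0 else A (i, j)) = 1 - cT A T j := by
      rw [eq_sub_iff_add_eq, cT, ← Finset.sum_add_distrib, ← hA.hc j]
      refine Finset.sum_congr rfl (fun i _ => ?_)
      split_ifs <;> simp
    have h2 : ∑ i, (rT A T i + cT A T j) / (Fintype.card I : ℝ) = cT A T j + sT A T / Fintype.card I := by
      rw [← Finset.sum_div, Finset.sum_add_distrib, sum_rT, Finset.sum_const, Finset.card_univ, nsmul_eq_mul,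
        add_div, mul_div_cancel_left₀ _ hn0]
      ring
    simp only [h1, h2]
    rw [div_eq_one_iff_eq hD0]
    ring

theorem opT_le {A : I × J → ℝ} (hA : DS A) (hn : 1 ≤ Fintype.card I) (T : Finset (I × J))
    (e : I × J) : opT A T e ≤ A e + 2 / Fintype.card I := by
  unfold opT
  refine (div_le_self (Op_num hA T e) (Op_den hA T)).trans ?_
  refine add_le_add ?_ (Op_two hA T e)
  split_ifs
  · exact hA.h0 _
  · exact le_rfl

theorem opT_le_in {A : I × J → ℝ} (hA : DS A) (hn : 1 ≤ Fintype.card I)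
    (T : Finset (I × J)) {e : I × J} (he : e ∈ T) : opT A T e ≤ 2 / Fintype.card I := by
  unfold opT
  refine (div_le_self (Op_num hA T e) (Op_den hA T)).trans ?_
  rw [if_pos he, zero_add]
  exact Op_two hA T e

/-- the numerator of the difference -/
noncomputable def Op_v (A : I × J → ℝ) (T : Finset (I × J)) (e : I × J) : ℝ :=
  (-(if e ∈ T then A e else 0) + rT A T e.1 / Fintype.card I) + (cT A T e.2 / Fintype.card I +
    -(sT A T / Fintype.card I * A e))

theorem Op_diff {A : I × J → ℝ} (hA : DS A) (T : Finset (I × J)) (e : I × J) :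
    opT A T e - A e = Op_v A T e / (1 + sT A T / Fintype.card I) := by
  have hD := Op_den hA T
  have hD0 : (1 + sT A T / (Fintype.card I : ℝ)) ≠ 0 := by linarith
  unfold opT Op_v
  rw [div_sub' hD0]
  congr 1
  split_ifs <;> ring

theorem Op_abs {A : I × J → ℝ} (hA : DS A) (T : Finset (I × J)) (e : I × J) :
    |opT A T e - A e| ≤ |Op_v A T e| := by
  have hD := Op_den hA T
  rw [Op_diff hA, abs_div, abs_of_pos (show 0 < 1 + sT A T / (Fintype.card I : ℝ) by linarith)]
  exact div_le_self (abs_nonneg _) hD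

theorem Op_nrm_r {A : I × J → ℝ} (hA : DS A) (hn : 1 ≤ Fintype.card I) (T : Finset (I × J)) :
    nrm (fun e : I × J => rT A T e.1 / Fintype.card I) ≤ Real.sqrt (sT A T / Fintype.card I) := by
  have hn1 : (1 : ℝ) ≤ Fintype.card I := by exact_mod_cast hn
  have hn0 : (Fintype.card I : ℝ) ≠ 0 := by linarith
  unfold nrm
  refine Real.sqrt_le_sqrt ?_
  rw [Fintype.sum_prod_type]
  have h1 : ∀ i, ∑ _j : J, (rT A T i / (Fintype.card I : ℝ)) ^ 2 ≤ rT A T i / Fintype.card I := by
    intro i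
    obtain ⟨h0, h1⟩ := rT_nonneg hA T i
    rw [Finset.sum_const, Finset.card_univ, nsmul_eq_mul, Op_card hA]
    have h2 : (Fintype.card I : ℝ) * (rT A T i / (Fintype.card I : ℝ)) ^ 2 =
        rT A T i * (rT A T i / (Fintype.card I : ℝ)) := by
      field_simp
    rw [h2]
    exact mul_le_of_le_one_left (by positivity) h1
  refine (Finset.sum_le_sum (fun i _ => h1 i)).trans ?_
  rw [← Finset.sum_div, sum_rT]

theorem Op_nrm_c {A : I × J → ℝ} (hA : DS A) (hn : 1 ≤ Fintype.card I) (T : Finset (I × J)) :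
    nrm (fun e : I × J => cT A T e.2 / Fintype.card I) ≤ Real.sqrt (sT A T / Fintype.card I) := by
  have hn1 : (1 : ℝ) ≤ Fintype.card I := by exact_mod_cast hn
  have hn0 : (Fintype.card I : ℝ) ≠ 0 := by linarith
  unfold nrm
  refine Real.sqrt_le_sqrt ?_
  rw [Fintype.sum_prod_type_right]
  have h1 : ∀ j, ∑ _i : I, (cT A T j / (Fintype.card I : ℝ)) ^ 2 ≤ cT A T j / Fintype.card I := by
    intro j
    obtain ⟨h0, h1⟩ := cT_nonneg hA T j
    rw [Finset.sum_const, Finset.card_univ, nsmul_eq_mul]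
    have h2 : (Fintype.card I : ℝ) * (cT A T j / (Fintype.card I : ℝ)) ^ 2 =
        cT A T j * (cT A T j / (Fintype.card I : ℝ)) := by
      field_simp
    rw [h2]
    exact mul_le_of_le_one_left (by positivity) h1
  refine (Finset.sum_le_sum (fun j _ => h1 j)).trans ?_
  rw [← Finset.sum_div, sum_cT]

theorem opT_nrm {A : I × J → ℝ} (hA : DS A) (hn : 1 ≤ Fintype.card I)
    (T : Finset (I × J)) :
    nrm (fun e => opT A T e - A e) ≤ Real.sqrt (∑ e ∈ T, A e ^ 2) +
      2 * Real.sqrt (sT A T / Fintype.card I) +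
      sT A T / Fintype.card I * Real.sqrt (∑ e, A e ^ 2) := by
  have hs := Op_sT_nonneg hA T
  refine (Op_nrm_mono (fun e => Op_abs hA T e)).trans ?_
  have h1 : nrm (Op_v A T) ≤ nrm (fun e => -(if e ∈ T then A e else 0) + rT A T e.1 / Fintype.card I) +
      nrm (fun e => cT A T e.2 / Fintype.card I + -(sT A T / Fintype.card I * A e)) := nrm_add _ _
  have h2 : nrm (fun e => -(if e ∈ T then A e else 0) + rT A T e.1 / Fintype.card I) ≤
      nrm (fun e => -(if e ∈ T then A e else 0)) + nrm (fun e : I × J => rT A T e.1 / Fintype.card I) :=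
    nrm_add _ _
  have h3 : nrm (fun e => cT A T e.2 / Fintype.card I + -(sT A T / Fintype.card I * A e)) ≤
      nrm (fun e : I × J => cT A T e.2 / Fintype.card I) + nrm (fun e => -(sT A T / Fintype.card I * A e)) :=
    nrm_add _ _
  have h4 : nrm (fun e => -(if e ∈ T then A e else 0)) = Real.sqrt (∑ e ∈ T, A e ^ 2) := by
    unfold nrm
    have h8 : ∀ e : I × J, (-(if e ∈ T then A e else 0)) ^ 2 = if e ∈ T then A e ^ 2 else 0 := by
      intro e
      by_cases he : e ∈ T
      · rw [if_pos he, if_pos he]; ring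
      · rw [if_neg he, if_neg he]; ring
    simp only [h8]
    rw [Finset.sum_ite_mem, Finset.univ_inter]
  have h5 : nrm (fun e => -(sT A T / Fintype.card I * A e)) =
      sT A T / Fintype.card I * Real.sqrt (∑ e, A e ^ 2) := by
    unfold nrm
    have h6 : ∑ e, (-(sT A T / (Fintype.card I : ℝ) * A e)) ^ 2 =
        (sT A T / (Fintype.card I : ℝ)) ^ 2 * ∑ e, A e ^ 2 := by
      rw [Finset.mul_sum]
      exact Finset.sum_congr rfl (fun e _ => by ring)
    rw [h6, Real.sqrt_mul (sq_nonneg _), Real.sqrt_sq (by positivity)]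
  have h6 := Op_nrm_r hA hn T
  have h7 := Op_nrm_c hA hn T
  rw [h4] at h2
  rw [h5] at h3
  linarith

theorem opT_l1 {A : I × J → ℝ} (hA : DS A) (hn : 1 ≤ Fintype.card I)
    (T : Finset (I × J)) : ∑ e, |opT A T e - A e| ≤ 4 * sT A T := by
  have hn1 : (1 : ℝ) ≤ Fintype.card I := by exact_mod_cast hn
  have hn0 : (Fintype.card I : ℝ) ≠ 0 := by linarith
  have hs := Op_sT_nonneg hA T
  have h1 : ∀ e : I × J, |opT A T e - A e| ≤ (if e ∈ T then A e else 0) + rT A T e.1 / Fintype.card I +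
      cT A T e.2 / Fintype.card I + sT A T / Fintype.card I * A e := by
    intro e
    refine (Op_abs hA T e).trans ?_
    have a1 : (0 : ℝ) ≤ if e ∈ T then A e else 0 := by
      split_ifs
      · exact hA.h0 _
      · exact le_rfl
    have a2 : 0 ≤ rT A T e.1 / (Fintype.card I : ℝ) := div_nonneg (rT_nonneg hA T e.1).1 (by positivity)
    have a3 : 0 ≤ cT A T e.2 / (Fintype.card I : ℝ) := div_nonneg (cT_nonneg hA T e.2).1 (by positivity)
    have a4 : 0 ≤ sT A T / (Fintype.card I : ℝ) * A e := mul_nonneg (by positivity) (hA.h0 e)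
    unfold Op_v
    rw [abs_le]
    constructor <;> linarith
  refine (Finset.sum_le_sum (fun e _ => h1 e)).trans ?_
  rw [Finset.sum_add_distrib, Finset.sum_add_distrib, Finset.sum_add_distrib]
  have e1 : ∑ e : I × J, (if e ∈ T then A e else 0) = sT A T := by
    rw [Finset.sum_ite_mem, Finset.univ_inter]; rfl
  have e2 : ∑ e : I × J, rT A T e.1 / (Fintype.card I : ℝ) = sT A T := by
    rw [Fintype.sum_prod_type]
    have : ∀ i, ∑ _j : J, rT A T i / (Fintype.card I : ℝ) = rT A T i := by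
      intro i
      rw [Finset.sum_const, Finset.card_univ, nsmul_eq_mul, Op_card hA]
      field_simp
    simp only [this]
    exact sum_rT A T
  have e3 : ∑ e : I × J, cT A T e.2 / (Fintype.card I : ℝ) = sT A T := by
    rw [Fintype.sum_prod_type_right]
    have : ∀ j, ∑ _i : I, cT A T j / (Fintype.card I : ℝ) = cT A T j := by
      intro j
      rw [Finset.sum_const, Finset.card_univ, nsmul_eq_mul]
      field_simp
    simp only [this]
    exact sum_cT A T
  have e4 : ∑ e : I × J, sT A T / (Fintype.card I : ℝ) * A e = sT A T := by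
    rw [← Finset.mul_sum, Fintype.sum_prod_type]
    have : ∑ i, ∑ j, A (i, j) = (Fintype.card I : ℝ) := by
      simp only [hA.hr]
      simp
    rw [this]
    field_simp
  rw [e1, e2, e3, e4]
  linarith

end Pool.JN2
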