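import Pool.Agent.JN2.D3
import Pool.Agent.JN2.Lp

/-! Module Qt (difficulty 3). The uniform matrix with m copies of the block b (text STEP 4).

Φ : Fin m × K1 ↪ I, Ψ : Fin m × K2 ↪ J; Im = univ.map Φ, Jm = univ.map Ψ, a1 = |Im| = m |K1|, a2 = |Jm| = m |K2|, n = card I = card J.
 bx (i,j) = sum_{s,a,c} if Φ(s,a) = i ∧ Ψ(s,c) = j then b(a,c) else 0. rx i = sum_j bx (i,j), cx j = sum_i bx (i,j), sx = total.
 qq t (i,j) = t bx (i,j) on Im × Jm, (1 - t rx i)/(n - a2) for i ∈ Im, j ∉ Jm, (1 - t cx j)/(n - a1) for i ∉ Im, j ∈ Jm, (n - a1 - a2 + t sx)/((n-a1)(n-a2)) otherwise. Affine in t: qq t = qq 0 + t Wq.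
PROOF (n ≥ N0 large, e.g. N0 = 100 (m k + 1)^2). rx (Φ(s,a)) = sum_c b(a,c) ≤ 1, cx (Ψ(s,c)) = sum_a b(a,c) ≤ 1, rx = 0 outside Im, bx (Φ(s,a), Ψ(s',c)) = if s = s' then b(a,c) else 0.
 DS: row sums (special row: sum over Jm of t bx = t rx, plus (n - a2) * (1 - t rx)/(n-a2)); bulk row: sum_{j ∈ Jm} (1 - t cx j)/(n-a1) + (n-a2) * (n-a1-a2+t sx)/((n-a1)(n-a2)) = (a2 - t sx + n - a1 - a2 + t sx)/(n-a1) = 1.
 entries ≤ th: t b ≤ th; others ≤ 2/n. FF (qq 0) ≤ γ n + 3: FF_lip against the uniform matrix (fx_univ_upper ≤ γ n + 5/2): l^1 distance ≤ 4 (m k)^2/n ≤ 1/2: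
   block a1 a2 / n, special rows a1 (n - a2)(1/(n-a2) - 1/n) = a1 a2/n, columns same, bulk (n-a1)(n-a2) |(n-a1-a2)/((n-a1)(n-a2)) - 1/n| = a1 a2/n.
 FF (qq t) ≤ FF (qq 0) + sum |t Wq| ≤ γ n + 3 + 4 m k (sum |Wq| ≤ 4 sx ≤ 4 m k).
 FlatS for copy s (ι = Φ(s,·), κ = Ψ(s,·)), C = 10 (m k + 1)^2, X = 3 + 4 m k: blk exact; rle: j in another copy: 0; j ∉ Jm: ≤ 2/n; rl1: other copies' columns: ≤ a2 * 1/n, bulk: ≤ a2/n. Same for columns.
 wb exact; dis: Φ injective; wo: off-diagonal blocks 0, special rows: a1 n (2/n)^2, special columns same, bulk n^2 (sx * 4/n^2)^2: ≤ C/n.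
-/

namespace Pool.JN2

open Finset Pool.KS Pool.JN

set_option linter.unusedSectionVars false

section
variable {I J K1 K2 : Type*} [Fintype I] [Fintype J] [DecidableEq I] [DecidableEq J]
  [Fintype K1] [Fintype K2] [DecidableEq K1] [DecidableEq K2]

/-- the embedding of copy `s` -/
def cpy {K L : Type*} {m : ℕ} (Φ : Fin m × K ↪ L) (s : Fin m) : K ↪ L :=
  ⟨fun a => Φ (s, a), fun a a' h => by
    have := Φ.injective h
    simpa using this⟩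

noncomputable def bx {m : ℕ} (Φ : Fin m × K1 ↪ I) (Ψ : Fin m × K2 ↪ J) (b : K1 × K2 → ℝ)
    (e : I × J) : ℝ :=
  ∑ s : Fin m, ∑ a, ∑ c, if Φ (s, a) = e.1 ∧ Ψ (s, c) = e.2 then b (a, c) else 0

noncomputable def qq {m : ℕ} (Φ : Fin m × K1 ↪ I) (Ψ : Fin m × K2 ↪ J) (b : K1 × K2 → ℝ)
    (t : ℝ) (e : I × J) : ℝ :=
  if e.1 ∈ univ.map Φ then
    (if e.2 ∈ univ.map Ψ then t * bx Φ Ψ b e
      else (1 - t * ∑ j, bx Φ Ψ b (e.1, j)) / ((Fintype.card I : ℝ) - m * Fintype.card K2))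
  else
    (if e.2 ∈ univ.map Ψ then
      (1 - t * ∑ i, bx Φ Ψ b (i, e.2)) / ((Fintype.card I : ℝ) - m * Fintype.card K1)
      else ((Fintype.card I : ℝ) - m * Fintype.card K1 - m * Fintype.card K2 +
        t * ∑ x, bx Φ Ψ b x) / (((Fintype.card I : ℝ) - m * Fintype.card K1) *
          ((Fintype.card I : ℝ) - m * Fintype.card K2)))

end

section Qt
variable {I J K1 K2 : Type*} [Fintype I] [Fintype J] [DecidableEq I] [DecidableEq J]
  [Fintype K1] [Fintype K2] [DecidableEq K1] [DecidableEq K2] {m : ℕ}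

theorem Qt_sum1 (Ψ : Fin m × K2 ↪ J) (f : J → ℝ) (β : ℝ)
    (h : ∀ j, j ∉ univ.map Ψ → f j = β) :
    ∑ j, f j = ∑ y, f (Ψ y) + ((Fintype.card J : ℝ) - m * Fintype.card K2) * β := by
  have hc : m * Fintype.card K2 ≤ Fintype.card J := by
    have := Fintype.card_le_of_embedding Ψ
    rwa [Fintype.card_prod, Fintype.card_fin] at this
  rw [← Finset.sum_add_sum_compl (univ.map Ψ) f, Finset.sum_map,
    Finset.sum_congr rfl (fun j hj => h j (by simpa using hj)), Finset.sum_const,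
    Finset.card_compl, Finset.card_map, Finset.card_univ, Fintype.card_prod, Fintype.card_fin,
    nsmul_eq_mul, Nat.cast_sub hc, Nat.cast_mul]

theorem Qt_sum2 (Φ : Fin m × K1 ↪ I) (Ψ : Fin m × K2 ↪ J) (G : I × J → ℝ)
    (A : Fin m × K1 → Fin m × K2 → ℝ) (B : Fin m × K1 → ℝ) (C : Fin m × K2 → ℝ) (D : ℝ)
    (hA : ∀ x y, G (Φ x, Ψ y) = A x y) (hB : ∀ x j, j ∉ univ.map Ψ → G (Φ x, j) = B x)
    (hC : ∀ i y, i ∉ univ.map Φ → G (i, Ψ y) = C y)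
    (hD : ∀ i j, i ∉ univ.map Φ → j ∉ univ.map Ψ → G (i, j) = D) :
    ∑ e, G e = ∑ x, ∑ y, A x y + ((Fintype.card J : ℝ) - m * Fintype.card K2) * ∑ x, B x +
      ((Fintype.card I : ℝ) - m * Fintype.card K1) * ∑ y, C y +
      ((Fintype.card I : ℝ) - m * Fintype.card K1) *
        ((Fintype.card J : ℝ) - m * Fintype.card K2) * D := by
  rw [Fintype.sum_prod_type, Qt_sum1 Φ (fun i => ∑ j, G (i, j))
    (∑ y, C y + ((Fintype.card J : ℝ) - m * Fintype.card K2) * D)]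
  · have h1 : ∀ x, ∑ j, G (Φ x, j) = ∑ y, A x y +
        ((Fintype.card J : ℝ) - m * Fintype.card K2) * B x := by
      intro x
      rw [Qt_sum1 Ψ (fun j => G (Φ x, j)) (B x) (fun j hj => hB x j hj)]
      simp only [hA]
    simp only [h1, Finset.sum_add_distrib, ← Finset.mul_sum]
    ring
  · intro i hi
    show ∑ j, G (i, j) = _
    rw [Qt_sum1 Ψ (fun j => G (i, j)) D (fun j hj => hD i j hi hj)]
    simp only [hC i _ hi]

theorem Qt_bx1 (Φ : Fin m × K1 ↪ I) (Ψ : Fin m × K2 ↪ J) (b : K1 × K2 → ℝ) (x : Fin m × K1)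
    (y : Fin m × K2) : bx Φ Ψ b (Φ x, Ψ y) = if x.1 = y.1 then b (x.2, y.2) else 0 := by
  unfold bx
  have h1 : ∀ s : Fin m, ∀ a : K1, ∀ c : K2,
      (if Φ (s, a) = (Φ x, Ψ y).1 ∧ Ψ (s, c) = (Φ x, Ψ y).2 then b (a, c) else 0) =
      if c = y.2 then (if a = x.2 then (if s = x.1 then (if x.1 = y.1 then b (x.2, y.2) else 0)
        else 0) else 0) else 0 := by
    intro s a c
    show (if Φ (s, a) = Φ x ∧ Ψ (s, c) = Ψ y then b (a, c) else 0) = _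
    obtain ⟨x1, x2⟩ := x
    obtain ⟨y1, y2⟩ := y
    simp only [Φ.injective.eq_iff, Ψ.injective.eq_iff, Prod.mk.injEq]
    by_cases h1 : s = x1
    · subst h1
      by_cases h2 : a = x2
      · subst h2
        by_cases h3 : c = y2
        · subst h3
          by_cases h4 : s = y1
          · simp [h4]
          · simp [h4]
        · simp [h3]
      · simp [h2]
    · simp [h1]
  simp only [h1, Finset.sum_ite_eq', Finset.mem_univ, if_true]

theorem Qt_bx2 (Φ : Fin m × K1 ↪ I) (Ψ : Fin m × K2 ↪ J) (b : K1 × K2 → ℝ) (i : I) (j : J)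
    (h : j ∉ univ.map Ψ) : bx Φ Ψ b (i, j) = 0 := by
  unfold bx
  refine Finset.sum_eq_zero fun s _ => Finset.sum_eq_zero fun a _ => Finset.sum_eq_zero fun c _ => ?_
  rw [if_neg]
  rintro ⟨-, h2⟩
  exact h (Finset.mem_map.mpr ⟨(s, c), Finset.mem_univ _, h2⟩)

theorem Qt_bx3 (Φ : Fin m × K1 ↪ I) (Ψ : Fin m × K2 ↪ J) (b : K1 × K2 → ℝ) (i : I) (j : J)
    (h : i ∉ univ.map Φ) : bx Φ Ψ b (i, j) = 0 := by
  unfold bx
  refine Finset.sum_eq_zero fun s _ => Finset.sum_eq_zero fun a _ => Finset.sum_eq_zero fun c _ => ?_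
  rw [if_neg]
  rintro ⟨h1, -⟩
  exact h (Finset.mem_map.mpr ⟨(s, a), Finset.mem_univ _, h1⟩)

/-- sums over the diagonal blocks -/
theorem Qt_diag (f : K1 → K2 → ℝ) (x : Fin m × K1) :
    ∑ y : Fin m × K2, (if x.1 = y.1 then f x.2 y.2 else 0) = ∑ c, f x.2 c := by
  rw [Fintype.sum_prod_type]
  simp only
  rw [Finset.sum_comm]
  refine Finset.sum_congr rfl fun c _ => ?_
  rw [Finset.sum_ite_eq]
  simp

theorem Qt_diag2 (f : K1 × K2 → ℝ) :
    ∑ x : Fin m × K1, ∑ y : Fin m × K2, (if x.1 = y.1 then f (x.2, y.2) else 0) =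
      m * ∑ e, f e := by
  have h1 : ∀ x : Fin m × K1, ∑ y : Fin m × K2, (if x.1 = y.1 then f (x.2, y.2) else 0) =
      ∑ c, f (x.2, c) := fun x => Qt_diag (fun a c => f (a, c)) x
  simp only [h1]
  rw [Fintype.sum_prod_type]
  simp only
  rw [Finset.sum_const, Finset.card_univ, Fintype.card_fin, nsmul_eq_mul, Fintype.sum_prod_type]

theorem Qt_rx (Φ : Fin m × K1 ↪ I) (Ψ : Fin m × K2 ↪ J) (b : K1 × K2 → ℝ) (x : Fin m × K1) :
    ∑ j, bx Φ Ψ b (Φ x, j) = ∑ c, b (x.2, c) := by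
  rw [Qt_sum1 Ψ _ 0 (fun j hj => Qt_bx2 Φ Ψ b (Φ x) j hj)]
  simp only [Qt_bx1]
  rw [Qt_diag (fun a c => b (a, c)) x]
  ring

theorem Qt_cx (Φ : Fin m × K1 ↪ I) (Ψ : Fin m × K2 ↪ J) (b : K1 × K2 → ℝ) (y : Fin m × K2) :
    ∑ i, bx Φ Ψ b (i, Ψ y) = ∑ a, b (a, y.2) := by
  rw [Qt_sum1 Φ _ 0 (fun i hi => Qt_bx3 Φ Ψ b i (Ψ y) hi)]
  simp only [Qt_bx1]
  have h := Qt_diag (m := m) (fun c a => b (a, c)) y
  simp only [eq_comm] at h ⊢
  rw [h]
  ring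

theorem Qt_sx (Φ : Fin m × K1 ↪ I) (Ψ : Fin m × K2 ↪ J) (b : K1 × K2 → ℝ) :
    ∑ e, bx Φ Ψ b e = m * ∑ e, b e := by
  rw [Qt_sum2 Φ Ψ (bx Φ Ψ b) (fun x y => if x.1 = y.1 then b (x.2, y.2) else 0) (fun _ => 0)
    (fun _ => 0) 0 (fun x y => Qt_bx1 Φ Ψ b x y) (fun x j hj => Qt_bx2 Φ Ψ b _ j hj)
    (fun i y hi => Qt_bx3 Φ Ψ b i _ hi) (fun i j hi _ => Qt_bx3 Φ Ψ b i j hi), Qt_diag2]
  simp

/-- the four formulas for the matrix -/
structure QtF (Φ : Fin m × K1 ↪ I) (Ψ : Fin m × K2 ↪ J) (b : K1 × K2 → ℝ) (t : ℝ)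
    (q : I × J → ℝ) : Prop where
  hc : Fintype.card I = Fintype.card J
  f1 : ∀ x y, q (Φ x, Ψ y) = if x.1 = y.1 then t * b (x.2, y.2) else 0
  f2 : ∀ x j, j ∉ univ.map Ψ → q (Φ x, j) =
    (1 - t * ∑ c, b (x.2, c)) / ((Fintype.card I : ℝ) - m * Fintype.card K2)
  f3 : ∀ i y, i ∉ univ.map Φ → q (i, Ψ y) =
    (1 - t * ∑ a, b (a, y.2)) / ((Fintype.card I : ℝ) - m * Fintype.card K1)
  f4 : ∀ i j, i ∉ univ.map Φ → j ∉ univ.map Ψ → q (i, j) =
    ((Fintype.card I : ℝ) - m * Fintype.card K1 - m * Fintype.card K2 + t * (m * ∑ e, b e)) /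
      (((Fintype.card I : ℝ) - m * Fintype.card K1) * ((Fintype.card I : ℝ) - m * Fintype.card K2))

theorem QtF_qq (Φ : Fin m × K1 ↪ I) (Ψ : Fin m × K2 ↪ J) (b : K1 × K2 → ℝ) (t : ℝ)
    (hc : Fintype.card I = Fintype.card J) : QtF Φ Ψ b t (qq Φ Ψ b t) where
  hc := hc
  f1 := by
    intro x y
    unfold qq
    rw [if_pos (Finset.mem_map_of_mem _ (Finset.mem_univ _)),
      if_pos (Finset.mem_map_of_mem _ (Finset.mem_univ _)), Qt_bx1]
    split_ifs <;> simp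
  f2 := by
    intro x j hj
    unfold qq
    rw [if_pos (Finset.mem_map_of_mem _ (Finset.mem_univ _)), if_neg hj]
    show (1 - t * ∑ j, bx Φ Ψ b (Φ x, j)) / _ = _
    rw [Qt_rx]
  f3 := by
    intro i y hi
    unfold qq
    rw [if_neg hi, if_pos (Finset.mem_map_of_mem _ (Finset.mem_univ _))]
    show (1 - t * ∑ i, bx Φ Ψ b (i, Ψ y)) / _ = _
    rw [Qt_cx]
  f4 := by
    intro i j hi hj
    unfold qq
    rw [if_neg hi, if_neg hj, Qt_sx]

theorem Qt_affine (Φ : Fin m × K1 ↪ I) (Ψ : Fin m × K2 ↪ J) (b : K1 × K2 → ℝ) (t : ℝ)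
    (e : I × J) : qq Φ Ψ b 0 e + t * (qq Φ Ψ b 1 e - qq Φ Ψ b 0 e) = qq Φ Ψ b t e := by
  unfold qq
  split_ifs <;> ring

/-- the four formulas and the bounds -/
structure QtG (k : ℕ) (Φ : Fin m × K1 ↪ I) (Ψ : Fin m × K2 ↪ J) (b : K1 × K2 → ℝ) (t : ℝ)
    (q : I × J → ℝ) : Prop extends QtF Φ Ψ b t q where
  b0 : ∀ e, 0 ≤ b e
  b1 : ∀ e, b e ≤ th
  br : ∀ a, ∑ c, b (a, c) ≤ 1
  bc : ∀ c, ∑ a, b (a, c) ≤ 1
  t0 : 0 ≤ t
  t1 : t ≤ 1
  k1 : Fintype.card K1 ≤ k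
  k2 : Fintype.card K2 ≤ k
  hn : 100 * ((m : ℝ) * k + 1) ^ 2 ≤ Fintype.card I

theorem Qt_pt (b : K1 × K2 → ℝ) : ∑ e, pt b e = ∑ e, b e :=
  (Equiv.prodComm K2 K1).sum_comp b

theorem QtF.tr {Φ : Fin m × K1 ↪ I} {Ψ : Fin m × K2 ↪ J} {b : K1 × K2 → ℝ} {t : ℝ}
    {q : I × J → ℝ} (h : QtF Φ Ψ b t q) : QtF Ψ Φ (pt b) t (pt q) where
  hc := h.hc.symm
  f1 := by
    intro y x
    show q (Φ x, Ψ y) = if y.1 = x.1 then t * b (x.2, y.2) else 0
    rw [h.f1]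
    by_cases h1 : x.1 = y.1
    · rw [if_pos h1, if_pos h1.symm]
    · rw [if_neg h1, if_neg (Ne.symm h1)]
  f2 := by
    intro y i hi
    show q (i, Ψ y) = (1 - t * ∑ a, b (a, y.2)) / _
    rw [h.f3 i y hi, h.hc]
  f3 := by
    intro j x hj
    show q (Φ x, j) = (1 - t * ∑ c, b (x.2, c)) / _
    rw [h.f2 x j hj, h.hc]
  f4 := by
    intro j i hj hi
    show q (i, j) = _
    rw [h.f4 i j hi hj, Qt_pt, h.hc]
    congr 1
    · ring
    · ring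

theorem QtG.tr {k : ℕ} {Φ : Fin m × K1 ↪ I} {Ψ : Fin m × K2 ↪ J} {b : K1 × K2 → ℝ} {t : ℝ}
    {q : I × J → ℝ} (h : QtG k Φ Ψ b t q) : QtG k Ψ Φ (pt b) t (pt q) where
  toQtF := h.toQtF.tr
  b0 := fun e => h.b0 _
  b1 := fun e => h.b1 _
  br := h.bc
  bc := h.br
  t0 := h.t0
  t1 := h.t1
  k1 := h.k2
  k2 := h.k1
  hn := by
    rw [← h.hc]
    exact h.hn

theorem QtG.n1 {k : ℕ} {Φ : Fin m × K1 ↪ I} {Ψ : Fin m × K2 ↪ J} {b : K1 × K2 → ℝ} {t : ℝ}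
    {q : I × J → ℝ} (h : QtG k Φ Ψ b t q) :
    0 ≤ (m : ℝ) * Fintype.card K1 ∧ (m : ℝ) * Fintype.card K1 ≤ m * k ∧
      (Fintype.card I : ℝ) / 2 ≤ (Fintype.card I : ℝ) - m * Fintype.card K1 ∧
      (100 : ℝ) ≤ Fintype.card I ∧ 100 * ((m : ℝ) * k + 1) ≤ Fintype.card I := by
  have h1 : (Fintype.card K1 : ℝ) ≤ k := by exact_mod_cast h.k1
  have h2 : (0 : ℝ) ≤ m := Nat.cast_nonneg _
  have h3 : (0 : ℝ) ≤ Fintype.card K1 := Nat.cast_nonneg _
  have h4 := mul_le_mul_of_nonneg_left h1 h2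
  have h5 := h.hn
  have h6 : (0 : ℝ) ≤ m * k := by positivity
  have h7 : (m : ℝ) * k + 1 ≤ ((m : ℝ) * k + 1) ^ 2 := by nlinarith
  refine ⟨by positivity, h4, by linarith, by linarith, by linarith⟩

theorem QtG.n2 {k : ℕ} {Φ : Fin m × K1 ↪ I} {Ψ : Fin m × K2 ↪ J} {b : K1 × K2 → ℝ} {t : ℝ}
    {q : I × J → ℝ} (h : QtG k Φ Ψ b t q) :
    0 ≤ (m : ℝ) * Fintype.card K2 ∧ (m : ℝ) * Fintype.card K2 ≤ m * k ∧
      (Fintype.card I : ℝ) / 2 ≤ (Fintype.card I : ℝ) - m * Fintype.card K2 := by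
  obtain ⟨h1, h2, h3, -, -⟩ := h.tr.n1
  rw [h.hc]
  exact ⟨h1, h2, h3⟩

/-- total mass of the blocks -/
theorem QtG.sx {k : ℕ} {Φ : Fin m × K1 ↪ I} {Ψ : Fin m × K2 ↪ J} {b : K1 × K2 → ℝ} {t : ℝ}
    {q : I × J → ℝ} (h : QtG k Φ Ψ b t q) :
    0 ≤ (m : ℝ) * ∑ e, b e ∧ (m : ℝ) * ∑ e, b e ≤ m * Fintype.card K1 := by
  have h2 : (0 : ℝ) ≤ m := Nat.cast_nonneg _
  have h3 : 0 ≤ ∑ e, b e := Finset.sum_nonneg fun e _ => h.b0 e
  refine ⟨by positivity, mul_le_mul_of_nonneg_left ?_ h2⟩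
  rw [Fintype.sum_prod_type]
  refine (Finset.sum_le_sum fun a _ => h.br a).trans ?_
  simp

theorem QtG.sx2 {k : ℕ} {Φ : Fin m × K1 ↪ I} {Ψ : Fin m × K2 ↪ J} {b : K1 × K2 → ℝ} {t : ℝ}
    {q : I × J → ℝ} (h : QtG k Φ Ψ b t q) :
    (m : ℝ) * ∑ e, b e ≤ m * Fintype.card K2 := by
  have := h.tr.sx.2
  rwa [Qt_pt] at this

theorem QtG.row {k : ℕ} {Φ : Fin m × K1 ↪ I} {Ψ : Fin m × K2 ↪ J} {b : K1 × K2 → ℝ} {t : ℝ}
    {q : I × J → ℝ} (h : QtG k Φ Ψ b t q) (i : I) : ∑ j, q (i, j) = 1 := by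
  obtain ⟨a1, a2, a3, a4, a5⟩ := h.n1
  obtain ⟨c1, c2, c3⟩ := h.n2
  have hN1 : (Fintype.card I : ℝ) - m * Fintype.card K1 ≠ 0 := by
    intro h0
    linarith
  have hN2 : (Fintype.card I : ℝ) - m * Fintype.card K2 ≠ 0 := by
    intro h0
    linarith
  by_cases hi : i ∈ univ.map Φ
  · obtain ⟨x, -, rfl⟩ := Finset.mem_map.mp hi
    rw [Qt_sum1 Ψ _ _ (fun j hj => h.f2 x j hj), ← h.hc, mul_div_cancel₀ _ hN2]
    simp only [h.f1]
    rw [Qt_diag (fun a c => t * b (a, c)) x, ← Finset.mul_sum]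
    ring
  · rw [Qt_sum1 Ψ _ _ (fun j hj => h.f4 i j hi hj), ← h.hc]
    simp only [h.f3 i _ hi]
    rw [← Finset.sum_div, Finset.sum_sub_distrib, ← Finset.mul_sum]
    have h1 : ∑ y : Fin m × K2, ∑ a, b (a, y.2) = m * ∑ e, b e := by
      rw [Fintype.sum_prod_type]
      simp only
      rw [Finset.sum_const, Finset.card_univ, Fintype.card_fin, nsmul_eq_mul,
        Fintype.sum_prod_type_right]
    rw [h1, Finset.sum_const, Finset.card_univ, Fintype.card_prod, Fintype.card_fin, nsmul_eq_mul,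
      Nat.cast_mul]
    field_simp
    ring

theorem QtG.rB {k : ℕ} {Φ : Fin m × K1 ↪ I} {Ψ : Fin m × K2 ↪ J} {b : K1 × K2 → ℝ} {t : ℝ}
    {q : I × J → ℝ} (h : QtG k Φ Ψ b t q) (a : K1) :
    0 ≤ 1 - t * ∑ c, b (a, c) ∧ 1 - t * ∑ c, b (a, c) ≤ 1 := by
  have h1 := h.br a
  have h2 : 0 ≤ ∑ c, b (a, c) := Finset.sum_nonneg fun c _ => h.b0 _
  have h3 := h.t0
  have h4 := h.t1
  constructor
  · nlinarith
  · nlinarith [mul_nonneg h3 h2]

theorem QtG.bd2 {k : ℕ} {Φ : Fin m × K1 ↪ I} {Ψ : Fin m × K2 ↪ J} {b : K1 × K2 → ℝ} {t : ℝ}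
    {q : I × J → ℝ} (h : QtG k Φ Ψ b t q) (x : Fin m × K1) (j : J) (hj : j ∉ univ.map Ψ) :
    0 ≤ q (Φ x, j) ∧ q (Φ x, j) ≤ 2 / Fintype.card I := by
  obtain ⟨a1, a2, a3, a4, a5⟩ := h.n1
  obtain ⟨c1, c2, c3⟩ := h.n2
  have hn : (0 : ℝ) < Fintype.card I := by linarith
  have hN2 : 0 < (Fintype.card I : ℝ) - m * Fintype.card K2 := by linarith
  obtain ⟨r1, r2⟩ := h.rB x.2
  rw [h.f2 x j hj]
  refine ⟨div_nonneg r1 hN2.le, ?_⟩
  rw [div_le_div_iff₀ hN2 hn]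
  nlinarith

theorem QtG.bd4 {k : ℕ} {Φ : Fin m × K1 ↪ I} {Ψ : Fin m × K2 ↪ J} {b : K1 × K2 → ℝ} {t : ℝ}
    {q : I × J → ℝ} (h : QtG k Φ Ψ b t q) (i : I) (j : J) (hi : i ∉ univ.map Φ)
    (hj : j ∉ univ.map Ψ) :
    0 ≤ q (i, j) ∧ q (i, j) ≤ 2 / Fintype.card I := by
  obtain ⟨a1, a2, a3, a4, a5⟩ := h.n1
  obtain ⟨c1, c2, c3⟩ := h.n2
  have hn : (0 : ℝ) < Fintype.card I := by linarith
  have hN1 : 0 < (Fintype.card I : ℝ) - m * Fintype.card K1 := by linarith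
  have hN2 : 0 < (Fintype.card I : ℝ) - m * Fintype.card K2 := by linarith
  obtain ⟨s1, s2⟩ := h.sx
  have s3 := h.sx2
  have t0 := h.t0
  have t1 := h.t1
  have e1 : 0 ≤ t * ((m : ℝ) * ∑ e, b e) := mul_nonneg t0 s1
  have e2 : t * ((m : ℝ) * ∑ e, b e) ≤ m * ∑ e, b e := mul_le_of_le_one_left s1 t1
  rw [h.f4 i j hi hj]
  refine ⟨div_nonneg (by linarith) (mul_pos hN1 hN2).le, ?_⟩
  rw [div_le_div_iff₀ (mul_pos hN1 hN2) hn]
  have e3 : (Fintype.card I : ℝ) - m * Fintype.card K1 - m * Fintype.card K2 +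
      t * (m * ∑ e, b e) ≤ (Fintype.card I : ℝ) - m * Fintype.card K1 := by linarith
  have e4 := mul_le_mul_of_nonneg_right e3 hn.le
  have e5 := mul_le_mul_of_nonneg_left (show (Fintype.card I : ℝ) ≤
    2 * ((Fintype.card I : ℝ) - m * Fintype.card K2) by linarith) hN1.le
  linarith

theorem QtG.blk {k : ℕ} {Φ : Fin m × K1 ↪ I} {Ψ : Fin m × K2 ↪ J} {b : K1 × K2 → ℝ} {t : ℝ}
    {q : I × J → ℝ} (h : QtG k Φ Ψ b t q) (x : Fin m × K1) (y : Fin m × K2) :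
    0 ≤ q (Φ x, Ψ y) ∧ q (Φ x, Ψ y) ≤ th := by
  rw [h.f1]
  have h1 := h.b0 (x.2, y.2)
  split_ifs
  · exact ⟨mul_nonneg h.t0 h1, (mul_le_of_le_one_left h1 h.t1).trans (h.b1 _)⟩
  · exact ⟨le_rfl, th_pos.le⟩

theorem QtG.all {k : ℕ} {Φ : Fin m × K1 ↪ I} {Ψ : Fin m × K2 ↪ J} {b : K1 × K2 → ℝ} {t : ℝ}
    {q : I × J → ℝ} (h : QtG k Φ Ψ b t q) (e : I × J) : 0 ≤ q e ∧ q e ≤ th := by
  obtain ⟨a1, a2, a3, a4, a5⟩ := h.n1
  have hth : 2 / (Fintype.card I : ℝ) ≤ th := by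
    unfold th
    rw [div_le_iff₀ (by linarith)]
    linarith
  obtain ⟨i, j⟩ := e
  by_cases hi : i ∈ univ.map Φ
  · obtain ⟨x, -, rfl⟩ := Finset.mem_map.mp hi
    by_cases hj : j ∈ univ.map Ψ
    · obtain ⟨y, -, rfl⟩ := Finset.mem_map.mp hj
      exact h.blk x y
    · exact ⟨(h.bd2 x j hj).1, (h.bd2 x j hj).2.trans hth⟩
  · by_cases hj : j ∈ univ.map Ψ
    · obtain ⟨y, -, rfl⟩ := Finset.mem_map.mp hj
      have h1 := h.tr.bd2 y i hi
      rw [← h.hc] at h1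
      exact ⟨h1.1, h1.2.trans hth⟩
    · exact ⟨(h.bd4 i j hi hj).1, (h.bd4 i j hi hj).2.trans hth⟩

theorem QtG.ds {k : ℕ} {Φ : Fin m × K1 ↪ I} {Ψ : Fin m × K2 ↪ J} {b : K1 × K2 → ℝ} {t : ℝ}
    {q : I × J → ℝ} (h : QtG k Φ Ψ b t q) : DS q where
  card := h.hc
  h0 := fun e => (h.all e).1
  hr := h.row
  hc := h.tr.row

theorem QtG.rle {k : ℕ} {Φ : Fin m × K1 ↪ I} {Ψ : Fin m × K2 ↪ J} {b : K1 × K2 → ℝ} {t : ℝ}
    {q : I × J → ℝ} (h : QtG k Φ Ψ b t q) (s : Fin m) (a : K1) (j : J)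
    (hj : j ∉ univ.map (cpy Ψ s)) : q (cpy Φ s a, j) ≤ 2 / Fintype.card I := by
  show q (Φ (s, a), j) ≤ _
  by_cases hj' : j ∈ univ.map Ψ
  · obtain ⟨y, -, rfl⟩ := Finset.mem_map.mp hj'
    rw [h.f1, if_neg]
    · positivity
    · intro h1
      refine hj (Finset.mem_map.mpr ⟨y.2, Finset.mem_univ _, ?_⟩)
      show Ψ (s, y.2) = Ψ y
      rw [show s = y.1 from h1]
  · exact (h.bd2 (s, a) j hj').2

theorem Qt_sd {α : Type*} [Fintype α] [DecidableEq α] (S : Finset α) (g : α → ℝ) :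
    ∑ x ∈ univ \ S, g x = ∑ x, if x ∈ S then 0 else g x := by
  have h : univ \ S = univ.filter (fun x => x ∉ S) := by
    ext x
    simp
  rw [h, Finset.sum_filter]
  refine Finset.sum_congr rfl fun x _ => ?_
  by_cases hx : x ∈ S
  · rw [if_pos hx, if_neg (not_not.mpr hx)]
  · rw [if_neg hx, if_pos hx]

theorem QtG.rl1 {k : ℕ} {Φ : Fin m × K1 ↪ I} {Ψ : Fin m × K2 ↪ J} {b : K1 × K2 → ℝ} {t : ℝ}
    {q : I × J → ℝ} (h : QtG k Φ Ψ b t q) (s : Fin m) (a : K1) :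
    ∑ j ∈ univ \ univ.map (cpy Ψ s), |q (cpy Φ s a, j) - (1 - ∑ c, t * b (a, c)) /
      Fintype.card I| ≤ 2 * (m * k) / Fintype.card I := by
  obtain ⟨a1, a2, a3, a4, a5⟩ := h.n1
  obtain ⟨c1, c2, c3⟩ := h.n2
  have hn : (0 : ℝ) < Fintype.card I := by linarith
  have hN2 : 0 < (Fintype.card I : ℝ) - m * Fintype.card K2 := by linarith
  obtain ⟨r1, r2⟩ := h.rB a
  rw [← Finset.mul_sum, Qt_sd]
  obtain ⟨v, hv⟩ : ∃ v, v = 1 - t * ∑ c, b (a, c) := ⟨_, rfl⟩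
  rw [← hv] at r1 r2 ⊢
  rw [Qt_sum1 Ψ _ (|v / ((Fintype.card I : ℝ) - m * Fintype.card K2) - v / Fintype.card I|)]
  · have h1 : ∀ y : Fin m × K2, (if Ψ y ∈ univ.map (cpy Ψ s) then 0 else
        |q (cpy Φ s a, Ψ y) - v / Fintype.card I|) ≤ 1 / Fintype.card I := by
      intro y
      split_ifs with h2
      · positivity
      · show |q (Φ (s, a), Ψ y) - _| ≤ _
        rw [h.f1, if_neg, zero_sub, abs_neg, abs_of_nonneg (by positivity)]
        · exact div_le_div_of_nonneg_right r2 hn.le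
        · intro h3
          refine h2 (Finset.mem_map.mpr ⟨y.2, Finset.mem_univ _, ?_⟩)
          show Ψ (s, y.2) = Ψ y
          rw [show s = y.1 from h3]
    have h2 := Finset.sum_le_sum (s := univ) fun y _ => h1 y
    rw [Finset.sum_const, Finset.card_univ, Fintype.card_prod, Fintype.card_fin, nsmul_eq_mul,
      Nat.cast_mul] at h2
    have h3 : ((Fintype.card I : ℝ) - m * Fintype.card K2) *
        |v / ((Fintype.card I : ℝ) - m * Fintype.card K2) - v / Fintype.card I| =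
        v * (m * Fintype.card K2) / Fintype.card I := by
      rw [abs_of_nonneg]
      · field_simp
        ring
      · rw [sub_nonneg]
        exact div_le_div_of_nonneg_left r1 hN2 (by linarith)
    rw [← h.hc, h3]
    refine (add_le_add h2 le_rfl).trans ?_
    rw [mul_one_div, ← add_div]
    refine div_le_div_of_nonneg_right ?_ hn.le
    have h4 : v * (m * Fintype.card K2) ≤ 1 * (m * Fintype.card K2) :=
      mul_le_mul_of_nonneg_right r2 c1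
    linarith
  · intro j hj
    rw [if_neg]
    · show |q (Φ (s, a), j) - _| = _
      rw [h.f2 _ j hj, ← hv]
    · intro h2
      obtain ⟨c, -, h3⟩ := Finset.mem_map.mp h2
      exact hj (Finset.mem_map.mpr ⟨(s, c), Finset.mem_univ _, h3⟩)

/-- distance of the start from the uniform matrix -/
theorem QtG.unif {k : ℕ} {Φ : Fin m × K1 ↪ I} {Ψ : Fin m × K2 ↪ J} {b : K1 × K2 → ℝ}
    {q : I × J → ℝ} (h : QtG k Φ Ψ b 0 q) :
    ∑ e, |q e - 1 / Fintype.card I| ≤ 1 / 2 := by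
  obtain ⟨a1, a2, a3, a4, a5⟩ := h.n1
  obtain ⟨c1, c2, c3⟩ := h.n2
  have hn : (0 : ℝ) < Fintype.card I := by linarith
  have hN1 : 0 < (Fintype.card I : ℝ) - m * Fintype.card K1 := by linarith
  have hN2 : 0 < (Fintype.card I : ℝ) - m * Fintype.card K2 := by linarith
  have e1 : (1 : ℝ) / Fintype.card I ≤ 1 / ((Fintype.card I : ℝ) - m * Fintype.card K1) :=
    one_div_le_one_div_of_le hN1 (by linarith)
  have e2 : (1 : ℝ) / Fintype.card I ≤ 1 / ((Fintype.card I : ℝ) - m * Fintype.card K2) :=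
    one_div_le_one_div_of_le hN2 (by linarith)
  rw [Qt_sum2 Φ Ψ _ (fun _ _ => 1 / (Fintype.card I : ℝ))
    (fun _ => 1 / ((Fintype.card I : ℝ) - m * Fintype.card K2) - 1 / Fintype.card I)
    (fun _ => 1 / ((Fintype.card I : ℝ) - m * Fintype.card K1) - 1 / Fintype.card I)
    ((m * Fintype.card K1) * (m * Fintype.card K2) / (Fintype.card I *
      (((Fintype.card I : ℝ) - m * Fintype.card K1) *
        ((Fintype.card I : ℝ) - m * Fintype.card K2))))]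
  · rw [← h.hc]
    simp only [Finset.sum_const, Finset.card_univ, Fintype.card_prod, Fintype.card_fin,
      nsmul_eq_mul, Nat.cast_mul]
    have h1 : (m : ℝ) * Fintype.card K1 * (m * Fintype.card K2 * (1 / Fintype.card I)) +
        ((Fintype.card I : ℝ) - m * Fintype.card K2) * (m * Fintype.card K1 *
          (1 / ((Fintype.card I : ℝ) - m * Fintype.card K2) - 1 / Fintype.card I)) +
        ((Fintype.card I : ℝ) - m * Fintype.card K1) * (m * Fintype.card K2 *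
          (1 / ((Fintype.card I : ℝ) - m * Fintype.card K1) - 1 / Fintype.card I)) +
        ((Fintype.card I : ℝ) - m * Fintype.card K1) *
          ((Fintype.card I : ℝ) - m * Fintype.card K2) *
        ((m * Fintype.card K1) * (m * Fintype.card K2) / (Fintype.card I *
          (((Fintype.card I : ℝ) - m * Fintype.card K1) *
            ((Fintype.card I : ℝ) - m * Fintype.card K2)))) =
        4 * ((m * Fintype.card K1) * (m * Fintype.card K2)) / Fintype.card I := by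
      field_simp
      ring
    rw [h1, div_le_iff₀ hn]
    have h2 : ((m : ℝ) * Fintype.card K1) * (m * Fintype.card K2) ≤ (m * k) * (m * k) :=
      mul_le_mul a2 c2 c1 (a1.trans a2)
    have h3 := h.hn
    have h4 := a1.trans a2
    nlinarith
  · intro x y
    rw [h.f1, zero_mul, ite_self, zero_sub, abs_neg, abs_of_nonneg (by positivity)]
  · intro x j hj
    rw [h.f2 x j hj, zero_mul, sub_zero, abs_of_nonneg (by linarith)]
  · intro i y hi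
    rw [h.f3 i y hi, zero_mul, sub_zero, abs_of_nonneg (by linarith)]
  · intro i j hi hj
    rw [h.f4 i j hi hj, zero_mul, add_zero]
    have h1 : ((Fintype.card I : ℝ) - m * Fintype.card K1 - m * Fintype.card K2) /
        (((Fintype.card I : ℝ) - m * Fintype.card K1) *
          ((Fintype.card I : ℝ) - m * Fintype.card K2)) - 1 / Fintype.card I =
        -((m * Fintype.card K1) * (m * Fintype.card K2) / (Fintype.card I *
      (((Fintype.card I : ℝ) - m * Fintype.card K1) *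
        ((Fintype.card I : ℝ) - m * Fintype.card K2)))) := by
      field_simp
      ring
    rw [h1, abs_neg, abs_of_nonneg (by positivity)]

/-- the formulas for the direction -/
theorem Qt_W {k : ℕ} {Φ : Fin m × K1 ↪ I} {Ψ : Fin m × K2 ↪ J} {b : K1 × K2 → ℝ}
    {q0 q1 : I × J → ℝ} (h0 : QtG k Φ Ψ b 0 q0) (h1 : QtG k Φ Ψ b 1 q1) :
    (∀ x y, q1 (Φ x, Ψ y) - q0 (Φ x, Ψ y) = if x.1 = y.1 then b (x.2, y.2) else 0) ∧
    (∀ x j, j ∉ univ.map Ψ → q1 (Φ x, j) - q0 (Φ x, j) =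
      -((∑ c, b (x.2, c)) / ((Fintype.card I : ℝ) - m * Fintype.card K2))) ∧
    (∀ i y, i ∉ univ.map Φ → q1 (i, Ψ y) - q0 (i, Ψ y) =
      -((∑ a, b (a, y.2)) / ((Fintype.card I : ℝ) - m * Fintype.card K1))) ∧
    (∀ i j, i ∉ univ.map Φ → j ∉ univ.map Ψ → q1 (i, j) - q0 (i, j) =
      (m * ∑ e, b e) / (((Fintype.card I : ℝ) - m * Fintype.card K1) *
        ((Fintype.card I : ℝ) - m * Fintype.card K2))) := by
  refine ⟨fun x y => ?_, fun x j hj => ?_, fun i y hi => ?_, fun i j hi hj => ?_⟩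
  · rw [h0.f1, h1.f1]
    split_ifs <;> ring
  · rw [h0.f2 x j hj, h1.f2 x j hj]
    ring
  · rw [h0.f3 i y hi, h1.f3 i y hi]
    ring
  · rw [h0.f4 i j hi hj, h1.f4 i j hi hj]
    ring

theorem Qt_dsum (b : K1 × K2 → ℝ) :
    ∑ x : Fin m × K1, ∑ c, b (x.2, c) = m * ∑ e, b e := by
  rw [Fintype.sum_prod_type]
  simp only
  rw [Finset.sum_const, Finset.card_univ, Fintype.card_fin, nsmul_eq_mul, Fintype.sum_prod_type]

theorem Qt_dsum2 (b : K1 × K2 → ℝ) :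
    ∑ y : Fin m × K2, ∑ a, b (a, y.2) = m * ∑ e, b e := by
  rw [Fintype.sum_prod_type]
  simp only
  rw [Finset.sum_const, Finset.card_univ, Fintype.card_fin, nsmul_eq_mul,
    Fintype.sum_prod_type_right]

theorem Qt_W1 {k : ℕ} {Φ : Fin m × K1 ↪ I} {Ψ : Fin m × K2 ↪ J} {b : K1 × K2 → ℝ}
    {q0 q1 : I × J → ℝ} (h0 : QtG k Φ Ψ b 0 q0) (h1 : QtG k Φ Ψ b 1 q1) :
    ∑ e, |q1 e - q0 e| ≤ 4 * (m * k) := by
  obtain ⟨a1, a2, a3, a4, a5⟩ := h0.n1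
  obtain ⟨c1, c2, c3⟩ := h0.n2
  have hN1 : 0 < (Fintype.card I : ℝ) - m * Fintype.card K1 := by linarith
  have hN2 : 0 < (Fintype.card I : ℝ) - m * Fintype.card K2 := by linarith
  obtain ⟨w1, w2, w3, w4⟩ := Qt_W h0 h1
  obtain ⟨s1, s2⟩ := h0.sx
  have r1 : ∀ a, 0 ≤ ∑ c, b (a, c) := fun a => Finset.sum_nonneg fun c _ => h0.b0 _
  have r2 : ∀ c, 0 ≤ ∑ a, b (a, c) := fun c => Finset.sum_nonneg fun a _ => h0.b0 _
  rw [Qt_sum2 Φ Ψ _ (fun x y => if x.1 = y.1 then b (x.2, y.2) else 0)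
    (fun x => (∑ c, b (x.2, c)) / ((Fintype.card I : ℝ) - m * Fintype.card K2))
    (fun y => (∑ a, b (a, y.2)) / ((Fintype.card I : ℝ) - m * Fintype.card K1))
    ((m * ∑ e, b e) / (((Fintype.card I : ℝ) - m * Fintype.card K1) *
        ((Fintype.card I : ℝ) - m * Fintype.card K2)))]
  · rw [Qt_diag2, ← Finset.sum_div, ← Finset.sum_div, Qt_dsum, Qt_dsum2, ← h0.hc,
      mul_div_cancel₀ _ hN2.ne', mul_div_cancel₀ _ hN1.ne',
      mul_div_cancel₀ _ (mul_pos hN1 hN2).ne']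
    linarith
  · intro x y
    rw [w1]
    split_ifs
    · exact abs_of_nonneg (h0.b0 _)
    · exact abs_zero
  · intro x j hj
    rw [w2 x j hj, abs_neg, abs_of_nonneg (div_nonneg (r1 _) hN2.le)]
  · intro i y hi
    rw [w3 i y hi, abs_neg, abs_of_nonneg (div_nonneg (r2 _) hN1.le)]
  · intro i j hi hj
    rw [w4 i j hi hj, abs_of_nonneg (div_nonneg s1 (mul_pos hN1 hN2).le)]

theorem Qt_mem (Φ : Fin m × K1 ↪ I) (Ψ : Fin m × K2 ↪ J) (e : I × J) :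
    e ∈ univ.biUnion (fun s => univ.map (emb (cpy Φ s) (cpy Ψ s))) ↔
      ∃ s a c, Φ (s, a) = e.1 ∧ Ψ (s, c) = e.2 := by
  simp only [Finset.mem_biUnion, Finset.mem_map, Finset.mem_univ, true_and]
  constructor
  · rintro ⟨s, ⟨a, c⟩, rfl⟩
    exact ⟨s, a, c, rfl, rfl⟩
  · rintro ⟨s, a, c, h1, h2⟩
    exact ⟨s, (a, c), Prod.ext h1 h2⟩

theorem Qt_wo {k : ℕ} {Φ : Fin m × K1 ↪ I} {Ψ : Fin m × K2 ↪ J} {b : K1 × K2 → ℝ}
    {q0 q1 : I × J → ℝ} (h0 : QtG k Φ Ψ b 0 q0) (h1 : QtG k Φ Ψ b 1 q1) :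
    ∑ e ∈ univ \ univ.biUnion (fun s => univ.map (emb (cpy Φ s) (cpy Ψ s))),
      (q1 e - q0 e) ^ 2 ≤ 10 * ((m : ℝ) * k + 1) ^ 2 / Fintype.card I := by
  obtain ⟨a1, a2, a3, a4, a5⟩ := h0.n1
  obtain ⟨c1, c2, c3⟩ := h0.n2
  have hn : (0 : ℝ) < Fintype.card I := by linarith
  have hN1 : 0 < (Fintype.card I : ℝ) - m * Fintype.card K1 := by linarith
  have hN2 : 0 < (Fintype.card I : ℝ) - m * Fintype.card K2 := by linarith
  obtain ⟨w1, w2, w3, w4⟩ := Qt_W h0 h1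
  obtain ⟨s1, s2⟩ := h0.sx
  have r1 : ∀ a, 0 ≤ ∑ c, b (a, c) := fun a => Finset.sum_nonneg fun c _ => h0.b0 _
  have r2 : ∀ c, 0 ≤ ∑ a, b (a, c) := fun c => Finset.sum_nonneg fun a _ => h0.b0 _
  rw [Qt_sd, Qt_sum2 Φ Ψ _ (fun x y => 0)
    (fun x => ((∑ c, b (x.2, c)) / ((Fintype.card I : ℝ) - m * Fintype.card K2)) ^ 2)
    (fun y => ((∑ a, b (a, y.2)) / ((Fintype.card I : ℝ) - m * Fintype.card K1)) ^ 2)
    (((m * ∑ e, b e) / (((Fintype.card I : ℝ) - m * Fintype.card K1) *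
        ((Fintype.card I : ℝ) - m * Fintype.card K2))) ^ 2)]
  · have e1 : ∑ x : Fin m × K1, ((∑ c, b (x.2, c)) /
        ((Fintype.card I : ℝ) - m * Fintype.card K2)) ^ 2 ≤
        (m * Fintype.card K1) * (1 / ((Fintype.card I : ℝ) - m * Fintype.card K2)) ^ 2 := by
      have := Finset.sum_le_sum (s := (univ : Finset (Fin m × K1)))
        (f := fun x => ((∑ c, b (x.2, c)) / ((Fintype.card I : ℝ) - m * Fintype.card K2)) ^ 2)
        (g := fun _ => (1 / ((Fintype.card I : ℝ) - m * Fintype.card K2)) ^ 2)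
        (fun x _ => pow_le_pow_left₀ (div_nonneg (r1 _) hN2.le)
          (div_le_div_of_nonneg_right (h0.br _) hN2.le) 2)
      rwa [Finset.sum_const, Finset.card_univ, Fintype.card_prod, Fintype.card_fin, nsmul_eq_mul,
        Nat.cast_mul] at this
    have e2 : ∑ y : Fin m × K2, ((∑ a, b (a, y.2)) /
        ((Fintype.card I : ℝ) - m * Fintype.card K1)) ^ 2 ≤
        (m * Fintype.card K2) * (1 / ((Fintype.card I : ℝ) - m * Fintype.card K1)) ^ 2 := by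
      have := Finset.sum_le_sum (s := (univ : Finset (Fin m × K2)))
        (f := fun y => ((∑ a, b (a, y.2)) / ((Fintype.card I : ℝ) - m * Fintype.card K1)) ^ 2)
        (g := fun _ => (1 / ((Fintype.card I : ℝ) - m * Fintype.card K1)) ^ 2)
        (fun y _ => pow_le_pow_left₀ (div_nonneg (r2 _) hN1.le)
          (div_le_div_of_nonneg_right (h0.bc _) hN1.le) 2)
      rwa [Finset.sum_const, Finset.card_univ, Fintype.card_prod, Fintype.card_fin, nsmul_eq_mul,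
        Nat.cast_mul] at this
    rw [← h0.hc]
    obtain ⟨N, hN⟩ : ∃ N : ℝ, N = Fintype.card I := ⟨_, rfl⟩
    obtain ⟨A1, hA1⟩ : ∃ A1 : ℝ, A1 = m * Fintype.card K1 := ⟨_, rfl⟩
    obtain ⟨A2, hA2⟩ : ∃ A2 : ℝ, A2 = m * Fintype.card K2 := ⟨_, rfl⟩
    obtain ⟨s, hs⟩ : ∃ s : ℝ, s = m * ∑ e, b e := ⟨_, rfl⟩
    obtain ⟨M, hM⟩ : ∃ M : ℝ, M = m * k := ⟨_, rfl⟩
    simp only [← hN, ← hA1, ← hA2, ← hs, ← hM] at a1 a2 a3 a4 a5 c1 c2 c3 hn e1 e2 hN1 hN2 s1 s2 ⊢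
    have f1 : (N - A2) * ∑ x : Fin m × K1, ((∑ c, b (x.2, c)) / (N - A2)) ^ 2 ≤ 2 * M / N := by
      refine (mul_le_mul_of_nonneg_left e1 hN2.le).trans ?_
      have : (N - A2) * (A1 * (1 / (N - A2)) ^ 2) = A1 / (N - A2) := by
        field_simp
      rw [this, div_le_div_iff₀ hN2 hn]
      nlinarith
    have f2 : (N - A1) * ∑ y : Fin m × K2, ((∑ a, b (a, y.2)) / (N - A1)) ^ 2 ≤ 2 * M / N := by
      refine (mul_le_mul_of_nonneg_left e2 hN1.le).trans ?_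
      have : (N - A1) * (A2 * (1 / (N - A1)) ^ 2) = A2 / (N - A1) := by
        field_simp
      rw [this, div_le_div_iff₀ hN1 hn]
      nlinarith
    have f3 : (N - A1) * (N - A2) * (s / ((N - A1) * (N - A2))) ^ 2 ≤ 4 * M / N := by
      have : (N - A1) * (N - A2) * (s / ((N - A1) * (N - A2))) ^ 2 =
          s ^ 2 / ((N - A1) * (N - A2)) := by
        field_simp
      rw [this, div_le_div_iff₀ (mul_pos hN1 hN2) hn]
      have g1 : s ^ 2 ≤ M * N := by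
        have g2 : s ≤ M := s2.trans a2
        have g3 : s ≤ N := by linarith
        nlinarith
      have g4 : N * N ≤ 4 * ((N - A1) * (N - A2)) := by
        have g5 := mul_le_mul a3 c3 (by linarith) (by linarith)
        linarith
      have g6 : 0 ≤ M := a1.trans a2
      have g7 := mul_le_mul_of_nonneg_right g1 hn.le
      have g8 := mul_le_mul_of_nonneg_left g4 g6
      linarith
    have f4 : 2 * M / N + 2 * M / N + 4 * M / N ≤ 10 * (M + 1) ^ 2 / N := by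
      rw [← add_div, ← add_div]
      refine div_le_div_of_nonneg_right ?_ hn.le
      nlinarith [a1.trans a2]
    simp only [Finset.sum_const_zero, zero_add]
    linarith
  · intro x y
    by_cases h2 : x.1 = y.1
    · rw [if_pos]
      rw [Qt_mem]
      refine ⟨x.1, x.2, y.2, rfl, ?_⟩
      show Ψ (x.1, y.2) = Ψ y
      rw [h2]
    · rw [w1, if_neg h2]
      simp
  · intro x j hj
    rw [if_neg, w2 x j hj, neg_sq]
    rw [Qt_mem]
    rintro ⟨s, a, c, -, h3⟩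
    exact hj (Finset.mem_map.mpr ⟨(s, c), Finset.mem_univ _, h3⟩)
  · intro i y hi
    rw [if_neg, w3 i y hi, neg_sq]
    rw [Qt_mem]
    rintro ⟨s, a, c, h3, -⟩
    exact hi (Finset.mem_map.mpr ⟨(s, a), Finset.mem_univ _, h3⟩)
  · intro i j hi hj
    rw [if_neg, w4 i j hi hj]
    rw [Qt_mem]
    rintro ⟨s, a, c, h3, -⟩
    exact hi (Finset.mem_map.mpr ⟨(s, a), Finset.mem_univ _, h3⟩)

theorem Qt_sq {k : ℕ} {Φ : Fin m × K1 ↪ I} {Ψ : Fin m × K2 ↪ J} {b : K1 × K2 → ℝ}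
    {q : I × J → ℝ} (h : QtG k Φ Ψ b 1 q) :
    m * ∑ e, b e ^ 2 ≤ ∑ e, q e ^ 2 := by
  obtain ⟨a1, a2, a3, a4, a5⟩ := h.n1
  obtain ⟨c1, c2, c3⟩ := h.n2
  rw [Qt_sum2 Φ Ψ (fun e => q e ^ 2) (fun x y => if x.1 = y.1 then b (x.2, y.2) ^ 2 else 0)
    _ _ _ ?_ (fun x j hj => by rw [h.f2 x j hj]) (fun i y hi => by rw [h.f3 i y hi])
    (fun i j hi hj => by rw [h.f4 i j hi hj]), Qt_diag2 (fun e => b e ^ 2), ← h.hc]
  · have e1 : 0 ≤ (Fintype.card I : ℝ) - m * Fintype.card K2 := by linarith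
    have e2 : 0 ≤ (Fintype.card I : ℝ) - m * Fintype.card K1 := by linarith
    have f1 := mul_nonneg e1 (Finset.sum_nonneg (s := (univ : Finset (Fin m × K1)))
      (f := fun x => ((1 - 1 * ∑ c, b (x.2, c)) /
        ((Fintype.card I : ℝ) - m * Fintype.card K2)) ^ 2) fun x _ => sq_nonneg _)
    have f2 := mul_nonneg e2 (Finset.sum_nonneg (s := (univ : Finset (Fin m × K2)))
      (f := fun y => ((1 - 1 * ∑ a, b (a, y.2)) /
        ((Fintype.card I : ℝ) - m * Fintype.card K1)) ^ 2) fun x _ => sq_nonneg _)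
    have f3 := mul_nonneg (mul_nonneg e2 e1) (sq_nonneg
      (((Fintype.card I : ℝ) - m * Fintype.card K1 - m * Fintype.card K2 + 1 * (m * ∑ e, b e)) /
      (((Fintype.card I : ℝ) - m * Fintype.card K1) *
        ((Fintype.card I : ℝ) - m * Fintype.card K2))))
    linarith
  · intro x y
    rw [h.f1]
    split_ifs <;> ring

/-- the values of `FF` along the segment -/
theorem Qt_FF {l : ℝ} (hl : Real.exp (-l) = l) {k : ℕ} {Φ : Fin m × K1 ↪ I}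
    {Ψ : Fin m × K2 ↪ J} {b : K1 × K2 → ℝ} {q : I × J → ℝ} (h : QtG k Φ Ψ b 0 q) :
    FF q ≤ (2 * (1 - l) - l ^ 2) * Fintype.card I + 3 := by
  obtain ⟨a1, a2, a3, a4, a5⟩ := h.n1
  have hN : 100 ≤ Fintype.card I := by exact_mod_cast a4
  obtain ⟨N, hN'⟩ : ∃ N, Fintype.card I = N + 1 := ⟨Fintype.card I - 1, by omega⟩
  have h1 := Pool.KX.fx_univ_upper (I := I) (J := J) N (by omega) hN' (by rw [← h.hc]; exact hN') hl
  have hcast : (Fintype.card I : ℝ) = (N : ℝ) + 1 := by rw [hN']; push_cast; ring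
  have h2 : |FF q - FF (fun _ : I × J => 1 / (Fintype.card I : ℝ))| ≤
      ∑ e, |q e - 1 / Fintype.card I| := by
    refine FF_lip (fun e => by positivity) (fun e => ?_) (fun e => (h.all e).1)
      (fun e => (h.all e).2.trans th_lt.le)
    rw [div_le_one (by linarith)]
    linarith
  have h3 := h.unif
  have h4 : FF (fun _ : I × J => 1 / (Fintype.card I : ℝ)) ≤
      (2 * (1 - l) - l ^ 2) * Fintype.card I + 5 / 2 := by
    unfold FF
    rw [hcast]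
    exact h1
  have h5 := (abs_le.mp (h2.trans h3)).2
  linarith

end Qt

theorem qq_path {l : ℝ} (hl : Real.exp (-l) = l) (k m : ℕ) (hm : 1 ≤ m) :
    ∃ (C X : ℝ) (N0 : ℕ), 0 ≤ C ∧ 0 ≤ X ∧
    ∀ {I J K1 K2 : Type} [Fintype I] [Fintype J] [DecidableEq I] [DecidableEq J]
      [Fintype K1] [Fintype K2] [DecidableEq K1] [DecidableEq K2]
      (Φ : Fin m × K1 ↪ I) (Ψ : Fin m × K2 ↪ J) (b : K1 × K2 → ℝ),
      (∀ e, 0 ≤ b e) → (∀ e, b e ≤ th) → (∀ a, ∑ c, b (a, c) ≤ 1) →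
      (∀ c, ∑ a, b (a, c) ≤ 1) → Fintype.card I = Fintype.card J →
      Fintype.card K1 ≤ k → Fintype.card K2 ≤ k → N0 ≤ Fintype.card I →
      PathM m l X C (cpy Φ) (cpy Ψ) b (qq Φ Ψ b 0) (fun e => qq Φ Ψ b 1 e - qq Φ Ψ b 0 e) ∧
      FF (qq Φ Ψ b 0) ≤ (2 * (1 - l) - l ^ 2) * Fintype.card I + 3 ∧
      m * ∑ e, b e ^ 2 ≤ ∑ e, qq Φ Ψ b 1 e ^ 2 := by
  refine ⟨10 * ((m : ℝ) * k + 1) ^ 2, 3 + 4 * (m * k), 100 * (m * k + 1) ^ 2, by positivity,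
    by positivity, ?_⟩
  intro I J K1 K2 _ _ _ _ _ _ _ _ Φ Ψ b b0 b1 br bc hc k1 k2 hN
  have hn : 100 * ((m : ℝ) * k + 1) ^ 2 ≤ Fintype.card I := by exact_mod_cast hN
  have hG : ∀ t : ℝ, 0 ≤ t → t ≤ 1 → QtG k Φ Ψ b t (qq Φ Ψ b t) := fun t t0 t1 =>
    ⟨QtF_qq Φ Ψ b t hc, b0, b1, br, bc, t0, t1, k1, k2, hn⟩
  have h0 := hG 0 le_rfl zero_le_one
  have h1 := hG 1 zero_le_one le_rfl
  have hF0 := Qt_FF hl h0
  obtain ⟨a1, a2, a3, a4, a5⟩ := h0.n1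
  have hnpos : (0 : ℝ) < Fintype.card I := by linarith
  have hM : (0 : ℝ) ≤ m * k := a1.trans a2
  have hC2 : 2 / (Fintype.card I : ℝ) ≤ 10 * ((m : ℝ) * k + 1) ^ 2 / Fintype.card I := by
    refine div_le_div_of_nonneg_right ?_ hnpos.le
    nlinarith
  have hC3 : 2 * ((m : ℝ) * k) / (Fintype.card I : ℝ) ≤
      10 * ((m : ℝ) * k + 1) ^ 2 / Fintype.card I := by
    refine div_le_div_of_nonneg_right ?_ hnpos.le
    nlinarith
  have hC0 : 0 ≤ 10 * ((m : ℝ) * k + 1) ^ 2 / (Fintype.card I : ℝ) := by positivity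
  have hFt : ∀ t : ℝ, 0 ≤ t → t ≤ 1 → FF (qq Φ Ψ b t) ≤
      (2 * (1 - l) - l ^ 2) * Fintype.card I + (3 + 4 * (m * k)) := by
    intro t t0 t1
    have ht := hG t t0 t1
    have e1 : |FF (qq Φ Ψ b t) - FF (qq Φ Ψ b 0)| ≤ ∑ e, |qq Φ Ψ b t e - qq Φ Ψ b 0 e| :=
      FF_lip (fun e => (h0.all e).1) (fun e => (h0.all e).2.trans th_lt.le)
        (fun e => (ht.all e).1) (fun e => (ht.all e).2.trans th_lt.le)
    have e2 : ∑ e, |qq Φ Ψ b t e - qq Φ Ψ b 0 e| ≤ ∑ e, |qq Φ Ψ b 1 e - qq Φ Ψ b 0 e| := by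
      refine Finset.sum_le_sum fun e _ => ?_
      rw [← Qt_affine Φ Ψ b t e, add_sub_cancel_left, abs_mul, abs_of_nonneg t0]
      exact mul_le_of_le_one_left (abs_nonneg _) t1
    have e3 := Qt_W1 h0 h1
    have e4 := (abs_le.mp ((e1.trans e2).trans e3)).2
    linarith
  refine ⟨⟨?_, ?_, ?_, Qt_wo h0 h1, ?_, ?_⟩, hF0, Qt_sq h1⟩
  · intro s t t0 t1
    have ht := hG t t0 t1
    have hq : (fun e => qq Φ Ψ b 0 e + t * (qq Φ Ψ b 1 e - qq Φ Ψ b 0 e)) = qq Φ Ψ b t :=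
      funext fun e => Qt_affine Φ Ψ b t e
    rw [hq]
    refine ⟨⟨ht.ds, fun e => (ht.all e).2, by positivity, hFt t t0 t1⟩, by positivity,
      fun e => mul_nonneg t0 (b0 e), fun a => ?_, fun c => ?_, fun e => ?_, ?_, ?_, ?_, ?_⟩
    · rw [← Finset.mul_sum]
      exact (mul_le_of_le_one_left (Finset.sum_nonneg fun c _ => b0 _) t1).trans (br a)
    · rw [← Finset.mul_sum]
      exact (mul_le_of_le_one_left (Finset.sum_nonneg fun a _ => b0 _) t1).trans (bc c)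
    · have h2 := ht.f1 (s, e.1) (s, e.2)
      rw [if_pos rfl] at h2
      show |qq Φ Ψ b t (Φ (s, e.1), Ψ (s, e.2)) - t * b e| ≤ _
      rw [h2, sub_self, abs_zero]
      exact hC0
    · exact fun a j hj => (ht.rle s a j hj).trans hC2
    · exact fun a => (ht.rl1 s a).trans hC3
    · intro c i hi
      have h2 := ht.tr.rle s c i hi
      rw [← hc] at h2
      exact h2.trans hC2
    · intro c
      have h2 := ht.tr.rl1 s c
      rw [← hc] at h2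
      exact h2.trans hC3
  · intro s s' hss
    rw [Finset.disjoint_left]
    intro e he he'
    obtain ⟨x, -, hx⟩ := Finset.mem_map.mp he
    obtain ⟨x', -, hx'⟩ := Finset.mem_map.mp he'
    have h2 : Φ (s, x.1) = Φ (s', x'.1) := by
      have h3 := congrArg Prod.fst (hx.trans hx'.symm)
      exact h3
    exact hss (congrArg Prod.fst (Φ.injective h2))
  · intro s e
    have h2 := (Qt_W h0 h1).1 (s, e.1) (s, e.2)
    rw [if_pos rfl] at h2
    show |(qq Φ Ψ b 1 (Φ (s, e.1), Ψ (s, e.2)) - qq Φ Ψ b 0 (Φ (s, e.1), Ψ (s, e.2))) - b e| ≤ _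
    rw [h2, sub_self, abs_zero]
    exact hC0
  · intro i
    show ∑ j, (qq Φ Ψ b 1 (i, j) - qq Φ Ψ b 0 (i, j)) = 0
    rw [Finset.sum_sub_distrib, h1.row, h0.row, sub_self]
  · intro j
    show ∑ i, (qq Φ Ψ b 1 (i, j) - qq Φ Ψ b 0 (i, j)) = 0
    rw [Finset.sum_sub_distrib]
    have e1 : ∑ i, qq Φ Ψ b 1 (i, j) = 1 := h1.tr.row j
    have e2 : ∑ i, qq Φ Ψ b 0 (i, j) = 1 := h0.tr.row j
    rw [e1, e2, sub_self]

end Pool.JN2
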