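import Pool.Agent.JN2.Xy
import Pool.Agent.JN2.Mw

/-! Module Yi (difficulty 2). Second moment of a linear functional (text (1.4)).

PROOF. Y(E) = sum_j w j (Yj j (dR i E) - l). Ex Y^2 = Ex (Y - Ex Y)^2 + (Ex Y)^2 (Ex_var in ES.lean).
 Variance: Y(E) - Ex Y = (sum_{Rm (dR i E)} w) - Ex (...) (the constant l sum w cancels), lin2 (LIN.lean) for zr p i (Ex_zr, Sub.zr): ≤ Dm th 2 * sum w^2 ≤ DD nrm w^2.
 Mean: Ex Y = sum_j w j (Ex Yj j - l) + sum_j w j Ex mij (Yj_dR); |first| ≤ nrm w * (sum_j (Ex Yj j - l)^2)^{1/2}, and (Ex Yj j - l)^2 ≤ Ex (V_j - l)^2 where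
   Ex Yj j = Ex (pt p) (Xi j) = Ex U (pt p) j (Lm (dC j E)) (Ex_Yj, Ex_Xi, Ex_tr, Rm_tr, tr_dC; or use Ex_Yj and DX.tr.rows instead of DX.cols) and (Ex g)^2 ≤ Ex g^2 (Ex_cs or Ex_var);
   sum ≤ 5000 X (DX.cols or h.tr.rows). |second| ≤ DD nrm w nrm (p_i) ≤ DD nrm w (mij_w, D1_le; nrm (p_i) ≤ 1 since sum_j p_ij^2 ≤ sum_j p_ij = 1).
   So (Ex Y)^2 ≤ (sqrt(5000 X) + DD)^2 nrm w^2 ≤ (10000 X + 2 DD^2) nrm w^2.
 Total ≤ (DD + 10000 X + 2 DD^2) nrm w^2 ≤ 10000 DD^2 (X+1) nrm w^2 (DD ≥ 1).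
-/

namespace Pool.JN2

open Finset Pool.KS Pool.JN

set_option linter.unusedSectionVars false

variable {I J : Type*} [Fintype I] [Fintype J] [DecidableEq I] [DecidableEq J]

theorem Yi_jensen {p : I × J → ℝ} (h0 : ∀ e, 0 ≤ p e) (h1 : ∀ e, p e ≤ 1)
    (f : Finset (I × J) → ℝ) (c : ℝ) :
    (Ex p f - c) ^ 2 ≤ Ex p (fun E => (f E - c) ^ 2) := by
  have h := Ex_cs h0 h1 (fun E => f E - c) (fun _ => 1)
  simp only [mul_one, one_pow, Ex_const, Ex_sub] at h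
  exact h

theorem mean_rows_aux {I J : Type*} [Fintype I] [Fintype J] [DecidableEq I] [DecidableEq J]
    {l X : ℝ} (hl : Real.exp (-l) = l) {p : I × J → ℝ} (h : DX l X p) :
    ∑ i, (Ex p (Xi i) - l) ^ 2 ≤ 5000 * X := by
  refine (Finset.sum_le_sum (fun i _ => ?_)).trans (h.rows hl)
  rw [Ex_Xi]
  exact Yi_jensen h.h0 h.le_one _ l

/-- the means of the columns are close to `l` in the square sum -/
theorem mean_cols {l X : ℝ} (hl : Real.exp (-l) = l) {p : I × J → ℝ} (h : DX l X p) :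
    ∑ j, (Ex p (Yj j) - l) ^ 2 ≤ 5000 * X := by
  have h1 := mean_rows_aux hl h.tr
  simp only [← Ex_Yj] at h1
  exact h1

theorem mean_rows {l X : ℝ} (hl : Real.exp (-l) = l) {p : I × J → ℝ} (h : DX l X p) :
    ∑ i, (Ex p (Xi i) - l) ^ 2 ≤ 5000 * X := mean_rows_aux hl h

theorem Yi_nrm_row {l X : ℝ} {p : I × J → ℝ} (h : DX l X p) (i : I) :
    nrm (fun j => p (i, j)) ≤ 1 := by
  unfold nrm
  refine Real.sqrt_le_one.mpr ?_
  calc ∑ j, p (i, j) ^ 2 ≤ ∑ j, p (i, j) := Finset.sum_le_sum (fun j _ => by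
        have h1 := h.h0 (i, j)
        have h2 := h.le_one (i, j)
        nlinarith)
    _ = 1 := h.hr i

theorem Yi_mean {l X : ℝ} (hl : Real.exp (-l) = l) {p : I × J → ℝ} (h : DX l X p) (i : I)
    (w : J → ℝ) :
    (Ex p (fun E => ∑ j, w j * (Yj j (dR i E) - l))) ^ 2 ≤
      (10000 * X + 2 * DD ^ 2) * nrm w ^ 2 := by
  have e1 : Ex p (fun E => ∑ j, w j * (Yj j (dR i E) - l)) =
      ∑ j, w j * (Ex p (Yj j) - l) + ∑ j, w j * Ex p (mij i j) := by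
    rw [Ex_sum, ← Finset.sum_add_distrib]
    refine Finset.sum_congr rfl (fun j _ => ?_)
    rw [Ex_mul_left, Ex_sub, Ex_const, Yj_dR]
    ring
  rw [e1]
  set A := ∑ j, w j * (Ex p (Yj j) - l) with hA
  set B := ∑ j, w j * Ex p (mij i j) with hB
  have hA2 : A ^ 2 ≤ nrm w ^ 2 * (5000 * X) := by
    have h1 := Finset.sum_mul_sq_le_sq_mul_sq Finset.univ w (fun j => Ex p (Yj j) - l)
    rw [nrm_sq]
    exact h1.trans (mul_le_mul_of_nonneg_left (mean_cols hl h)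
      (Finset.sum_nonneg (fun _ _ => sq_nonneg _)))
  have hm0 : ∀ j, 0 ≤ Ex p (mij i j) := fun j =>
    Ex_nonneg h.h0 h.le_one (fun E => by unfold mij; split_ifs <;> norm_num)
  have hw := nrm_nonneg w
  have hD := DD_one
  have hB1 : |B| ≤ DD * nrm w := by
    calc |B| ≤ ∑ j, |w j * Ex p (mij i j)| := Finset.abs_sum_le_sum_abs _ _
      _ = ∑ j, |w j| * Ex p (mij i j) := Finset.sum_congr rfl (fun j _ => by
          rw [abs_mul, abs_of_nonneg (hm0 j)])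
      _ ≤ Dm th 1 * (nrm w * nrm (fun j => p (i, j))) := mij_w h.sub th_lt i w
      _ ≤ DD * (nrm w * 1) := by
          have h2 := Yi_nrm_row h i
          have h3 := nrm_nonneg (fun j => p (i, j))
          exact mul_le_mul D1_le (mul_le_mul_of_nonneg_left h2 hw) (mul_nonneg hw h3)
            (by linarith)
      _ = DD * nrm w := by ring
  have hB2 : B ^ 2 ≤ DD ^ 2 * nrm w ^ 2 := by
    rw [← sq_abs B, ← mul_pow]
    exact pow_le_pow_left₀ (abs_nonneg _) hB1 2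
  nlinarith [sq_nonneg (A - B)]

theorem Yi_sq {l X : ℝ} (hl : Real.exp (-l) = l) {p : I × J → ℝ} (h : DX l X p) (i : I)
    (w : J → ℝ) :
    Ex p (fun E => (∑ j, w j * (Yj j (dR i E) - l)) ^ 2) ≤
      10000 * DD ^ 2 * (X + 1) * nrm w ^ 2 := by
  have hG : ∀ E : Finset (I × J), ∑ j, w j * (Yj j E - l) =
      (∑ j ∈ Rm E, w j) - l * ∑ j, w j := by
    intro E
    have h1 := LR_eq w E
    unfold LR at h1
    rw [h1, Finset.mul_sum, ← Finset.sum_sub_distrib]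
    exact Finset.sum_congr rfl (fun j _ => by ring)
  have hz := Ex_zr p i (fun E => (∑ j, w j * (Yj j E - l)) ^ 2)
  have hz1 := Ex_zr p i (fun E => ∑ j, w j * (Yj j E - l))
  have hm := Yi_mean hl h i w
  rw [hz1] at hm
  rw [hz]
  set q := zr p i with hq
  have hv := Ex_var q (fun E => ∑ j, w j * (Yj j E - l))
  have hl2 := lin2 (h.sub.zr i) th_lt w
  rw [← hq] at hl2
  have e2 : Ex q (fun E => (∑ j, w j * (Yj j E - l) -
      Ex q (fun E => ∑ j, w j * (Yj j E - l))) ^ 2) =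
      Ex q (fun E => ((∑ j ∈ Rm E, w j) - Ex q (fun E => ∑ j ∈ Rm E, w j)) ^ 2) := by
    have e3 : Ex q (fun E => ∑ j, w j * (Yj j E - l)) =
        Ex q (fun E => ∑ j ∈ Rm E, w j) - l * ∑ j, w j := by
      rw [Ex_congr q hG, Ex_sub, Ex_const]
    rw [e3]
    refine Ex_congr q (fun E => ?_)
    rw [hG]
    ring
  rw [e2] at hv
  have hn := nrm_sq w
  rw [← hn] at hl2
  have hD := DD_one
  have hD2 := D2_le
  have hX := h.X0
  have hN : 0 ≤ nrm w ^ 2 := sq_nonneg _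
  have h5 : Dm th 2 * nrm w ^ 2 ≤ DD * nrm w ^ 2 := mul_le_mul_of_nonneg_right hD2 hN
  have h6 : DD + (10000 * X + 2 * DD ^ 2) ≤ 10000 * DD ^ 2 * (X + 1) := by
    have h7 : 1 ≤ DD ^ 2 := one_le_pow₀ hD
    have h8 : X ≤ DD ^ 2 * X := le_mul_of_one_le_left hX h7
    nlinarith
  have h7 := mul_le_mul_of_nonneg_right h6 hN
  linarith

end Pool.JN2
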