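import Pool.Agent.JN2.Lc
import Pool.Agent.JN2.Yi

/-! Module Rc (difficulty 2-3). Concentration of the number of missable bulk columns (text (3.3)).

n = card I ≥ 1, k = |I0| + |J0|.
PROOF. |Rm E| - l n = sum_j (Yj j E - l) =: Z (card J = card I). Ex Z^2 = Var + (Ex Z)^2 ≤ Dm th 2 n (lin2 with d = 1) + n * sum_j (Ex Yj - l)^2 (Cauchy-Schwarz) ≤ n (DD + 5000 X) (mean_cols).
   Ex |Z| ≤ sqrt(Ex Z^2) ≤ sqrt n * sqrt(DD + 5000 X).
 | |Rb| - |Rm E| | ≤ |Rb \ Rm E| + |Rm E \ Rb|. Rb = Rm (del I0 J0 E) \ J0 ⊆ Rm (del I0 ∅ E) (Rm_del_sub) so Rb \ Rm E ⊆ Rm (del I0 ∅ E) \ Rm (del ∅ ∅ E): Ex ≤ Dm th 1 |I0| (lost_cols).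
   Rm E ⊆ Rm (del I0 ∅ E), so Rm E \ Rb ⊆ J0 ∪ (Rm (del I0 ∅ E) \ Rm (del I0 J0 E)): Ex ≤ |J0| + Dm th 1 |J0| (gain_cols). Total ≤ k (DD + 1).
 Sum ≤ sqrt n (sqrt(DD+5000X) + k (DD+1)) ≤ (k+1) CT X sqrt n, CT X = 10000 DD (X+1), sqrt(DD + 5000 X) ≤ DD + 5000 (X+1).
 Lb: the same for pt p (DX.tr; Lb I0 J0 E = Rb J0 I0 (tr E): tr_del, Rm_tr).
-/

namespace Pool.JN2

open Finset Pool.KS Pool.JN

set_option linter.unusedSectionVars false

variable {I J : Type*} [Fintype I] [Fintype J] [DecidableEq I] [DecidableEq J]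

theorem Rc_sum (E : Finset (I × J)) : ((Rm E).card : ℝ) = ∑ j, Yj j E := by
  unfold Yj
  rw [Finset.sum_boole]
  congr 2
  ext j
  simp

theorem Rc_del0 (E : Finset (I × J)) : del (∅ : Finset I) (∅ : Finset J) E = E := by
  ext e
  simp [mem_del]

theorem Rc_sq {l X : ℝ} (hl : Real.exp (-l) = l) {p : I × J → ℝ} (h : DX l X p) :
    Ex p (fun E => (((Rm E).card : ℝ) - l * Fintype.card I) ^ 2) ≤
      (Fintype.card I : ℝ) * (DD + 5000 * X) := by
  set n : ℝ := (Fintype.card I : ℝ) with hn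
  have hJ : (Fintype.card J : ℝ) = n := by rw [hn, h.card]
  have h1 := Ex_var p (fun E => ((Rm E).card : ℝ) - l * n)
  have h2 : Ex p (fun E => ((((Rm E).card : ℝ) - l * n) - Ex p (fun E => ((Rm E).card : ℝ) - l * n)) ^ 2) ≤
      DD * n := by
    have h3 := lin2 h.sub th_lt (fun _ : J => (1 : ℝ))
    have h4 : ∑ _j : J, (1 : ℝ) ^ 2 = n := by simp [hJ]
    rw [h4] at h3
    have h5 : Ex p (fun E => ((((Rm E).card : ℝ) - l * n) -
        Ex p (fun E => ((Rm E).card : ℝ) - l * n)) ^ 2) =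
        Ex p (fun E => ((∑ j ∈ Rm E, (1 : ℝ)) - Ex p (fun E => ∑ j ∈ Rm E, (1 : ℝ))) ^ 2) := by
      refine Ex_congr p (fun E => ?_)
      rw [Ex_sub, Ex_const]
      have h6 : ∀ E : Finset (I × J), ∑ j ∈ Rm E, (1 : ℝ) = ((Rm E).card : ℝ) := fun E => by simp
      simp only [h6]
      ring
    rw [h5]
    refine h3.trans (mul_le_mul_of_nonneg_right D2_le (by positivity))
  have h7 : Ex p (fun E => ((Rm E).card : ℝ) - l * n) = ∑ j, (Ex p (Yj j) - l) := by
    rw [Finset.sum_sub_distrib, ← Ex_sum]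
    rw [Ex_sub, Ex_const]
    congr 1
    · exact Ex_congr p (fun E => Rc_sum E)
    · simp [hJ, mul_comm]
  have h8 : (Ex p (fun E => ((Rm E).card : ℝ) - l * n)) ^ 2 ≤ n * (5000 * X) := by
    rw [h7]
    have h9 := sq_sum_le_card_mul_sum_sq (s := (univ : Finset J)) (f := fun j => Ex p (Yj j) - l)
    rw [Finset.card_univ, hJ] at h9
    refine h9.trans (mul_le_mul_of_nonneg_left (mean_cols hl h) (by positivity))
  linarith

theorem Rc_abs {l X : ℝ} (hl : Real.exp (-l) = l) {p : I × J → ℝ} (h : DX l X p) :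
    Ex p (fun E => |((Rm E).card : ℝ) - l * Fintype.card I|) ≤
      CT X * Real.sqrt (Fintype.card I) := by
  have h1 := Ex_cs_sqrt h.h0 h.le_one (fun E => |((Rm E).card : ℝ) - l * Fintype.card I|) (fun _ => 1)
  simp only [mul_one, one_pow, Ex_const, Real.sqrt_one, sq_abs] at h1
  refine h1.trans ?_
  have hD := DD_one
  have hX := h.X0
  have h2 : Real.sqrt (Ex p (fun E => (((Rm E).card : ℝ) - l * Fintype.card I) ^ 2)) ≤
      Real.sqrt ((Fintype.card I : ℝ) * (DD + 5000 * X)) := Real.sqrt_le_sqrt (Rc_sq hl h)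
  refine h2.trans ?_
  rw [Real.sqrt_mul (by positivity), mul_comm]
  refine mul_le_mul_of_nonneg_right ?_ (Real.sqrt_nonneg _)
  rw [Real.sqrt_le_left (by unfold CT; positivity)]
  have h3 : DD + 5000 * X ≤ CT X := by unfold CT; nlinarith
  have h4 : 1 ≤ CT X := by unfold CT; nlinarith
  nlinarith

theorem Rc_card {κ : Type*} [DecidableEq κ] (A B : Finset κ) (c : ℝ) :
    |(A.card : ℝ) - c| ≤ |(B.card : ℝ) - c| + ((A \ B).card : ℝ) + ((B \ A).card : ℝ) := by
  have h1 : (A.card : ℝ) = (A \ B).card + (A ∩ B).card := by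
    exact_mod_cast (Finset.card_sdiff_add_card_inter A B).symm
  have h2 : (B.card : ℝ) = (B \ A).card + (B ∩ A).card := by
    exact_mod_cast (Finset.card_sdiff_add_card_inter B A).symm
  rw [Finset.inter_comm] at h2
  have h3 : (A.card : ℝ) - c = ((B.card : ℝ) - c) + (((A \ B).card : ℝ) - ((B \ A).card : ℝ)) := by
    linarith
  rw [h3]
  refine (abs_add_le _ _).trans ?_
  have h4 : |((A \ B).card : ℝ) - ((B \ A).card : ℝ)| ≤ ((A \ B).card : ℝ) + ((B \ A).card : ℝ) := by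
    rw [abs_le]
    have := Nat.cast_nonneg (α := ℝ) (A \ B).card
    have := Nat.cast_nonneg (α := ℝ) (B \ A).card
    constructor <;> linarith
  linarith

theorem Rb_conc {l X : ℝ} (hl : Real.exp (-l) = l) {p : I × J → ℝ} (h : DX l X p)
    (hn : 1 ≤ Fintype.card I) (I0 : Finset I) (J0 : Finset J) :
    Ex p (fun E => |((Rb I0 J0 E).card : ℝ) - l * Fintype.card I|) ≤
      ((I0.card : ℝ) + J0.card + 1) * CT X * Real.sqrt (Fintype.card I) := by
  have h1 : Ex p (fun E => |((Rb I0 J0 E).card : ℝ) - l * Fintype.card I|) ≤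
      Ex p (fun E => |((Rm E).card : ℝ) - l * Fintype.card I| +
        (((Rm (del I0 ∅ E) \ Rm (del ∅ ∅ E)).card : ℝ)) +
        ((J0.card : ℝ) + ((Rm (del I0 ∅ E) \ Rm (del I0 J0 E)).card : ℝ))) := by
    refine Ex_mono h.h0 h.le_one (fun E => ?_)
    refine (Rc_card (Rb I0 J0 E) (Rm E) _).trans ?_
    have h2 : ((Rb I0 J0 E \ Rm E).card : ℝ) ≤ ((Rm (del I0 ∅ E) \ Rm (del ∅ ∅ E)).card : ℝ) := by
      rw [Rc_del0]
      exact_mod_cast Finset.card_le_card
        (Finset.sdiff_subset_sdiff (Rm_del_sub I0 (Finset.empty_subset J0) E) (Finset.Subset.refl _))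
    have h3 : ((Rm E \ Rb I0 J0 E).card : ℝ) ≤
        (J0.card : ℝ) + ((Rm (del I0 ∅ E) \ Rm (del I0 J0 E)).card : ℝ) := by
      have h4 : Rm E \ Rb I0 J0 E ⊆ J0 ∪ (Rm (del I0 ∅ E) \ Rm (del I0 J0 E)) := by
        intro j hj
        rw [Finset.mem_sdiff] at hj
        rw [Finset.mem_union, Finset.mem_sdiff]
        by_cases hjJ : j ∈ J0
        · exact Or.inl hjJ
        · refine Or.inr ⟨?_, fun hc => hj.2 ?_⟩
          · have h5 := Rm_del_rows (Finset.empty_subset I0) (∅ : Finset J) E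
            rw [Rc_del0] at h5
            exact h5 hj.1
          · unfold Rb
            exact Finset.mem_sdiff.2 ⟨hc, hjJ⟩
      have h6 := (Finset.card_le_card h4).trans (Finset.card_union_le _ _)
      exact_mod_cast h6
    linarith
  rw [Ex_add, Ex_add, Ex_add, Ex_const] at h1
  have h7 := lost_cols h.sub th_lt (Finset.empty_subset I0) (∅ : Finset J)
  have h8 := gain_cols h.sub th_lt I0 (Finset.empty_subset J0)
  rw [Finset.sdiff_empty] at h7 h8
  have h9 := Rc_abs hl h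
  have hD := DD_one
  have hD1 := D1_le
  have hX := h.X0
  have hI0 : (0 : ℝ) ≤ I0.card := Nat.cast_nonneg _
  have hJ0 : (0 : ℝ) ≤ J0.card := Nat.cast_nonneg _
  have hs : 1 ≤ Real.sqrt (Fintype.card I) := by
    rw [Real.one_le_sqrt]
    exact_mod_cast hn
  have hCT : DD + 1 ≤ CT X := by unfold CT; nlinarith
  have h10 : Dm th 1 * (I0.card : ℝ) ≤ CT X * I0.card :=
    mul_le_mul_of_nonneg_right (by linarith) hI0
  have h11 : Dm th 1 * (J0.card : ℝ) + J0.card ≤ CT X * J0.card := by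
    have : Dm th 1 * (J0.card : ℝ) + J0.card = (Dm th 1 + 1) * J0.card := by ring
    rw [this]
    exact mul_le_mul_of_nonneg_right (by linarith) hJ0
  have h12 : CT X * ((I0.card : ℝ) + J0.card) ≤
      CT X * ((I0.card : ℝ) + J0.card) * Real.sqrt (Fintype.card I) := by
    have : 0 ≤ CT X * ((I0.card : ℝ) + J0.card) := by
      apply mul_nonneg
      · linarith
      · linarith
    nlinarith
  have h13 : ((I0.card : ℝ) + J0.card + 1) * CT X * Real.sqrt (Fintype.card I) =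
      CT X * Real.sqrt (Fintype.card I) +
        CT X * ((I0.card : ℝ) + J0.card) * Real.sqrt (Fintype.card I) := by ring
  rw [h13]
  linarith

theorem Rc_Lb (I0 : Finset I) (J0 : Finset J) (E : Finset (I × J)) :
    Rb J0 I0 (tr E) = Lb I0 J0 E := by
  unfold Rb Lb
  rw [← tr_del, Rm_tr]

theorem Lb_conc {l X : ℝ} (hl : Real.exp (-l) = l) {p : I × J → ℝ} (h : DX l X p)
    (hn : 1 ≤ Fintype.card I) (I0 : Finset I) (J0 : Finset J) :
    Ex p (fun E => |((Lb I0 J0 E).card : ℝ) - l * Fintype.card I|) ≤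
      ((I0.card : ℝ) + J0.card + 1) * CT X * Real.sqrt (Fintype.card I) := by
  have hc : Fintype.card J = Fintype.card I := h.card.symm
  have h1 := Rb_conc hl h.tr (by rw [hc]; exact hn) J0 I0
  rw [← Ex_tr, hc, add_comm (J0.card : ℝ)] at h1
  simp only [Rc_Lb] at h1
  exact h1

end Pool.JN2
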