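import Pool.Agent.JN2.Op
import Pool.Agent.JN2.D3

/-! Module Tg (difficulty 3). The target path: the large entries are flattened (text STEP 5).

A DS, entries ≤ 7721/10000, sum A^2 ≤ K, FF A ≤ γ n + Y, 0 < d2 ≤ d1. I0 / J0 = rows / columns with an entry ≥ d1, BB = {e : d1 ≤ A e}, TT = {e : A e < d1 and (d2 ≤ A e or e.1 ∈ I0 or e.2 ∈ J0)}.
 K1 = {i // i ∈ I0}, K2 = {j // j ∈ J0}, b x = if d1 ≤ A (x.1, x.2) then A (x.1, x.2) else 0.  p = opT A (TT ∪ BB), W = opT A TT - opT A (TT ∪ BB).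
PROOF. (1) |I0| d1^2 ≤ K, |J0| d1^2 ≤ K (each such row has sum of squares ≥ d1^2). k := K/d1^2.
 (2) s1 := sT A TT ≤ K/d2 + 2k (entries ≥ d2 on TT: sum A ≤ sum A^2/d2; entries in special rows ≤ |I0|, in special columns ≤ |J0|), s2 := sT A (TT ∪ BB) = s1 + sum_BB A ≤ s1 + k =: s0.
 (3) For e ∉ I0 × J0, i = e.1 ∈ I0, j = e.2 ∉ J0: A e < d1 (otherwise j ∈ J0), so e ∈ TT. rT A TT i = 1 - sum_c b (i,c) =: ρ (all entries of row i which are not in BB are in TT; BB ∩ row i = support of b), rT A (TT ∪ BB) i = 1.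
    cT A TT j = cT A (TT ∪ BB) j =: c j (no entry of BB in column j), sum_j c j ≤ s0. So opT A TT e = (ρ + c j)/(n + s1), opT A (TT ∪ BB) e = (1 + c j)/(n + s2) and
    p e + t W e = (1-t)(1 + c j)/(n+s2) + t (ρ + c j)/(n+s1): ≤ 2/n, and sum_j |. - (1 - t sum b)/n| ≤ sum_j (c j/n + (s1+s2)/n^2) ≤ 3 s0/n  (1 - t + t ρ = 1 - t sum b).  Same for columns.
 (4) block e ∈ I0 × J0: if A e ≥ d1: opT A TT e = (A e + (r+c)/n)/(1+s1/n), |. - A e| ≤ (2 + s1)/n; opT A (TT ∪ BB) e ≤ 2/n; if A e < d1: e ∈ TT, both ≤ 2/n. So |p + tW - t b| ≤ (4 + s0)/n, |W - b| ≤ (4 + s0)/n.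
 (5) e ∉ I0, e ∉ J0 side (bulk): A e < d1; r, c the same for TT and TT ∪ BB; W e = (A' e + (r+c)/n) (1/(1+s1/n) - 1/(1+s2/n)), |W e| ≤ (A e + 2/n) (s2 - s1)/n: sum of squares ≤ (s0/n)^2 * (2 K + 8) ≤ C/n.
    special rows outside the block: |W e| = |(ρ+c j)/(n+s1) - (1+c j)/(n+s2)| ≤ 2/n * ... ≤ (2 + 2 s0)/n: sum over k n entries of squares ≤ C/n. Same for columns.
 (6) DS p + tW: DS.mix-type convexity of opT A TT, opT A (TT ∪ BB) (opT_DS); entries ≤ 7721/10000 + 2/n ≤ th for n ≥ 20000 (opT_le); FF (p + tW) ≤ FF A + sum |p + tW - A| ≤ γ n + Y + 4 (s1 + s2) ≤ γ n + Y + 8 s0 (FF_lip, opT_l1, convexity).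
 wr, wc: both are DS. dis: Fin 1 trivial. wo: the union over Fin 1 is I0 ×ˢ J0 = univ.map (emb ..).
-/

namespace Pool.JN2

open Finset Pool.KS Pool.JN

set_option linter.unusedSectionVars false

variable {I J : Type*} [Fintype I] [Fintype J] [DecidableEq I] [DecidableEq J]

noncomputable def tI (A : I × J → ℝ) (d : ℝ) : Finset I := univ.filter (fun i => ∃ j, d ≤ A (i, j))

noncomputable def tJ (A : I × J → ℝ) (d : ℝ) : Finset J := univ.filter (fun j => ∃ i, d ≤ A (i, j))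

noncomputable def tB (A : I × J → ℝ) (d : ℝ) : Finset (I × J) := univ.filter (fun e => d ≤ A e)

open Classical in
noncomputable def tT (A : I × J → ℝ) (d1 d2 : ℝ) : Finset (I × J) :=
  univ.filter (fun e => A e < d1 ∧ (d2 ≤ A e ∨ e.1 ∈ tI A d1 ∨ e.2 ∈ tJ A d1))

open Classical in
noncomputable def tb (A : I × J → ℝ) (d : ℝ) : {i // i ∈ tI A d} × {j // j ∈ tJ A d} → ℝ :=
  fun x => if d ≤ A (x.1.1, x.2.1) then A (x.1.1, x.2.1) else 0

theorem tg_mem_I {A : I × J → ℝ} {d : ℝ} {i : I} : i ∈ tI A d ↔ ∃ j, d ≤ A (i, j) := by simp [tI]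

theorem tg_mem_J {A : I × J → ℝ} {d : ℝ} {j : J} : j ∈ tJ A d ↔ ∃ i, d ≤ A (i, j) := by simp [tJ]

theorem tg_mem_B {A : I × J → ℝ} {d : ℝ} {e : I × J} : e ∈ tB A d ↔ d ≤ A e := by simp [tB]

theorem tg_mem_T {A : I × J → ℝ} {d1 d2 : ℝ} {e : I × J} :
    e ∈ tT A d1 d2 ↔ A e < d1 ∧ (d2 ≤ A e ∨ e.1 ∈ tI A d1 ∨ e.2 ∈ tJ A d1) := by simp [tT]

theorem tg_rowsum {A : I × J → ℝ} (hA : DS A) (s : Finset I) :
    ∑ e : I × J, (if e.1 ∈ s then A e else 0) = (s.card : ℝ) := by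
  rw [Fintype.sum_prod_type]
  have h : ∀ i : I, ∑ j : J, (if i ∈ s then A (i, j) else 0) = if i ∈ s then (1 : ℝ) else 0 := by
    intro i
    split_ifs
    · exact hA.hr i
    · exact Finset.sum_const_zero
  rw [Finset.sum_congr rfl (fun i _ => h i), Finset.sum_ite_mem, Finset.univ_inter, Finset.sum_const,
    nsmul_eq_mul, mul_one]

theorem tg_colsum {A : I × J → ℝ} (hA : DS A) (s : Finset J) :
    ∑ e : I × J, (if e.2 ∈ s then A e else 0) = (s.card : ℝ) := by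
  rw [Fintype.sum_prod_type_right]
  have h : ∀ j : J, ∑ i : I, (if j ∈ s then A (i, j) else 0) = if j ∈ s then (1 : ℝ) else 0 := by
    intro j
    split_ifs
    · exact hA.hc j
    · exact Finset.sum_const_zero
  rw [Finset.sum_congr rfl (fun i _ => h i), Finset.sum_ite_mem, Finset.univ_inter, Finset.sum_const,
    nsmul_eq_mul, mul_one]

theorem card_tI {A : I × J → ℝ} {d K : ℝ} (hd : 0 < d) (hK : ∑ e, A e ^ 2 ≤ K) :
    ((tI A d).card : ℝ) ≤ K / d ^ 2 ∧ ((tJ A d).card : ℝ) ≤ K / d ^ 2 := by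
  constructor
  · rw [le_div_iff₀ (pow_pos hd 2)]
    refine le_trans ?_ hK
    rw [Fintype.sum_prod_type]
    calc ((tI A d).card : ℝ) * d ^ 2 = ∑ _i ∈ tI A d, d ^ 2 := by rw [Finset.sum_const, nsmul_eq_mul]
      _ ≤ ∑ i ∈ tI A d, ∑ j, A (i, j) ^ 2 := by
          refine Finset.sum_le_sum (fun i hi => ?_)
          obtain ⟨j, hj⟩ := tg_mem_I.1 hi
          refine le_trans (pow_le_pow_left₀ hd.le hj 2) ?_
          exact Finset.single_le_sum (f := fun j => A (i, j) ^ 2) (fun j _ => sq_nonneg _) (Finset.mem_univ j)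
      _ ≤ ∑ i, ∑ j, A (i, j) ^ 2 :=
          Finset.sum_le_sum_of_subset_of_nonneg (Finset.subset_univ _)
            (fun i _ _ => Finset.sum_nonneg (fun j _ => sq_nonneg _))
  · rw [le_div_iff₀ (pow_pos hd 2)]
    refine le_trans ?_ hK
    rw [Fintype.sum_prod_type_right]
    calc ((tJ A d).card : ℝ) * d ^ 2 = ∑ _j ∈ tJ A d, d ^ 2 := by rw [Finset.sum_const, nsmul_eq_mul]
      _ ≤ ∑ j ∈ tJ A d, ∑ i, A (i, j) ^ 2 := by
          refine Finset.sum_le_sum (fun j hj => ?_)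
          obtain ⟨i, hi⟩ := tg_mem_J.1 hj
          refine le_trans (pow_le_pow_left₀ hd.le hi 2) ?_
          exact Finset.single_le_sum (f := fun i => A (i, j) ^ 2) (fun i _ => sq_nonneg _) (Finset.mem_univ i)
      _ ≤ ∑ j, ∑ i, A (i, j) ^ 2 :=
          Finset.sum_le_sum_of_subset_of_nonneg (Finset.subset_univ _)
            (fun i _ _ => Finset.sum_nonneg (fun j _ => sq_nonneg _))

theorem sum_tT {A : I × J → ℝ} (hA : DS A) {d1 d2 K : ℝ} (hd2 : 0 < d2) (hd : d2 ≤ d1)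
    (hK : ∑ e, A e ^ 2 ≤ K) : sT A (tT A d1 d2) ≤ K / d2 + 2 * (K / d1 ^ 2) := by
  obtain ⟨c1, c2⟩ := card_tI (lt_of_lt_of_le hd2 hd) hK
  have h1 : sT A (tT A d1 d2) ≤ ∑ e, (A e ^ 2 / d2 + (if e.1 ∈ tI A d1 then A e else 0) +
      (if e.2 ∈ tJ A d1 then A e else 0)) := by
    unfold sT
    refine le_trans (Finset.sum_le_sum (fun e he => ?_))
      (Finset.sum_le_sum_of_subset_of_nonneg (Finset.subset_univ _) (fun e _ _ => ?_))
    · have h0 := hA.h0 e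
      have hq : 0 ≤ A e ^ 2 / d2 := by positivity
      have g1 : 0 ≤ (if e.1 ∈ tI A d1 then A e else 0) := by split_ifs <;> [exact h0; exact le_rfl]
      have g2 : 0 ≤ (if e.2 ∈ tJ A d1 then A e else 0) := by split_ifs <;> [exact h0; exact le_rfl]
      rcases (tg_mem_T.1 he).2 with h | h | h
      · have : A e ≤ A e ^ 2 / d2 := by
          rw [le_div_iff₀ hd2]
          nlinarith
        linarith
      · rw [if_pos h]
        linarith
      · rw [if_pos h]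
        linarith
    · have h0 := hA.h0 e
      have hq : 0 ≤ A e ^ 2 / d2 := by positivity
      have g1 : 0 ≤ (if e.1 ∈ tI A d1 then A e else 0) := by split_ifs <;> [exact h0; exact le_rfl]
      have g2 : 0 ≤ (if e.2 ∈ tJ A d1 then A e else 0) := by split_ifs <;> [exact h0; exact le_rfl]
      linarith
  rw [Finset.sum_add_distrib, Finset.sum_add_distrib, tg_rowsum hA, tg_colsum hA, ← Finset.sum_div] at h1
  have h2 : (∑ e, A e ^ 2) / d2 ≤ K / d2 := div_le_div_of_nonneg_right hK hd2.le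
  linarith

/-- energy of the flattened entries -/
theorem sq_tT {A : I × J → ℝ} (hA : DS A) {d1 d2 K : ℝ} (hd2 : 0 < d2) (hd : d2 ≤ d1)
    (hK : ∑ e, A e ^ 2 ≤ K) :
    ∑ e ∈ tT A d1 d2, A e ^ 2 ≤
      ∑ e ∈ univ.filter (fun e => d2 ≤ A e ∧ A e < d1), A e ^ 2 + 2 * (K / d1 ^ 2) * d2 := by
  obtain ⟨c1, c2⟩ := card_tI (lt_of_lt_of_le hd2 hd) hK
  have h1 : ∑ e ∈ tT A d1 d2, A e ^ 2 ≤ ∑ e, ((if d2 ≤ A e ∧ A e < d1 then A e ^ 2 else 0) +
      d2 * (if e.1 ∈ tI A d1 then A e else 0) + d2 * (if e.2 ∈ tJ A d1 then A e else 0)) := by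
    refine le_trans (Finset.sum_le_sum (fun e he => ?_))
      (Finset.sum_le_sum_of_subset_of_nonneg (Finset.subset_univ _) (fun e _ _ => ?_))
    · have h0 := hA.h0 e
      have g1 : 0 ≤ d2 * (if e.1 ∈ tI A d1 then A e else 0) :=
        mul_nonneg hd2.le (by split_ifs <;> [exact h0; exact le_rfl])
      have g2 : 0 ≤ d2 * (if e.2 ∈ tJ A d1 then A e else 0) :=
        mul_nonneg hd2.le (by split_ifs <;> [exact h0; exact le_rfl])
      obtain ⟨hlt, hor⟩ := tg_mem_T.1 he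
      by_cases hge : d2 ≤ A e
      · rw [if_pos ⟨hge, hlt⟩]
        linarith
      · rw [if_neg (fun hh => hge hh.1)]
        have h3 : A e ^ 2 ≤ d2 * A e := by
          rw [sq]
          exact mul_le_mul_of_nonneg_right (le_of_lt (not_le.1 hge)) h0
        rcases hor with h | h | h
        · exact absurd h hge
        · rw [if_pos h]
          linarith
        · rw [if_pos h]
          linarith
    · have h0 := hA.h0 e
      have hq : 0 ≤ (if d2 ≤ A e ∧ A e < d1 then A e ^ 2 else 0) := by split_ifs <;> positivity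
      have g1 : 0 ≤ d2 * (if e.1 ∈ tI A d1 then A e else 0) :=
        mul_nonneg hd2.le (by split_ifs <;> [exact h0; exact le_rfl])
      have g2 : 0 ≤ d2 * (if e.2 ∈ tJ A d1 then A e else 0) :=
        mul_nonneg hd2.le (by split_ifs <;> [exact h0; exact le_rfl])
      linarith
  rw [Finset.sum_add_distrib, Finset.sum_add_distrib, ← Finset.mul_sum, ← Finset.mul_sum, tg_rowsum hA,
    tg_colsum hA, ← Finset.sum_filter] at h1
  have h2 := mul_le_mul_of_nonneg_left c1 hd2.le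
  have h3 := mul_le_mul_of_nonneg_left c2 hd2.le
  linarith

theorem tg_map {α : Type} [DecidableEq α] (s : Finset α) [Fintype {i // i ∈ s}] :
    (univ : Finset {i // i ∈ s}).map (Function.Embedding.subtype (fun i => i ∈ s)) = s := by
  ext x
  rw [Finset.mem_map]
  constructor
  · rintro ⟨y, -, rfl⟩
    exact y.2
  · intro hx
    exact ⟨⟨x, hx⟩, Finset.mem_univ _, rfl⟩

theorem tg_div {x σ : ℝ} (hx : 0 ≤ x) (hσ : 0 ≤ σ) : x - x * σ ≤ x / (1 + σ) ∧ x / (1 + σ) ≤ x := by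
  refine ⟨?_, div_le_self hx (by linarith)⟩
  rw [le_div_iff₀ (by linarith)]
  nlinarith [mul_nonneg hx (mul_nonneg hσ hσ)]

theorem tg_sT_nonneg {A : I × J → ℝ} (hA : DS A) (T : Finset (I × J)) : 0 ≤ sT A T :=
  Finset.sum_nonneg (fun e _ => hA.h0 e)

theorem tg_sTB {A : I × J → ℝ} (hA : DS A) {d1 d2 K : ℝ} (hd2 : 0 < d2) (hd : d2 ≤ d1)
    (hK : ∑ e, A e ^ 2 ≤ K) : sT A (tT A d1 d2) ≤ sT A (tT A d1 d2 ∪ tB A d1) ∧
      sT A (tT A d1 d2 ∪ tB A d1) ≤ K / d2 + 2 * (K / d1 ^ 2) + K / d1 := by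
  have hd1 : 0 < d1 := lt_of_lt_of_le hd2 hd
  have hdis : Disjoint (tT A d1 d2) (tB A d1) := by
    rw [Finset.disjoint_left]
    intro e h1 h2
    exact absurd (tg_mem_T.1 h1).1 (not_lt.2 (tg_mem_B.1 h2))
  have hB : sT A (tB A d1) ≤ K / d1 := by
    rw [le_div_iff₀ hd1]
    refine le_trans ?_ hK
    unfold sT
    rw [Finset.sum_mul]
    refine le_trans (Finset.sum_le_sum (fun e he => ?_))
      (Finset.sum_le_sum_of_subset_of_nonneg (Finset.subset_univ _) (fun e _ _ => sq_nonneg _))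
    rw [sq]
    exact mul_le_mul_of_nonneg_left (tg_mem_B.1 he) (hA.h0 e)
  have h1 : sT A (tT A d1 d2 ∪ tB A d1) = sT A (tT A d1 d2) + sT A (tB A d1) := by
    unfold sT
    exact Finset.sum_union hdis
  have h2 := sum_tT hA hd2 hd hK
  have h3 := tg_sT_nonneg hA (tB A d1)
  rw [h1]
  constructor <;> linarith

/-- value of the flattening on a flattened entry -/
theorem tg_in {A : I × J → ℝ} (hA : DS A) (hn : 1 ≤ Fintype.card I) {T : Finset (I × J)} {e : I × J}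
    (he : e ∈ T) {s0 : ℝ} (hs : sT A T ≤ s0) :
    |opT A T e - (rT A T e.1 + cT A T e.2) / Fintype.card I| ≤ 2 * s0 / (Fintype.card I : ℝ) ^ 2 := by
  have hn' : (0 : ℝ) < Fintype.card I := by exact_mod_cast hn
  have hr := rT_nonneg hA T e.1
  have hc := cT_nonneg hA T e.2
  have h0 := tg_sT_nonneg hA T
  have hx : 0 ≤ (rT A T e.1 + cT A T e.2) / Fintype.card I := by
    have := hr.1; have := hc.1; positivity
  have hσ : 0 ≤ sT A T / Fintype.card I := by positivity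
  obtain ⟨h1, h2⟩ := tg_div hx hσ
  have h3 : opT A T e = (rT A T e.1 + cT A T e.2) / Fintype.card I / (1 + sT A T / Fintype.card I) := by
    unfold opT
    rw [if_pos he, zero_add]
  rw [h3, abs_sub_comm, abs_of_nonneg (by linarith)]
  have h4 : (rT A T e.1 + cT A T e.2) / Fintype.card I * (sT A T / Fintype.card I) ≤
      2 / Fintype.card I * (s0 / Fintype.card I) := by
    refine mul_le_mul ?_ ?_ hσ (by positivity)
    · exact div_le_div_of_nonneg_right (by linarith [hr.2, hc.2]) hn'.le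
    · exact div_le_div_of_nonneg_right hs hn'.le
  have h5 : 2 / (Fintype.card I : ℝ) * (s0 / Fintype.card I) = 2 * s0 / (Fintype.card I : ℝ) ^ 2 := by
    rw [div_mul_div_comm, sq]
  linarith

/-- value of the flattening on an entry which is kept -/
theorem tg_out {A : I × J → ℝ} (hA : DS A) (hn : 2 ≤ Fintype.card I) {T : Finset (I × J)} {e : I × J}
    (he : e ∉ T) {s0 : ℝ} (hs : sT A T ≤ s0) :
    |opT A T e - A e| ≤ (2 + 2 * s0) / Fintype.card I := by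
  have hn2 : (2 : ℝ) ≤ Fintype.card I := by exact_mod_cast hn
  have hn' : (0 : ℝ) < Fintype.card I := by linarith
  have hr := rT_nonneg hA T e.1
  have hc := cT_nonneg hA T e.2
  have h0 := tg_sT_nonneg hA T
  have hy : 0 ≤ (rT A T e.1 + cT A T e.2) / Fintype.card I := by
    have := hr.1; have := hc.1; positivity
  have hy2 : (rT A T e.1 + cT A T e.2) / Fintype.card I ≤ 2 / Fintype.card I :=
    div_le_div_of_nonneg_right (by linarith [hr.2, hc.2]) hn'.le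
  have hy3 : 2 / (Fintype.card I : ℝ) ≤ 1 := by rw [div_le_one hn']; exact hn2
  have hx : 0 ≤ A e + (rT A T e.1 + cT A T e.2) / Fintype.card I := by
    have := hA.h0 e; linarith
  have hσ : 0 ≤ sT A T / Fintype.card I := by positivity
  obtain ⟨h1, h2⟩ := tg_div hx hσ
  have h3 : opT A T e = (A e + (rT A T e.1 + cT A T e.2) / Fintype.card I) / (1 + sT A T / Fintype.card I) := by
    unfold opT
    rw [if_neg he]
  have h6 := hA.le_one e
  have h4 : (A e + (rT A T e.1 + cT A T e.2) / Fintype.card I) * (sT A T / Fintype.card I) ≤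
      2 * (s0 / Fintype.card I) := by
    refine mul_le_mul (by linarith) ?_ hσ (by norm_num)
    exact div_le_div_of_nonneg_right hs hn'.le
  have h5 : (2 + 2 * s0) / (Fintype.card I : ℝ) = 2 / Fintype.card I + 2 * (s0 / Fintype.card I) := by ring
  rw [h3, h5, abs_le]
  constructor
  · linarith
  · have : 0 ≤ 2 * (s0 / (Fintype.card I : ℝ)) := by
      have : 0 ≤ s0 := h0.trans hs
      positivity
    linarith

theorem tg_rTB {A : I × J → ℝ} (hA : DS A) {d1 d2 : ℝ} {i : I} (hi : i ∈ tI A d1) :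
    rT A (tT A d1 d2 ∪ tB A d1) i = 1 := by
  unfold rT
  rw [← hA.hr i]
  refine Finset.sum_congr rfl (fun j _ => ?_)
  rw [if_pos]
  rw [Finset.mem_union, tg_mem_T, tg_mem_B]
  rcases lt_or_ge (A (i, j)) d1 with h | h
  · exact Or.inl ⟨h, Or.inr (Or.inl hi)⟩
  · exact Or.inr h

theorem tg_cTB {A : I × J → ℝ} (hA : DS A) {d1 d2 : ℝ} {j : J} (hj : j ∈ tJ A d1) :
    cT A (tT A d1 d2 ∪ tB A d1) j = 1 := by
  unfold cT
  rw [← hA.hc j]
  refine Finset.sum_congr rfl (fun i _ => ?_)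
  rw [if_pos]
  rw [Finset.mem_union, tg_mem_T, tg_mem_B]
  rcases lt_or_ge (A (i, j)) d1 with h | h
  · exact Or.inl ⟨h, Or.inr (Or.inr hj)⟩
  · exact Or.inr h

theorem tg_rT_eq {A : I × J → ℝ} {d1 d2 : ℝ} {i : I} (hi : i ∉ tI A d1) :
    rT A (tT A d1 d2 ∪ tB A d1) i = rT A (tT A d1 d2) i := by
  unfold rT
  refine Finset.sum_congr rfl (fun j _ => ?_)
  have h : (i, j) ∉ tB A d1 := fun h => hi (tg_mem_I.2 ⟨j, tg_mem_B.1 h⟩)
  simp only [Finset.mem_union, h, or_false]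

theorem tg_cT_eq {A : I × J → ℝ} {d1 d2 : ℝ} {j : J} (hj : j ∉ tJ A d1) :
    cT A (tT A d1 d2 ∪ tB A d1) j = cT A (tT A d1 d2) j := by
  unfold cT
  refine Finset.sum_congr rfl (fun i _ => ?_)
  have h : (i, j) ∉ tB A d1 := fun h => hj (tg_mem_J.2 ⟨i, tg_mem_B.1 h⟩)
  simp only [Finset.mem_union, h, or_false]

theorem tg_tb_row {A : I × J → ℝ} {d1 : ℝ} (a : {i // i ∈ tI A d1}) :
    ∑ c : {j // j ∈ tJ A d1}, tb A d1 (a, c) = ∑ j, (if d1 ≤ A (a.1, j) then A (a.1, j) else 0) := by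
  unfold tb
  rw [← Finset.sum_subtype (tJ A d1) (fun x => Iff.rfl)
    (fun j => if d1 ≤ A (a.1, j) then A (a.1, j) else 0)]
  refine Finset.sum_subset (Finset.subset_univ _) (fun j _ hj => ?_)
  rw [if_neg]
  exact fun h => hj (tg_mem_J.2 ⟨_, h⟩)

theorem tg_tb_col {A : I × J → ℝ} {d1 : ℝ} (c : {j // j ∈ tJ A d1}) :
    ∑ a : {i // i ∈ tI A d1}, tb A d1 (a, c) = ∑ i, (if d1 ≤ A (i, c.1) then A (i, c.1) else 0) := by
  unfold tb
  rw [← Finset.sum_subtype (tI A d1) (fun x => Iff.rfl)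
    (fun i => if d1 ≤ A (i, c.1) then A (i, c.1) else 0)]
  refine Finset.sum_subset (Finset.subset_univ _) (fun i _ hi => ?_)
  rw [if_neg]
  exact fun h => hi (tg_mem_I.2 ⟨_, h⟩)

theorem tg_rT {A : I × J → ℝ} (hA : DS A) {d1 d2 : ℝ} (a : {i // i ∈ tI A d1}) :
    rT A (tT A d1 d2) a.1 = 1 - ∑ c : {j // j ∈ tJ A d1}, tb A d1 (a, c) := by
  rw [tg_tb_row, ← hA.hr a.1, ← Finset.sum_sub_distrib]
  unfold rT
  refine Finset.sum_congr rfl (fun j _ => ?_)
  rcases lt_or_ge (A (a.1, j)) d1 with h | h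
  · rw [if_pos (tg_mem_T.2 ⟨h, Or.inr (Or.inl a.2)⟩), if_neg (not_le.2 h), sub_zero]
  · rw [if_neg (fun hh => absurd (tg_mem_T.1 hh).1 (not_lt.2 h)), if_pos h, sub_self]

theorem tg_cT {A : I × J → ℝ} (hA : DS A) {d1 d2 : ℝ} (c : {j // j ∈ tJ A d1}) :
    cT A (tT A d1 d2) c.1 = 1 - ∑ a : {i // i ∈ tI A d1}, tb A d1 (a, c) := by
  rw [tg_tb_col, ← hA.hc c.1, ← Finset.sum_sub_distrib]
  unfold cT
  refine Finset.sum_congr rfl (fun i _ => ?_)
  rcases lt_or_ge (A (i, c.1)) d1 with h | h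
  · rw [if_pos (tg_mem_T.2 ⟨h, Or.inr (Or.inr c.2)⟩), if_neg (not_le.2 h), sub_zero]
  · rw [if_neg (fun hh => absurd (tg_mem_T.1 hh).1 (not_lt.2 h)), if_pos h, sub_self]

theorem tg_tb0 {A : I × J → ℝ} (hA : DS A) (d1 : ℝ) (x : {i // i ∈ tI A d1} × {j // j ∈ tJ A d1}) :
    0 ≤ tb A d1 x := by
  unfold tb
  split_ifs
  · exact hA.h0 _
  · exact le_rfl

/-- a point of the segment -/
noncomputable def tgP (A : I × J → ℝ) (d1 d2 t : ℝ) (e : I × J) : ℝ :=
  opT A (tT A d1 d2 ∪ tB A d1) e + t * (opT A (tT A d1 d2) e - opT A (tT A d1 d2 ∪ tB A d1) e)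

theorem tgP_eq (A : I × J → ℝ) (d1 d2 t : ℝ) (e : I × J) :
    tgP A d1 d2 t e = (1 - t) * opT A (tT A d1 d2 ∪ tB A d1) e + t * opT A (tT A d1 d2) e := by
  unfold tgP
  ring

theorem tgP_DS {A : I × J → ℝ} (hA : DS A) (hn : 1 ≤ Fintype.card I) {d1 d2 t : ℝ} (t0 : 0 ≤ t) (t1 : t ≤ 1) :
    DS (tgP A d1 d2 t) := by
  have h1 := opT_DS hA hn (tT A d1 d2 ∪ tB A d1)
  have h2 := opT_DS hA hn (tT A d1 d2)
  refine ⟨hA.card, fun e => ?_, fun i => ?_, fun j => ?_⟩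
  · rw [tgP_eq]
    have := h1.h0 e
    have := h2.h0 e
    have : 0 ≤ 1 - t := by linarith
    positivity
  · simp only [tgP_eq]
    rw [Finset.sum_add_distrib, ← Finset.mul_sum, ← Finset.mul_sum, h1.hr, h2.hr]
    ring
  · simp only [tgP_eq]
    rw [Finset.sum_add_distrib, ← Finset.mul_sum, ← Finset.mul_sum, h1.hc, h2.hc]
    ring

/-- convex combination of two bounds -/
theorem tg_conv {x y a b c t : ℝ} (t0 : 0 ≤ t) (t1 : t ≤ 1) (h1 : |x - a| ≤ c) (h2 : |y - b| ≤ c) :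
    |((1 - t) * x + t * y) - ((1 - t) * a + t * b)| ≤ c := by
  obtain ⟨h3, h4⟩ := abs_le.1 h1
  obtain ⟨h5, h6⟩ := abs_le.1 h2
  have h7 : 0 ≤ 1 - t := by linarith
  rw [abs_le]
  constructor <;> nlinarith

theorem tgP_l1 {A : I × J → ℝ} (hA : DS A) (hn : 1 ≤ Fintype.card I) {d1 d2 t s0 : ℝ} (t0 : 0 ≤ t) (t1 : t ≤ 1)
    (hs1 : sT A (tT A d1 d2) ≤ s0) (hs2 : sT A (tT A d1 d2 ∪ tB A d1) ≤ s0) :
    ∑ e, |tgP A d1 d2 t e - A e| ≤ 4 * s0 := by
  have h1 := opT_l1 hA hn (tT A d1 d2 ∪ tB A d1)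
  have h2 := opT_l1 hA hn (tT A d1 d2)
  have h3 : ∑ e, |tgP A d1 d2 t e - A e| ≤ ∑ e, ((1 - t) * |opT A (tT A d1 d2 ∪ tB A d1) e - A e| +
      t * |opT A (tT A d1 d2) e - A e|) := by
    refine Finset.sum_le_sum (fun e _ => ?_)
    rw [tgP_eq]
    have e1 : (1 - t) * opT A (tT A d1 d2 ∪ tB A d1) e + t * opT A (tT A d1 d2) e - A e =
      (1 - t) * (opT A (tT A d1 d2 ∪ tB A d1) e - A e) + t * (opT A (tT A d1 d2) e - A e) := by ring
    rw [e1]
    refine (abs_add_le _ _).trans (le_of_eq ?_)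
    rw [abs_mul, abs_mul, abs_of_nonneg (show 0 ≤ 1 - t by linarith), abs_of_nonneg t0]
  rw [Finset.sum_add_distrib, ← Finset.mul_sum, ← Finset.mul_sum] at h3
  have h4 : (1 - t) * ∑ e, |opT A (tT A d1 d2 ∪ tB A d1) e - A e| ≤ (1 - t) * (4 * s0) :=
    mul_le_mul_of_nonneg_left (by linarith) (by linarith)
  have h5 : t * ∑ e, |opT A (tT A d1 d2) e - A e| ≤ t * (4 * s0) :=
    mul_le_mul_of_nonneg_left (by linarith) t0
  nlinarith

/-- entries of special rows and columns outside the block -/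
theorem tgP_spec {A : I × J → ℝ} (hA : DS A) (hn : 1 ≤ Fintype.card I) {d1 d2 t : ℝ} (t0 : 0 ≤ t) (t1 : t ≤ 1)
    {e : I × J} (he : e ∈ tT A d1 d2) : tgP A d1 d2 t e ≤ 2 / Fintype.card I := by
  have h1 := opT_le_in hA hn (tT A d1 d2 ∪ tB A d1) (Finset.mem_union_left _ he)
  have h2 := opT_le_in hA hn (tT A d1 d2) he
  rw [tgP_eq]
  have h3 : 0 ≤ 1 - t := by linarith
  nlinarith

theorem tgP_row {A : I × J → ℝ} (hA : DS A) (hn : 1 ≤ Fintype.card I) {d1 d2 t s0 : ℝ} (t0 : 0 ≤ t) (t1 : t ≤ 1)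
    (hs1 : sT A (tT A d1 d2) ≤ s0) (hs2 : sT A (tT A d1 d2 ∪ tB A d1) ≤ s0) (a : {i // i ∈ tI A d1}) :
    ∑ j ∈ univ \ tJ A d1, |tgP A d1 d2 t (a.1, j) -
      (1 - ∑ c : {j // j ∈ tJ A d1}, t * tb A d1 (a, c)) / Fintype.card I| ≤ 3 * s0 / Fintype.card I := by
  have hn' : (0 : ℝ) < Fintype.card I := by exact_mod_cast hn
  have hs0 : 0 ≤ s0 := (tg_sT_nonneg hA _).trans hs1
  have h1 : ∀ j ∈ univ \ tJ A d1, |tgP A d1 d2 t (a.1, j) -
      (1 - ∑ c : {j // j ∈ tJ A d1}, t * tb A d1 (a, c)) / Fintype.card I| ≤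
      cT A (tT A d1 d2) j / Fintype.card I + 2 * s0 / (Fintype.card I : ℝ) ^ 2 := by
    intro j hj
    have hj' : j ∉ tJ A d1 := (Finset.mem_sdiff.1 hj).2
    have hlt : A (a.1, j) < d1 := not_le.1 (fun h => hj' (tg_mem_J.2 ⟨_, h⟩))
    have heT : (a.1, j) ∈ tT A d1 d2 := tg_mem_T.2 ⟨hlt, Or.inr (Or.inl a.2)⟩
    have g1 := tg_in hA hn heT hs1
    have g2 := tg_in hA hn (Finset.mem_union_left (tB A d1) heT) hs2
    simp only [tg_rTB hA a.2, tg_cT_eq hj', tg_rT hA a] at g1 g2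
    have hc := (cT_nonneg hA (tT A d1 d2) j).1
    have hcn : 0 ≤ cT A (tT A d1 d2) j / Fintype.card I := by positivity
    rw [tgP_eq]
    have e1 : (1 - ∑ c : {j // j ∈ tJ A d1}, t * tb A d1 (a, c)) / (Fintype.card I : ℝ) =
        (1 - t) * (1 / Fintype.card I) + t * ((1 - ∑ c : {j // j ∈ tJ A d1}, tb A d1 (a, c)) / Fintype.card I) := by
      rw [← Finset.mul_sum]
      ring
    rw [e1]
    refine tg_conv t0 t1 ?_ ?_
    · have e2 : opT A (tT A d1 d2 ∪ tB A d1) (a.1, j) - 1 / (Fintype.card I : ℝ) =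
        (opT A (tT A d1 d2 ∪ tB A d1) (a.1, j) - (1 + cT A (tT A d1 d2) j) / Fintype.card I) +
          cT A (tT A d1 d2) j / Fintype.card I := by ring
      rw [e2]
      refine (abs_add_le _ _).trans ?_
      rw [abs_of_nonneg hcn]
      linarith
    · have e2 : opT A (tT A d1 d2) (a.1, j) - (1 - ∑ c : {j // j ∈ tJ A d1}, tb A d1 (a, c)) / (Fintype.card I : ℝ) =
        (opT A (tT A d1 d2) (a.1, j) - (1 - ∑ c : {j // j ∈ tJ A d1}, tb A d1 (a, c) +
          cT A (tT A d1 d2) j) / Fintype.card I) + cT A (tT A d1 d2) j / Fintype.card I := by ring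
      rw [e2]
      refine (abs_add_le _ _).trans ?_
      rw [abs_of_nonneg hcn]
      linarith
  refine (Finset.sum_le_sum h1).trans ?_
  rw [Finset.sum_add_distrib, ← Finset.sum_div]
  have h2 : ∑ j ∈ univ \ tJ A d1, cT A (tT A d1 d2) j ≤ s0 := by
    refine le_trans (Finset.sum_le_sum_of_subset_of_nonneg (Finset.subset_univ _)
      (fun j _ _ => (cT_nonneg hA _ j).1)) ?_
    rw [sum_cT]
    exact hs1
  have h3 : ∑ _j ∈ univ \ tJ A d1, 2 * s0 / (Fintype.card I : ℝ) ^ 2 ≤ 2 * s0 / Fintype.card I := by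
    rw [Finset.sum_const, nsmul_eq_mul]
    have h4 : ((univ \ tJ A d1).card : ℝ) ≤ Fintype.card I := by
      rw [hA.card]
      exact_mod_cast Finset.card_le_univ _
    calc ((univ \ tJ A d1).card : ℝ) * (2 * s0 / (Fintype.card I : ℝ) ^ 2)
        ≤ (Fintype.card I : ℝ) * (2 * s0 / (Fintype.card I : ℝ) ^ 2) :=
          mul_le_mul_of_nonneg_right h4 (by positivity)
      _ = 2 * s0 / Fintype.card I := by field_simp
  have h5 := div_le_div_of_nonneg_right h2 hn'.le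
  have h6 : 3 * s0 / (Fintype.card I : ℝ) = s0 / Fintype.card I + 2 * s0 / Fintype.card I := by ring
  linarith

theorem tgP_col {A : I × J → ℝ} (hA : DS A) (hn : 1 ≤ Fintype.card I) {d1 d2 t s0 : ℝ} (t0 : 0 ≤ t) (t1 : t ≤ 1)
    (hs1 : sT A (tT A d1 d2) ≤ s0) (hs2 : sT A (tT A d1 d2 ∪ tB A d1) ≤ s0) (c : {j // j ∈ tJ A d1}) :
    ∑ i ∈ univ \ tI A d1, |tgP A d1 d2 t (i, c.1) -
      (1 - ∑ a : {i // i ∈ tI A d1}, t * tb A d1 (a, c)) / Fintype.card I| ≤ 3 * s0 / Fintype.card I := by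
  have hn' : (0 : ℝ) < Fintype.card I := by exact_mod_cast hn
  have hs0 : 0 ≤ s0 := (tg_sT_nonneg hA _).trans hs1
  have h1 : ∀ i ∈ univ \ tI A d1, |tgP A d1 d2 t (i, c.1) -
      (1 - ∑ a : {i // i ∈ tI A d1}, t * tb A d1 (a, c)) / Fintype.card I| ≤
      rT A (tT A d1 d2) i / Fintype.card I + 2 * s0 / (Fintype.card I : ℝ) ^ 2 := by
    intro i hi
    have hi' : i ∉ tI A d1 := (Finset.mem_sdiff.1 hi).2
    have hlt : A (i, c.1) < d1 := not_le.1 (fun h => hi' (tg_mem_I.2 ⟨_, h⟩))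
    have heT : (i, c.1) ∈ tT A d1 d2 := tg_mem_T.2 ⟨hlt, Or.inr (Or.inr c.2)⟩
    have g1 := tg_in hA hn heT hs1
    have g2 := tg_in hA hn (Finset.mem_union_left (tB A d1) heT) hs2
    simp only [tg_cTB hA c.2, tg_rT_eq hi', tg_cT hA c] at g1 g2
    have hc := (rT_nonneg hA (tT A d1 d2) i).1
    have hcn : 0 ≤ rT A (tT A d1 d2) i / Fintype.card I := by positivity
    rw [tgP_eq]
    have e1 : (1 - ∑ a : {i // i ∈ tI A d1}, t * tb A d1 (a, c)) / (Fintype.card I : ℝ) =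
        (1 - t) * (1 / Fintype.card I) + t * ((1 - ∑ a : {i // i ∈ tI A d1}, tb A d1 (a, c)) / Fintype.card I) := by
      rw [← Finset.mul_sum]
      ring
    rw [e1]
    refine tg_conv t0 t1 ?_ ?_
    · have e2 : opT A (tT A d1 d2 ∪ tB A d1) (i, c.1) - 1 / (Fintype.card I : ℝ) =
        (opT A (tT A d1 d2 ∪ tB A d1) (i, c.1) - (rT A (tT A d1 d2) i + 1) / Fintype.card I) +
          rT A (tT A d1 d2) i / Fintype.card I := by ring
      rw [e2]
      refine (abs_add_le _ _).trans ?_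
      rw [abs_of_nonneg hcn]
      linarith
    · have e2 : opT A (tT A d1 d2) (i, c.1) - (1 - ∑ a : {i // i ∈ tI A d1}, tb A d1 (a, c)) / (Fintype.card I : ℝ) =
        (opT A (tT A d1 d2) (i, c.1) - (rT A (tT A d1 d2) i + (1 - ∑ a : {i // i ∈ tI A d1}, tb A d1 (a, c)))
          / Fintype.card I) + rT A (tT A d1 d2) i / Fintype.card I := by ring
      rw [e2]
      refine (abs_add_le _ _).trans ?_
      rw [abs_of_nonneg hcn]
      linarith
  refine (Finset.sum_le_sum h1).trans ?_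
  rw [Finset.sum_add_distrib, ← Finset.sum_div]
  have h2 : ∑ i ∈ univ \ tI A d1, rT A (tT A d1 d2) i ≤ s0 := by
    refine le_trans (Finset.sum_le_sum_of_subset_of_nonneg (Finset.subset_univ _)
      (fun j _ _ => (rT_nonneg hA _ j).1)) ?_
    rw [sum_rT]
    exact hs1
  have h3 : ∑ _i ∈ univ \ tI A d1, 2 * s0 / (Fintype.card I : ℝ) ^ 2 ≤ 2 * s0 / Fintype.card I := by
    rw [Finset.sum_const, nsmul_eq_mul]
    have h4 : ((univ \ tI A d1).card : ℝ) ≤ Fintype.card I := by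
      exact_mod_cast Finset.card_le_univ _
    calc ((univ \ tI A d1).card : ℝ) * (2 * s0 / (Fintype.card I : ℝ) ^ 2)
        ≤ (Fintype.card I : ℝ) * (2 * s0 / (Fintype.card I : ℝ) ^ 2) :=
          mul_le_mul_of_nonneg_right h4 (by positivity)
      _ = 2 * s0 / Fintype.card I := by field_simp
  have h5 := div_le_div_of_nonneg_right h2 hn'.le
  have h6 : 3 * s0 / (Fintype.card I : ℝ) = s0 / Fintype.card I + 2 * s0 / Fintype.card I := by ring
  linarith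

/-- the block -/
theorem tg_blk {A : I × J → ℝ} (hA : DS A) (hn : 2 ≤ Fintype.card I) {d1 d2 s0 : ℝ}
    (hs1 : sT A (tT A d1 d2) ≤ s0) (x : {i // i ∈ tI A d1} × {j // j ∈ tJ A d1}) :
    |opT A (tT A d1 d2 ∪ tB A d1) (x.1.1, x.2.1) - 0| ≤ (2 + 2 * s0) / Fintype.card I ∧
      |opT A (tT A d1 d2) (x.1.1, x.2.1) - tb A d1 x| ≤ (2 + 2 * s0) / Fintype.card I := by
  have hn1 : 1 ≤ Fintype.card I := by omega
  have hn' : (0 : ℝ) < Fintype.card I := by exact_mod_cast hn1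
  have hs0 : 0 ≤ s0 := (tg_sT_nonneg hA _).trans hs1
  have hle : 2 / (Fintype.card I : ℝ) ≤ (2 + 2 * s0) / Fintype.card I :=
    div_le_div_of_nonneg_right (by linarith) hn'.le
  have hU : (x.1.1, x.2.1) ∈ tT A d1 d2 ∪ tB A d1 := by
    rw [Finset.mem_union, tg_mem_T, tg_mem_B]
    rcases lt_or_ge (A (x.1.1, x.2.1)) d1 with h | h
    · exact Or.inl ⟨h, Or.inr (Or.inl x.1.2)⟩
    · exact Or.inr h
  refine ⟨?_, ?_⟩
  · rw [sub_zero, abs_of_nonneg ((opT_DS hA hn1 _).h0 _)]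
    exact (opT_le_in hA hn1 _ hU).trans hle
  · unfold tb
    rcases lt_or_ge (A (x.1.1, x.2.1)) d1 with h | h
    · rw [if_neg (not_le.2 h), sub_zero, abs_of_nonneg ((opT_DS hA hn1 _).h0 _)]
      exact (opT_le_in hA hn1 _ (tg_mem_T.2 ⟨h, Or.inr (Or.inl x.1.2)⟩)).trans hle
    · rw [if_pos h]
      exact tg_out hA hn (fun hh => absurd (tg_mem_T.1 hh).1 (not_lt.2 h)) hs1

/-- the direction outside the block -/
theorem tg_W {A : I × J → ℝ} (hA : DS A) (hn : 1 ≤ Fintype.card I) {d1 d2 s0 : ℝ}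
    (hs12 : sT A (tT A d1 d2) ≤ sT A (tT A d1 d2 ∪ tB A d1))
    (hs2 : sT A (tT A d1 d2 ∪ tB A d1) ≤ s0) {e : I × J} (he : ¬ (e.1 ∈ tI A d1 ∧ e.2 ∈ tJ A d1)) :
    (opT A (tT A d1 d2) e - opT A (tT A d1 d2 ∪ tB A d1) e) ^ 2 ≤
      (if e.1 ∈ tI A d1 then (2 / (Fintype.card I : ℝ)) ^ 2 else 0) +
      (if e.2 ∈ tJ A d1 then (2 / (Fintype.card I : ℝ)) ^ 2 else 0) +
      2 * (A e ^ 2 + (2 / (Fintype.card I : ℝ)) ^ 2) * (s0 / Fintype.card I) ^ 2 := by
  have hn' : (0 : ℝ) < Fintype.card I := by exact_mod_cast hn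
  have h0 := tg_sT_nonneg hA (tT A d1 d2)
  have hs0 : 0 ≤ s0 := (h0.trans hs12).trans hs2
  have hlt : A e < d1 := by
    refine not_le.1 (fun h => he ⟨tg_mem_I.2 ⟨e.2, h⟩, tg_mem_J.2 ⟨e.1, h⟩⟩)
  have hq : 0 ≤ 2 * (A e ^ 2 + (2 / (Fintype.card I : ℝ)) ^ 2) * (s0 / Fintype.card I) ^ 2 := by positivity
  have g1 : 0 ≤ (if e.1 ∈ tI A d1 then (2 / (Fintype.card I : ℝ)) ^ 2 else 0) := by split_ifs <;> positivity
  have g2 : 0 ≤ (if e.2 ∈ tJ A d1 then (2 / (Fintype.card I : ℝ)) ^ 2 else 0) := by split_ifs <;> positivity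
  by_cases hsp : e.1 ∈ tI A d1 ∨ e.2 ∈ tJ A d1
  · have heT : e ∈ tT A d1 d2 := tg_mem_T.2 ⟨hlt, Or.inr hsp⟩
    have u1 := opT_le_in hA hn (tT A d1 d2) heT
    have u2 := opT_le_in hA hn (tT A d1 d2 ∪ tB A d1) (Finset.mem_union_left _ heT)
    have u3 := (opT_DS hA hn (tT A d1 d2)).h0 e
    have u4 := (opT_DS hA hn (tT A d1 d2 ∪ tB A d1)).h0 e
    have h2n : 0 ≤ 2 / (Fintype.card I : ℝ) := by positivity
    have h5 : (opT A (tT A d1 d2) e - opT A (tT A d1 d2 ∪ tB A d1) e) ^ 2 ≤ (2 / (Fintype.card I : ℝ)) ^ 2 := by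
      rw [sq_le_sq, abs_of_nonneg h2n, abs_le]
      constructor <;> linarith
    rcases hsp with h | h
    · rw [if_pos h] at g1 ⊢
      linarith
    · rw [if_pos h] at g2 ⊢
      linarith
  · obtain ⟨hi, hj⟩ := not_or.1 hsp
    have hB : e ∉ tB A d1 := fun h => absurd hlt (not_lt.2 (tg_mem_B.1 h))
    have hr := rT_nonneg hA (tT A d1 d2) e.1
    have hc := cT_nonneg hA (tT A d1 d2) e.2
    obtain ⟨x, hx⟩ : ∃ x : ℝ, x = (if e ∈ tT A d1 d2 then 0 else A e) +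
      (rT A (tT A d1 d2) e.1 + cT A (tT A d1 d2) e.2) / Fintype.card I := ⟨_, rfl⟩
    have w1 : opT A (tT A d1 d2) e = x / (1 + sT A (tT A d1 d2) / Fintype.card I) := by
      unfold opT
      rw [hx]
    have w2 : opT A (tT A d1 d2 ∪ tB A d1) e = x / (1 + sT A (tT A d1 d2 ∪ tB A d1) / Fintype.card I) := by
      unfold opT
      rw [hx, tg_rT_eq hi, tg_cT_eq hj]
      simp only [Finset.mem_union, hB, or_false]
    have hy : 0 ≤ (rT A (tT A d1 d2) e.1 + cT A (tT A d1 d2) e.2) / Fintype.card I := by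
      have := hr.1; have := hc.1; positivity
    have hy2 : (rT A (tT A d1 d2) e.1 + cT A (tT A d1 d2) e.2) / Fintype.card I ≤ 2 / Fintype.card I :=
      div_le_div_of_nonneg_right (by linarith [hr.2, hc.2]) hn'.le
    have h0e := hA.h0 e
    have hx0 : 0 ≤ x := by
      rw [hx]
      split_ifs <;> linarith
    have hx1 : x ≤ A e + 2 / Fintype.card I := by
      rw [hx]
      split_ifs <;> linarith
    have hσ1 : 0 ≤ sT A (tT A d1 d2) / Fintype.card I := by positivity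
    have hσ2 : sT A (tT A d1 d2) / Fintype.card I ≤ s0 / Fintype.card I :=
      div_le_div_of_nonneg_right (hs12.trans hs2) hn'.le
    have hσ3 : sT A (tT A d1 d2 ∪ tB A d1) / Fintype.card I ≤ s0 / Fintype.card I :=
      div_le_div_of_nonneg_right hs2 hn'.le
    have hσ4 : 0 ≤ sT A (tT A d1 d2 ∪ tB A d1) / Fintype.card I := by
      have := h0.trans hs12
      positivity
    obtain ⟨a1, a2⟩ := tg_div hx0 hσ1
    obtain ⟨a3, a4⟩ := tg_div hx0 hσ4
    have b1 := mul_le_mul_of_nonneg_left hσ2 hx0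
    have b2 := mul_le_mul_of_nonneg_left hσ3 hx0
    have hs0n : 0 ≤ s0 / (Fintype.card I : ℝ) := by positivity
    have hb3 : x * (s0 / Fintype.card I) ≤ (A e + 2 / Fintype.card I) * (s0 / Fintype.card I) :=
      mul_le_mul_of_nonneg_right hx1 hs0n
    have h6 : (opT A (tT A d1 d2) e - opT A (tT A d1 d2 ∪ tB A d1) e) ^ 2 ≤
        ((A e + 2 / Fintype.card I) * (s0 / Fintype.card I)) ^ 2 := by
      rw [sq_le_sq, abs_of_nonneg (by positivity : 0 ≤ (A e + 2 / (Fintype.card I : ℝ)) * (s0 / Fintype.card I)),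
        abs_le, w1, w2]
      constructor <;> linarith
    have h7 : ((A e + 2 / (Fintype.card I : ℝ)) * (s0 / Fintype.card I)) ^ 2 ≤
        2 * (A e ^ 2 + (2 / (Fintype.card I : ℝ)) ^ 2) * (s0 / Fintype.card I) ^ 2 := by
      rw [mul_pow]
      refine mul_le_mul_of_nonneg_right ?_ (sq_nonneg _)
      nlinarith [sq_nonneg (A e - 2 / (Fintype.card I : ℝ))]
    linarith

theorem tg_Wsum {A : I × J → ℝ} (hA : DS A) (hn : 1 ≤ Fintype.card I) {d1 d2 s0 K : ℝ} (hd1 : 0 < d1)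
    (hK : ∑ e, A e ^ 2 ≤ K)
    (hs12 : sT A (tT A d1 d2) ≤ sT A (tT A d1 d2 ∪ tB A d1))
    (hs2 : sT A (tT A d1 d2 ∪ tB A d1) ≤ s0) {Z : Finset (I × J)}
    (hZ : ∀ e ∈ Z, ¬ (e.1 ∈ tI A d1 ∧ e.2 ∈ tJ A d1)) :
    ∑ e ∈ Z, (opT A (tT A d1 d2) e - opT A (tT A d1 d2 ∪ tB A d1) e) ^ 2 ≤
      (8 * (K / d1 ^ 2) + 2 * (K + 4) * s0 ^ 2) / Fintype.card I := by
  have hn1 : (1 : ℝ) ≤ Fintype.card I := by exact_mod_cast hn
  have hn' : (0 : ℝ) < Fintype.card I := by linarith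
  obtain ⟨c1, c2⟩ := card_tI hd1 hK
  have hK0 : 0 ≤ K := (Finset.sum_nonneg (fun e _ => sq_nonneg _)).trans hK
  refine (Finset.sum_le_sum (fun e he => tg_W hA hn hs12 hs2 (hZ e he))).trans ?_
  refine (Finset.sum_le_sum_of_subset_of_nonneg (Finset.subset_univ _) (fun e _ _ => ?_)).trans ?_
  · have g1 : 0 ≤ (if e.1 ∈ tI A d1 then (2 / (Fintype.card I : ℝ)) ^ 2 else 0) := by split_ifs <;> positivity
    have g2 : 0 ≤ (if e.2 ∈ tJ A d1 then (2 / (Fintype.card I : ℝ)) ^ 2 else 0) := by split_ifs <;> positivity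
    positivity
  rw [Finset.sum_add_distrib, Finset.sum_add_distrib, ← Finset.sum_mul, ← Finset.mul_sum, Finset.sum_add_distrib]
  have r1 : ∑ e : I × J, (if e.1 ∈ tI A d1 then (2 / (Fintype.card I : ℝ)) ^ 2 else 0) =
      ((tI A d1).card : ℝ) * (4 / (Fintype.card I : ℝ)) := by
    rw [Fintype.sum_prod_type]
    have h : ∀ i : I, ∑ j : J, (if i ∈ tI A d1 then (2 / (Fintype.card I : ℝ)) ^ 2 else 0) =
        if i ∈ tI A d1 then 4 / (Fintype.card I : ℝ) else 0 := by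
      intro i
      rw [Finset.sum_const, nsmul_eq_mul, Finset.card_univ, ← hA.card]
      split_ifs
      · field_simp
        ring
      · rw [mul_zero]
    rw [Finset.sum_congr rfl (fun i _ => h i), Finset.sum_ite_mem, Finset.univ_inter, Finset.sum_const,
      nsmul_eq_mul]
  have r2 : ∑ e : I × J, (if e.2 ∈ tJ A d1 then (2 / (Fintype.card I : ℝ)) ^ 2 else 0) =
      ((tJ A d1).card : ℝ) * (4 / (Fintype.card I : ℝ)) := by
    rw [Fintype.sum_prod_type_right]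
    have h : ∀ j : J, ∑ i : I, (if j ∈ tJ A d1 then (2 / (Fintype.card I : ℝ)) ^ 2 else 0) =
        if j ∈ tJ A d1 then 4 / (Fintype.card I : ℝ) else 0 := by
      intro j
      rw [Finset.sum_const, nsmul_eq_mul, Finset.card_univ]
      split_ifs
      · field_simp
        ring
      · rw [mul_zero]
    rw [Finset.sum_congr rfl (fun i _ => h i), Finset.sum_ite_mem, Finset.univ_inter, Finset.sum_const,
      nsmul_eq_mul]
  have r3 : ∑ _e : I × J, (2 / (Fintype.card I : ℝ)) ^ 2 = 4 := by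
    rw [Finset.sum_const, nsmul_eq_mul, Finset.card_univ, Fintype.card_prod, ← hA.card]
    push_cast
    field_simp
    ring
  rw [r1, r2, r3]
  have k1 : ((tI A d1).card : ℝ) * (4 / Fintype.card I) ≤ K / d1 ^ 2 * (4 / Fintype.card I) :=
    mul_le_mul_of_nonneg_right c1 (by positivity)
  have k2 : ((tJ A d1).card : ℝ) * (4 / Fintype.card I) ≤ K / d1 ^ 2 * (4 / Fintype.card I) :=
    mul_le_mul_of_nonneg_right c2 (by positivity)
  have k3 : (s0 / (Fintype.card I : ℝ)) ^ 2 ≤ s0 ^ 2 / Fintype.card I := by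
    rw [div_pow]
    refine div_le_div_of_nonneg_left (sq_nonneg _) hn' ?_
    nlinarith
  have k4 : 2 * (∑ e, A e ^ 2 + 4) * (s0 / (Fintype.card I : ℝ)) ^ 2 ≤ 2 * (K + 4) * (s0 ^ 2 / Fintype.card I) :=
    mul_le_mul (by linarith) k3 (sq_nonneg _) (by linarith)
  have k5 : (8 * (K / d1 ^ 2) + 2 * (K + 4) * s0 ^ 2) / (Fintype.card I : ℝ) =
      K / d1 ^ 2 * (4 / Fintype.card I) + K / d1 ^ 2 * (4 / Fintype.card I) +
      2 * (K + 4) * (s0 ^ 2 / Fintype.card I) := by ring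
  linarith

/-- the constants -/
noncomputable def tgS (K d1 d2 : ℝ) : ℝ := |K| / d2 + 2 * (|K| / d1 ^ 2) + |K| / d1

noncomputable def tgC (K d1 d2 : ℝ) : ℝ :=
  4 + 4 * tgS K d1 d2 + (8 * (|K| / d1 ^ 2) + 2 * (|K| + 4) * tgS K d1 d2 ^ 2)

theorem target {l : ℝ} (hl : Real.exp (-l) = l) (K d1 d2 Y : ℝ) (hd2 : 0 < d2)
    (hd : d2 ≤ d1) (hY : 0 ≤ Y) : ∃ (C X : ℝ) (N0 : ℕ), 0 ≤ C ∧ 0 ≤ X ∧
    ∀ {I J : Type} [Fintype I] [Fintype J] [DecidableEq I] [DecidableEq J] (A : I × J → ℝ),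
      DS A → (∀ e, A e ≤ 7721 / 10000) → ∑ e, A e ^ 2 ≤ K →
      FF A ≤ (2 * (1 - l) - l ^ 2) * Fintype.card I + Y → N0 ≤ Fintype.card I →
      PathM 1 l X C (fun _ => Function.Embedding.subtype (fun i => i ∈ tI A d1))
        (fun _ => Function.Embedding.subtype (fun j => j ∈ tJ A d1)) (tb A d1)
        (opT A (tT A d1 d2 ∪ tB A d1))
        (fun e => opT A (tT A d1 d2) e - opT A (tT A d1 d2 ∪ tB A d1) e) := by
  have hd1 : 0 < d1 := lt_of_lt_of_le hd2 hd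
  have hS0 : 0 ≤ tgS K d1 d2 := by unfold tgS; positivity
  have hC0 : 0 ≤ tgC K d1 d2 := by unfold tgC; positivity
  refine ⟨tgC K d1 d2, Y + 4 * tgS K d1 d2, 20000, hC0, by positivity, ?_⟩
  intro I J _ _ _ _ A hA hle hK hF hn
  have hn1 : 1 ≤ Fintype.card I := by omega
  have hn2 : 2 ≤ Fintype.card I := by omega
  have hn' : (0 : ℝ) < Fintype.card I := by exact_mod_cast hn1
  have hnr : (20000 : ℝ) ≤ Fintype.card I := by exact_mod_cast hn
  have hK' : ∑ e, A e ^ 2 ≤ |K| := hK.trans (le_abs_self K)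
  obtain ⟨hs12, hs2⟩ := tg_sTB hA hd2 hd hK'
  have hs2 : sT A (tT A d1 d2 ∪ tB A d1) ≤ tgS K d1 d2 := hs2
  have hs1 := hs12.trans hs2
  have hCS : ∀ x : ℝ, x ≤ 4 + 4 * tgS K d1 d2 → x / (Fintype.card I : ℝ) ≤ tgC K d1 d2 / Fintype.card I := by
    intro x hx
    refine div_le_div_of_nonneg_right (hx.trans ?_) hn'.le
    unfold tgC
    have : 0 ≤ 8 * (|K| / d1 ^ 2) + 2 * (|K| + 4) * tgS K d1 d2 ^ 2 := by positivity
    linarith
  have hmI : (univ : Finset {i // i ∈ tI A d1}).map (Function.Embedding.subtype (fun i => i ∈ tI A d1)) =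
    tI A d1 := tg_map _
  have hmJ : (univ : Finset {j // j ∈ tJ A d1}).map (Function.Embedding.subtype (fun j => j ∈ tJ A d1)) =
    tJ A d1 := tg_map _
  have hT := opT_DS hA hn1 (tT A d1 d2)
  have hU := opT_DS hA hn1 (tT A d1 d2 ∪ tB A d1)
  have hbr : ∀ a : {i // i ∈ tI A d1}, ∑ c : {j // j ∈ tJ A d1}, tb A d1 (a, c) ≤ 1 := by
    intro a
    have h1 := tg_rT hA (d2 := d2) a
    have h2 := (rT_nonneg hA (tT A d1 d2) a.1).1
    linarith
  have hbc : ∀ c : {j // j ∈ tJ A d1}, ∑ a : {i // i ∈ tI A d1}, tb A d1 (a, c) ≤ 1 := by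
    intro c
    have h1 := tg_cT hA (d2 := d2) c
    have h2 := (cT_nonneg hA (tT A d1 d2) c.1).1
    linarith
  have hb0 := tg_tb0 hA d1
  refine ⟨fun s t t0 t1 => ?_, fun s s' hss => absurd (Subsingleton.elim s s') hss, fun s x => ?_, ?_,
    fun i => ?_, fun j => ?_⟩
  · have hD := tgP_DS hA hn1 (d1 := d1) (d2 := d2) t0 t1
    refine ⟨⟨hD, fun e => ?_, by positivity, ?_⟩, hC0, fun e => mul_nonneg t0 (hb0 e), fun a => ?_, fun c => ?_,
      fun x => ?_, fun a j hj => ?_, fun a => ?_, fun c i hi => ?_, fun c => ?_⟩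
    · have h1 := opT_le hA hn1 (tT A d1 d2 ∪ tB A d1) e
      have h2 := opT_le hA hn1 (tT A d1 d2) e
      have h3 : 2 / (Fintype.card I : ℝ) ≤ 1 / 10000 := by
        rw [div_le_div_iff₀ hn' (by norm_num)]
        linarith
      have h4 := hle e
      change tgP A d1 d2 t e ≤ th
      rw [tgP_eq]
      unfold th
      have h5 : 0 ≤ 1 - t := by linarith
      nlinarith
    · have h1 := FF_lip hA.h0 hA.le_one hD.h0 hD.le_one
      have h2 := tgP_l1 hA hn1 t0 t1 hs1 hs2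
      have h3 := (abs_le.1 (h1.trans h2)).2
      change FF (tgP A d1 d2 t) ≤ _
      linarith
    · rw [← Finset.mul_sum]
      have h1 := hbr a
      have h2 : 0 ≤ ∑ c : {j // j ∈ tJ A d1}, tb A d1 (a, c) := Finset.sum_nonneg (fun c _ => hb0 _)
      nlinarith
    · rw [← Finset.mul_sum]
      have h1 := hbc c
      have h2 : 0 ≤ ∑ a : {i // i ∈ tI A d1}, tb A d1 (a, c) := Finset.sum_nonneg (fun c _ => hb0 _)
      nlinarith
    · obtain ⟨h1, h2⟩ := tg_blk hA hn2 hs1 x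
      have h3 := tg_conv t0 t1 h1 h2
      change |tgP A d1 d2 t (x.1.1, x.2.1) - t * tb A d1 x| ≤ _
      rw [tgP_eq]
      rw [mul_zero, zero_add] at h3
      exact h3.trans (hCS _ (by linarith))
    · rw [hmJ] at hj
      have hlt : A (a.1, j) < d1 := not_le.1 (fun h => hj (tg_mem_J.2 ⟨_, h⟩))
      have heT : (a.1, j) ∈ tT A d1 d2 := tg_mem_T.2 ⟨hlt, Or.inr (Or.inl a.2)⟩
      exact (tgP_spec hA hn1 t0 t1 heT).trans (hCS _ (by linarith))
    · rw [hmJ]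
      exact (tgP_row hA hn1 t0 t1 hs1 hs2 a).trans (hCS _ (by linarith))
    · rw [hmI] at hi
      have hlt : A (i, c.1) < d1 := not_le.1 (fun h => hi (tg_mem_I.2 ⟨_, h⟩))
      have heT : (i, c.1) ∈ tT A d1 d2 := tg_mem_T.2 ⟨hlt, Or.inr (Or.inr c.2)⟩
      exact (tgP_spec hA hn1 t0 t1 heT).trans (hCS _ (by linarith))
    · rw [hmI]
      exact (tgP_col hA hn1 t0 t1 hs1 hs2 c).trans (hCS _ (by linarith))
  · obtain ⟨h1, h2⟩ := tg_blk hA hn2 hs1 x
    change |opT A (tT A d1 d2) (x.1.1, x.2.1) - opT A (tT A d1 d2 ∪ tB A d1) (x.1.1, x.2.1) - tb A d1 x| ≤ _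
    have h3 : opT A (tT A d1 d2) (x.1.1, x.2.1) - opT A (tT A d1 d2 ∪ tB A d1) (x.1.1, x.2.1) - tb A d1 x =
      (opT A (tT A d1 d2) (x.1.1, x.2.1) - tb A d1 x) - (opT A (tT A d1 d2 ∪ tB A d1) (x.1.1, x.2.1) - 0) := by ring
    rw [h3]
    refine (abs_sub _ _).trans ?_
    have h4 : (2 + 2 * tgS K d1 d2) / (Fintype.card I : ℝ) + (2 + 2 * tgS K d1 d2) / Fintype.card I =
      (4 + 4 * tgS K d1 d2) / Fintype.card I := by ring
    exact (add_le_add h2 h1).trans (h4.le.trans (hCS _ le_rfl))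
  · refine (tg_Wsum hA hn1 hd1 hK' hs12 hs2 (fun e he => ?_)).trans ?_
    · rintro ⟨h1, h2⟩
      refine (Finset.mem_sdiff.1 he).2 ?_
      rw [Finset.mem_biUnion]
      refine ⟨0, Finset.mem_univ _, Finset.mem_map.2 ⟨(⟨e.1, h1⟩, ⟨e.2, h2⟩), Finset.mem_univ _, rfl⟩⟩
    · refine div_le_div_of_nonneg_right ?_ hn'.le
      unfold tgC
      linarith
  · rw [Finset.sum_sub_distrib, hT.hr, hU.hr, sub_self]
  · rw [Finset.sum_sub_distrib, hT.hc, hU.hc, sub_self]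

end Pool.JN2
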