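import Pool.Agent.JN2.D

/-! Module Xy (difficulty 2). Row i against a linear functional of the missable columns (text (1.2)).

PROOF. Let Φ (S) = sum_{j ∈ S} w j - l * sum_j w j, so Φ (Rm E) = sum_j w j (Yj j E - l) (Yj j E = if j ∈ Rm E then 1 else 0). H = dR i E, R = Rm H.
 (a) Xi_eq: Xi i E = av i E R. Phi_Rm: Φ (Rm E) = Φ R + sum_k (av i E (R \ cl H k) - av i E R) (Φ (R \ cl H k) - Φ R). If av i E R = 1 then av i E (R \ cl H k) = 1 (av_mono), so
   av i E R * Φ (Rm E) = av i E R * Φ R. Expectation (Ex_av with G E = Φ (Rm (dR i E)), S E = Rm (dR i E), dR_dR): Ex Xi Φ (Rm E) = Ex (U p i R * Φ R).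
 (b) Ex_Phi1: Ex Φ (Rm E) = Ex (Φ R + sum_c pcl p i H c (Φ (R \ cl H c) - Φ R)) and Φ (R \ cl H c) - Φ R = - sum_{j ∈ cl H c} w j (cl_sub). Ex_omega with om = w:
   Ex sum_c pcl * sum_{cl H c} w = sum_j w j * Ex (mij i j).
 (c) Ex (Xi - l) Φ (Rm E) = Ex U Φ R - l Ex Φ R + l sum_j w j Ex mij.
-/

namespace Pool.JN2

open Finset Pool.KS Pool.JN

set_option linter.unusedSectionVars false

variable {I J : Type*} [Fintype I] [Fintype J] [DecidableEq I] [DecidableEq J]

theorem Xy_pt (i : I) (j : J) (E : Finset (I × J)) :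
    Yj j (dR i E) = Yj j E + mij i j E := by
  unfold Yj mij
  by_cases h1 : j ∈ Rm E
  · have h2 : j ∈ Rm (dR i E) := Rm_sub_dR i E h1
    simp [h1, h2]
  · by_cases h2 : j ∈ Rm (dR i E)
    · simp [h1, h2]
    · simp [h1, h2]

theorem Xy_Rm_eq (i : I) (E : Finset (I × J)) (h : i ∈ Lm E) : Rm E = Rm (dR i E) := by
  rw [mem_Lm_iff] at h
  ext j
  rw [mem_Rm_add (i := i)]
  exact ⟨fun h' => h'.1, fun h' => ⟨h', Or.inl h⟩⟩

theorem Xy_mul (i : I) (w : J → ℝ) (l : ℝ) (E : Finset (I × J)) :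
    Xi i E * ∑ j, w j * (Yj j E - l) =
      (∑ j, w j * (Yj j (dR i E) - l)) * av i E (Rm (dR i E)) := by
  rw [Xi_eq]
  by_cases h : i ∈ Lm E
  · have e := Xy_Rm_eq i E h
    have e2 : ∀ j, Yj j E = Yj j (dR i E) := by
      intro j
      unfold Yj
      rw [← e]
    simp only [e2]
    ring
  · have e : Xi i E = 0 := by
      unfold Xi
      rw [if_neg h]
    rw [← Xi_eq, e]
    ring

theorem Xi_lin (p : I × J → ℝ) (i : I) (w : J → ℝ) (l : ℝ) :
    Ex p (fun E => (Xi i E - l) * ∑ j, w j * (Yj j E - l)) =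
      Ex p (fun E => (U p i (Rm (dR i E)) - l) * ∑ j, w j * (Yj j (dR i E) - l)) +
      l * ∑ j, w j * Ex p (mij i j) := by
  have h1 : Ex p (fun E => (Xi i E - l) * ∑ j, w j * (Yj j E - l)) =
      Ex p (fun E => Xi i E * ∑ j, w j * (Yj j E - l)) -
        Ex p (fun E => l * ∑ j, w j * (Yj j E - l)) := by
    rw [← Ex_sub]
    exact Ex_congr p (fun E => by ring)
  have h2 : Ex p (fun E => (U p i (Rm (dR i E)) - l) * ∑ j, w j * (Yj j (dR i E) - l)) =
      Ex p (fun E => (∑ j, w j * (Yj j (dR i E) - l)) * U p i (Rm (dR i E))) -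
        Ex p (fun E => l * ∑ j, w j * (Yj j (dR i E) - l)) := by
    rw [← Ex_sub]
    exact Ex_congr p (fun E => by ring)
  have h3 : Ex p (fun E => Xi i E * ∑ j, w j * (Yj j E - l)) =
      Ex p (fun E => (∑ j, w j * (Yj j (dR i E) - l)) * U p i (Rm (dR i E))) := by
    rw [← Ex_av p i (fun E => ∑ j, w j * (Yj j (dR i E) - l)) (fun E => Rm (dR i E))
      (fun E => by simp only [dR_dR]) (fun E => by simp only [dR_dR])]
    exact Ex_congr p (fun E => Xy_mul i w l E)
  have h4 : Ex p (fun E => l * ∑ j, w j * (Yj j (dR i E) - l)) =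
      Ex p (fun E => l * ∑ j, w j * (Yj j E - l)) + l * ∑ j, w j * Ex p (mij i j) := by
    have h5 : l * ∑ j, w j * Ex p (mij i j) =
        Ex p (fun E => l * ∑ j, w j * mij i j E) := by
      rw [Ex_mul_left, Ex_sum]
      congr 1
      exact Finset.sum_congr rfl (fun j _ => (Ex_mul_left p (w j) (mij i j)).symm)
    rw [h5, ← Ex_add]
    refine Ex_congr p (fun E => ?_)
    rw [← mul_add, ← Finset.sum_add_distrib]
    congr 1
    refine Finset.sum_congr rfl (fun j _ => ?_)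
    rw [Xy_pt]
    ring
  rw [h1, h2, h3, h4]
  ring

/-- mean of `Yj j` without row `i` -/
theorem Yj_dR (p : I × J → ℝ) (i : I) (j : J) :
    Ex p (fun E => Yj j (dR i E)) = Ex p (Yj j) + Ex p (mij i j) := by
  have h := Ex_add p (Yj j) (mij i j)
  rw [← h]
  exact Ex_congr p (fun E => Xy_pt i j E)

end Pool.JN2
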